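import Mathlib

namespace Pool.Agent.Helper71

open AlgebraicGeometry CategoryTheory MvPolynomial

universe u

attribute [local instance] MvPolynomial.gradedAlgebra

/-- Projective space of dimension `n` over the field `k`: the scheme `Proj k[X_0, ..., X_n]`. -/
noncomputable abbrev PP (k : Type u) [Field k] (n : ℕ) : Scheme.{u} :=
  Proj (homogeneousSubmodule (Fin (n + 1)) k)

/-- The structure morphism of projective space over `k`. -/
noncomputable def PPtoSpec (k : Type u) [Field k] (n : ℕ) : PP k n ⟶ Spec (.of k) :=
  Proj.toSpecZero (homogeneousSubmodule (Fin (n + 1)) k) ≫ Spec.map (CommRingCat.ofHom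
    (algebraMap k (homogeneousSubmodule (Fin (n + 1)) k 0)))

/-- A nice variety of dimension `n` over `k` (with structure morphism `s`): smooth of relative
dimension `n`, geometrically integral and projective. -/
structure IsNice {k : Type u} [Field k] (n : ℕ) {X : Scheme.{u}} (s : X ⟶ Spec (.of k)) :
    Prop where
  smooth : SmoothOfRelativeDimension n s
  geometricallyIntegral : GeometricallyIntegral s
  projective : ∃ (N : ℕ) (i : X ⟶ PP k N), IsClosedImmersion i ∧ i ≫ PPtoSpec k N = s

/-- `ψ` is a dominant rational map over `k` from `X` (with structure morphism `s`) to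
projective space of dimension `n`. -/
structure IsDomRat {k : Type u} [Field k] {n : ℕ} {X : Scheme.{u}} (s : X ⟶ Spec (.of k))
    (ψ : X.RationalMap (PP k n)) : Prop where
  isOver : ψ.compHom (PPtoSpec k n) = s.toRationalMap
  dominant : ψ.IsDominant

/-- For a rational map `ψ` from `X` to `Y`: the subfield of `K(X)` generated by the pullbacks of
the germs of functions of `Y` at the image of the generic point of `X`. If `ψ` is dominant and `Y`
is integral this is `ψ^* K(Y)`; in general it is the function field of the closure of the image. -/
noncomputable def pullbackField {X Y : Scheme.{u}} [IsIntegral X] (ψ : X.RationalMap Y) :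
    Subfield X.functionField :=
  Subfield.closure (Set.range (Scheme.stalkClosedPointTo ψ.fromFunctionField).hom)

/-- The degree of a rational map onto the closure of its image: the degree of `K(X)` over
the subfield `pullbackField ψ`, which is `ψ^* K(Y)` if `ψ` is dominant. -/
noncomputable def ratDegree {X Y : Scheme.{u}} [IsIntegral X] (ψ : X.RationalMap Y) : Cardinal :=
  Module.rank (pullbackField ψ) X.functionField

/-- The closure in `X` of the preimage of `L` under the rational map `ψ`, the preimage being
taken over the open set where `ψ` is defined. -/
def preimageClosure {X Y : Scheme.{u}} (ψ : X.RationalMap Y) (L : Set Y) : Set X :=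
  closure {x | ∃ g : X.PartialMap Y, g.toRationalMap = ψ ∧
    ∃ hx : x ∈ g.domain, g.hom ⟨x, hx⟩ ∈ L}

/-- The line `c_0 X_0 + c_1 X_1 + c_2 X_2 = 0` in the projective plane. -/
def line (k : Type u) [Field k] (c : Fin 3 → k) : Set (PP k 2) :=
  {y | (∑ i, C (c i) * X i : MvPolynomial (Fin 3) k) ∈ ProjectiveSpectrum.asHomogeneousIdeal y}

/-- The gonality of an integral curve `D` over `k` (with structure morphism `s`): the least degree
of a dominant rational map over `k` from `D` to the projective line (equivalently, of a nonconstant
morphism from the normalization of `D` to the projective line). -/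
noncomputable def gonality {k : Type u} [Field k] {D : Scheme.{u}} [IsIntegral D]
    (s : D ⟶ Spec (.of k)) : Cardinal :=
  sInf {d | ∃ φ : D.RationalMap (PP k 1), IsDomRat s φ ∧ ratDegree φ = d}

end Pool.Agent.Helper71
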