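import Mathlib
import Pool.Agent.Helper71.GonDefs

namespace Pool.Agent.Helper71

open AlgebraicGeometry CategoryTheory MvPolynomial HomogeneousLocalization

universe u

attribute [local instance] MvPolynomial.gradedAlgebra

/-- the grading on the homogeneous coordinate ring. -/
abbrev hsub (k : Type u) [Field k] (n : ℕ) : ℕ → Submodule k (MvPolynomial (Fin (n + 1)) k) :=
  homogeneousSubmodule (Fin (n + 1)) k

variable {k : Type u} [Field k] {n : ℕ}

theorem aeval_scale {R : Type*} [CommRing R] [Algebra k R] (w : Fin (n + 1) → R) (r : R)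
    {d : ℕ} (x : MvPolynomial (Fin (n + 1)) k) (hx : x ∈ hsub k n d) :
    aeval (fun i => r * w i) x = r ^ d * aeval w x := by
  rw [aeval_def, aeval_def, eval₂_eq', eval₂_eq', Finset.mul_sum]
  refine Finset.sum_congr rfl fun s hs => ?_
  have hdeg : d = ∑ i, s i := by
    have h := hx
    rw [mem_homogeneousSubmodule] at h
    have h2 := h.degree_eq_sum_deg_support hs
    rw [h2]
    exact Finset.sum_subset (Finset.subset_univ _) fun i _ hi => Finsupp.notMem_support_iff.1 hi
  simp only [mul_pow]
  rw [Finset.prod_mul_distrib, Finset.prod_pow_eq_pow_sum, ← hdeg]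
  ring

/-- evaluation of degree zero fractions at a point. -/
noncomputable def evalAway {R : Type u} [CommRing R] [Algebra k R]
    (f : MvPolynomial (Fin (n + 1)) k) (w : Fin (n + 1) → R) (h : IsUnit (aeval w f)) :
    Away (hsub k n) f →+* R :=
  (Localization.awayLift (aeval w).toRingHom f h).comp (algebraMap _ (Localization.Away f))

theorem evalAway_mk {R : Type u} [CommRing R] [Algebra k R]
    (f : MvPolynomial (Fin (n + 1)) k) (w : Fin (n + 1) → R) (h : IsUnit (aeval w f))
    {d : ℕ} (hf : f ∈ hsub k n d) (m : ℕ) (x : MvPolynomial (Fin (n + 1)) k)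
    (hx : x ∈ hsub k n (m • d)) :
    evalAway f w h (Away.mk (hsub k n) hf m x hx) * aeval w f ^ m = aeval w x := by
  rw [evalAway, RingHom.comp_apply, HomogeneousLocalization.algebraMap_apply, Away.val_mk]
  have := Localization.awayLift_mk (aeval w).toRingHom f x h.unit.inv h.mul_val_inv m
  rw [this]
  change aeval w x * _ * _ = _
  rw [mul_assoc, ← mul_pow]
  have e : (h.unit.inv : R) * aeval w f = 1 := h.val_inv_mul
  rw [e, one_pow, mul_one]

theorem evalAway_ext {R : Type u} [CommRing R] [Algebra k R]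
    (f : MvPolynomial (Fin (n + 1)) k) {d : ℕ} (hf : f ∈ hsub k n d) (w : Fin (n + 1) → R)
    (h : IsUnit (aeval w f)) (ρ : Away (hsub k n) f →+* R)
    (hρ : ∀ (m : ℕ) (x : MvPolynomial (Fin (n + 1)) k) (hx : x ∈ hsub k n (m • d)),
      ρ (Away.mk (hsub k n) hf m x hx) * aeval w f ^ m = aeval w x) :
    ρ = evalAway f w h := by
  ext a
  obtain ⟨m, x, hx, rfl⟩ := Away.mk_surjective (hsub k n) hf a
  apply (h.pow m).mul_right_cancel
  rw [hρ, evalAway_mk]

theorem evalAway_scale {R : Type u} [CommRing R] [Algebra k R]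
    (f : MvPolynomial (Fin (n + 1)) k) {d : ℕ} (hf : f ∈ hsub k n d) (w : Fin (n + 1) → R)
    (h : IsUnit (aeval w f)) (r : R) (hr : IsUnit r)
    (h' : IsUnit (aeval (fun i => r * w i) f)) :
    evalAway f (fun i => r * w i) h' = evalAway f w h := by
  refine evalAway_ext f hf w h _ fun m x hx => ?_
  have e1 := evalAway_mk f (fun i => r * w i) h' hf m x hx
  rw [aeval_scale w r f hf, aeval_scale w r x hx] at e1
  apply ((hr.pow (m • d))).mul_left_cancel
  rw [← e1, smul_eq_mul, mul_comm m d, pow_mul]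
  ring

theorem evalAway_comp {R S : Type u} [CommRing R] [Algebra k R] [CommRing S] [Algebra k S]
    (f : MvPolynomial (Fin (n + 1)) k) {d : ℕ} (hf : f ∈ hsub k n d) (w : Fin (n + 1) → R)
    (h : IsUnit (aeval w f)) (φ : R →ₐ[k] S) (h' : IsUnit (aeval (fun i => φ (w i)) f)) :
    evalAway f (fun i => φ (w i)) h' = φ.toRingHom.comp (evalAway f w h) := by
  symm
  refine evalAway_ext f hf _ h' _ fun m x hx => ?_
  have e1 := congrArg φ (evalAway_mk f w h hf m x hx)
  have e2 : ∀ y : MvPolynomial (Fin (n + 1)) k, aeval (fun i => φ (w i)) y = φ (aeval w y) := by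
    intro y
    exact (MvPolynomial.comp_aeval_apply w φ y).symm
  rw [e2, e2, ← e1, map_mul, map_pow]
  rfl

theorem evalAway_mul {R : Type u} [CommRing R] [Algebra k R]
    (f g : MvPolynomial (Fin (n + 1)) k) {d e : ℕ} (hf : f ∈ hsub k n d) (hg : g ∈ hsub k n e)
    (w : Fin (n + 1) → R) (h : IsUnit (aeval w f)) (h' : IsUnit (aeval w (f * g))) :
    (evalAway (f * g) w h').comp (awayMap (hsub k n) hg rfl) = evalAway f w h := by
  refine evalAway_ext f hf w h _ fun m x hx => ?_
  rw [RingHom.comp_apply, awayMap_mk]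
  have e1 := evalAway_mk (f * g) w h' (SetLike.mul_mem_graded hf hg) m (x * g ^ m)
    (by rw [smul_add]; exact SetLike.mul_mem_graded hx (SetLike.pow_mem_graded m hg))
  have hgu : IsUnit (aeval w g) := by
    rw [map_mul] at h'
    exact isUnit_of_mul_isUnit_right h'
  apply (hgu.pow m).mul_right_cancel
  rw [map_mul, map_mul, map_pow, mul_pow] at e1
  rw [← e1]
  ring

end Pool.Agent.Helper71
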