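import Mathlib
import Pool.Agent.Helper71.PPBase

namespace Pool.Agent.Helper71

open AlgebraicGeometry CategoryTheory MvPolynomial HomogeneousLocalization

universe u

attribute [local instance] MvPolynomial.gradedAlgebra

variable {k : Type u} [Field k] {n : ℕ}

/-- the morphism given by homogeneous coordinates `w` with `f(w)` invertible. -/
noncomputable def ptAway {R : Type u} [CommRing R] [Algebra k R]
    (f : MvPolynomial (Fin (n + 1)) k) {d : ℕ} (hf : f ∈ hsub k n d) (hd : 0 < d)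
    (w : Fin (n + 1) → R) (h : IsUnit (aeval w f)) : Spec (.of R) ⟶ PP k n :=
  Spec.map (CommRingCat.ofHom (evalAway f w h)) ≫ Proj.awayι (hsub k n) f hf hd

theorem ptAway_mul {R : Type u} [CommRing R] [Algebra k R]
    (f g : MvPolynomial (Fin (n + 1)) k) {d e : ℕ} (hf : f ∈ hsub k n d) (hd : 0 < d)
    (hg : g ∈ hsub k n e) (hfg : f * g ∈ hsub k n (d + e)) (hde : 0 < d + e)
    (w : Fin (n + 1) → R) (h : IsUnit (aeval w f)) (h' : IsUnit (aeval w (f * g))) :
    ptAway f hf hd w h = ptAway (f * g) hfg hde w h' := by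
  rw [ptAway, ptAway, ← evalAway_mul f g hf hg w h h', CommRingCat.ofHom_comp, Spec.map_comp,
    Category.assoc, Proj.SpecMap_awayMap_awayι (hsub k n) hf hd hg rfl]

theorem ptAway_scale {R : Type u} [CommRing R] [Algebra k R]
    (f : MvPolynomial (Fin (n + 1)) k) {d : ℕ} (hf : f ∈ hsub k n d) (hd : 0 < d)
    (w : Fin (n + 1) → R) (h : IsUnit (aeval w f)) (r : R) (hr : IsUnit r)
    (h' : IsUnit (aeval (fun i => r * w i) f)) :
    ptAway f hf hd (fun i => r * w i) h' = ptAway f hf hd w h := by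
  rw [ptAway, ptAway, evalAway_scale f hf w h r hr h']

theorem ptAway_comp {R S : Type u} [CommRing R] [Algebra k R] [CommRing S] [Algebra k S]
    (f : MvPolynomial (Fin (n + 1)) k) {d : ℕ} (hf : f ∈ hsub k n d) (hd : 0 < d)
    (w : Fin (n + 1) → R) (h : IsUnit (aeval w f)) (φ : R →ₐ[k] S)
    (h' : IsUnit (aeval (fun i => φ (w i)) f)) :
    Spec.map (CommRingCat.ofHom φ.toRingHom) ≫ ptAway f hf hd w h =
      ptAway f hf hd (fun i => φ (w i)) h' := by
  rw [ptAway, ptAway, evalAway_comp f hf w h φ h', CommRingCat.ofHom_comp, Spec.map_comp,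
    Category.assoc]

theorem ptAway_over {R : Type u} [CommRing R] [Algebra k R]
    (f : MvPolynomial (Fin (n + 1)) k) {d : ℕ} (hf : f ∈ hsub k n d) (hd : 0 < d)
    (w : Fin (n + 1) → R) (h : IsUnit (aeval w f)) :
    ptAway f hf hd w h ≫ PPtoSpec k n = Spec.map (CommRingCat.ofHom (algebraMap k R)) := by
  rw [ptAway, PPtoSpec, Category.assoc, Proj.awayι_toSpecZero_assoc, ← Spec.map_comp,
    ← Spec.map_comp, ← CommRingCat.ofHom_comp, ← CommRingCat.ofHom_comp]
  congr 2
  ext c
  have e := evalAway_mk f w h hf 0 (C c) (by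
    rw [zero_smul]; exact isHomogeneous_C _ _)
  rw [pow_zero, mul_one, algHom_C] at e
  rw [← e]
  change evalAway f w h (fromZeroRingHom (hsub k n) _ _) = _
  congr 1
  ext
  rw [Away.val_mk]
  simp [fromZeroRingHom]

theorem ptAway_preimage {R : Type u} [CommRing R] [Algebra k R]
    (f : MvPolynomial (Fin (n + 1)) k) {d : ℕ} (hf : f ∈ hsub k n d) (hd : 0 < d)
    (w : Fin (n + 1) → R) (h : IsUnit (aeval w f))
    (g : MvPolynomial (Fin (n + 1)) k) {e : ℕ} (hg : g ∈ hsub k n e) (he : 0 < e)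
    (q : Spec (.of R)) :
    g ∈ ProjectiveSpectrum.asHomogeneousIdeal (ptAway f hf hd w h q) ↔
      aeval w g ∈ PrimeSpectrum.asIdeal q := by
  have h1 := Proj.awayι_preimage_basicOpen (hsub k n) hf hd hg he
  have h2 : ptAway f hf hd w h q ∈ Proj.basicOpen (hsub k n) g ↔
      Spec.map (CommRingCat.ofHom (evalAway f w h)) q ∈
        PrimeSpectrum.basicOpen (Away.isLocalizationElem hf hg) := by
    rw [← h1]
    rfl
  have h3 : ¬ (g ∈ ProjectiveSpectrum.asHomogeneousIdeal (ptAway f hf hd w h q)) ↔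
      ¬ (evalAway f w h (Away.isLocalizationElem hf hg) ∈ PrimeSpectrum.asIdeal q) := h2
  rw [not_iff_not] at h3
  rw [h3]
  have e1 := evalAway_mk f w h hf e (g ^ d) (by
    convert! SetLike.pow_mem_graded d hg using 2; exact mul_comm _ _)
  have hmem : ∀ a : R, aeval w f ^ e * a ∈ PrimeSpectrum.asIdeal q ↔
      a ∈ PrimeSpectrum.asIdeal q := by
    intro a
    exact Ideal.unit_mul_mem_iff_mem _ (h.pow e)
  rw [← hmem, mul_comm, e1, map_pow]
  exact q.2.pow_mem_iff_mem d hd

end Pool.Agent.Helper71
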