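import Mathlib
import Pool.Agent.Helper71.PPPoint

namespace Pool.Agent.Helper71

open AlgebraicGeometry CategoryTheory MvPolynomial HomogeneousLocalization

universe u

attribute [local instance] MvPolynomial.gradedAlgebra

variable {k : Type u} [Field k] {n : ℕ}

theorem X_mem_hsub (m : Fin (n + 1)) : (X m : MvPolynomial (Fin (n + 1)) k) ∈ hsub k n 1 :=
  isHomogeneous_X k m

theorem iSup_basicOpen_X :
    ⨆ i : Fin (n + 1), Proj.basicOpen (hsub k n) (X i) = ⊤ := by
  apply Proj.iSup_basicOpen_eq_top' (hsub k n) (fun i => X i)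
  · intro i
    exact ⟨1, X_mem_hsub i⟩
  · rw [eq_top_iff]
    intro x _
    induction x using MvPolynomial.induction_on with
    | C a =>
      have : (C a : MvPolynomial (Fin (n + 1)) k) =
          algebraMap (hsub k n 0) _ ⟨C a, isHomogeneous_C _ _⟩ := rfl
      rw [this]
      exact Subalgebra.algebraMap_mem _ _
    | add p q hp hq => exact Subalgebra.add_mem _ (hp trivial) (hq trivial)
    | mul_X p i hp =>
      exact Subalgebra.mul_mem _ (hp trivial) (Algebra.subset_adjoin ⟨i, rfl⟩)

/-- the morphism given by homogeneous coordinates, one of them being invertible. -/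
noncomputable def pt {R : Type u} [CommRing R] [Algebra k R] (m : Fin (n + 1))
    (w : Fin (n + 1) → R) (h : IsUnit (w m)) : Spec (.of R) ⟶ PP k n :=
  ptAway (X m) (X_mem_hsub m) Nat.one_pos w (by rwa [aeval_X])

theorem pt_index {R : Type u} [CommRing R] [Algebra k R] (m m' : Fin (n + 1))
    (w : Fin (n + 1) → R) (h : IsUnit (w m)) (h' : IsUnit (w m')) :
    pt (k := k) m w h = pt m' w h' := by
  have h1 : IsUnit (aeval w (X m * X m' : MvPolynomial (Fin (n + 1)) k)) := by
    rw [map_mul, aeval_X, aeval_X]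
    exact h.mul h'
  have h2 : IsUnit (aeval w (X m' * X m : MvPolynomial (Fin (n + 1)) k)) := by
    rw [mul_comm]; exact h1
  have e1 := ptAway_mul (X m) (X m') (X_mem_hsub (k := k) m) Nat.one_pos (X_mem_hsub m')
    (SetLike.mul_mem_graded (X_mem_hsub m) (X_mem_hsub m')) (by norm_num) w (by rwa [aeval_X]) h1
  have e2 := ptAway_mul (X m') (X m) (X_mem_hsub (k := k) m') Nat.one_pos (X_mem_hsub m)
    (SetLike.mul_mem_graded (X_mem_hsub m') (X_mem_hsub m)) (by norm_num) w (by rwa [aeval_X]) h2
  rw [pt, pt, e1, e2]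
  congr 1
  exact mul_comm _ _

theorem pt_scale {R : Type u} [CommRing R] [Algebra k R] (m : Fin (n + 1))
    (w : Fin (n + 1) → R) (h : IsUnit (w m)) (r : R) (hr : IsUnit r) (h' : IsUnit (r * w m)) :
    pt (k := k) m (fun i => r * w i) h' = pt m w h :=
  ptAway_scale _ _ _ _ _ r hr _

theorem pt_comp {R S : Type u} [CommRing R] [Algebra k R] [CommRing S] [Algebra k S]
    (m : Fin (n + 1)) (w : Fin (n + 1) → R) (h : IsUnit (w m)) (φ : R →ₐ[k] S)
    (h' : IsUnit (φ (w m))) :
    Spec.map (CommRingCat.ofHom φ.toRingHom) ≫ pt (k := k) m w h = pt m (fun i => φ (w i)) h' :=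
  ptAway_comp _ _ _ _ _ _ _

theorem pt_over {R : Type u} [CommRing R] [Algebra k R] (m : Fin (n + 1))
    (w : Fin (n + 1) → R) (h : IsUnit (w m)) :
    pt m w h ≫ PPtoSpec k n = Spec.map (CommRingCat.ofHom (algebraMap k R)) :=
  ptAway_over _ _ _ _ _

theorem pt_mem {R : Type u} [CommRing R] [Algebra k R] (m : Fin (n + 1))
    (w : Fin (n + 1) → R) (h : IsUnit (w m))
    (g : MvPolynomial (Fin (n + 1)) k) {e : ℕ} (hg : g ∈ hsub k n e) (he : 0 < e)
    (q : Spec (.of R)) :
    g ∈ ProjectiveSpectrum.asHomogeneousIdeal (pt m w h q) ↔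
      aeval w g ∈ PrimeSpectrum.asIdeal q :=
  ptAway_preimage _ _ _ _ _ g hg he q

/-- `X j / X m` -/
noncomputable def coordAway (m j : Fin (n + 1)) : Away (hsub k n) (X m) :=
  Away.mk (hsub k n) (X_mem_hsub m) 1 (X j) (by rw [one_smul]; exact X_mem_hsub j)

/-- the constants -/
noncomputable def constAway (m : Fin (n + 1)) : k →+* Away (hsub k n) (X m) :=
  (fromZeroRingHom (hsub k n) _).comp (algebraMap k (hsub k n 0))

theorem val_constAway (m : Fin (n + 1)) (c : k) :
    (constAway (n := n) m c).val = algebraMap k (Localization.Away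
      (X m : MvPolynomial (Fin (n + 1)) k)) c := by
  have h : algebraMap k (Localization.Away (X m : MvPolynomial (Fin (n + 1)) k)) c =
      algebraMap (MvPolynomial (Fin (n + 1)) k) _ (C c) :=
    IsScalarTower.algebraMap_apply k (MvPolynomial (Fin (n + 1)) k) _ c
  rw [h]
  exact Localization.mk_one_eq_algebraMap _

/-- the surjection from the polynomial ring onto the chart ring. -/
noncomputable def dehom (m : Fin (n + 1)) :
    MvPolynomial (Fin (n + 1)) k →+* Away (hsub k n) (X m) :=
  eval₂Hom (constAway m) (coordAway m)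

theorem dehom_eq (m : Fin (n + 1)) (d : ℕ) (x : MvPolynomial (Fin (n + 1)) k)
    (hx : x ∈ hsub k n (d • 1)) :
    Away.mk (hsub k n) (X_mem_hsub m) d x hx = dehom m x := by
  ext
  have h1 : (dehom m x).val = aeval (fun j => (coordAway (k := k) m j).val) x := by
    have := map_eval₂Hom (constAway m) (coordAway (k := k) m) (algebraMap
      (Away (hsub k n) (X m)) (Localization.Away (X m : MvPolynomial (Fin (n + 1)) k))) x
    refine this.trans ?_
    rw [aeval_def]
    change eval₂ _ _ _ = _
    congr 1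
  have hXu : IsUnit (algebraMap (MvPolynomial (Fin (n + 1)) k)
      (Localization.Away (X m : MvPolynomial (Fin (n + 1)) k)) (X m)) :=
    IsLocalization.Away.algebraMap_isUnit _
  have hmk : ∀ (d : ℕ) (x : MvPolynomial (Fin (n + 1)) k) (hx : x ∈ hsub k n (d • 1)),
      algebraMap (MvPolynomial (Fin (n + 1)) k)
      (Localization.Away (X m : MvPolynomial (Fin (n + 1)) k)) (X m) ^ d *
      (Away.mk (hsub k n) (X_mem_hsub m) d x hx).val = algebraMap _ _ x := by
    intro d x hx
    rw [Away.val_mk, ← map_pow, ← Algebra.smul_def, Localization.smul_mk, smul_eq_mul]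
    rw [← Localization.mk_one_eq_algebraMap, Localization.mk_eq_mk_iff, Localization.r_iff_exists]
    exact ⟨1, by simp⟩
  apply (hXu.pow d).mul_left_cancel
  rw [hmk, h1]
  have hx' : x ∈ hsub k n d := by simpa using hx
  rw [← aeval_scale _ _ x hx']
  have e2 : (fun i => algebraMap (MvPolynomial (Fin (n + 1)) k)
      (Localization.Away (X m : MvPolynomial (Fin (n + 1)) k)) (X m) *
      (coordAway (k := k) m i).val) = fun i => algebraMap (MvPolynomial (Fin (n + 1)) k)
      (Localization.Away (X m : MvPolynomial (Fin (n + 1)) k)) (X i) := by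
    funext i
    have := hmk 1 (X i) (by rw [one_smul]; exact X_mem_hsub i)
    rw [pow_one] at this
    exact this
  rw [e2]
  have e3 := MvPolynomial.aeval_algebraMap_apply (R := k)
    (Localization.Away (X m : MvPolynomial (Fin (n + 1)) k))
    (X : Fin (n + 1) → MvPolynomial (Fin (n + 1)) k) x
  rw [aeval_X_left_apply] at e3
  exact e3.symm

theorem dehom_surjective (m : Fin (n + 1)) : Function.Surjective (dehom (k := k) m) := by
  intro a
  obtain ⟨d, x, hx, rfl⟩ := Away.mk_surjective (hsub k n) (X_mem_hsub m) a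
  exact ⟨x, (dehom_eq m d x hx).symm⟩

theorem dehom_X (m j : Fin (n + 1)) : dehom (k := k) m (X j) = coordAway m j :=
  eval₂Hom_X' _ _ _

theorem dehom_C (m : Fin (n + 1)) (c : k) : dehom (n := n) m (C c) = constAway m c :=
  eval₂Hom_C _ _ _

end Pool.Agent.Helper71
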