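import Mathlib
import Pool.Agent.Helper71.PPField

namespace Pool.Agent.Helper71

open AlgebraicGeometry CategoryTheory MvPolynomial HomogeneousLocalization

universe u

attribute [local instance] MvPolynomial.gradedAlgebra

variable {k : Type u} [Field k] {n : ℕ}

theorem evalAway_dehom {R : Type u} [CommRing R] [Algebra k R] (m : Fin (n + 1))
    (w : Fin (n + 1) → R) (h1 : w m = 1)
    (h : IsUnit (aeval w (X m : MvPolynomial (Fin (n + 1)) k))) :
    (evalAway (X m) w h).comp (dehom m) = (aeval w : _ →ₐ[k] R).toRingHom := by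
  apply MvPolynomial.ringHom_ext
  · intro c
    have e := evalAway_mk (X m) w h (X_mem_hsub m) 0 (C c) (by
      rw [zero_smul]; exact isHomogeneous_C _ _)
    rw [pow_zero, mul_one, dehom_eq] at e
    exact e
  · intro j
    have e := evalAway_mk (X m) w h (X_mem_hsub m) 1 (X j) (by
      rw [one_smul]; exact X_mem_hsub j)
    rw [dehom_eq, aeval_X, h1, one_pow, mul_one] at e
    exact e

/-- any ring homomorphism from a chart ring over `k` is an evaluation. -/
theorem ringHom_eq_evalAway {R : Type u} [CommRing R] [Algebra k R] (m : Fin (n + 1))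
    (ρ : Away (hsub k n) (X m) →+* R) (hρ : ∀ c, ρ (constAway m c) = algebraMap k R c) :
    ∃ (w : Fin (n + 1) → R) (_ : w m = 1)
      (h : IsUnit (aeval w (X m : MvPolynomial (Fin (n + 1)) k))), ρ = evalAway (X m) w h := by
  have hcm : coordAway (k := k) m m = 1 := by
    ext
    rw [coordAway, Away.val_mk, HomogeneousLocalization.val_one]
    simp
  have hw : ρ (coordAway m m) = 1 := by rw [hcm, map_one]
  refine ⟨fun j => ρ (coordAway m j), hw, by rw [aeval_X, hw]; exact isUnit_one, ?_⟩
  have key : ρ.comp (dehom m) = (evalAway (X m) (fun j => ρ (coordAway m j))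
      (by rw [aeval_X, hw]; exact isUnit_one)).comp (dehom m) := by
    rw [evalAway_dehom m _ hw]
    apply MvPolynomial.ringHom_ext
    · intro c
      rw [RingHom.comp_apply, dehom_C, hρ]
      exact (algHom_C _ _).symm
    · intro j
      rw [RingHom.comp_apply, dehom_X]
      exact (aeval_X (R := k) (fun j => ρ (coordAway m j)) j).symm
  ext a
  obtain ⟨x, rfl⟩ := dehom_surjective m a
  exact congrArg (fun f => f x) key

theorem exists_pt {K : Type u} [Field K] [Algebra k K] (g : Spec (.of K) ⟶ PP k n)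
    (hg : g ≫ PPtoSpec k n = Spec.map (CommRingCat.ofHom (algebraMap k K))) :
    ∃ (m : Fin (n + 1)) (w : Fin (n + 1) → K) (_ : w m = 1) (h : IsUnit (w m)),
      g = pt m w h := by
  have hmem : g (IsLocalRing.closedPoint K) ∈ (⊤ : (PP k n).Opens) := trivial
  rw [← iSup_basicOpen_X, TopologicalSpace.Opens.mem_iSup] at hmem
  obtain ⟨m, hm⟩ := hmem
  have hrange : Set.range g ⊆ Set.range (Proj.awayι (hsub k n) (X m) (X_mem_hsub m)
      Nat.one_pos) := by
    rintro _ ⟨z, rfl⟩
    have hz : z = IsLocalRing.closedPoint K := Subsingleton.elim _ _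
    rw [hz]
    have := Proj.opensRange_awayι (hsub k n) (X m) (X_mem_hsub m) Nat.one_pos
    rw [← this] at hm
    exact hm
  obtain ⟨ρ, hρ⟩ := Spec.map_surjective (IsOpenImmersion.lift (Proj.awayι (hsub k n) (X m)
    (X_mem_hsub m) Nat.one_pos) g hrange)
  have hgρ : g = Spec.map ρ ≫ Proj.awayι (hsub k n) (X m) (X_mem_hsub m) Nat.one_pos := by
    rw [hρ, IsOpenImmersion.lift_fac]
  have hρk : ∀ c, ρ.hom (constAway m c) = algebraMap k K c := by
    have e1 := hg
    rw [hgρ, PPtoSpec, Category.assoc, Proj.awayι_toSpecZero_assoc, ← Spec.map_comp,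
      ← Spec.map_comp] at e1
    have e2 := Spec.map_injective e1
    intro c
    exact congrArg (fun f => f.hom c) e2
  obtain ⟨w, hw, h, e⟩ := ringHom_eq_evalAway m ρ.hom hρk
  refine ⟨m, w, hw, by rw [hw]; exact isUnit_one, ?_⟩
  rw [hgρ, pt, ptAway]
  congr 2
  rw [← e]
  rfl

end Pool.Agent.Helper71
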