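import Mathlib
import Pool.Agent.Helper71.PPExists

namespace Pool.Agent.Helper71

open AlgebraicGeometry CategoryTheory MvPolynomial HomogeneousLocalization

universe u

theorem closure_stalk_spec {R : CommRingCat.{u}} {K : Type u} [Field K] (φ : R ⟶ .of K) :
    Subfield.closure (Set.range (Scheme.stalkClosedPointTo (Spec.map φ)).hom) =
      Subfield.closure (Set.range φ.hom) := by
  have hgerm := Scheme.germ_stalkClosedPointTo_Spec φ
  obtain ⟨q, hq⟩ : ∃ q : PrimeSpectrum R,
    q = (Spec.map φ) (IsLocalRing.closedPoint (CommRingCat.of K)) := ⟨_, rfl⟩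
  let _ : Algebra R ((Spec R).presheaf.stalk
      ((Spec.map φ) (IsLocalRing.closedPoint (CommRingCat.of K)))) :=
    StructureSheaf.stalkAlgebra R _
  have hloc : IsLocalization.AtPrime ((Spec R).presheaf.stalk
      ((Spec.map φ) (IsLocalRing.closedPoint (CommRingCat.of K))))
      (PrimeSpectrum.asIdeal ((Spec.map φ) (IsLocalRing.closedPoint (CommRingCat.of K)))) :=
    StructureSheaf.IsLocalization.to_stalk R _
  have hg : ∀ r : R, (Scheme.stalkClosedPointTo (Spec.map φ)).hom
      (algebraMap R ((Spec R).presheaf.stalk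
      ((Spec.map φ) (IsLocalRing.closedPoint (CommRingCat.of K)))) r) = φ.hom r := by
    intro r
    have e := congrArg (fun f => f.hom ((Scheme.ΓSpecIso R).inv.hom r)) hgerm
    simp only [CommRingCat.hom_comp, RingHom.comp_apply] at e
    have e2 : (Scheme.ΓSpecIso R).hom.hom ((Scheme.ΓSpecIso R).inv.hom r) = r := by
      rw [← RingHom.comp_apply, ← CommRingCat.hom_comp, Iso.inv_hom_id]; rfl
    rw [e2] at e
    exact e
  apply le_antisymm
  · rw [Subfield.closure_le]
    rintro _ ⟨z, rfl⟩
    obtain ⟨⟨a, s⟩, has⟩ := IsLocalization.surj (PrimeSpectrum.asIdeal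
      ((Spec.map φ) (IsLocalRing.closedPoint (CommRingCat.of K)))).primeCompl z
    have h1 := congrArg (Scheme.stalkClosedPointTo (Spec.map φ)).hom has
    rw [map_mul, hg, hg] at h1
    have h3 : φ.hom s ≠ 0 := by
      have hu := IsLocalization.map_units ((Spec R).presheaf.stalk
        ((Spec.map φ) (IsLocalRing.closedPoint (CommRingCat.of K)))) s
      have hu2 := hu.map (Scheme.stalkClosedPointTo (Spec.map φ)).hom
      rw [hg] at hu2
      exact hu2.ne_zero
    have h4 : (Scheme.stalkClosedPointTo (Spec.map φ)).hom z = φ.hom a / φ.hom s := by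
      rw [eq_div_iff h3]; exact h1
    rw [h4]
    exact Subfield.div_mem _ (Subfield.subset_closure ⟨a, rfl⟩) (Subfield.subset_closure ⟨s, rfl⟩)
  · rw [Subfield.closure_le]
    rintro _ ⟨r, rfl⟩
    exact Subfield.subset_closure ⟨_, hg r⟩

theorem closure_stalk {R : CommRingCat.{u}} {K : Type u} [Field K] (φ : R ⟶ .of K)
    {Y : Scheme.{u}} (j : Spec R ⟶ Y) [IsOpenImmersion j] :
    Subfield.closure (Set.range (Scheme.stalkClosedPointTo (Spec.map φ ≫ j)).hom) =
      Subfield.closure (Set.range φ.hom) := by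
  rw [← closure_stalk_spec φ]
  congr 1
  have h := Scheme.stalkClosedPointTo_comp (Spec.map φ) j
  have key : ∀ z, (Scheme.stalkClosedPointTo (Spec.map φ ≫ j)).hom z =
      (Scheme.stalkClosedPointTo (Spec.map φ)).hom ((j.stalkMap ((Spec.map φ)
      (IsLocalRing.closedPoint (CommRingCat.of K)))).hom z) :=
    fun z => congrArg (fun f => f.hom z) h
  have hsurj : Function.Surjective (j.stalkMap ((Spec.map φ)
      (IsLocalRing.closedPoint (CommRingCat.of K)))).hom :=
    ((ConcreteCategory.isIso_iff_bijective _).1 inferInstance).2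
  ext z
  constructor
  · rintro ⟨t, rfl⟩
    exact ⟨_, (key t).symm⟩
  · rintro ⟨t, rfl⟩
    obtain ⟨t', rfl⟩ := hsurj t
    exact ⟨t', key t'⟩

end Pool.Agent.Helper71
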