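import Mathlib
import Pool.Agent.Helper71.PPSub

namespace Pool.Agent.Helper71

open AlgebraicGeometry CategoryTheory MvPolynomial HomogeneousLocalization

universe u

attribute [local instance] MvPolynomial.gradedAlgebra

variable {k : Type u} [Field k] {n : ℕ}

theorem closure_pt {K : Type u} [Field K] [Algebra k K] (m : Fin (n + 1)) (w : Fin (n + 1) → K)
    (h1 : w m = 1) (h : IsUnit (w m)) :
    Subfield.closure (Set.range (Scheme.stalkClosedPointTo (pt (k := k) m w h)).hom) =
      (IntermediateField.adjoin k (Set.range w)).toSubfield := by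
  have h' : IsUnit (aeval w (X m : MvPolynomial (Fin (n + 1)) k)) := by rwa [aeval_X]
  have e := closure_stalk (CommRingCat.ofHom (evalAway (X m) w h'))
    (Proj.awayι (hsub k n) (X m) (X_mem_hsub m) Nat.one_pos)
  refine e.trans ?_
  rw [IntermediateField.adjoin_toSubfield]
  have hr : Set.range (CommRingCat.ofHom (evalAway (X m) w h')).hom =
      Set.range (aeval w : MvPolynomial (Fin (n + 1)) k →ₐ[k] K) := by
    have e2 := evalAway_dehom m w h1 h'
    ext z
    constructor
    · rintro ⟨a, rfl⟩
      obtain ⟨x, rfl⟩ := dehom_surjective m a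
      exact ⟨x, (congrArg (fun f => f x) e2).symm⟩
    · rintro ⟨x, rfl⟩
      exact ⟨dehom m x, congrArg (fun f => f x) e2⟩
  rw [hr]
  apply le_antisymm
  · rw [Subfield.closure_le]
    rintro _ ⟨x, rfl⟩
    have hx : aeval w x ∈ IntermediateField.adjoin k (Set.range w) := by
      have h3 : aeval w x ∈ Algebra.adjoin k (Set.range w) := by
        rw [Algebra.adjoin_range_eq_range_aeval]
        exact ⟨x, rfl⟩
      exact IntermediateField.algebra_adjoin_le_adjoin k _ h3
    exact hx
  · rw [Subfield.closure_le]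
    rintro _ (⟨c, rfl⟩ | ⟨j, rfl⟩)
    · exact Subfield.subset_closure ⟨C c, algHom_C _ _⟩
    · exact Subfield.subset_closure ⟨X j, aeval_X _ _⟩

theorem algIndep_of_isDominant {K : Type u} [Field K] [Algebra k K] (m : Fin (n + 1))
    (w : Fin (n + 1) → K) (h1 : w m = 1) (h : IsUnit (w m))
    (hdom : IsDominant (pt (k := k) m w h)) {ι : Type u} (σ : ι → Fin (n + 1))
    (hσ : Function.Injective σ) (hσm : ∀ i, σ i ≠ m) :
    AlgebraicIndependent k (fun i => w (σ i)) := by
  classical
  have h' : IsUnit (aeval w (X m : MvPolynomial (Fin (n + 1)) k)) := by rwa [aeval_X]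
  have hd : IsDominant (Spec.map (CommRingCat.ofHom (evalAway (X m) w h')) ≫
    Proj.awayι (hsub k n) (X m) (X_mem_hsub m) Nat.one_pos) := hdom
  have hd2 := IsDominant.of_comp_of_isOpenImmersion
    (Spec.map (CommRingCat.ofHom (evalAway (X m) w h'))) _ (H := hd)
  have hker : RingHom.ker (evalAway (X m) w h') ≤ nilradical _ := by
    rw [← PrimeSpectrum.denseRange_comap_iff_ker_le_nilRadical]
    exact hd2.denseRange
  rw [algebraicIndependent_iff]
  intro P hP
  obtain ⟨N, hN⟩ := hker (x := dehom m (rename σ P)) (by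
    rw [RingHom.mem_ker]
    have e2 := congrArg (fun f => f (rename σ P)) (evalAway_dehom m w h1 h')
    refine e2.trans ?_
    change aeval w (rename σ P) = 0
    rw [aeval_rename]
    exact hP)
  obtain ⟨w0, hw0⟩ : ∃ w0 : Fin (n + 1) → MvPolynomial ι k, w0 m = 1 ∧ ∀ i, w0 (σ i) = X i := by
    refine ⟨fun j => if j = m then 1 else if hj : ∃ i, σ i = j then X hj.choose else 0, ?_, ?_⟩
    · simp
    · intro i
      have hi : ∃ i', σ i' = σ i := ⟨i, rfl⟩
      simp only [if_neg (hσm i), dif_pos hi]
      congr 1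
      exact hσ hi.choose_spec
  have h0 : IsUnit (aeval w0 (X m : MvPolynomial (Fin (n + 1)) k)) := by
    rw [aeval_X, hw0.1]; exact isUnit_one
  have e3 := congrArg (fun f => f (rename σ P)) (evalAway_dehom m w0 hw0.1 h0)
  have e4 : evalAway (X m) w0 h0 (dehom m (rename σ P)) = P := by
    refine e3.trans ?_
    change aeval w0 (rename σ P) = P
    rw [aeval_rename]
    have : w0 ∘ σ = X := funext hw0.2
    rw [this]
    exact aeval_X_left_apply P
  have e5 := congrArg (evalAway (X m) w0 h0) hN
  rw [map_pow, e4, map_zero] at e5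
  by_contra hne
  exact pow_ne_zero N hne e5

theorem isDominant_pt {K : Type u} [Field K] [Algebra k K] (m : Fin (n + 1))
    (w : Fin (n + 1) → K) (h : IsUnit (w m))
    (hw : ∀ (d : ℕ) (x : MvPolynomial (Fin (n + 1)) k), x ∈ hsub k n d → aeval w x = 0 → x = 0) :
    IsDominant (pt (k := k) m w h) := by
  classical
  obtain ⟨y, hy⟩ : ∃ y : PP k n, y = pt (k := k) m w h (IsLocalRing.closedPoint K) := ⟨_, rfl⟩
  have hy0 : ∀ (d : ℕ) (x : MvPolynomial (Fin (n + 1)) k), x ∈ hsub k n d → 0 < d →
      x ∈ ProjectiveSpectrum.asHomogeneousIdeal y → x = 0 := by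
    intro d x hx hd hxy
    rw [hy] at hxy
    have h2 := (pt_mem m w h x hx hd _).1 hxy
    have h3 : PrimeSpectrum.asIdeal (IsLocalRing.closedPoint K) = ⊥ := by
      rw [IsLocalRing.closedPoint]
      exact IsLocalRing.maximalIdeal_eq_bot
    have h4 : aeval w x ∈ (⊥ : Ideal K) := by rw [← h3]; exact h2
    exact hw d x hx (Ideal.mem_bot.1 h4)
  have hbot : ∀ x : MvPolynomial (Fin (n + 1)) k,
      x ∈ ProjectiveSpectrum.asHomogeneousIdeal y → x = 0 := by
    intro x hx
    have hcomp : ∀ i, (DirectSum.decompose (hsub k n) x i : MvPolynomial (Fin (n + 1)) k) = 0 := by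
      intro i
      have hmem : (DirectSum.decompose (hsub k n) x i : MvPolynomial (Fin (n + 1)) k) ∈
          ProjectiveSpectrum.asHomogeneousIdeal y :=
        (ProjectiveSpectrum.asHomogeneousIdeal y).isHomogeneous i hx
      have hmul : X m * (DirectSum.decompose (hsub k n) x i : MvPolynomial (Fin (n + 1)) k) ∈
          ProjectiveSpectrum.asHomogeneousIdeal y :=
        Ideal.mul_mem_left (ProjectiveSpectrum.asHomogeneousIdeal y).toIdeal _ hmem
      have h5 := hy0 (1 + i) _ (SetLike.mul_mem_graded (X_mem_hsub m)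
        (DirectSum.decompose (hsub k n) x i).2) (by omega) hmul
      exact (mul_eq_zero.1 h5).resolve_left (X_ne_zero m)
    rw [← DirectSum.sum_support_decompose (hsub k n) x]
    exact Finset.sum_eq_zero fun i _ => hcomp i
  constructor
  rw [denseRange_iff_closure_range, Set.eq_univ_iff_forall]
  intro z
  have h7 := (ProjectiveSpectrum.le_iff_mem_closure (hsub k n) y z).1 (by
    rw [← ProjectiveSpectrum.as_ideal_le_as_ideal]
    intro x hx
    rw [hbot x hx]
    exact Ideal.zero_mem _)
  refine closure_mono ?_ h7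
  rintro _ rfl
  exact ⟨_, hy.symm⟩

/-- a rational map is dominant iff the morphism from the function field is. -/
theorem isDominant_iff_fromFunctionField {X Y : Scheme.{u}} [IsIntegral X]
    (ψ : X.RationalMap Y) : ψ.IsDominant ↔ IsDominant ψ.fromFunctionField := by
  obtain ⟨g, rfl⟩ := ψ.exists_rep
  rw [Scheme.PartialMap.isDominant_toRationalMap_iff,
    Scheme.RationalMap.fromFunctionField_toRationalMap]
  have hη : genericPoint X ∈ g.domain := (genericPoint_specializes _).mem_open g.domain.2
    g.dense_domain.nonempty.choose_spec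
  have h1 : IsDominant (X.fromSpecStalk (genericPoint X)) := by
    constructor
    rw [denseRange_iff_closure_range, ← Set.univ_subset_iff]
    refine (genericPoint_spec X).symm.subset.trans (closure_mono ?_)
    rintro _ rfl
    exact ⟨_, Scheme.fromSpecStalk_closedPoint⟩
  have h2 : IsDominant (g.domain.fromSpecStalkOfMem (genericPoint X) hη) := by
    apply IsDominant.of_comp_of_isOpenImmersion _ g.domain.ι (H := ?_)
    rw [Scheme.Opens.fromSpecStalkOfMem_ι]
    exact h1
  exact (IsDominant.comp_iff (g.domain.fromSpecStalkOfMem (genericPoint X) hη) g.hom).symm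

end Pool.Agent.Helper71
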