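import Mathlib
import Pool.Agent.Helper71.PPDom

namespace Pool.Agent.Helper71

open AlgebraicGeometry CategoryTheory MvPolynomial HomogeneousLocalization Limits

universe u

attribute [local instance] MvPolynomial.gradedAlgebra

variable (k : Type u) [Field k] (n : ℕ)

theorem surjective_algebraMap_zero :
    Function.Surjective (algebraMap k (homogeneousSubmodule (Fin (n + 1)) k 0)) := by
  rintro ⟨f, hf⟩
  have hf' : f.IsHomogeneous 0 := hf
  have hf2 := totalDegree_eq_zero_iff_eq_C.1 (by
    have := hf'.totalDegree_le
    omega : f.totalDegree = 0)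
  refine ⟨coeff 0 f, ?_⟩
  apply Subtype.ext
  exact hf2.symm

instance : IsProper (PPtoSpec k n) := by
  have h0 : IsScalarTower k (homogeneousSubmodule (Fin (n + 1)) k 0)
      (MvPolynomial (Fin (n + 1)) k) := by
    constructor
    rintro r ⟨x, hx⟩ a
    exact smul_mul_assoc r x a
  have h1 : Algebra.FiniteType (homogeneousSubmodule (Fin (n + 1)) k 0)
      (MvPolynomial (Fin (n + 1)) k) :=
    Algebra.FiniteType.of_restrictScalars_finiteType k _ _
  have h2 : IsClosedImmersion (Spec.map (CommRingCat.ofHom
    (algebraMap k (homogeneousSubmodule (Fin (n + 1)) k 0)))) :=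
    IsClosedImmersion.spec_of_surjective _ (surjective_algebraMap_zero k n)
  unfold PPtoSpec
  infer_instance

end Pool.Agent.Helper71
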