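import Mathlib
import Pool.Agent.Helper71.PPDom

namespace Pool.Agent.Helper71

open AlgebraicGeometry CategoryTheory MvPolynomial HomogeneousLocalization Limits

universe u

/-- the scheme-theoretic image of an integral scheme is integral. -/
theorem isIntegral_image {X Y : Scheme.{u}} [IsIntegral X] (g : X ⟶ Y) [QuasiCompact g] :
    IsIntegral g.image := by
  have h1 : IrreducibleSpace g.image := by
    rw [irreducibleSpace_def]
    convert!
      ((IrreducibleSpace.isIrreducible_univ X).image _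
          g.toImage.continuous.continuousOn).closure
    simpa using g.toImage.denseRange.closure_range.symm
  have h2 : ∀ i, IsReduced ((g.ker.subschemeCover.openCover).X i) := by
    intro i
    have h3 : _root_.IsReduced (Γ(Y, i.1) ⧸ g.ker.ideal i) := by
      rw [Scheme.Hom.ker_apply]
      exact isReduced_of_injective _ (RingHom.kerLift_injective (g.app i.1).hom)
    exact inferInstanceAs (IsReduced (Spec (.of (Γ(Y, i.1) ⧸ g.ker.ideal i))))
  have h4 : IsReduced g.image := .of_openCover _ g.ker.subschemeCover.openCover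
  exact isIntegral_of_irreducibleSpace_of_isReduced _

attribute [local instance] MvPolynomial.gradedAlgebra

variable {k : Type u} [Field k] {n : ℕ}

/-- A chart of the scheme-theoretic image. -/
theorem exists_chart_general {F B : Type u} {R : CommRingCat.{u}} [Field F] [CommRing B]
    {Y : Scheme.{u}} (g : Spec (.of F) ⟶ Y) (j : Spec R ⟶ Y) [IsOpenImmersion j]
    (θ : B →+* F) (hθ : Function.Injective θ) (ρ : R →+* B) (hρ : Function.Surjective ρ)
    (hg : g = Spec.map (CommRingCat.ofHom θ) ≫ Spec.map (CommRingCat.ofHom ρ) ≫ j) :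
    ∃ (c : Spec (.of B) ⟶ g.image) (_ : IsOpenImmersion c),
      c.opensRange = g.imageι ⁻¹ᵁ j.opensRange ∧
      c ≫ g.imageι = Spec.map (CommRingCat.ofHom ρ) ≫ j ∧
      Spec.map (CommRingCat.ofHom θ) ≫ c = g.toImage := by
  have : IsDomain B := Function.Injective.isDomain θ hθ
  have hint : IsIntegral g.image := isIntegral_image g
  obtain ⟨c', hc'⟩ : ∃ c' : Spec (.of B) ⟶ Y, c' = Spec.map (CommRingCat.ofHom ρ) ≫ j := ⟨_, rfl⟩
  rw [← hc'] at hg
  have hdomθ : IsDominant (Spec.map (CommRingCat.ofHom θ)) := by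
    constructor
    change DenseRange (PrimeSpectrum.comap θ)
    rw [PrimeSpectrum.denseRange_comap_iff_ker_le_nilRadical,
      (RingHom.injective_iff_ker_eq_bot θ).1 hθ]
    exact bot_le
  have hstd : IsSchemeTheoreticallyDominant (Spec.map (CommRingCat.ofHom θ)) :=
    .of_isDominant _
  have hker : g.ker = c'.ker := by
    rw [hg, Scheme.Hom.ker_comp, Scheme.Hom.ker_eq_bot, Scheme.IdealSheafData.map_bot]
  have hle : g.imageι.ker ≤ c'.ker := by
    rw [Scheme.IdealSheafData.ker_subschemeι, hker]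
  obtain ⟨c, hc⟩ : ∃ c : Spec (.of B) ⟶ g.image, c ≫ g.imageι = c' :=
    ⟨IsClosedImmersion.lift g.imageι c' hle, IsClosedImmersion.lift_fac _ _ _⟩
  have hcθ : Spec.map (CommRingCat.ofHom θ) ≫ c = g.toImage := by
    rw [← cancel_mono g.imageι, Category.assoc, hc, ← hg, Scheme.Hom.toImage_imageι]
  obtain ⟨l, hl1, hl2⟩ : ∃ l : Spec (.of B) ⟶ pullback j g.imageι,
      l ≫ pullback.fst _ _ = Spec.map (CommRingCat.ofHom ρ) ∧ l ≫ pullback.snd _ _ = c :=
    ⟨pullback.lift (Spec.map (CommRingCat.ofHom ρ)) c (by rw [hc, hc']),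
      pullback.lift_fst _ _ _, pullback.lift_snd _ _ _⟩
  have hcl : IsClosedImmersion (l ≫ pullback.fst j g.imageι) := by
    rw [hl1]
    exact IsClosedImmersion.spec_of_surjective _ hρ
  have hlcl : IsClosedImmersion l := IsClosedImmersion.of_comp_isClosedImmersion l (pullback.fst j g.imageι)
  have hred : IsReduced (pullback j g.imageι) :=
    isReduced_of_isOpenImmersion (pullback.snd j g.imageι)
  have hdoml : IsDominant (Spec.map (CommRingCat.ofHom θ) ≫ l) := by
    apply IsDominant.of_comp_of_isOpenImmersion _ (pullback.snd j g.imageι) (H := ?_)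
    rw [Category.assoc, hl2, hcθ]
    infer_instance
  have hdoml2 : IsDominant l := IsDominant.of_comp _ _ (H := hdoml)
  have hstl : IsSchemeTheoreticallyDominant l := .of_isDominant _
  have hiso : IsIso l := IsClosedImmersion.isIso_iff_ker_eq_bot.2 l.ker_eq_bot
  have hco : IsOpenImmersion c := by rw [← hl2]; infer_instance
  refine ⟨c, hco, ?_, hc.trans hc', hcθ⟩
  · rw [← Scheme.Hom.opensRange_pullbackSnd]
    ext z
    constructor
    · rintro ⟨t, rfl⟩
      exact ⟨l t, by rw [← Scheme.Hom.comp_apply, hl2]⟩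
    · rintro ⟨t, rfl⟩
      obtain ⟨t', rfl⟩ := l.homeomorph.surjective t
      refine ⟨t', ?_⟩
      rw [← hl2]
      exact Scheme.Hom.comp_apply _ _ _

/-- Charts of the closure of a point of projective space with coordinates in a field. -/
theorem exists_chart {F B : Type u} [Field F] [Algebra k F] [CommRing B] [Algebra k B]
    (m0 : Fin (n + 1)) (z : Fin (n + 1) → F) (hz0 : IsUnit (z m0))
    (m : Fin (n + 1)) (hzm : z m ≠ 0)
    (θ : B →ₐ[k] F) (hθ : Function.Injective θ) (w : Fin (n + 1) → B) (hwm : w m = 1)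
    (hw : ∀ j, z m * θ (w j) = z j)
    (hsurj : Function.Surjective (aeval w : MvPolynomial (Fin (n + 1)) k →ₐ[k] B))
    (hu : IsUnit (w m)) :
    ∃ (c : Spec (.of B) ⟶ (pt (k := k) m0 z hz0).image) (_ : IsOpenImmersion c),
      c.opensRange = (pt (k := k) m0 z hz0).imageι ⁻¹ᵁ Proj.basicOpen (hsub k n) (X m) ∧
      c ≫ (pt (k := k) m0 z hz0).imageι = pt m w hu ∧
      Spec.map (CommRingCat.ofHom θ.toRingHom) ≫ c = (pt (k := k) m0 z hz0).toImage := by
  have hu' : IsUnit (aeval w (X m : MvPolynomial (Fin (n + 1)) k)) := by rwa [aeval_X]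
  have hρ : Function.Surjective (evalAway (X m) w hu') := by
    intro b
    obtain ⟨x, rfl⟩ := hsurj b
    exact ⟨dehom m x, congrArg (fun f => f x) (evalAway_dehom m w hwm hu')⟩
  have hθu : IsUnit (θ (w m)) := hu.map θ
  have hg : pt (k := k) m0 z hz0 = Spec.map (CommRingCat.ofHom θ.toRingHom) ≫
      Spec.map (CommRingCat.ofHom (evalAway (X m) w hu')) ≫
        Proj.awayι (hsub k n) (X m) (X_mem_hsub m) Nat.one_pos := by
    have e1 := pt_comp (k := k) m w hu θ hθu
    have e2 : pt (k := k) m (fun i => z m * θ (w i)) (by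
        rw [hw]; exact isUnit_iff_ne_zero.2 hzm) = pt m (fun i => θ (w i)) hθu :=
      pt_scale m _ _ (z m) (isUnit_iff_ne_zero.2 hzm) _
    have e3 : (fun i => z m * θ (w i)) = z := funext hw
    have e4 : pt (k := k) m0 z hz0 = pt m (fun i => z m * θ (w i)) (by
        rw [hw]; exact isUnit_iff_ne_zero.2 hzm) := by
      rw [pt_index m0 m z hz0 (isUnit_iff_ne_zero.2 hzm)]
      congr 1
      exact e3.symm
    rw [e4, e2, ← e1]
    rfl
  obtain ⟨c, hc, h1, h2, h3⟩ := exists_chart_general (pt (k := k) m0 z hz0)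
    (Proj.awayι (hsub k n) (X m) (X_mem_hsub m) Nat.one_pos) θ.toRingHom hθ _ hρ hg
  refine ⟨c, hc, ?_, h2, h3⟩
  rw [h1, Proj.opensRange_awayι]

end Pool.Agent.Helper71
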