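import Mathlib

namespace Pool.Agent.Helper71

open MvPolynomial

universe u

/-- the polynomial `c^q - c + b^p (e^q - e)` in `c` over `k[b, e]`, where `q = p^2`. -/
noncomputable def chartPoly (k : Type u) [CommRing k] (p : ℕ) :
    Polynomial (MvPolynomial (Fin 2) k) :=
  Polynomial.X ^ (p ^ 2) - Polynomial.X + Polynomial.C (X 0 ^ p * (X 1 ^ (p ^ 2) - X 1))

/-- the same polynomial, seen as a polynomial in `b` over `k[c, e]`. -/
noncomputable def chartPoly' (k : Type u) [CommRing k] (p : ℕ) :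
    Polynomial (MvPolynomial (Fin 2) k) :=
  Polynomial.C (X 1 ^ (p ^ 2) - X 1) * Polynomial.X ^ p + Polynomial.C (X 0 ^ (p ^ 2) - X 0)

theorem chartPoly_eq (k : Type u) [CommRing k] (p : ℕ) :
    ∃ e : Polynomial (MvPolynomial (Fin 2) k) ≃+* Polynomial (MvPolynomial (Fin 2) k),
      e (chartPoly' k p) = chartPoly k p := by
  refine ⟨((finSuccEquiv k 2).symm.trans ((renameEquiv k (Equiv.swap 0 1)).trans
    (finSuccEquiv k 2))).toRingEquiv, ?_⟩
  change finSuccEquiv k 2 (renameEquiv k (Equiv.swap 0 1) ((finSuccEquiv k 2).symm _)) = _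
  have h1 : (finSuccEquiv k 2).symm (chartPoly' k p) =
      (X 2 ^ (p ^ 2) - X 2) * X 0 ^ p + (X 1 ^ (p ^ 2) - X 1) := by
    rw [AlgEquiv.symm_apply_eq, chartPoly']
    have e0 : finSuccEquiv k 2 (X 0) = Polynomial.X := finSuccEquiv_X_zero
    have e1 : finSuccEquiv k 2 (X 1) = Polynomial.C (X 0) := finSuccEquiv_X_succ (j := 0)
    have e2 : finSuccEquiv k 2 (X 2) = Polynomial.C (X 1) := finSuccEquiv_X_succ (j := 1)
    simp only [map_add, map_mul, map_sub, map_pow, e0, e1, e2]
  rw [h1]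
  have h2 : renameEquiv k (Equiv.swap (0 : Fin 3) 1)
      ((X 2 ^ (p ^ 2) - X 2) * X 0 ^ p + (X 1 ^ (p ^ 2) - X 1)) =
      (X 2 ^ (p ^ 2) - X 2) * X 1 ^ p + (X 0 ^ (p ^ 2) - X 0) := by
    rw [renameEquiv_apply]
    simp only [map_add, map_mul, map_sub, map_pow, rename_X]
    have s0 : Equiv.swap (0 : Fin 3) 1 0 = 1 := by decide
    have s1 : Equiv.swap (0 : Fin 3) 1 1 = 0 := by decide
    have s2 : Equiv.swap (0 : Fin 3) 1 2 = 2 := by decide
    rw [s0, s1, s2]
  rw [h2]
  have e0 : finSuccEquiv k 2 (X 0) = Polynomial.X := finSuccEquiv_X_zero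
  have e1 : finSuccEquiv k 2 (X 1) = Polynomial.C (X 0) := finSuccEquiv_X_succ (j := 0)
  have e2 : finSuccEquiv k 2 (X 2) = Polynomial.C (X 1) := finSuccEquiv_X_succ (j := 1)
  simp only [map_add, map_mul, map_sub, map_pow, e0, e1, e2, chartPoly]
  ring

theorem not_pow_aux (K : Type u) [Field K] (p : ℕ) [Fact p.Prime] [CharP K p]
    (n d : MvPolynomial (Fin 2) K) (hd : d ≠ 0) :
    n ^ p * (X 1 ^ (p ^ 2) - X 1) + (X 0 ^ (p ^ 2) - X 0) * d ^ p ≠ 0 := by
  intro h
  have hpow : ∀ a : MvPolynomial (Fin 2) K, pderiv 0 (a ^ p) = 0 := by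
    intro a
    rw [Derivation.leibniz_pow, nsmul_eq_mul, CharP.cast_eq_zero, zero_mul]
  have hq : ∀ (i j : Fin 2), pderiv i ((X j : MvPolynomial (Fin 2) K) ^ (p ^ 2)) = 0 := by
    intro i j
    rw [Derivation.leibniz_pow, nsmul_eq_mul]
    push_cast
    rw [CharP.cast_eq_zero, sq, zero_mul, zero_mul]
  have h2 := congrArg (pderiv (0 : Fin 2)) h
  rw [map_add, map_zero, Derivation.leibniz, Derivation.leibniz, hpow, hpow, map_sub, map_sub,
    hq, hq, pderiv_X_of_ne (by decide : (1 : Fin 2) ≠ 0), pderiv_X_self] at h2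
  simp at h2
  exact hd h2.1

theorem XqX_ne_zero (K : Type u) [Field K] {σ : Type*} (i : σ) (q : ℕ) (hq : 1 < q) :
    (X i ^ q - X i : MvPolynomial σ K) ≠ 0 := by
  classical
  intro h
  have := congrArg (coeff (Finsupp.single i q)) h
  rw [coeff_sub, coeff_X_pow, if_pos rfl, coeff_X, coeff_zero, if_neg] at this
  · simp at this
  · intro h'
    have := Finsupp.single_injective i h'
    omega

theorem isPrimitive_chartPoly' (K : Type u) [Field K] (p : ℕ) (hp : 1 < p) :
    (chartPoly' K p).IsPrimitive := by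
  intro r hr
  have hp2 : 1 < p ^ 2 := Nat.one_lt_pow (by norm_num) hp
  have h1 : r ∣ (X 1 ^ (p ^ 2) - X 1 : MvPolynomial (Fin 2) K) := by
    have := (Polynomial.C_dvd_iff_dvd_coeff _ _).1 hr p
    rw [chartPoly', Polynomial.coeff_add, Polynomial.coeff_C_mul_X_pow, Polynomial.coeff_C,
      if_pos rfl, if_neg (show p ≠ 0 by omega), add_zero] at this
    exact this
  have h0 : r ∣ (X 0 ^ (p ^ 2) - X 0 : MvPolynomial (Fin 2) K) := by
    have := (Polynomial.C_dvd_iff_dvd_coeff _ _).1 hr 0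
    rw [chartPoly', Polynomial.coeff_add, Polynomial.coeff_C_mul_X_pow, Polynomial.coeff_C,
      if_pos rfl, if_neg (show ¬ (0 = p) by omega), zero_add] at this
    exact this
  have key : ∀ i j : Fin 2, i ≠ j → r ∣ (X i ^ (p ^ 2) - X i : MvPolynomial (Fin 2) K) →
      degreeOf j r = 0 ∧ r ≠ 0 := by
    intro i j hij hdvd
    obtain ⟨s, hs⟩ := hdvd
    have hne : (X i ^ (p ^ 2) - X i : MvPolynomial (Fin 2) K) ≠ 0 :=
      XqX_ne_zero K i _ hp2
    have hr0 : r ≠ 0 := by
      rintro rfl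
      rw [zero_mul] at hs
      exact hne hs
    have hs0 : s ≠ 0 := by
      rintro rfl
      rw [mul_zero] at hs
      exact hne hs
    have hdeg : degreeOf j (X i ^ (p ^ 2) - X i : MvPolynomial (Fin 2) K) = 0 := by
      apply Nat.eq_zero_of_le_zero
      refine (degreeOf_sub_le _ _ _).trans ?_
      rw [degreeOf_X_pow_of_ne _ hij.symm, degreeOf_X_of_ne hij.symm]
      simp
    rw [hs, degreeOf_mul_eq hr0 hs0] at hdeg
    exact ⟨by omega, hr0⟩
  obtain ⟨k0, hr0⟩ := key 1 0 (by decide) h1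
  obtain ⟨k1, -⟩ := key 0 1 (by decide) h0
  have hC : r = C (coeff 0 r) := by
    ext m
    rw [coeff_C]
    split_ifs with hm
    · rw [hm]
    · by_contra hne
      apply hm
      symm
      have hmem : m ∈ r.support := by rwa [mem_support_iff]
      ext i
      fin_cases i
      · have := (degreeOf_le_iff.1 k0.le) m hmem
        simpa using this
      · have := (degreeOf_le_iff.1 k1.le) m hmem
        simpa using this
  rw [hC]
  have : coeff 0 r ≠ 0 := by
    intro h
    rw [h, C_0] at hC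
    exact hr0 hC
  exact (isUnit_iff_ne_zero.2 this).map C

theorem irreducible_chartPoly' (K : Type u) [Field K] (p : ℕ) [Fact p.Prime] [CharP K p] :
    Irreducible (chartPoly' K p) := by
  have hp : p.Prime := Fact.out
  apply (isPrimitive_chartPoly' K p hp.one_lt).irreducible_of_irreducible_map_of_injective
    (IsFractionRing.injective (MvPolynomial (Fin 2) K) (FractionRing (MvPolynomial (Fin 2) K)))
  obtain ⟨ι, hι⟩ : ∃ ι, ι = algebraMap (MvPolynomial (Fin 2) K)
    (FractionRing (MvPolynomial (Fin 2) K)) := ⟨_, rfl⟩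
  rw [← hι]
  have hιinj : Function.Injective ι := by
    rw [hι]; exact IsFractionRing.injective _ _
  have hu : ι (X 1 ^ (p ^ 2) - X 1) ≠ 0 := by
    rw [Ne, map_eq_zero_iff _ hιinj]
    exact XqX_ne_zero K 1 _ (Nat.one_lt_pow (by norm_num) hp.one_lt)
  have hmap : (chartPoly' K p).map ι = Polynomial.C (ι (X 1 ^ (p ^ 2) - X 1)) *
      (Polynomial.X ^ p - Polynomial.C (- (ι (X 0 ^ (p ^ 2) - X 0) /
        ι (X 1 ^ (p ^ 2) - X 1)))) := by
    rw [chartPoly', Polynomial.map_add, Polynomial.map_mul, Polynomial.map_pow,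
      Polynomial.map_C, Polynomial.map_C, Polynomial.map_X, mul_sub, ← Polynomial.C_mul,
      mul_neg, mul_div_cancel₀ _ hu, Polynomial.C_neg, sub_neg_eq_add]
  rw [hmap, irreducible_isUnit_mul (Polynomial.isUnit_C.2 (isUnit_iff_ne_zero.2 hu))]
  apply X_pow_sub_C_irreducible_of_prime hp
  intro β hβ
  obtain ⟨n, d, hd, rfl⟩ := IsFractionRing.div_surjective (A := MvPolynomial (Fin 2) K) β
  have hd0 : d ≠ 0 := nonZeroDivisors.ne_zero hd
  have hdι : ι d ≠ 0 := by
    rwa [Ne, map_eq_zero_iff _ hιinj]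
  apply not_pow_aux K p n d hd0
  apply hιinj
  rw [← hι, div_pow, ← neg_div, div_eq_div_iff (pow_ne_zero _ hdι) hu] at hβ
  rw [map_add, map_mul, map_mul, map_pow, map_pow, map_zero, hβ]
  ring

theorem irreducible_chartPoly (K : Type u) [Field K] (p : ℕ) [Fact p.Prime] [CharP K p] :
    Irreducible (chartPoly K p) := by
  obtain ⟨e, he⟩ := chartPoly_eq K p
  rw [← he, MulEquiv.irreducible_iff]
  exact irreducible_chartPoly' K p

/-- the chart ring `k[b, e, c] / (c^q - c + b^p (e^q - e))`. -/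
abbrev ChartRing (k : Type u) [CommRing k] (p : ℕ) : Type u := AdjoinRoot (chartPoly k p)

theorem isDomain_chartRing (K : Type u) [Field K] (p : ℕ) [Fact p.Prime] [CharP K p] :
    IsDomain (ChartRing K p) :=
  AdjoinRoot.isDomain_of_prime (irreducible_chartPoly K p).prime

theorem monic_chartPoly (k : Type u) [CommRing k] [Nontrivial k] (p : ℕ) (hp : 1 < p) :
    (chartPoly k p).Monic := by
  have hp2 : 1 < p ^ 2 := Nat.one_lt_pow (by norm_num) hp
  rw [chartPoly, sub_add_eq_add_sub, add_sub_assoc]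
  apply (Polynomial.monic_X_pow (p ^ 2)).add_of_left
  rw [Polynomial.degree_X_pow]
  refine (Polynomial.degree_sub_le _ _).trans_lt (max_lt ?_ ?_)
  · refine Polynomial.degree_C_le.trans_lt ?_
    exact_mod_cast (by omega : 0 < p ^ 2)
  · rw [Polynomial.degree_X]
    exact_mod_cast hp2

end Pool.Agent.Helper71
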