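import Mathlib
import Pool.Agent.Helper71.ChartRing

namespace Pool.Agent.Helper71

open MvPolynomial TensorProduct

universe u

section

variable (k : Type u) [Field k] (p : ℕ)

/-- the element `b` of the chart ring -/
noncomputable def cb : ChartRing k p := AdjoinRoot.of (chartPoly k p) (X 0)

/-- the element `e` of the chart ring -/
noncomputable def ce : ChartRing k p := AdjoinRoot.of (chartPoly k p) (X 1)

/-- the element `c` of the chart ring -/
noncomputable def cc : ChartRing k p := AdjoinRoot.root (chartPoly k p)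

theorem eval₂_chartPoly {S : Type*} [CommRing S] (i : MvPolynomial (Fin 2) k →+* S) (x : S) :
    (chartPoly k p).eval₂ i x =
      x ^ (p ^ 2) - x + i (X 0) ^ p * (i (X 1) ^ (p ^ 2) - i (X 1)) := by
  rw [chartPoly, Polynomial.eval₂_add, Polynomial.eval₂_sub, Polynomial.eval₂_pow,
      Polynomial.eval₂_X, Polynomial.eval₂_C, map_mul, map_pow, map_sub, map_pow]

theorem chart_rel : cc k p ^ (p ^ 2) - cc k p + cb k p ^ p * (ce k p ^ (p ^ 2) - ce k p) = 0 := by
  have h := AdjoinRoot.eval₂_root (chartPoly k p)
  rw [eval₂_chartPoly] at h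
  exact h

theorem chart_adjoin : Algebra.adjoin k {cb k p, ce k p, cc k p} = ⊤ := by
  rw [eq_top_iff]
  intro x _
  obtain ⟨f, rfl⟩ := AdjoinRoot.mk_surjective x
  have hC : ∀ g : MvPolynomial (Fin 2) k, AdjoinRoot.of (chartPoly k p) g ∈
      Algebra.adjoin k {cb k p, ce k p, cc k p} := by
    intro g
    induction g using MvPolynomial.induction_on with
    | C a =>
      have : AdjoinRoot.of (chartPoly k p) (C a) = algebraMap k (ChartRing k p) a := rfl
      rw [this]
      exact Subalgebra.algebraMap_mem _ _
    | add f g hf hg =>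
      rw [map_add]
      exact add_mem hf hg
    | mul_X f i hf =>
      rw [map_mul]
      refine mul_mem hf (Algebra.subset_adjoin ?_)
      fin_cases i
      · left; rfl
      · right; left; rfl
  induction f using Polynomial.induction_on' with
  | add f g hf hg =>
    rw [map_add]
    exact add_mem (hf trivial) (hg trivial)
  | monomial n a =>
    rw [← Polynomial.C_mul_X_pow_eq_monomial, map_mul, map_pow, AdjoinRoot.mk_C, AdjoinRoot.mk_X]
    refine mul_mem (hC a) (pow_mem (Algebra.subset_adjoin ?_) _)
    right; right; rfl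

variable {k p} in
/-- a homomorphism from the chart ring, given by a solution of the equation -/
noncomputable def chartHom {A : Type u} [CommRing A] [Algebra k A] (b e c : A)
    (h : c ^ (p ^ 2) - c + b ^ p * (e ^ (p ^ 2) - e) = 0) : ChartRing k p →ₐ[k] A :=
  AdjoinRoot.liftAlgHom (chartPoly k p) (aeval ![b, e]) c (by
    rw [eval₂_chartPoly]
    simp only [RingHom.coe_coe, aeval_X]
    exact h)

variable {k p} in
theorem chartHom_b {A : Type u} [CommRing A] [Algebra k A] (b e c : A)
    (h : c ^ (p ^ 2) - c + b ^ p * (e ^ (p ^ 2) - e) = 0) :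
    chartHom (k := k) b e c h (cb k p) = b := by
  rw [chartHom, cb, AdjoinRoot.liftAlgHom_of, aeval_X]
  rfl

variable {k p} in
theorem chartHom_e {A : Type u} [CommRing A] [Algebra k A] (b e c : A)
    (h : c ^ (p ^ 2) - c + b ^ p * (e ^ (p ^ 2) - e) = 0) :
    chartHom (k := k) b e c h (ce k p) = e := by
  rw [chartHom, ce, AdjoinRoot.liftAlgHom_of, aeval_X]
  rfl

variable {k p} in
theorem chartHom_c {A : Type u} [CommRing A] [Algebra k A] (b e c : A)
    (h : c ^ (p ^ 2) - c + b ^ p * (e ^ (p ^ 2) - e) = 0) :
    chartHom (k := k) b e c h (cc k p) = c := by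
  rw [chartHom, cc, AdjoinRoot.liftAlgHom_root]

variable {k p} in
theorem chartHom_injective [Fact p.Prime] [CharP k p] {F : Type u} [Field F] [Algebra k F]
    (b e c : F) (h : c ^ (p ^ 2) - c + b ^ p * (e ^ (p ^ 2) - e) = 0)
    (hbe : AlgebraicIndependent k ![b, e]) :
    Function.Injective (chartHom (k := k) b e c h) := by
  have := isDomain_chartRing k p
  have hmon := monic_chartPoly k p (Fact.out : p.Prime).one_lt
  have hfin := hmon.finite_adjoinRoot
  have hint : Algebra.IsIntegral (MvPolynomial (Fin 2) k) (ChartRing k p) := inferInstance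
  rw [injective_iff_map_eq_zero]
  intro x hx
  have hbot : RingHom.ker (chartHom (k := k) b e c h).toRingHom = ⊥ := by
    apply Ideal.eq_bot_of_comap_eq_bot (R := MvPolynomial (Fin 2) k)
    rw [eq_bot_iff]
    intro g hg
    rw [Ideal.mem_comap, RingHom.mem_ker] at hg
    have hg' : aeval ![b, e] g = 0 := by
      have : chartHom (k := k) b e c h (AdjoinRoot.of (chartPoly k p) g) = 0 := hg
      rwa [chartHom, AdjoinRoot.liftAlgHom_of] at this
    have h0 : (aeval ![b, e] : MvPolynomial (Fin 2) k →ₐ[k] F) g =
        (aeval ![b, e] : MvPolynomial (Fin 2) k →ₐ[k] F) 0 := by rw [hg', map_zero]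
    exact hbe h0
  have hx' : x ∈ RingHom.ker (chartHom (k := k) b e c h).toRingHom := hx
  rw [hbot] at hx'
  exact hx'

end

end Pool.Agent.Helper71
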