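import Mathlib
import Pool.Agent.Helper71.ChartHom

namespace Pool.Agent.Helper71

open MvPolynomial TensorProduct Set

universe u

/-- function-field points `(x, y)` of the surface that generate the function field -/
structure Sys (k : Type u) [Field k] (p : ℕ) {F : Type u} [Field F] [Algebra k F]
    (x y : Fin 3 → F) : Prop where
  h1 : ∑ i, x i * y i ^ p = 0
  h2 : ∑ i, x i ^ p * y i = 0
  hx : ∀ i, x i ≠ 0
  hy : ∀ i, y i ≠ 0
  gen : IntermediateField.adjoin k (range (fun s : Fin 3 × Fin 3 => x s.1 / x s.2) ∪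
    range (fun s : Fin 3 × Fin 3 => y s.1 / y s.2)) = ⊤
  trdeg : Algebra.trdeg k F = 2

theorem sum_three {A : Type*} [AddCommMonoid A] (f : Fin 3 → A) {i j l : Fin 3} (hij : i ≠ j)
    (hil : i ≠ l) (hjl : j ≠ l) : ∑ m, f m = f i + f j + f l := by
  rw [Fin.sum_univ_three]
  fin_cases i <;> fin_cases j <;> fin_cases l <;> simp at hij hil hjl ⊢ <;> abel

theorem three_cases {i j l : Fin 3} (hij : i ≠ j) (hil : i ≠ l) (hjl : j ≠ l) (s : Fin 3) :
    s = i ∨ s = j ∨ s = l := by
  revert s i j l
  decide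

/-- the eliminated equation -/
theorem elim_eq {A : Type u} [CommRing A] (p : ℕ) [Fact p.Prime] [CharP A p] (a b c e : A)
    (h1 : c ^ p + a + b * e ^ p = 0) (h2 : c + a ^ p + b ^ p * e = 0) :
    c ^ (p ^ 2) - c + b ^ p * (e ^ (p ^ 2) - e) = 0 := by
  have ha : a = - (c ^ p + b * e ^ p) := by linear_combination h1
  have : ExpChar A p := ExpChar.prime Fact.out
  have h3 : a ^ p = - (c ^ (p ^ 2) + b ^ p * e ^ (p ^ 2)) := by
    have h4 : (-1 : A) ^ p = -1 := neg_one_pow_expChar A p
    rw [ha, neg_pow, h4, add_pow_expChar, mul_pow, sq, ← pow_mul, ← pow_mul]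
    ring
  rw [h3] at h2
  linear_combination -h2

variable {k : Type u} [Field k] {p : ℕ} {F : Type u} [Field F] [Algebra k F] {x y : Fin 3 → F}

theorem Sys.rel1 (h : Sys k p x y) {i j l : Fin 3} (hij : i ≠ j) (hil : i ≠ l) (hjl : j ≠ l) :
    (y i / y j) ^ p + x j / x i + x l / x i * (y l / y j) ^ p = 0 := by
  have h1 := h.h1
  rw [sum_three _ hij hil hjl] at h1
  have hx := h.hx i
  have hy := pow_ne_zero p (h.hy j)
  rw [div_pow, div_pow]
  field_simp
  linear_combination h1

theorem Sys.rel2 (h : Sys k p x y) {i j l : Fin 3} (hij : i ≠ j) (hil : i ≠ l) (hjl : j ≠ l) :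
    y i / y j + (x j / x i) ^ p + (x l / x i) ^ p * (y l / y j) = 0 := by
  have h2 := h.h2
  rw [sum_three _ hij hil hjl] at h2
  have hx := pow_ne_zero p (h.hx i)
  have hy := h.hy j
  rw [div_pow, div_pow]
  field_simp
  linear_combination h2

theorem Sys.rel [Fact p.Prime] [CharP k p] (h : Sys k p x y) {i j l : Fin 3} (hij : i ≠ j)
    (hil : i ≠ l) (hjl : j ≠ l) :
    (y i / y j) ^ (p ^ 2) - y i / y j +
      (x l / x i) ^ p * ((y l / y j) ^ (p ^ 2) - y l / y j) = 0 := by
  have : CharP F p := charP_of_injective_algebraMap (algebraMap k F).injective p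
  exact elim_eq p _ _ _ _ (h.rel1 hij hil hjl) (h.rel2 hij hil hjl)

theorem Sys.isAlgebraic [Fact p.Prime] [CharP k p] (h : Sys k p x y) {i j l : Fin 3} (hij : i ≠ j)
    (hil : i ≠ l) (hjl : j ≠ l) :
    Algebra.IsAlgebraic (Algebra.adjoin k (range ![x l / x i, y l / y j])) F := by
  obtain ⟨A, hA⟩ : ∃ A, A = Algebra.adjoin k (range ![x l / x i, y l / y j]) := ⟨_, rfl⟩
  rw [← hA]
  have hb : x l / x i ∈ A := by
    rw [hA]; exact Algebra.subset_adjoin ⟨0, rfl⟩
  have he : y l / y j ∈ A := by
    rw [hA]; exact Algebra.subset_adjoin ⟨1, rfl⟩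
  have alg : ∀ z ∈ A, IsAlgebraic A z := fun z hz => isAlgebraic_algebraMap (⟨z, hz⟩ : A)
  have hp : p.Prime := Fact.out
  have hc : IsAlgebraic A (y i / y j) := by
    obtain ⟨d, hd⟩ : ∃ d : A, (d : F) = (x l / x i) ^ p * ((y l / y j) ^ (p ^ 2) - y l / y j) :=
      ⟨⟨_, mul_mem (pow_mem hb _) (sub_mem (pow_mem he _) he)⟩, rfl⟩
    refine ⟨Polynomial.X ^ (p ^ 2) - Polynomial.X + Polynomial.C d, ?_, ?_⟩
    · intro h0
      have hp2 : 1 < p ^ 2 := Nat.one_lt_pow (by norm_num) hp.one_lt
      have := congrArg (fun f => Polynomial.coeff f (p ^ 2)) h0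
      simp only [Polynomial.coeff_add, Polynomial.coeff_sub, Polynomial.coeff_X_pow,
        Polynomial.coeff_X, Polynomial.coeff_C, Polynomial.coeff_zero] at this
      have h12 : ¬ (1 = p ^ 2) := by omega
      have h22 : ¬ (p ^ 2 = 0) := by omega
      simp [h12, hp.ne_zero] at this
    · rw [map_add, map_sub, map_pow, Polynomial.aeval_X, Polynomial.aeval_C]
      change _ + (d : F) = 0
      rw [hd]
      exact h.rel hij hil hjl
  have ha : IsAlgebraic A (x j / x i) := by
    have : x j / x i = - ((y i / y j) ^ p + x l / x i * (y l / y j) ^ p) := by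
      linear_combination h.rel1 hij hil hjl
    rw [this]
    exact ((hc.pow p).add ((alg _ hb).mul ((alg _ he).pow p))).neg
  have h3 : ∀ s : Fin 3, s = i ∨ s = j ∨ s = l := three_cases hij hil hjl
  have hxs : ∀ s, IsAlgebraic A (x s / x i) := by
    intro s
    rcases h3 s with rfl | rfl | rfl
    · rw [div_self (h.hx _)]; exact isAlgebraic_one
    · exact ha
    · exact alg _ hb
  have hys : ∀ s, IsAlgebraic A (y s / y j) := by
    intro s
    rcases h3 s with rfl | rfl | rfl
    · exact hc
    · rw [div_self (h.hy _)]; exact isAlgebraic_one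
    · exact alg _ he
  constructor
  intro z
  have hz : z ∈ (⊤ : IntermediateField k F) := trivial
  rw [← h.gen] at hz
  induction hz using IntermediateField.adjoin_induction with
  | mem z hz =>
    rcases hz with ⟨⟨s, t⟩, rfl⟩ | ⟨⟨s, t⟩, rfl⟩
    · have : x s / x t = (x s / x i) * (x t / x i)⁻¹ := by
        have := h.hx i
        have := h.hx t
        field_simp
      change IsAlgebraic A (x s / x t)
      rw [this]
      exact (hxs s).mul (hxs t).inv
    · have : y s / y t = (y s / y j) * (y t / y j)⁻¹ := by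
        have := h.hy j
        have := h.hy t
        field_simp
      change IsAlgebraic A (y s / y t)
      rw [this]
      exact (hys s).mul (hys t).inv
  | algebraMap a => exact alg _ (A.algebraMap_mem a)
  | add a b _ _ ha hb => exact ha.add hb
  | inv a _ ha => exact ha.inv
  | mul a b _ _ ha hb => exact ha.mul hb

theorem Sys.algebraicIndependent [Fact p.Prime] [CharP k p] (h : Sys k p x y) {i j l : Fin 3}
    (hij : i ≠ j) (hil : i ≠ l) (hjl : j ≠ l) :
    AlgebraicIndependent k ![x l / x i, y l / y j] := by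
  have := h.isAlgebraic hij hil hjl
  refine (Algebra.IsAlgebraic.isTranscendenceBasis_of_lift_le_trdeg_of_finite k
    ![x l / x i, y l / y j] ?_).1
  rw [h.trdeg]
  simp

end Pool.Agent.Helper71
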