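import Mathlib
import Pool.Agent.Helper71.Sys
import Pool.Agent.Helper71.ImgChart

namespace Pool.Agent.Helper71

open AlgebraicGeometry CategoryTheory MvPolynomial HomogeneousLocalization Limits Set

universe u

attribute [local instance] MvPolynomial.gradedAlgebra

/-- enumeration of the pairs -/
def e33 : Fin 3 × Fin 3 ≃ Fin (8 + 1) := (finProdFinEquiv : Fin 3 × Fin 3 ≃ Fin (3 * 3))

/-- the index of the coordinate `x_i y_j` -/
def idx (i j : Fin 3) : Fin (8 + 1) := e33 (i, j)

/-- Segre coordinates -/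
def seg {A : Type u} [Mul A] (x y : Fin 3 → A) : Fin (8 + 1) → A :=
  fun m => x (e33.symm m).1 * y (e33.symm m).2

theorem seg_idx {A : Type u} [Mul A] (x y : Fin 3 → A) (i j : Fin 3) :
    seg x y (idx i j) = x i * y j := by
  unfold seg idx
  rw [Equiv.symm_apply_apply]

theorem idx_cases (m : Fin (8 + 1)) : ∃ i j, m = idx i j :=
  ⟨(e33.symm m).1, (e33.symm m).2, (Equiv.apply_symm_apply e33 m).symm⟩

theorem seg_map {A B : Type u} [Mul A] [Mul B] (x y : Fin 3 → A) {G : Type*} [FunLike G A B]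
    [MulHomClass G A B] (f : G) (m) : f (seg x y m) = seg (fun i => f (x i)) (fun i => f (y i)) m :=
  map_mul f _ _

theorem seg_smul {A : Type u} [CommRing A] (x y : Fin 3 → A) (a b : A) (m) :
    seg (fun i => a * x i) (fun i => b * y i) m = (a * b) * seg x y m := by
  unfold seg
  ring

variable {k : Type u} [Field k] {p : ℕ}

variable (k p) in
/-- first coordinates on the chart -/
noncomputable def chX (i j : Fin 3) : Fin 3 → ChartRing k p :=
  fun s => if s = i then 1 else if s = j then -(cc k p ^ p + cb k p * ce k p ^ p) else cb k p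

variable (k p) in
/-- second coordinates on the chart -/
noncomputable def chY (i j : Fin 3) : Fin 3 → ChartRing k p :=
  fun s => if s = i then cc k p else if s = j then 1 else ce k p

theorem chX_i (i j : Fin 3) : chX k p i j i = 1 := if_pos rfl

theorem chX_j {i j : Fin 3} (hij : i ≠ j) :
    chX k p i j j = -(cc k p ^ p + cb k p * ce k p ^ p) := by
  rw [chX, if_neg hij.symm, if_pos rfl]

theorem chX_l {i j l : Fin 3} (hil : i ≠ l) (hjl : j ≠ l) : chX k p i j l = cb k p := by
  rw [chX, if_neg hil.symm, if_neg hjl.symm]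

theorem chY_i (i j : Fin 3) : chY k p i j i = cc k p := if_pos rfl

theorem chY_j {i j : Fin 3} (hij : i ≠ j) : chY k p i j j = 1 := by
  rw [chY, if_neg hij.symm, if_pos rfl]

theorem chY_l {i j l : Fin 3} (hil : i ≠ l) (hjl : j ≠ l) : chY k p i j l = ce k p := by
  rw [chY, if_neg hil.symm, if_neg hjl.symm]

theorem ch_unit {i j : Fin 3} (hij : i ≠ j) :
    IsUnit (seg (chX k p i j) (chY k p i j) (idx i j)) := by
  rw [seg_idx, chX_i, chY_j hij, mul_one]
  exact isUnit_one

theorem ch_surjective {i j l : Fin 3} (hij : i ≠ j) (hil : i ≠ l) (hjl : j ≠ l) :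
    Function.Surjective (aeval (seg (chX k p i j) (chY k p i j)) :
      MvPolynomial (Fin (8 + 1)) k →ₐ[k] ChartRing k p) := by
  rw [← AlgHom.range_eq_top, eq_top_iff, ← chart_adjoin k p]
  apply Algebra.adjoin_le
  rintro z (rfl | rfl | rfl)
  · refine ⟨X (idx l j), ?_⟩
    change aeval _ _ = _
    rw [aeval_X, seg_idx, chX_l hil hjl, chY_j hij, mul_one]
  · refine ⟨X (idx i l), ?_⟩
    change aeval _ _ = _
    rw [aeval_X, seg_idx, chX_i, chY_l hil hjl, one_mul]
  · refine ⟨X (idx i i), ?_⟩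
    change aeval _ _ = _
    rw [aeval_X, seg_idx, chX_i, chY_i, one_mul]

variable {F : Type u} [Field F] [Algebra k F] {x y : Fin 3 → F} [Fact p.Prime] [CharP k p]

/-- the map from the chart ring to the function field -/
noncomputable def Sys.θ (h : Sys k p x y) {i j l : Fin 3} (hij : i ≠ j) (hil : i ≠ l)
    (hjl : j ≠ l) : ChartRing k p →ₐ[k] F :=
  chartHom (x l / x i) (y l / y j) (y i / y j) (h.rel hij hil hjl)

theorem Sys.θ_injective (h : Sys k p x y) {i j l : Fin 3} (hij : i ≠ j) (hil : i ≠ l)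
    (hjl : j ≠ l) : Function.Injective (h.θ hij hil hjl) :=
  chartHom_injective _ _ _ _ (h.algebraicIndependent hij hil hjl)

theorem Sys.θ_X (h : Sys k p x y) {i j l : Fin 3} (hij : i ≠ j) (hil : i ≠ l)
    (hjl : j ≠ l) (s : Fin 3) : h.θ hij hil hjl (chX k p i j s) = x s / x i := by
  rcases three_cases hij hil hjl s with rfl | rfl | rfl
  · rw [chX_i, map_one, div_self (h.hx _)]
  · rw [chX_j hij, map_neg, map_add, map_mul, map_pow, map_pow, Sys.θ, chartHom_b, chartHom_c,
      chartHom_e]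
    linear_combination - h.rel1 hij hil hjl
  · rw [chX_l hil hjl, Sys.θ, chartHom_b]

theorem Sys.θ_Y (h : Sys k p x y) {i j l : Fin 3} (hij : i ≠ j) (hil : i ≠ l)
    (hjl : j ≠ l) (s : Fin 3) : h.θ hij hil hjl (chY k p i j s) = y s / y j := by
  rcases three_cases hij hil hjl s with rfl | rfl | rfl
  · rw [chY_i, Sys.θ, chartHom_c]
  · rw [chY_j hij, map_one, div_self (h.hy _)]
  · rw [chY_l hil hjl, Sys.θ, chartHom_e]

omit [Fact p.Prime] [CharP k p] in
theorem Sys.seg_ne_zero (h : Sys k p x y) (m) : seg x y m ≠ 0 :=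
  mul_ne_zero (h.hx _) (h.hy _)

omit [Fact p.Prime] [CharP k p] in
theorem Sys.seg_unit (h : Sys k p x y) (m) : IsUnit (seg x y m) :=
  isUnit_iff_ne_zero.2 (h.seg_ne_zero m)

theorem Sys.seg_θ (h : Sys k p x y) {i j l : Fin 3} (hij : i ≠ j) (hil : i ≠ l)
    (hjl : j ≠ l) (m) : seg x y (idx i j) * h.θ hij hil hjl (seg (chX k p i j) (chY k p i j) m) =
      seg x y m := by
  rw [seg_idx, seg_map]
  unfold seg
  beta_reduce
  rw [h.θ_X, h.θ_Y]
  have := h.hx i
  have := h.hy j
  field_simp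

/-- the surface -/
noncomputable abbrev Sys.S (h : Sys k p x y) : Scheme.{u} :=
  (pt (k := k) (idx 0 1) (seg x y) (h.seg_unit _)).image

/-- its embedding -/
noncomputable abbrev Sys.emb (h : Sys k p x y) : h.S ⟶ PP k 8 :=
  (pt (k := k) (idx 0 1) (seg x y) (h.seg_unit _)).imageι

/-- its structure morphism -/
noncomputable abbrev Sys.str (h : Sys k p x y) : h.S ⟶ Spec (.of k) :=
  h.emb ≫ PPtoSpec k 8

/-- its generic point -/
noncomputable abbrev Sys.gp (h : Sys k p x y) : Spec (.of F) ⟶ h.S :=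
  (pt (k := k) (idx 0 1) (seg x y) (h.seg_unit _)).toImage

theorem Sys.exists_chart (h : Sys k p x y) {i j l : Fin 3} (hij : i ≠ j) (hil : i ≠ l)
    (hjl : j ≠ l) :
    ∃ (c : Spec (.of (ChartRing k p)) ⟶ h.S) (_ : IsOpenImmersion c),
      c.opensRange = h.emb ⁻¹ᵁ Proj.basicOpen (hsub k 8) (X (idx i j)) ∧
      c ≫ h.emb = pt (idx i j) (seg (chX k p i j) (chY k p i j)) (ch_unit hij) ∧
      Spec.map (CommRingCat.ofHom (h.θ hij hil hjl).toRingHom) ≫ c = h.gp :=
  Helper71.exists_chart (idx 0 1) (seg x y) (h.seg_unit _) (idx i j) (h.seg_ne_zero _)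
    (h.θ hij hil hjl) (h.θ_injective hij hil hjl) _ (by
      rw [seg_idx, chX_i, chY_j hij, mul_one]) (h.seg_θ hij hil hjl) (ch_surjective hij hil hjl) _

omit [Fact p.Prime] [CharP k p] in
theorem Sys.isIntegral (h : Sys k p x y) : IsIntegral h.S := isIntegral_image _

omit [Fact p.Prime] [CharP k p] in
theorem Sys.gp_specializes (h : Sys k p x y) (q : Spec (.of F)) (z : h.S) :
    pt (k := k) (idx 0 1) (seg x y) (h.seg_unit _) q ⤳ h.emb z := by
  rw [specializes_iff_mem_closure]
  have h1 : z ∈ closure (range h.gp) := h.gp.denseRange z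
  have h2 : h.emb z ∈ closure (h.emb '' range h.gp) :=
    image_closure_subset_closure_image h.emb.continuous ⟨z, h1, rfl⟩
  have h3 : h.emb '' range h.gp =
      range (pt (k := k) (idx 0 1) (seg x y) (h.seg_unit _)) := by
    rw [← range_comp]
    have : (h.emb : h.S → PP k 8) ∘ h.gp = (h.gp ≫ h.emb) := by
      ext t; exact (Scheme.Hom.comp_apply _ _ _).symm
    rw [this, Scheme.Hom.toImage_imageι]
  rw [h3] at h2
  have h4 : range (pt (k := k) (idx 0 1) (seg x y) (h.seg_unit _)) =
      {pt (k := k) (idx 0 1) (seg x y) (h.seg_unit _) q} := by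
    ext t
    constructor
    · rintro ⟨q', rfl⟩
      rw [Subsingleton.elim q' q]
      rfl
    · rintro rfl
      exact ⟨q, rfl⟩
  rwa [h4] at h2

omit [Fact p.Prime] [CharP k p] in
theorem Sys.mem_of_aeval_eq_zero (h : Sys k p x y) (z : h.S) (f : MvPolynomial (Fin (8 + 1)) k)
    {e : ℕ} (hf : f ∈ hsub k 8 e) (he : 0 < e) (h0 : aeval (seg x y) f = 0) :
    f ∈ ProjectiveSpectrum.asHomogeneousIdeal (h.emb z) := by
  by_contra hne
  have h1 : h.emb z ∈ Proj.basicOpen (hsub k 8) f := hne
  let q : Spec (.of F) := (⊥ : PrimeSpectrum F)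
  have h2 := (h.gp_specializes q z).mem_open (Proj.basicOpen (hsub k 8) f).isOpen h1
  apply h2
  rw [pt_mem _ _ _ f hf he, h0]
  exact zero_mem _

omit [CharP k p] in
theorem Sys.cover (h : Sys k p x y) (z : h.S) : ∃ i j l : Fin 3, i ≠ j ∧ i ≠ l ∧ j ≠ l ∧
    z ∈ h.emb ⁻¹ᵁ Proj.basicOpen (hsub k 8) (X (idx i j)) := by
  have hp : p.Prime := Fact.out
  by_contra hcon
  push Not at hcon
  have hI : ∀ i j : Fin 3, i ≠ j → (X (idx i j) : MvPolynomial (Fin (8 + 1)) k) ∈
      ProjectiveSpectrum.asHomogeneousIdeal (h.emb z) := by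
    intro i j hij
    obtain ⟨l, hil, hjl⟩ : ∃ l : Fin 3, i ≠ l ∧ j ≠ l := by
      revert i j; decide
    by_contra hne
    exact hcon i j l hij hil hjl hne
  have hprime : (ProjectiveSpectrum.asHomogeneousIdeal (h.emb z)).toIdeal.IsPrime :=
    (h.emb z).isPrime
  have hD : ∀ i : Fin 3, (X (idx i i) : MvPolynomial (Fin (8 + 1)) k) ∈
      ProjectiveSpectrum.asHomogeneousIdeal (h.emb z) := by
    intro i
    obtain ⟨j, l, hij, hil, hjl⟩ : ∃ j l : Fin 3, i ≠ j ∧ i ≠ l ∧ j ≠ l := by
      revert i; decide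
    have h1 : (X (idx i i) ^ p + (X (idx i j) ^ (p - 1) * X (idx j j) +
        X (idx i l) ^ (p - 1) * X (idx l l)) : MvPolynomial (Fin (8 + 1)) k) ∈
        ProjectiveSpectrum.asHomogeneousIdeal (h.emb z) := by
      have hp1 : p - 1 + 1 = p := Nat.succ_pred_eq_of_pos hp.pos
      apply h.mem_of_aeval_eq_zero z _ (e := p)
      · apply Submodule.add_mem
        · exact isHomogeneous_X_pow _ _
        · apply Submodule.add_mem
          · have := (isHomogeneous_X_pow (R := k) (idx i j) (p - 1)).mul (isHomogeneous_X k (idx j j))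
            rwa [hp1] at this
          · have := (isHomogeneous_X_pow (R := k) (idx i l) (p - 1)).mul (isHomogeneous_X k (idx l l))
            rwa [hp1] at this
      · exact hp.pos
      · simp only [map_add, map_mul, map_pow, aeval_X, seg_idx]
        have h1 := h.h1
        rw [sum_three _ hij hil hjl] at h1
        have e1 : (x i * y i) ^ p = x i ^ (p - 1) * (x i * y i ^ p) := by
          rw [mul_pow]
          conv_lhs => rw [← hp1, pow_succ, hp1]
          ring
        have e2 : ∀ j, (x i * y j) ^ (p - 1) * (x j * y j) = x i ^ (p - 1) * (x j * y j ^ p) := by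
          intro j
          rw [mul_pow]
          conv_rhs => rw [← hp1, pow_succ, hp1]
          ring
        rw [e1, e2, e2]
        linear_combination x i ^ (p - 1) * h1
    have hp1 : p - 1 ≠ 0 := by have := hp.two_le; omega
    have h2 : (X (idx i j) ^ (p - 1) * X (idx j j) +
        X (idx i l) ^ (p - 1) * X (idx l l) : MvPolynomial (Fin (8 + 1)) k) ∈
        (ProjectiveSpectrum.asHomogeneousIdeal (h.emb z)).toIdeal :=
      Ideal.add_mem _ (Ideal.mul_mem_right _ _ (Ideal.pow_mem_of_mem _ (hI i j hij) _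
        (Nat.pos_of_ne_zero hp1))) (Ideal.mul_mem_right _ _ (Ideal.pow_mem_of_mem _
        (hI i l hil) _ (Nat.pos_of_ne_zero hp1)))
    exact hprime.mem_of_pow_mem _ ((Ideal.add_mem_iff_left _ h2).1 h1)
  have hall : ∀ m : Fin (8 + 1), (X m : MvPolynomial (Fin (8 + 1)) k) ∈
      ProjectiveSpectrum.asHomogeneousIdeal (h.emb z) := by
    intro m
    obtain ⟨i, j, rfl⟩ := idx_cases m
    by_cases hij : i = j
    · rw [hij]; exact hD j
    · exact hI i j hij
  have htop : h.emb z ∈ (⨆ i : Fin (8 + 1), Proj.basicOpen (hsub k 8) (X i)) := by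
    rw [iSup_basicOpen_X]; trivial
  rw [TopologicalSpace.Opens.mem_iSup] at htop
  obtain ⟨m, hm⟩ := htop
  exact hm (hall m)

end Pool.Agent.Helper71
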