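import Mathlib
import Pool.Agent.Helper71.SegChart

namespace Pool.Agent.Helper71

open MvPolynomial Set

universe u

/-- points of the surface with nonvanishing coordinates -/
structure Pre (p : ℕ) {F : Type u} [Field F] (x y : Fin 3 → F) : Prop where
  h1 : ∑ i, x i * y i ^ p = 0
  h2 : ∑ i, x i ^ p * y i = 0
  hx : ∀ i, x i ≠ 0
  hy : ∀ i, y i ≠ 0

section

variable {p : ℕ} {F : Type u} [Field F] {x y : Fin 3 → F}

theorem Pre.rel1 (h : Pre p x y) {i j l : Fin 3} (hij : i ≠ j) (hil : i ≠ l) (hjl : j ≠ l) :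
    (y i / y j) ^ p + x j / x i + x l / x i * (y l / y j) ^ p = 0 := by
  have h1 := h.h1
  rw [sum_three _ hij hil hjl] at h1
  have hx := h.hx i
  have hy := pow_ne_zero p (h.hy j)
  rw [div_pow, div_pow]
  field_simp
  linear_combination h1

theorem Pre.rel2 (h : Pre p x y) {i j l : Fin 3} (hij : i ≠ j) (hil : i ≠ l) (hjl : j ≠ l) :
    y i / y j + (x j / x i) ^ p + (x l / x i) ^ p * (y l / y j) = 0 := by
  have h2 := h.h2
  rw [sum_three _ hij hil hjl] at h2
  have hx := pow_ne_zero p (h.hx i)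
  have hy := h.hy j
  rw [div_pow, div_pow]
  field_simp
  linear_combination h2

theorem Pre.rel [Fact p.Prime] [CharP F p] (h : Pre p x y) {i j l : Fin 3} (hij : i ≠ j)
    (hil : i ≠ l) (hjl : j ≠ l) :
    (y i / y j) ^ (p ^ 2) - y i / y j +
      (x l / x i) ^ p * ((y l / y j) ^ (p ^ 2) - y l / y j) = 0 :=
  elim_eq p _ _ _ _ (h.rel1 hij hil hjl) (h.rel2 hij hil hjl)

variable {k : Type u} [Field k] [Algebra k F] [Fact p.Prime] [CharP F p]

variable (k) in
/-- the map from the chart ring given by a point -/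
noncomputable def Pre.θ (h : Pre p x y) {i j l : Fin 3} (hij : i ≠ j) (hil : i ≠ l)
    (hjl : j ≠ l) : ChartRing k p →ₐ[k] F :=
  chartHom (x l / x i) (y l / y j) (y i / y j) (h.rel hij hil hjl)

theorem Pre.θ_X (h : Pre p x y) {i j l : Fin 3} (hij : i ≠ j) (hil : i ≠ l)
    (hjl : j ≠ l) (s : Fin 3) : h.θ k hij hil hjl (chX k p i j s) = x s / x i := by
  rcases three_cases hij hil hjl s with rfl | rfl | rfl
  · rw [chX_i, map_one, div_self (h.hx _)]
  · rw [chX_j hij, map_neg, map_add, map_mul, map_pow, map_pow, Pre.θ, chartHom_b, chartHom_c,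
      chartHom_e]
    linear_combination - h.rel1 hij hil hjl
  · rw [chX_l hil hjl, Pre.θ, chartHom_b]

theorem Pre.θ_Y (h : Pre p x y) {i j l : Fin 3} (hij : i ≠ j) (hil : i ≠ l)
    (hjl : j ≠ l) (s : Fin 3) : h.θ k hij hil hjl (chY k p i j s) = y s / y j := by
  rcases three_cases hij hil hjl s with rfl | rfl | rfl
  · rw [chY_i, Pre.θ, chartHom_c]
  · rw [chY_j hij, map_one, div_self (h.hy _)]
  · rw [chY_l hil hjl, Pre.θ, chartHom_e]

omit [Fact p.Prime] [CharP F p] in
theorem Pre.seg_ne_zero (h : Pre p x y) (m) : seg x y m ≠ 0 :=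
  mul_ne_zero (h.hx _) (h.hy _)

omit [Fact p.Prime] [CharP F p] in
theorem Pre.seg_unit (h : Pre p x y) (m) : IsUnit (seg x y m) :=
  isUnit_iff_ne_zero.2 (h.seg_ne_zero m)

theorem Pre.seg_θ (h : Pre p x y) {i j l : Fin 3} (hij : i ≠ j) (hil : i ≠ l)
    (hjl : j ≠ l) (m) : seg x y (idx i j) * h.θ k hij hil hjl (seg (chX k p i j) (chY k p i j) m) =
      seg x y m := by
  rw [seg_idx, seg_map]
  unfold seg
  beta_reduce
  rw [h.θ_X, h.θ_Y]
  have := h.hx i
  have := h.hy j
  field_simp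

end

section

variable (k : Type u) [Field k] (p : ℕ)

theorem ch_eq1 {i j l : Fin 3} (hij : i ≠ j) (hil : i ≠ l) (hjl : j ≠ l) :
    ∑ s, chX k p i j s * chY k p i j s ^ p = 0 := by
  rw [sum_three _ hij hil hjl, chX_i, chY_i, chX_j hij, chY_j hij, chX_l hil hjl, chY_l hil hjl]
  ring

theorem ch_eq2 [Fact p.Prime] [CharP k p] {i j l : Fin 3} (hij : i ≠ j) (hil : i ≠ l)
    (hjl : j ≠ l) : ∑ s, chX k p i j s ^ p * chY k p i j s = 0 := by
  rw [sum_three _ hij hil hjl, chX_i, chY_i, chX_j hij, chY_j hij, chX_l hil hjl, chY_l hil hjl]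
  have := isDomain_chartRing k p
  have : CharP (ChartRing k p) p :=
    charP_of_injective_algebraMap (algebraMap k (ChartRing k p)).injective p
  have : ExpChar (ChartRing k p) p := ExpChar.prime Fact.out
  have h4 : (-1 : ChartRing k p) ^ p = -1 := neg_one_pow_expChar _ p
  rw [neg_pow, h4, add_pow_expChar, mul_pow, ← pow_mul, ← pow_mul]
  linear_combination - (chart_rel k p)

end

/-- cross product -/
def crs {R : Type u} [CommRing R] (v w : Fin 3 → R) : Fin 3 → R :=
  ![v 1 * w 2 - v 2 * w 1, v 2 * w 0 - v 0 * w 2, v 0 * w 1 - v 1 * w 0]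

theorem crs_map {R S : Type u} [CommRing R] [CommRing S] (f : R →+* S) (v w : Fin 3 → R)
    (s : Fin 3) : f (crs v w s) = crs (fun i => f (v i)) (fun i => f (w i)) s := by
  fin_cases s <;> simp [crs]

theorem crs_smul {R : Type u} [CommRing R] (a b : R) (v w : Fin 3 → R) (s : Fin 3) :
    crs (fun i => a * v i) (fun i => b * w i) s = a * b * crs v w s := by
  fin_cases s <;> simp [crs] <;> ring

theorem dot_crs_left {R : Type u} [CommRing R] (v w : Fin 3 → R) :
    ∑ s, v s * crs v w s = 0 := by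
  rw [Fin.sum_univ_three]
  simp [crs]
  ring

theorem dot_crs_right {R : Type u} [CommRing R] (v w : Fin 3 → R) :
    ∑ s, w s * crs v w s = 0 := by
  rw [Fin.sum_univ_three]
  simp [crs]
  ring

/-- `v × w` is proportional to any vector orthogonal to `v` and `w`. -/
theorem crs_prop {R : Type u} [CommRing R] (v w z : Fin 3 → R) (h1 : ∑ s, v s * z s = 0)
    (h2 : ∑ s, w s * z s = 0) (s t : Fin 3) : crs v w s * z t = crs v w t * z s := by
  rw [Fin.sum_univ_three] at h1 h2
  fin_cases s <;> fin_cases t <;> simp [crs]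
  · linear_combination w 2 * h1 - v 2 * h2
  · linear_combination (-w 1) * h1 + v 1 * h2
  · linear_combination (-w 2) * h1 + v 2 * h2
  · linear_combination w 0 * h1 - v 0 * h2
  · linear_combination w 1 * h1 - v 1 * h2
  · linear_combination (- w 0) * h1 + v 0 * h2

/-- relation between two specializations -/
theorem specialization_aux {k B Λ E κ : Type u} [Field k] [CommRing B] [Algebra k B]
    [CommRing Λ] [Algebra k Λ] [CommRing E] [IsDomain E] [Algebra k E]
    [CommRing κ] [IsDomain κ] [Algebra k κ] (θ : B →ₐ[k] E) (π : B →ₐ[k] κ) (j : Λ →ₐ[k] E)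
    (ι : Λ →ₐ[k] κ) (hj : Function.Injective j) (S : Set B) (hS : Algebra.adjoin k S = ⊤)
    (hgen : ∀ f ∈ S, ∃ n d, ι d ≠ 0 ∧ θ f * j d = j n ∧ π f * ι d = ι n) (f : B)
    (hf : θ f = 0) : π f = 0 := by
  have key : ∀ f : B, ∃ n d, ι d ≠ 0 ∧ θ f * j d = j n ∧ π f * ι d = ι n := by
    intro f
    have hfS : f ∈ Algebra.adjoin k S := by rw [hS]; trivial
    induction hfS using Algebra.adjoin_induction with
    | mem z hz => exact hgen z hz
    | algebraMap r =>
      refine ⟨algebraMap k Λ r, 1, ?_, ?_, ?_⟩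
      · rw [map_one]; exact one_ne_zero
      · rw [map_one, mul_one, AlgHom.commutes, AlgHom.commutes]
      · rw [map_one, mul_one, AlgHom.commutes, AlgHom.commutes]
    | add a b _ _ ha hb =>
      obtain ⟨n, d, h1, h2, h3⟩ := ha
      obtain ⟨n', d', h1', h2', h3'⟩ := hb
      refine ⟨n * d' + n' * d, d * d', ?_, ?_, ?_⟩
      · rw [map_mul]; exact mul_ne_zero h1 h1'
      · rw [map_add, map_mul, map_add, map_mul, map_mul, ← h2, ← h2']; ring
      · rw [map_add, map_mul, map_add, map_mul, map_mul, ← h3, ← h3']; ring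
    | mul a b _ _ ha hb =>
      obtain ⟨n, d, h1, h2, h3⟩ := ha
      obtain ⟨n', d', h1', h2', h3'⟩ := hb
      refine ⟨n * n', d * d', ?_, ?_, ?_⟩
      · rw [map_mul]; exact mul_ne_zero h1 h1'
      · rw [map_mul, map_mul, map_mul, ← h2, ← h2']; ring
      · rw [map_mul, map_mul, map_mul, ← h3, ← h3']; ring
  obtain ⟨n, d, h1, h2, h3⟩ := key f
  rw [hf, zero_mul] at h2
  have hn : n = 0 := hj (by rw [← h2, map_zero])
  rw [hn, map_zero] at h3
  exact (mul_eq_zero.1 h3).resolve_right h1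

end Pool.Agent.Helper71
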