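import Mathlib
import Pool.Agent.Helper71.CurveAlg

namespace Pool.Agent.Helper71

open MvPolynomial Set

universe u

section

variable {k : Type u} [Field k]

/-- the point with parameters `a, b` on the line `c' · v = 0` -/
noncomputable def vv {R : Type u} [CommRing R] [Algebra k R] (c' : Fin 3 → k) (a b : R) :
    Fin 3 → R :=
  ![algebraMap k R (c' 1) * a, -(algebraMap k R (c' 0)) * a + algebraMap k R (c' 2) * b,
    -(algebraMap k R (c' 1)) * b]

theorem vv_map {R S : Type u} [CommRing R] [Algebra k R] [CommRing S] [Algebra k S]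
    (f : R →ₐ[k] S) (c' : Fin 3 → k) (a b : R) (s : Fin 3) :
    f (vv c' a b s) = vv c' (f a) (f b) s := by
  fin_cases s <;> simp [vv]

theorem vv_orth {R : Type u} [CommRing R] [Algebra k R] (c' : Fin 3 → k) (a b : R) :
    ∑ s, algebraMap k R (c' s) * vv c' a b s = 0 := by
  rw [Fin.sum_univ_three]
  simp only [vv, Matrix.cons_val_zero, Matrix.cons_val_one, Matrix.cons_val]
  ring

/-- generic point of the line -/
noncomputable def VV (c' : Fin 3 → k) : Fin 3 → MvPolynomial (Fin 2) k := vv c' (X 0) (X 1)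

/-- the corresponding second coordinates -/
noncomputable def WW (p : ℕ) (c' : Fin 3 → k) : Fin 3 → MvPolynomial (Fin 2) k :=
  crs (VV c') (fun s => VV c' s ^ (p ^ 2))

theorem VV_ne_zero (c' : Fin 3 → k) (hc' : ∀ s, c' s ≠ 0) (s : Fin 3) : VV c' s ≠ 0 := by
  fin_cases s
  · change (C (c' 1) * X 0 : MvPolynomial (Fin 2) k) ≠ 0
    exact mul_ne_zero (C_ne_zero.2 (hc' 1)) (X_ne_zero _)
  · change (-C (c' 0) * X 0 + C (c' 2) * X 1 : MvPolynomial (Fin 2) k) ≠ 0
    intro h
    have := congrArg (pderiv 0) h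
    rw [map_add, map_zero, neg_mul, map_neg, pderiv_C_mul, pderiv_C_mul, pderiv_X_self,
      pderiv_X_of_ne (by decide)] at this
    simp [MvPolynomial.smul_eq_C_mul] at this
    exact hc' 0 this
  · change (-C (c' 1) * X 1 : MvPolynomial (Fin 2) k) ≠ 0
    exact mul_ne_zero (neg_ne_zero.2 (C_ne_zero.2 (hc' 1))) (X_ne_zero _)

variable (p : ℕ) [Fact p.Prime] [CharP k p]

theorem pderiv_pow_q (f : MvPolynomial (Fin 2) k) (i : Fin 2) : pderiv i (f ^ (p ^ 2)) = 0 := by
  rw [Derivation.leibniz_pow, nsmul_eq_mul]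
  push_cast
  rw [CharP.cast_eq_zero, sq, zero_mul, zero_mul]

theorem pderiv_VV0 (c' : Fin 3 → k) : pderiv 0 (VV c' 0) = C (c' 1) := by
  change pderiv 0 (C (c' 1) * X 0 : MvPolynomial (Fin 2) k) = _
  rw [pderiv_C_mul, pderiv_X_self]
  simp [MvPolynomial.smul_eq_C_mul]

theorem pderiv_VV1 (c' : Fin 3 → k) : pderiv 0 (VV c' 1) = -C (c' 0) := by
  change pderiv 0 (-C (c' 0) * X 0 + C (c' 2) * X 1 : MvPolynomial (Fin 2) k) = _
  rw [map_add, neg_mul, map_neg, pderiv_C_mul, pderiv_C_mul, pderiv_X_self,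
      pderiv_X_of_ne (by decide)]
  simp [MvPolynomial.smul_eq_C_mul]

theorem pderiv_VV2 (c' : Fin 3 → k) : pderiv 0 (VV c' 2) = 0 := by
  change pderiv 0 (-C (c' 1) * X 1 : MvPolynomial (Fin 2) k) = _
  rw [neg_mul, map_neg, pderiv_C_mul, pderiv_X_of_ne (by decide)]
  simp

theorem pderiv1_VV0 (c' : Fin 3 → k) : pderiv 1 (VV c' 0) = 0 := by
  change pderiv 1 (C (c' 1) * X 0 : MvPolynomial (Fin 2) k) = _
  rw [pderiv_C_mul, pderiv_X_of_ne (by decide)]
  simp

theorem pderiv1_VV1 (c' : Fin 3 → k) : pderiv 1 (VV c' 1) = C (c' 2) := by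
  change pderiv 1 (-C (c' 0) * X 0 + C (c' 2) * X 1 : MvPolynomial (Fin 2) k) = _
  rw [map_add, neg_mul, map_neg, pderiv_C_mul, pderiv_C_mul, pderiv_X_self,
      pderiv_X_of_ne (by decide)]
  simp [MvPolynomial.smul_eq_C_mul]

theorem WW_ne_zero (c' : Fin 3 → k) (hc' : ∀ s, c' s ≠ 0) (s : Fin 3) : WW p c' s ≠ 0 := by
  have hV := VV_ne_zero c' hc'
  fin_cases s
  · change (VV c' 1 * VV c' 2 ^ (p ^ 2) - VV c' 2 * VV c' 1 ^ (p ^ 2)) ≠ 0
    intro h
    have h2 := congrArg (pderiv 0) h
    rw [map_sub, Derivation.leibniz, Derivation.leibniz, pderiv_pow_q, pderiv_pow_q, pderiv_VV1,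
      pderiv_VV2, map_zero] at h2
    simp only [smul_eq_mul, mul_zero, zero_add, sub_zero, mul_neg, neg_eq_zero] at h2
    exact mul_ne_zero (pow_ne_zero _ (hV 2)) (C_ne_zero.2 (hc' 0)) h2
  · change (VV c' 2 * VV c' 0 ^ (p ^ 2) - VV c' 0 * VV c' 2 ^ (p ^ 2)) ≠ 0
    intro h
    have h2 := congrArg (pderiv 0) h
    rw [map_sub, Derivation.leibniz, Derivation.leibniz, pderiv_pow_q, pderiv_pow_q, pderiv_VV0,
      pderiv_VV2, map_zero] at h2
    simp only [smul_eq_mul, mul_zero, zero_add, zero_sub, neg_eq_zero] at h2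
    exact mul_ne_zero (pow_ne_zero _ (hV 2)) (C_ne_zero.2 (hc' 1)) h2
  · change (VV c' 0 * VV c' 1 ^ (p ^ 2) - VV c' 1 * VV c' 0 ^ (p ^ 2)) ≠ 0
    intro h
    have h2 := congrArg (pderiv 1) h
    rw [map_sub, Derivation.leibniz, Derivation.leibniz, pderiv_pow_q, pderiv_pow_q, pderiv1_VV0,
      pderiv1_VV1, map_zero] at h2
    simp only [smul_eq_mul, mul_zero, zero_add, zero_sub, neg_eq_zero] at h2
    exact mul_ne_zero (pow_ne_zero _ (hV 0)) (C_ne_zero.2 (hc' 2)) h2

/-- the point over the field of rational functions -/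
theorem pre_par {E : Type u} [Field E] [Algebra k E] (j : MvPolynomial (Fin 2) k →ₐ[k] E)
    (hj : Function.Injective j) (c' : Fin 3 → k) (hc' : ∀ s, c' s ≠ 0) :
    Pre p (fun s => j (VV c' s) ^ p) (fun s => j (WW p c' s)) := by
  have hp : p.Prime := Fact.out
  have : CharP E p := charP_of_injective_algebraMap (algebraMap k E).injective p
  have : ExpChar E p := ExpChar.prime Fact.out
  have hWc : ∀ s, j (WW p c' s) = crs (fun i => j (VV c' i)) (fun i => j (VV c' i) ^ (p ^ 2)) s := by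
    intro s
    rw [WW]
    have := crs_map (j : MvPolynomial (Fin 2) k →+* E) (VV c') (fun s => VV c' s ^ (p ^ 2)) s
    simp only [map_pow] at this
    exact this
  refine ⟨?_, ?_, ?_, ?_⟩
  · have h := dot_crs_left (fun i => j (VV c' i)) (fun i => j (VV c' i) ^ (p ^ 2))
    have h2 := congrArg (fun t => t ^ p) h
    simp only [sum_pow_char, zero_pow hp.ne_zero] at h2
    rw [← h2]
    apply Finset.sum_congr rfl
    intro s _
    rw [hWc, mul_pow]
  · have h := dot_crs_right (fun i => j (VV c' i)) (fun i => j (VV c' i) ^ (p ^ 2))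
    rw [← h]
    apply Finset.sum_congr rfl
    intro s _
    rw [hWc, ← pow_mul, ← sq]
  · intro s
    apply pow_ne_zero
    rw [Ne, map_eq_zero_iff _ hj]
    exact VV_ne_zero c' hc' s
  · intro s
    rw [Ne, map_eq_zero_iff _ hj]
    exact WW_ne_zero p c' hc' s

/-- specialization of the generic point of the preimage of a line -/
theorem curve_spec {E : Type u} [Field E] [Algebra k E] [CharP E p]
    (J : MvPolynomial (Fin 2) k →ₐ[k] E)
    (hJ : Function.Injective J) (c c' : Fin 3 → k) (hc' : ∀ s, c' s ≠ 0)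
    (hcc : ∀ s, c' s ^ p = c s) {κ : Type u} [Field κ] [IsAlgClosed κ] [Algebra k κ]
    (hkey : ∀ x : Fin 3 → κ, (∀ i, x i ^ (p ^ 2) = x i) → ∑ i, algebraMap k κ (c i) * x i = 0 →
      x = 0) {i j l : Fin 3} (hij : i ≠ j) (hil : i ≠ l) (hjl : j ≠ l)
    (π : ChartRing k p →ₐ[k] κ) (hL : ∑ s, algebraMap k κ (c s) * π (chX k p i j s) = 0)
    (f : ChartRing k p) (hf : (pre_par p J hJ c' hc').θ k hij hil hjl f = 0) : π f = 0 := by
  have hp : p.Prime := Fact.out
  have : CharP κ p := charP_of_injective_algebraMap (algebraMap k κ).injective p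
  have : ExpChar κ p := ExpChar.prime Fact.out
  have hfrob : Function.Injective (fun z : κ => z ^ p) := frobenius_inj κ p
  obtain ⟨x, hx⟩ : ∃ x : Fin 3 → κ, x = fun s => π (chX k p i j s) := ⟨_, rfl⟩
  obtain ⟨y, hy⟩ : ∃ y : Fin 3 → κ, y = fun s => π (chY k p i j s) := ⟨_, rfl⟩
  have hxi : x i = 1 := by rw [hx]; beta_reduce; rw [chX_i, map_one]
  have hyj : y j = 1 := by rw [hy]; beta_reduce; rw [chY_j hij, map_one]
  have e1 : ∑ s, x s * y s ^ p = 0 := by
    have := congrArg π (ch_eq1 k p hij hil hjl)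
    rw [map_sum, map_zero] at this
    rw [← this, hx, hy]
    simp only [map_mul, map_pow]
  have e2 : ∑ s, x s ^ p * y s = 0 := by
    have := congrArg π (ch_eq2 k p hij hil hjl)
    rw [map_sum, map_zero] at this
    rw [← this, hx, hy]
    simp only [map_mul, map_pow]
  have e3 : ∑ s, x s ^ (p ^ 2) * y s ^ p = 0 := by
    have h2 := congrArg (fun t => t ^ p) e2
    simp only [sum_pow_char, zero_pow hp.ne_zero] at h2
    rw [← h2]
    apply Finset.sum_congr rfl
    intro s _
    rw [mul_pow, ← pow_mul, sq]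
  have hL' : ∑ s, algebraMap k κ (c s) * x s = 0 := by rw [hx]; exact hL
  choose v hv using fun s => IsAlgClosed.exists_pow_nat_eq (x s) hp.pos
  have hvc : ∑ s, algebraMap k κ (c' s) * v s = 0 := by
    apply hfrob
    change (∑ s, algebraMap k κ (c' s) * v s) ^ p = 0 ^ p
    rw [sum_pow_char, zero_pow hp.ne_zero, ← hL']
    apply Finset.sum_congr rfl
    intro s _
    rw [mul_pow, hv, ← map_pow, hcc]
  obtain ⟨w, hw⟩ : ∃ w : Fin 3 → κ, w = crs v (fun s => v s ^ (p ^ 2)) := ⟨_, rfl⟩
  have hwp : ∀ s, w s ^ p = crs x (fun s => x s ^ (p ^ 2)) s := by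
    intro s
    have := crs_map (frobenius κ p) v (fun s => v s ^ (p ^ 2)) s
    rw [← hw] at this
    change w s ^ p = _ at this
    rw [this]
    congr 1
    · ext s
      exact hv s
    · ext s
      change (v s ^ (p ^ 2)) ^ p = _
      rw [← pow_mul, mul_comm, pow_mul, hv]
  have hprop := crs_prop x (fun s => x s ^ (p ^ 2)) (fun s => y s ^ p) e1 e3
  have hwy : ∀ s, w s = w j * y s := by
    intro s
    apply hfrob
    change w s ^ p = (w j * y s) ^ p
    have := hprop s j
    beta_reduce at this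
    rw [hyj, one_pow, mul_one, ← hwp, ← hwp] at this
    rw [this, mul_pow]
  have hwj : w j ≠ 0 := by
    intro h0
    have hD : ∀ s, crs x (fun s => x s ^ (p ^ 2)) s = 0 := by
      intro s
      rw [← hwp, hwy, h0, zero_mul, zero_pow hp.ne_zero]
    have hxq : ∀ s, x s ^ (p ^ 2) = x s := by
      have h01 := hD 2
      have h12 := hD 0
      have h20 := hD 1
      simp only [crs, Matrix.cons_val_zero, Matrix.cons_val_one, Matrix.cons_val] at h01 h12 h20
      intro s
      have hiq : x i ^ (p ^ 2) = 1 := by rw [hxi, one_pow]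
      fin_cases i <;> fin_cases s <;> simp at hxi hiq ⊢ <;> simp only [hxi, hiq, one_pow] at * <;>
        first | rfl | linear_combination h01 | linear_combination h12 | linear_combination h20 |
          linear_combination - h01 | linear_combination - h12 | linear_combination - h20
    have := hkey x hxq hL'
    rw [this] at hxi
    exact zero_ne_one hxi
  have hc1 : algebraMap k κ (c' 1) ≠ 0 := by
    rw [Ne, map_eq_zero_iff _ (algebraMap k κ).injective]; exact hc' 1
  -- the specialization of the parameters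
  let ι : MvPolynomial (Fin 2) k →ₐ[k] κ :=
    aeval ![v 0 / algebraMap k κ (c' 1), -v 2 / algebraMap k κ (c' 1)]
  have hι : ∀ s, ι (VV c' s) = v s := by
    have hι0 : ι (X 0) = v 0 / algebraMap k κ (c' 1) := by simp [ι]
    have hι1 : ι (X 1) = -v 2 / algebraMap k κ (c' 1) := by simp [ι]
    intro s
    rw [VV, vv_map, hι0, hι1]
    rw [Fin.sum_univ_three] at hvc
    fin_cases s
    · change algebraMap k κ (c' 1) * (v 0 / algebraMap k κ (c' 1)) = v 0
      field_simp
    · change -(algebraMap k κ (c' 0)) * (v 0 / algebraMap k κ (c' 1)) +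
        algebraMap k κ (c' 2) * (-v 2 / algebraMap k κ (c' 1)) = v 1
      field_simp
      linear_combination -hvc
    · change -(algebraMap k κ (c' 1)) * (-v 2 / algebraMap k κ (c' 1)) = v 2
      field_simp
  have hιW : ∀ s, ι (WW p c' s) = w s := by
    intro s
    have := crs_map (ι : MvPolynomial (Fin 2) k →+* κ) (VV c') (fun s => VV c' s ^ (p ^ 2)) s
    rw [WW]
    refine this.trans ?_
    rw [hw]
    congr 1
    · ext s; exact hι s
    · ext s
      change ι (VV c' s ^ (p ^ 2)) = _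
      rw [map_pow, hι]
  have hvi : v i ^ p = 1 := by rw [hv, hxi]
  refine specialization_aux ((pre_par p J hJ c' hc').θ k hij hil hjl) π J ι hJ
    {cb k p, ce k p, cc k p} (chart_adjoin k p) ?_ f hf
  have hJV : ∀ s, J (VV c' s) ≠ 0 := by
    intro s; rw [Ne, map_eq_zero_iff _ hJ]; exact VV_ne_zero c' hc' s
  have hJW : ∀ s, J (WW p c' s) ≠ 0 := by
    intro s; rw [Ne, map_eq_zero_iff _ hJ]; exact WW_ne_zero p c' hc' s
  rintro z (rfl | rfl | rfl)
  · refine ⟨VV c' l ^ p, VV c' i ^ p, ?_, ?_, ?_⟩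
    · rw [map_pow, hι, hvi]; exact one_ne_zero
    · have := (pre_par p J hJ c' hc').θ_X (k := k) hij hil hjl l
      rw [chX_l hil hjl] at this
      rw [this, map_pow, map_pow]
      have := hJV i
      field_simp
    · rw [map_pow, map_pow, hι, hι, hvi, mul_one, hv, hx]
      beta_reduce
      rw [chX_l hil hjl]
  · refine ⟨WW p c' l, WW p c' j, ?_, ?_, ?_⟩
    · rw [hιW]; exact hwj
    · have := (pre_par p J hJ c' hc').θ_Y (k := k) hij hil hjl l
      rw [chY_l hil hjl] at this
      rw [this]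
      have := hJW j
      field_simp
    · rw [hιW, hιW, hwy l, mul_comm, hy]
      beta_reduce
      rw [chY_l hil hjl]
  · refine ⟨WW p c' i, WW p c' j, ?_, ?_, ?_⟩
    · rw [hιW]; exact hwj
    · have := (pre_par p J hJ c' hc').θ_Y (k := k) hij hil hjl i
      rw [chY_i] at this
      rw [this]
      have := hJW j
      field_simp
    · rw [hιW, hιW, hwy i, mul_comm, hy]
      beta_reduce
      rw [chY_i]

end

end Pool.Agent.Helper71
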