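import Mathlib
import Pool.Agent.Helper71.CurvePar

namespace Pool.Agent.Helper71

open MvPolynomial Set

universe u

variable {k : Type u} [Field k] (p : ℕ) [Fact p.Prime] [CharP k p]

/-- `-X1/X0` is transcendental -/
theorem transcendental_ratio {E : Type u} [Field E] [Algebra k E]
    (J : MvPolynomial (Fin 2) k →ₐ[k] E) (hJ : Function.Injective J) (c' : Fin 3 → k)
    (hc' : ∀ s, c' s ≠ 0) : Transcendental k (J (VV c' 2) / J (VV c' 0)) := by
  have hV0 : J (VV c' 0) ≠ 0 := by
    rw [Ne, map_eq_zero_iff _ hJ]; exact VV_ne_zero c' hc' 0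
  intro halg
  obtain ⟨P, hP0, hP⟩ := halg
  apply hP0
  let ι : MvPolynomial (Fin 2) k →ₐ[k] Polynomial k := aeval ![1, -Polynomial.X]
  have hι0 : ι (VV c' 0) = Polynomial.C (c' 1) := by
    rw [VV, vv_map]
    change algebraMap k (Polynomial k) (c' 1) * ι (X 0) = _
    have : ι (X 0) = 1 := by simp [ι]
    rw [this, mul_one]
    rfl
  have hι2 : ι (VV c' 2) = Polynomial.X * Polynomial.C (c' 1) := by
    rw [VV, vv_map]
    change -(algebraMap k (Polynomial k) (c' 1)) * ι (X 1) = _
    have : ι (X 1) = -Polynomial.X := by simp [ι]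
    rw [this, neg_mul_neg, mul_comm]
    rfl
  have hc1 : Polynomial.C (c' 1) ≠ (0 : Polynomial k) := Polynomial.C_ne_zero.2 (hc' 1)
  refine specialization_aux (Polynomial.aeval (J (VV c' 2) / J (VV c' 0)))
    (AlgHom.id k (Polynomial k)) J ι hJ {Polynomial.X} Polynomial.adjoin_X ?_ P hP
  rintro z rfl
  refine ⟨VV c' 2, VV c' 0, ?_, ?_, ?_⟩
  · rw [hι0]; exact hc1
  · rw [Polynomial.aeval_X, div_mul_cancel₀ _ hV0]
  · rw [hι0, hι2]; rfl

/-- the function field of the preimage of a line -/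
theorem curve_field {E : Type u} [Field E] [Algebra k E] [CharP E p]
    (J : MvPolynomial (Fin 2) k →ₐ[k] E)
    (hJ : Function.Injective J) (c' : Fin 3 → k) (hc' : ∀ s, c' s ≠ 0)
    (x' y' : Fin 3 → E) (hx' : x' = fun s => J (VV c' s) ^ p) (hy' : y' = fun s => J (WW p c' s))
    (K1 : IntermediateField k E)
    (hK1 : K1 = IntermediateField.adjoin k (range (fun m => (seg x' y' (idx 0 1))⁻¹ *
      seg x' y' m))) :
    (J (VV c' 2) / J (VV c' 0)) ^ p ∈ K1 ∧
      K1 ≤ IntermediateField.adjoin k {J (VV c' 2) / J (VV c' 0)} := by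
  have hV : ∀ s, J (VV c' s) ≠ 0 := by
    intro s; rw [Ne, map_eq_zero_iff _ hJ]; exact VV_ne_zero c' hc' s
  have hW : ∀ s, J (WW p c' s) ≠ 0 := by
    intro s; rw [Ne, map_eq_zero_iff _ hJ]; exact WW_ne_zero p c' hc' s
  obtain ⟨t, ht⟩ : ∃ t, t = J (VV c' 2) / J (VV c' 0) := ⟨_, rfl⟩
  rw [← ht]
  constructor
  · rw [hK1]
    apply IntermediateField.subset_adjoin
    refine ⟨idx 2 1, ?_⟩
    beta_reduce
    rw [seg_idx, seg_idx, hx', hy', ht, div_pow]
    have := hV 0
    have := hW 1
    field_simp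
  · obtain ⟨L, hL⟩ : ∃ L, L = IntermediateField.adjoin k {t} := ⟨_, rfl⟩
    rw [← hL, hK1, IntermediateField.adjoin_le_iff]
    have htL : t ∈ L := by
      rw [hL]; exact IntermediateField.mem_adjoin_simple_self _ _
    have hvL : ∀ s, J (VV c' s) / J (VV c' 0) ∈ L := by
      intro s
      fin_cases s
      · change J (VV c' 0) / J (VV c' 0) ∈ L
        rw [div_self (hV 0)]; exact one_mem _
      · change J (VV c' 1) / J (VV c' 0) ∈ L
        have h := congrArg J (vv_orth c' (X 0 : MvPolynomial (Fin 2) k) (X 1))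
        rw [Fin.sum_univ_three, map_zero, map_add, map_add, map_mul, map_mul, map_mul,
          AlgHom.commutes, AlgHom.commutes, AlgHom.commutes] at h
        have hc1 : algebraMap k E (c' 1) ≠ 0 := by
          rw [Ne, map_eq_zero_iff _ (algebraMap k E).injective]; exact hc' 1
        have e : J (VV c' 1) / J (VV c' 0) =
            -(algebraMap k E (c' 0) + algebraMap k E (c' 2) * t) / algebraMap k E (c' 1) := by
          rw [ht]
          have := hV 0
          field_simp
          change algebraMap k E (c' 0) * J (VV c' 0) + algebraMap k E (c' 1) * J (VV c' 1) +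
            algebraMap k E (c' 2) * J (VV c' 2) = 0 at h
          linear_combination h
        rw [e]
        exact div_mem (neg_mem (add_mem (L.algebraMap_mem _) (mul_mem (L.algebraMap_mem _) htL)))
          (L.algebraMap_mem _)
      · rw [ht] at htL; exact htL
    have hwL : ∀ s, J (WW p c' s) / (J (VV c' 0) * J (VV c' 0) ^ (p ^ 2)) ∈ L := by
      intro s
      have e1 := crs_map (J : MvPolynomial (Fin 2) k →+* E) (VV c')
        (fun s => VV c' s ^ (p ^ 2)) s
      have e2 := crs_smul (J (VV c' 0))⁻¹ ((J (VV c' 0))⁻¹ ^ (p ^ 2)) (fun i => J (VV c' i))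
        (fun i => J (VV c' i) ^ (p ^ 2)) s
      have e3 : J (WW p c' s) / (J (VV c' 0) * J (VV c' 0) ^ (p ^ 2)) =
          crs (fun i => J (VV c' i) / J (VV c' 0)) (fun i => (J (VV c' i) / J (VV c' 0)) ^ (p ^ 2))
            s := by
        have e4 : (fun i => J (VV c' i) / J (VV c' 0)) =
            (fun i => (J (VV c' 0))⁻¹ * J (VV c' i)) := by
          ext i; rw [div_eq_mul_inv, mul_comm]
        have e5 : (fun i => (J (VV c' i) / J (VV c' 0)) ^ (p ^ 2)) =
            (fun i => (J (VV c' 0))⁻¹ ^ (p ^ 2) * J (VV c' i) ^ (p ^ 2)) := by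
          ext i; rw [div_eq_mul_inv, mul_comm, mul_pow]
        rw [e4, e5, e2]
        have e6 : J (WW p c' s) = crs (fun i => J (VV c' i)) (fun i => J (VV c' i) ^ (p ^ 2)) s := by
          rw [WW]
          simp only [map_pow] at e1
          exact e1
        rw [e6, div_eq_mul_inv, mul_inv, inv_pow]
        ring
      rw [e3]
      fin_cases s
      · exact sub_mem (mul_mem (hvL 1) (pow_mem (hvL 2) _)) (mul_mem (hvL 2) (pow_mem (hvL 1) _))
      · exact sub_mem (mul_mem (hvL 2) (pow_mem (hvL 0) _)) (mul_mem (hvL 0) (pow_mem (hvL 2) _))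
      · exact sub_mem (mul_mem (hvL 0) (pow_mem (hvL 1) _)) (mul_mem (hvL 1) (pow_mem (hvL 0) _))
    rintro _ ⟨m, rfl⟩
    obtain ⟨i, j, rfl⟩ := idx_cases m
    beta_reduce
    rw [seg_idx, seg_idx, hx', hy']
    have e : (J (VV c' 0) ^ p * J (WW p c' 1))⁻¹ * (J (VV c' i) ^ p * J (WW p c' j)) =
        (J (VV c' i) / J (VV c' 0)) ^ p *
          ((J (WW p c' j) / (J (VV c' 0) * J (VV c' 0) ^ (p ^ 2))) /
            (J (WW p c' 1) / (J (VV c' 0) * J (VV c' 0) ^ (p ^ 2)))) := by
      have := hV 0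
      have := hW 1
      rw [div_pow]
      field_simp
    rw [e]
    exact mul_mem (pow_mem (hvL i) _) (div_mem (hwL j) (hwL 1))

end Pool.Agent.Helper71
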