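import Mathlib
import Pool.Agent.Helper71.GonDefs

namespace Pool.Agent.Helper71

open AlgebraicGeometry CategoryTheory Limits

universe u

variable {X Y : Scheme.{u}}

/-- two representatives of a rational map agree where both are defined -/
theorem hom_apply_eq [IsReduced X] [Y.IsSeparated] (g g' : X.PartialMap Y)
    (h : g.toRationalMap = g'.toRationalMap) (z : X) (hz : z ∈ g.domain) (hz' : z ∈ g'.domain) :
    g.hom ⟨z, hz⟩ = g'.hom ⟨z, hz'⟩ := by
  have key : ∀ (φ : X.RationalMap Y) (f : X.PartialMap Y) (_ : f.toRationalMap = φ)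
      (hf : z ∈ f.domain) (hφ : z ∈ φ.toPartialMap.domain),
      f.hom ⟨z, hf⟩ = φ.toPartialMap.hom ⟨z, hφ⟩ := by
    rintro φ f rfl hf hφ
    have h1 := f.toPartialMap_toRationalMap_restrict
    rw [Scheme.PartialMap.restrict_hom] at h1
    conv_lhs => rw [← h1]
    rw [Scheme.Hom.comp_apply]
    congr 1
    apply Subtype.ext
    exact Scheme.homOfLE_apply _ _
  rw [key _ g h hz (h ▸ g.le_domain_toRationalMap hz),
    key _ g' rfl hz' (g'.le_domain_toRationalMap hz')]

variable [IsIntegral X]

/-- the partial map given by a chart and a morphism from the chart -/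
noncomputable def chartMap {B : CommRingCat.{u}} [Nontrivial B] (c : Spec B ⟶ X)
    [IsOpenImmersion c] (f : Spec B ⟶ Y) : X.PartialMap Y where
  domain := c.opensRange
  dense_domain := by
    apply c.opensRange.isOpen.dense
    obtain ⟨q⟩ : Nonempty (Spec B) := inferInstanceAs (Nonempty (PrimeSpectrum B))
    exact ⟨c q, ⟨q, rfl⟩⟩
  hom := c.isoOpensRange.inv ≫ f

theorem chartMap_apply {B : CommRingCat.{u}} [Nontrivial B] (c : Spec B ⟶ X)
    [IsOpenImmersion c] (f : Spec B ⟶ Y) (b : Spec B) (hb : c b ∈ (chartMap c f).domain) :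
    (chartMap c f).hom ⟨c b, hb⟩ = f b := by
  have : (⟨c b, hb⟩ : c.opensRange) = c.isoOpensRange.hom b := by
    apply Subtype.ext
    have := congrArg (fun (g : Spec B ⟶ X) => g b) c.isoOpensRange_hom_ι
    exact this.symm
  change (c.isoOpensRange.inv ≫ f) (⟨c b, hb⟩ : c.opensRange) = f b
  rw [this, ← Scheme.Hom.comp_apply, Iso.hom_inv_id_assoc]

theorem chartMap_fromFunctionField {B : CommRingCat.{u}} [Nontrivial B] (c : Spec B ⟶ X)
    [IsOpenImmersion c] (f : Spec B ⟶ Y) {F : CommRingCat.{u}} (θ : B ⟶ F)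
    (κ : X.functionField ≅ F)
    (hκ : Spec.map κ.hom ≫ X.fromSpecStalk (genericPoint X) = Spec.map θ ≫ c) :
    Spec.map κ.hom ≫ (chartMap c f).toRationalMap.fromFunctionField = Spec.map θ ≫ f := by
  rw [Scheme.RationalMap.fromFunctionField_toRationalMap]
  have hη : genericPoint X ∈ (chartMap c f).domain :=
    ((genericPoint_specializes _).mem_open (chartMap c f).domain.2
      (chartMap c f).dense_domain.nonempty.choose_spec)
  change Spec.map κ.hom ≫ (c.opensRange.fromSpecStalkOfMem (genericPoint X) hη) ≫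
    c.isoOpensRange.inv ≫ f = Spec.map θ ≫ f
  have h1 : Spec.map κ.hom ≫ c.opensRange.fromSpecStalkOfMem (genericPoint X) hη =
      Spec.map θ ≫ c.isoOpensRange.hom := by
    rw [← cancel_mono c.opensRange.ι, Category.assoc, Category.assoc,
      Scheme.Opens.fromSpecStalkOfMem_ι, hκ, Scheme.Hom.isoOpensRange_hom_ι]
  rw [← Category.assoc, h1, Category.assoc, Iso.hom_inv_id_assoc]

end Pool.Agent.Helper71
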