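import Mathlib
import Pool.Agent.Helper71.PPDom

namespace Pool.Agent.Helper71

open AlgebraicGeometry CategoryTheory MvPolynomial HomogeneousLocalization Limits

universe u

attribute [local instance] MvPolynomial.gradedAlgebra

variable {k : Type u} [Field k] {n : ℕ}

theorem aeval_cons_eq {K : Type u} [Field K] [Algebra k K] (v : Fin n → K)
    (x : MvPolynomial (Fin (n + 1)) k) : aeval (Fin.cons 1 v : Fin (n + 1) → K) x =
      (finSuccEquiv k n x).eval₂ (aeval v : MvPolynomial (Fin n) k →ₐ[k] K).toRingHom 1 := by
  have h : (aeval (Fin.cons 1 v : Fin (n + 1) → K) : MvPolynomial (Fin (n + 1)) k →ₐ[k] K).toRingHom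
      = (Polynomial.eval₂RingHom (aeval v : MvPolynomial (Fin n) k →ₐ[k] K).toRingHom 1).comp
        (finSuccEquiv k n : MvPolynomial (Fin (n + 1)) k →+* _) := by
    apply MvPolynomial.ringHom_ext
    · intro c
      have h1 : finSuccEquiv k n (C c) = Polynomial.C (C c) := by
        simp [finSuccEquiv_apply]
      change aeval _ (C c) = Polynomial.eval₂ _ _ (finSuccEquiv k n (C c))
      rw [h1, Polynomial.eval₂_C]
      change aeval _ (C c) = aeval v (C c)
      rw [aeval_C, aeval_C]
    · intro i
      change aeval _ (X i) = Polynomial.eval₂ _ _ (finSuccEquiv k n (X i))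
      refine Fin.cases ?_ (fun j => ?_) i
      · rw [aeval_X, finSuccEquiv_X_zero, Polynomial.eval₂_X]
        rfl
      · rw [aeval_X, finSuccEquiv_X_succ, Polynomial.eval₂_C]
        change _ = aeval v (X j)
        rw [aeval_X]
        rfl
  exact congrArg (fun f => f x) h

theorem eq_zero_of_aeval_cons {K : Type u} [Field K] [Algebra k K] (v : Fin n → K)
    (hv : AlgebraicIndependent k v) (d : ℕ) (x : MvPolynomial (Fin (n + 1)) k)
    (hx : x.IsHomogeneous d) (h0 : aeval (Fin.cons 1 v : Fin (n + 1) → K) x = 0) : x = 0 := by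
  classical
  rw [aeval_cons_eq, Polynomial.eval₂_eq_sum_range] at h0
  simp only [one_pow, mul_one] at h0
  rw [← map_sum] at h0
  have h1 : ∑ i ∈ Finset.range ((finSuccEquiv k n x).natDegree + 1),
      (finSuccEquiv k n x).coeff i = 0 := by
    apply hv
    rw [map_zero]
    exact h0
  have h2 : finSuccEquiv k n x = 0 := by
    ext i m
    rw [Polynomial.coeff_zero, coeff_zero, finSuccEquiv_coeff_coeff]
    by_contra hne
    have hi : i ∈ Finset.range ((finSuccEquiv k n x).natDegree + 1) := by
      by_contra hi
      rw [Finset.mem_range, not_lt] at hi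
      apply hne
      rw [← finSuccEquiv_coeff_coeff, Polynomial.coeff_eq_zero_of_natDegree_lt (by omega),
        coeff_zero]
    have h3 := congrArg (coeff m) h1
    rw [coeff_sum, coeff_zero] at h3
    simp only [finSuccEquiv_coeff_coeff] at h3
    rw [Finset.sum_eq_single i] at h3
    · exact hne h3
    · intro j _ hj
      by_contra hne2
      have e1 := hx hne
      have e2 := hx hne2
      rw [Finsupp.weight_apply, Finsupp.sum_fintype _ _ (by simp), Fin.sum_univ_succ] at e1 e2
      simp only [Finsupp.cons_zero, Finsupp.cons_succ] at e1 e2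
      simp at e1 e2
      omega
    · intro h; exact absurd hi h
  rwa [map_eq_zero_iff _ (finSuccEquiv k n).injective] at h2

theorem isDominant_pt_cons {K : Type u} [Field K] [Algebra k K] (v : Fin n → K)
    (hv : AlgebraicIndependent k v)
    (h : IsUnit ((Fin.cons 1 v : Fin (n + 1) → K) 0)) :
    IsDominant (pt (k := k) 0 (Fin.cons 1 v) h) :=
  isDominant_pt 0 _ h fun d x hx h0 => eq_zero_of_aeval_cons v hv d x hx h0

end Pool.Agent.Helper71
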