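import Mathlib

namespace Pool.Agent.Helper71

open scoped TensorProduct

/-- Derivations extend along formally etale maps. -/
theorem exists_derivation_extends {k A F : Type*} [CommRing k] [CommRing A] [CommRing F]
    [Algebra k A] [Algebra k F] [Algebra A F] [IsScalarTower k A F] [Algebra.FormallyEtale A F]
    (d : Derivation k A F) :
    ∃ D : Derivation k F F, ∀ a, D (algebraMap A F a) = d a := by
  let e := KaehlerDifferential.tensorKaehlerEquivOfFormallyEtale k A F
  let l : F ⊗[A] Ω[A⁄k] →ₗ[F] F := (d.liftKaehlerDifferential).liftBaseChange F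
  refine ⟨(l ∘ₗ e.symm.toLinearMap).compDer (KaehlerDifferential.D k F), fun a => ?_⟩
  have h := KaehlerDifferential.tensorKaehlerEquivOfFormallyEtale_symm_D_algebraMap k A F a
  refine (congrArg l h).trans ?_
  simp [l]

end Pool.Agent.Helper71
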