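import Mathlib

namespace Pool.Agent.Helper71

open WithZero

variable {k F : Type*} [CommRing k] [Field F] [Algebra k F]

theorem mul_lt_one_le_lt {a b : ℤᵐ⁰} (ha : a ≤ 1) (hb : b < 1) : a * b < 1 := by
  rw [mul_comm]
  exact mul_lt_one_of_lt_of_le hb ha

/-- coordinates of `x × D x`. -/
def crossD (D : Derivation k F F) (x : Fin 3 → F) (j : Fin 3) : F :=
  x (j + 1) * D (x (j + 2)) - x (j + 2) * D (x (j + 1))

/-- the coefficient of the basic two-form. -/
def formG (x y : Fin 3 → F) (D D' : Derivation k F F) : F :=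
  crossD D x 0 * crossD D' y 0 - crossD D' x 0 * crossD D y 0

theorem D_pow_char (p : ℕ) [CharP F p] (D : Derivation k F F) (a : F) : D (a ^ p) = 0 := by
  rw [Derivation.leibniz_pow, nsmul_eq_mul, CharP.cast_eq_zero, zero_mul]

theorem crossD_eq (p : ℕ) [CharP F p] (x y : Fin 3 → F)
    (h0 : y 0 = 1) (h1 : ∑ i, x i * y i ^ p = 0) (D : Derivation k F F) (j : Fin 3) :
    crossD D x j = crossD D x 0 * y j ^ p := by
  have h2 : ∑ i, D (x i) * y i ^ p = 0 := by
    have := congrArg D h1
    rw [map_sum, map_zero] at this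
    rw [← this]
    refine Finset.sum_congr rfl fun i _ => ?_
    rw [Derivation.leibniz, D_pow_char, smul_zero, zero_add, smul_eq_mul, mul_comm]
  rw [Fin.sum_univ_three, h0, one_pow, mul_one] at h1 h2
  fin_cases j
  · simp [h0]
  · simp only [crossD]
    change x 2 * D (x 0) - x 0 * D (x 2) = (x 1 * D (x 2) - x 2 * D (x 1)) * y 1 ^ p
    linear_combination (-D (x 2)) * h1 + x 2 * h2
  · simp only [crossD]
    change x 0 * D (x 1) - x 1 * D (x 0) = (x 1 * D (x 2) - x 2 * D (x 1)) * y 2 ^ p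
    linear_combination (D (x 1)) * h1 - x 1 * h2

theorem crossD_div (D : Derivation k F F) (x : Fin 3 → F) (c : F) (hc : c ≠ 0) (j : Fin 3) :
    crossD D (fun i => x i / c) j * c ^ 2 = crossD D x j := by
  have key : ∀ a : F, c ^ 2 * D (a / c) = c * D a - a * D c := by
    intro a
    have h : D a = D (a / c * c) := by rw [div_mul_cancel₀ _ hc]
    rw [Derivation.leibniz, smul_eq_mul, smul_eq_mul] at h
    have : a / c * c = a := div_mul_cancel₀ _ hc
    linear_combination (-c) * h - D c * this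
  simp only [crossD]
  have e1 : x (j + 1) / c * D (x (j + 2) / c) * c ^ 2
      = x (j + 1) / c * (c * D (x (j + 2)) - x (j + 2) * D c) := by
    rw [← key]; ring
  have e2 : x (j + 2) / c * D (x (j + 1) / c) * c ^ 2
      = x (j + 2) / c * (c * D (x (j + 1)) - x (j + 1) * D c) := by
    rw [← key]; ring
  rw [sub_mul, e1, e2]
  field_simp
  ring

theorem val_crossD_le (v : Valuation F ℤᵐ⁰) (D : Derivation k F F) (c : F)
    (hD : ∀ a, v a ≤ 1 → v (c * D a) ≤ 1) (x : Fin 3 → F) (hx : ∀ i, v (x i) ≤ 1) (j : Fin 3) :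
    v (c * crossD D x j) ≤ 1 := by
  rw [crossD, mul_sub]
  refine (v.map_sub _ _).trans (max_le ?_ ?_)
  · rw [mul_left_comm, map_mul]
    exact mul_le_one' (hx _) (hD _ (hx _))
  · rw [mul_left_comm, map_mul]
    exact mul_le_one' (hx _) (hD _ (hx _))

theorem val_crossD_lt (v : Valuation F ℤᵐ⁰) (D : Derivation k F F) (c : F)
    (hD : ∀ a, v a ≤ 1 → v (c * D a) < 1) (x : Fin 3 → F) (hx : ∀ i, v (x i) ≤ 1) (j : Fin 3) :
    v (c * crossD D x j) < 1 := by
  rw [crossD, mul_sub]
  refine (v.map_sub _ _).trans_lt (max_lt ?_ ?_)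
  · rw [mul_left_comm, map_mul]
    exact mul_lt_one_le_lt (hx _) (hD _ (hx _))
  · rw [mul_left_comm, map_mul]
    exact mul_lt_one_le_lt (hx _) (hD _ (hx _))

theorem reg_bound (p : ℕ) [Fact p.Prime] [CharP F p] (v : Valuation F ℤᵐ⁰) (x y : Fin 3 → F)
    (hx0 : x 0 = 1) (hy0 : y 0 = 1) (h1 : ∑ i, x i * y i ^ p = 0) (h2 : ∑ i, x i ^ p * y i = 0)
    (D D' : Derivation k F F) (c : F) (hkill : ∀ a, v a ≤ 1 → v (D a) ≤ 1)
    (hlog : ∀ a, v a ≤ 1 → v (c * D' a) < 1) (I J : Fin (p - 2) → Fin 3) :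
    v (c * ((∏ a, x (I a) * y (J a)) * formG x y D D')) < 1 := by
  have hp2 : 2 ≤ p := (Fact.out : p.Prime).two_le
  obtain ⟨i, -, hi⟩ := Finset.exists_max_image Finset.univ (fun i => v (x i))
    ⟨0, Finset.mem_univ _⟩
  obtain ⟨j, -, hj⟩ := Finset.exists_max_image Finset.univ (fun i => v (y i))
    ⟨0, Finset.mem_univ _⟩
  have hxi : x i ≠ 0 := by
    have := hi 0 (Finset.mem_univ _)
    rw [hx0, map_one] at this
    intro h
    rw [h, map_zero] at this
    exact absurd this (by simp)
  have hyj : y j ≠ 0 := by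
    have := hj 0 (Finset.mem_univ _)
    rw [hy0, map_one] at this
    intro h
    rw [h, map_zero] at this
    exact absurd this (by simp)
  set x' : Fin 3 → F := fun l => x l / x i with hx'
  set y' : Fin 3 → F := fun l => y l / y j with hy'
  have hx'v : ∀ l, v (x' l) ≤ 1 := by
    intro l
    rw [hx', map_div₀]
    exact div_le_one_of_le₀ (hi l (Finset.mem_univ _)) zero_le
  have hy'v : ∀ l, v (y' l) ≤ 1 := by
    intro l
    rw [hy', map_div₀]
    exact div_le_one_of_le₀ (hj l (Finset.mem_univ _)) zero_le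
  -- key identity
  have hG : formG x y D D' * (x i * y j) ^ (p - 2) =
      crossD D x' j * crossD D' y' i - crossD D' x' j * crossD D y' i := by
    have hW : ∀ D : Derivation k F F, crossD D x 0 * y j ^ p = crossD D x' j * x i ^ 2 := by
      intro D
      rw [← crossD_eq p x y hy0 h1, ← crossD_div D x (x i) hxi j]
    have h2' : ∑ i, y i * x i ^ p = 0 := by
      rw [← h2]; exact Finset.sum_congr rfl fun _ _ => mul_comm _ _
    have hV : ∀ D : Derivation k F F, crossD D y 0 * x i ^ p = crossD D y' i * y j ^ 2 := by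
      intro D
      rw [← crossD_eq p y x hx0 h2', ← crossD_div D y (y j) hyj i]
    have hne : (x i * y j) ^ 2 ≠ 0 := pow_ne_zero _ (mul_ne_zero hxi hyj)
    apply mul_right_cancel₀ hne
    rw [mul_assoc, ← pow_add, Nat.sub_add_cancel hp2, formG, mul_pow]
    have e1 := hW D
    have e2 := hW D'
    have e3 := hV D
    have e4 := hV D'
    calc (crossD D x 0 * crossD D' y 0 - crossD D' x 0 * crossD D y 0) * (x i ^ p * y j ^ p)
        = (crossD D x 0 * y j ^ p) * (crossD D' y 0 * x i ^ p)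
          - (crossD D' x 0 * y j ^ p) * (crossD D y 0 * x i ^ p) := by ring
      _ = _ := by rw [e1, e2, e3, e4]; ring
  have hprod : (∏ a, x (I a) * y (J a)) =
      (∏ a, x' (I a) * y' (J a)) * (x i * y j) ^ (p - 2) := by
    have : (x i * y j) ^ (p - 2) = ∏ _a : Fin (p - 2), (x i * y j) := by
      rw [Finset.prod_const, Finset.card_univ, Fintype.card_fin]
    rw [this, ← Finset.prod_mul_distrib]
    refine Finset.prod_congr rfl fun a _ => ?_
    simp only [hx', hy']
    field_simp
  have e : c * ((∏ a, x (I a) * y (J a)) * formG x y D D')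
      = (∏ a, x' (I a) * y' (J a)) *
        (crossD D x' j * (c * crossD D' y' i) - (c * crossD D' x' j) * crossD D y' i) := by
    rw [hprod]
    calc _ = c * (∏ a, x' (I a) * y' (J a)) * (formG x y D D' * (x i * y j) ^ (p - 2)) := by ring
      _ = _ := by rw [hG]; ring
  have hvprod : v (∏ a, x' (I a) * y' (J a)) ≤ 1 := by
    rw [map_prod]
    apply Finset.prod_le_one'
    intro a _
    rw [map_mul]
    exact mul_le_one' (hx'v _) (hy'v _)
  have hk : ∀ (z : Fin 3 → F), (∀ i, v (z i) ≤ 1) → ∀ l, v (crossD D z l) ≤ 1 := by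
    intro z hz l
    have := val_crossD_le v D 1 (by simpa using hkill) z hz l
    simpa using this
  rw [e, map_mul]
  refine mul_lt_one_le_lt hvprod ?_
  refine (v.map_sub _ _).trans_lt (max_lt ?_ ?_)
  · rw [map_mul]
    exact mul_lt_one_le_lt (hk _ hx'v _) (val_crossD_lt v D' c hlog _ hy'v _)
  · rw [map_mul]
    exact mul_lt_one_of_lt_of_le (val_crossD_lt v D' c hlog _ hx'v _) (hk _ hy'v _)

end Pool.Agent.Helper71
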