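import Mathlib

namespace Pool.Agent.Helper71

open Polynomial WithZero

variable {k R F : Type*} [CommRing k] [CommRing R] [Field F] [Algebra k F] [Algebra R F]

theorem val_D_aeval_sub (v : Valuation F ℤᵐ⁰) (D : Derivation k F F) (a : F) (c : ℤᵐ⁰)
    (ha : v a ≤ 1) (hDR : ∀ r : R, v (D (algebraMap R F r)) ≤ c) (P : R[X]) :
    v (D (aeval a P) - aeval a (derivative P) * D a) ≤ c := by
  induction P using Polynomial.induction_on' with
  | add p q hp hq =>
    have : D (aeval a (p + q)) - aeval a (derivative (p + q)) * D a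
        = (D (aeval a p) - aeval a (derivative p) * D a)
        + (D (aeval a q) - aeval a (derivative q) * D a) := by
      simp only [map_add]; ring
    rw [this]
    exact (v.map_add _ _).trans (max_le hp hq)
  | monomial n r =>
    have : D (aeval a (monomial n r)) - aeval a (derivative (monomial n r)) * D a
        = a ^ n * D (algebraMap R F r) := by
      rw [aeval_monomial, derivative_monomial, aeval_monomial, Derivation.leibniz,
        Derivation.leibniz_pow]
      simp only [smul_eq_mul, nsmul_eq_mul, map_mul, map_natCast]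
      ring
    rw [this, map_mul, map_pow]
    calc v a ^ n * v (D (algebraMap R F r)) ≤ 1 * c := by
          exact mul_le_mul' (pow_le_one' ha n) (hDR r)
      _ = c := one_mul c

theorem le_exp_of_lt_one {x : ℤᵐ⁰} (h : x < 1) : x ≤ exp (-1 : ℤ) := by
  by_cases hx : x = 0
  · simp [hx]
  · have : x = exp (log x) := (exp_log hx).symm
    rw [this] at h ⊢
    rw [← exp_zero, exp_lt_exp] at h
    rw [exp_le_exp]
    omega

/-- One step of descent. `c` bounds the logarithmic part, `E` is an exponent. -/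
theorem local_step (v : Valuation F ℤᵐ⁰) (D : Derivation k F F) (c : ℤ)
    (hDR : ∀ r : R, v (D (algebraMap R F r)) ≤ exp c)
    (h1 : ∀ a, v a ≤ 1 → ∃ P : R[X], v (aeval a P) < 1 ∧ v (aeval a (derivative P)) = 1)
    (t : F) (ht : v t = exp (-1 : ℤ)) (M : ℤ) (hM : ∀ a, v a ≤ 1 → v (D a) ≤ exp M)
    (hcM : c ≤ M - 1) (hDt : v (D t) ≤ exp (M - 1)) :
    ∀ a, v a ≤ 1 → v (D a) ≤ exp (M - 1) := by
  intro a ha
  obtain ⟨P, hP1, hP2⟩ := h1 a ha
  set b := aeval a P with hb
  have ht0 : t ≠ 0 := by
    intro h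
    rw [h, map_zero] at ht
    exact exp_ne_zero ht.symm
  -- b = t * w
  have hw : v (b / t) ≤ 1 := by
    rw [map_div₀, ht]
    calc v b / exp (-1 : ℤ) ≤ exp (-1 : ℤ) / exp (-1 : ℤ) := by
          rw [div_eq_mul_inv, div_eq_mul_inv]
          exact mul_le_mul' (le_exp_of_lt_one hP1) le_rfl
      _ = 1 := div_self exp_ne_zero
  have hbw : b = t * (b / t) := by field_simp
  have hDb : v (D b) ≤ exp (M - 1) := by
    rw [hbw, Derivation.leibniz, smul_eq_mul, smul_eq_mul]
    refine (v.map_add _ _).trans (max_le ?_ ?_)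
    · rw [map_mul, ht]
      calc exp (-1 : ℤ) * v (D (b / t)) ≤ exp (-1 : ℤ) * exp M := by
            exact mul_le_mul' le_rfl (hM _ hw)
        _ = exp (M - 1) := by rw [← exp_add]; congr 1; ring
    · rw [map_mul]
      calc v (b / t) * v (D t) ≤ 1 * exp (M - 1) := mul_le_mul' hw hDt
        _ = exp (M - 1) := one_mul _
  have hsub := val_D_aeval_sub v D a (exp c) ha hDR P
  have : v (aeval a (derivative P) * D a) ≤ exp (M - 1) := by
    have e : aeval a (derivative P) * D a = D b - (D b - aeval a (derivative P) * D a) := by ring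
    rw [e]
    refine (v.map_sub _ _).trans (max_le hDb (hsub.trans ?_))
    rw [exp_le_exp]; exact hcM
  rwa [map_mul, hP2, one_mul] at this

/-- If `D` kills the uniformizer of the base then `D` preserves the valuation ring. -/
theorem local_kill (v : Valuation F ℤᵐ⁰) (D : Derivation k F F)
    (hDR : ∀ r : R, v (D (algebraMap R F r)) ≤ 1)
    (h1 : ∀ a, v a ≤ 1 → ∃ P : R[X], v (aeval a P) < 1 ∧ v (aeval a (derivative P)) = 1)
    (t : F) (ht : v t = exp (-1 : ℤ)) (π w0 : F) (m : ℕ) (hπ : π = t ^ m * w0)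
    (hw0 : v w0 = 1) (hm : v (m : F) = 1) (hm0 : m ≠ 0)
    (hDπ : D π = 0) (N : ℕ) (hN : ∀ a, v a ≤ 1 → v (D a) ≤ exp (N : ℤ)) :
    ∀ a, v a ≤ 1 → v (D a) ≤ 1 := by
  have ht0 : t ≠ 0 := by
    intro h
    rw [h, map_zero] at ht
    exact exp_ne_zero ht.symm
  induction N with
  | zero => simpa using hN
  | succ N ih =>
    apply ih
    have key := local_step v D 0 (by simpa using hDR) h1 t ht ((N + 1 : ℕ) : ℤ) hN
      (by push_cast; omega) ?_
    · intro a ha
      refine (key a ha).trans ?_
      rw [exp_le_exp]; push_cast; omega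
    · -- D t
      have h0 : t * D π = (m : F) * π * D t + t ^ (m + 1) * D w0 := by
        rw [hπ, Derivation.leibniz, Derivation.leibniz_pow]
        obtain ⟨m', rfl⟩ := Nat.exists_eq_succ_of_ne_zero hm0
        simp only [smul_eq_mul, nsmul_eq_mul, Nat.succ_eq_add_one, Nat.add_sub_cancel]
        ring
      rw [hDπ, mul_zero] at h0
      have h2 : (m : F) * (w0 * D t) = - (t * D w0) := by
        have : t ^ m * ((m : F) * (w0 * D t) + t * D w0) = 0 := by
          rw [h0, hπ]; ring
        rcases mul_eq_zero.1 this with h | h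
        · exact absurd h (pow_ne_zero _ ht0)
        · linear_combination h
      have h3 : v (D t) = v (t * D w0) := by
        have := congrArg v h2
        rwa [map_mul, hm, one_mul, map_mul, hw0, one_mul, Valuation.map_neg] at this
      rw [h3, map_mul, ht]
      calc exp (-1 : ℤ) * v (D w0) ≤ exp (-1 : ℤ) * exp ((N + 1 : ℕ) : ℤ) :=
            mul_le_mul' le_rfl (hN _ hw0.le)
        _ = exp (((N + 1 : ℕ) : ℤ) - 1) := by
            rw [← exp_add, neg_add_eq_sub]

/-- In general, `π D` maps the valuation ring to the maximal ideal. -/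
theorem local_log (v : Valuation F ℤᵐ⁰) (D : Derivation k F F)
    (hDR : ∀ r : R, v (D (algebraMap R F r)) ≤ 1)
    (h1 : ∀ a, v a ≤ 1 → ∃ P : R[X], v (aeval a P) < 1 ∧ v (aeval a (derivative P)) = 1)
    (t : F) (ht : v t = exp (-1 : ℤ)) (π w0 : F) (m : ℕ) (hπ : π = t ^ m * w0)
    (hw0 : v w0 = 1) (hm : v (m : F) = 1) (hm0 : m ≠ 0)
    (hDπ : v (D π) ≤ 1) (N : ℕ) (hN : ∀ a, v a ≤ 1 → v (D a) ≤ exp (N : ℤ)) :
    ∀ a, v a ≤ 1 → v (π * D a) < 1 := by
  have ht0 : t ≠ 0 := by
    intro h
    rw [h, map_zero] at ht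
    exact exp_ne_zero ht.symm
  have hvπ : v π = exp (-(m : ℤ)) := by
    rw [hπ, map_mul, map_pow, ht, hw0, mul_one, ← exp_nsmul]
    congr 1; simp
  have hm1 : 1 ≤ m := Nat.one_le_iff_ne_zero.2 hm0
  -- replace D by π • D
  set D' : Derivation k F F := π • D with hD'
  have hD'a : ∀ a, D' a = π * D a := fun a => rfl
  have key : ∀ N : ℕ, (∀ a, v a ≤ 1 → v (D' a) ≤ exp ((N : ℤ) - 1)) →
      ∀ a, v a ≤ 1 → v (D' a) ≤ exp (-1 : ℤ) := by
    intro N
    induction N with
    | zero => intro h; simpa using h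
    | succ N ih =>
      intro h
      apply ih
      have key := local_step (R := R) v D' (-(m : ℤ)) (fun r => ?_) h1 t ht
        (((N + 1 : ℕ) : ℤ) - 1) h (by push_cast; omega) ?_
      · intro a ha
        refine (key a ha).trans ?_
        rw [exp_le_exp]; push_cast; omega
      · rw [hD'a, map_mul, hvπ]
        calc exp (-(m : ℤ)) * v (D (algebraMap R F r)) ≤ exp (-(m : ℤ)) * 1 :=
              mul_le_mul' le_rfl (hDR r)
          _ = _ := mul_one _
      · have h0 : t * D π = (m : F) * π * D t + t ^ (m + 1) * D w0 := by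
          rw [hπ, Derivation.leibniz, Derivation.leibniz_pow]
          obtain ⟨m', rfl⟩ := Nat.exists_eq_succ_of_ne_zero hm0
          simp only [smul_eq_mul, nsmul_eq_mul, Nat.succ_eq_add_one, Nat.add_sub_cancel]
          ring
        have h2 : (m : F) * (w0 * D' t) = w0 * (t * D π) - t * D' w0 := by
          rw [hD'a, hD'a]
          have e1 : t ^ (m + 1) * D w0 * w0 = t * (π * D w0) := by rw [hπ]; ring
          linear_combination (-w0) * h0 - e1
        have h3 : v (D' t) ≤ exp (((N + 1 : ℕ) : ℤ) - 1 - 1) := by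
          have e : v (D' t) = v ((m : F) * (w0 * D' t)) := by
            rw [map_mul, hm, one_mul, map_mul, hw0, one_mul]
          rw [e, h2]
          refine (v.map_sub _ _).trans (max_le ?_ ?_)
          · rw [map_mul, map_mul, hw0, one_mul, ht]
            calc exp (-1 : ℤ) * v (D π) ≤ exp (-1 : ℤ) * 1 := mul_le_mul' le_rfl hDπ
              _ = exp (-1 : ℤ) := mul_one _
              _ ≤ _ := by rw [exp_le_exp]; push_cast; omega
          · rw [map_mul, ht]
            calc exp (-1 : ℤ) * v (D' w0) ≤ exp (-1 : ℤ) * exp (((N + 1 : ℕ) : ℤ) - 1) :=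
                  mul_le_mul' le_rfl (h _ hw0.le)
              _ = _ := by rw [← exp_add]; congr 1; ring
        exact h3
  intro a ha
  rw [← hD'a]
  refine (key (N + 1) ?_ a ha).trans_lt ?_
  · intro b hb
    rw [hD'a, map_mul, hvπ]
    calc exp (-(m : ℤ)) * v (D b) ≤ exp (-(m : ℤ)) * exp (N : ℤ) := mul_le_mul' le_rfl (hN b hb)
      _ = exp (-(m : ℤ) + N) := by rw [← exp_add]
      _ ≤ _ := by rw [exp_le_exp]; push_cast; omega
  · rw [← exp_zero, exp_lt_exp]; norm_num

end Pool.Agent.Helper71
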