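import Mathlib
import Pool.Agent.Helper71.GonLocal

namespace Pool.Agent.Helper71

open Polynomial WithZero IsLocalRing

variable {R F : Type*} [CommRing R] [Field F] [Algebra R F]

theorem val_natCast {F : Type*} [Field F] (p : ℕ) [Fact p.Prime] [CharP F p]
    (v : Valuation F ℤᵐ⁰) (n : ℕ) (hn : 0 < n) (hnp : n < p) : v (n : F) = 1 := by
  have hfermat : (n : F) ^ (p - 1) = 1 := by
    have h3 := ZMod.pow_card_sub_one_eq_one (p := p) (a := (n : ZMod p)) (by
      rw [Ne, ZMod.natCast_eq_zero_iff]
      intro hdvd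
      exact absurd (Nat.le_of_dvd hn hdvd) (by omega))
    have h4 := congrArg (ZMod.castHom (dvd_refl p) F) h3
    simpa using h4
  have h5 := congrArg v hfermat
  rw [map_pow, map_one] at h5
  rcases pow_eq_one_iff.1 h5 with h | h
  · exact h
  · have := (Fact.out : p.Prime).two_le
    omega

theorem val_aeval_le (v : Valuation F ℤᵐ⁰) (hvR : ∀ r : R, v (algebraMap R F r) ≤ 1) (a : F)
    (ha : v a ≤ 1) (Q : R[X]) : v (aeval a Q) ≤ 1 := by
  induction Q using Polynomial.induction_on' with
  | add p q hp hq =>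
    rw [map_add]
    exact (v.map_add _ _).trans (max_le hp hq)
  | monomial n r =>
    rw [aeval_monomial, map_mul, map_pow]
    exact mul_le_one' (hvR r) (pow_le_one' ha n)

theorem res_sep_aux [IsLocalRing R] (p : ℕ) [Fact p.Prime] [CharP F p] (v : Valuation F ℤᵐ⁰)
    (hvR : ∀ r : R, v (algebraMap R F r) ≤ 1)
    (hvm : ∀ r : R, r ∈ maximalIdeal R ↔ v (algebraMap R F r) < 1) (a : F) (ha : v a ≤ 1) :
    ∀ d : ℕ, d < p → ∀ Q : R[X], Q.natDegree ≤ d → (∃ i, Q.coeff i ∉ maximalIdeal R) →
      v (aeval a Q) < 1 → ∃ P : R[X], v (aeval a P) < 1 ∧ v (aeval a (derivative P)) = 1 := by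
  intro d
  induction d with
  | zero =>
    intro _ Q hQ ⟨i, hi⟩ hv
    exfalso
    have hQC : Q = C (Q.coeff 0) := eq_C_of_natDegree_le_zero hQ
    have hi0 : i = 0 := by
      by_contra h
      apply hi
      rw [hQC, coeff_C, if_neg h]
      exact Submodule.zero_mem _
    subst hi0
    rw [hQC, aeval_C] at hv
    exact hi ((hvm _).2 hv)
  | succ n ih =>
    intro hd Q hQ ⟨i, hi⟩ hv
    by_cases hlc : Q.coeff (n + 1) ∈ maximalIdeal R
    · -- remove the top coefficient
      refine ih (by omega) (Q - monomial (n + 1) (Q.coeff (n + 1))) ?_ ⟨i, ?_⟩ ?_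
      · rw [natDegree_le_iff_coeff_eq_zero]
        intro N hN
        rw [coeff_sub, coeff_monomial]
        split_ifs with h
        · rw [h, sub_self]
        · rw [sub_zero]
          exact coeff_eq_zero_of_natDegree_lt (lt_of_le_of_lt hQ (by omega))
      · rw [coeff_sub, coeff_monomial]
        split_ifs with h
        · exact absurd (h ▸ hlc) hi
        · rwa [sub_zero]
      · rw [map_sub, aeval_monomial]
        refine lt_of_le_of_lt (v.map_sub _ _) (max_lt hv ?_)
        rw [map_mul, map_pow]
        exact mul_lt_one_of_lt_of_le ((hvm _).1 hlc) (pow_le_one' ha _)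
    · by_cases h1 : v (aeval a (derivative Q)) = 1
      · exact ⟨Q, hv, h1⟩
      · have h1' : v (aeval a (derivative Q)) < 1 := lt_of_le_of_ne (val_aeval_le v hvR a ha _) h1
        refine ih (by omega) (derivative Q) ?_ ⟨n, ?_⟩ h1'
        · exact (natDegree_derivative_le Q).trans (by omega)
        · rw [coeff_derivative]
          intro hmem
          rcases (Ideal.IsPrime.mem_or_mem (IsLocalRing.maximalIdeal.isMaximal R).isPrime hmem)
            with h | h
          · exact hlc h
          · rw [hvm] at h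
            have h2 : v ((n + 1 : ℕ) : F) = 1 := val_natCast p v (n + 1) (Nat.succ_pos _) hd
            have h3 : algebraMap R F ((n : R) + 1) = ((n + 1 : ℕ) : F) := by push_cast; simp
            rw [h3, h2] at h
            exact lt_irrefl _ h

theorem exists_primitive_multiple {R E : Type*} [CommRing R] [IsDomain R]
    [IsDiscreteValuationRing R] [Field E] [Algebra R E] [IsFractionRing R E]
    (f : E[X]) (hf : f ≠ 0) :
    ∃ (Q : R[X]) (c : E), c ≠ 0 ∧ Q.map (algebraMap R E) = C c * f ∧
      ∃ i, Q.coeff i ∉ maximalIdeal R := by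
  classical
  obtain ⟨⟨_⟩⟩ : Nonempty (Nonempty (NormalizedGCDMonoid R)) := ⟨inferInstance⟩
  rename_i inst
  set Q0 := IsLocalization.integerNormalization (nonZeroDivisors R) f with hQ0
  obtain ⟨b, hbm, hb⟩ := IsLocalization.integerNormalization_spec (nonZeroDivisors R) f
  have hb0 : algebraMap R E b ≠ 0 := by
    rw [Ne, IsFractionRing.to_map_eq_zero_iff (K := E)]
    exact nonZeroDivisors.ne_zero hbm
  have hQ00 : Q0 ≠ 0 := by
    intro h
    rw [← hQ0, h, Polynomial.map_zero] at hb
    have : (algebraMap R E b) • f = 0 := by rw [algebraMap_smul]; exact hb.symm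
    rcases smul_eq_zero.1 this with h | h
    · exact hb0 h
    · exact hf h
  have hcont : algebraMap R E Q0.content ≠ 0 := by
    rw [Ne, IsFractionRing.to_map_eq_zero_iff (K := E), content_eq_zero_iff]
    exact hQ00
  refine ⟨Q0.primPart, (algebraMap R E Q0.content)⁻¹ * algebraMap R E b,
    mul_ne_zero (inv_ne_zero hcont) hb0, ?_, ?_⟩
  · have h1 := Q0.eq_C_content_mul_primPart
    have h2 := congrArg (Polynomial.map (algebraMap R E)) h1
    rw [hQ0, hb, ← hQ0, Polynomial.map_mul, map_C] at h2
    have h3 : (b • f : E[X]) = C (algebraMap R E b) * f := by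
      rw [← smul_eq_C_mul, algebraMap_smul]
    rw [h3] at h2
    rw [C_mul, mul_assoc, h2, ← mul_assoc, ← C_mul, inv_mul_cancel₀ hcont, C_1, one_mul]
  · by_contra hcon
    push Not at hcon
    obtain ⟨ϖ, hϖ⟩ := IsDiscreteValuationRing.exists_irreducible R
    have hprim := Q0.isPrimitive_primPart
    have hdvd : C ϖ ∣ Q0.primPart := by
      rw [C_dvd_iff_dvd_coeff]
      intro i
      have := hcon i
      rw [hϖ.maximalIdeal_eq, Ideal.mem_span_singleton] at this
      exact this
    exact hϖ.not_isUnit (hprim ϖ hdvd)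

theorem res_sep {R E F : Type*} [CommRing R] [IsDomain R] [IsDiscreteValuationRing R]
    [Field E] [Field F] [Algebra R E] [Algebra E F] [Algebra R F] [IsScalarTower R E F]
    [IsFractionRing R E] [FiniteDimensional E F]
    (p : ℕ) [Fact p.Prime] [CharP F p] (hlt : Module.finrank E F < p) (v : Valuation F ℤᵐ⁰)
    (hvR : ∀ r : R, v (algebraMap R F r) ≤ 1)
    (hvm : ∀ r : R, r ∈ maximalIdeal R ↔ v (algebraMap R F r) < 1) (a : F) (ha : v a ≤ 1) :
    ∃ P : R[X], v (aeval a P) < 1 ∧ v (aeval a (derivative P)) = 1 := by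
  have hint : IsIntegral E a := Algebra.IsIntegral.isIntegral a
  have hf0 : minpoly E a ≠ 0 := minpoly.ne_zero hint
  obtain ⟨Q, c, hc, hQ, hi⟩ := exists_primitive_multiple (R := R) (minpoly E a) hf0
  have hdeg : Q.natDegree < p := by
    have h1 : (Q.map (algebraMap R E)).natDegree = Q.natDegree :=
      natDegree_map_eq_of_injective (IsFractionRing.injective R E) Q
    rw [← h1, hQ, natDegree_C_mul hc]
    exact (minpoly.natDegree_le a).trans_lt hlt
  refine res_sep_aux p v hvR hvm a ha Q.natDegree hdeg Q le_rfl hi ?_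
  have : aeval a Q = 0 := by
    rw [← aeval_map_algebraMap E, hQ, map_mul, minpoly.aeval, mul_zero]
  rw [this, map_zero]
  exact zero_lt_one

end Pool.Agent.Helper71
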