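import Mathlib
import Pool.Agent.Helper71.GonLocal
import Pool.Agent.Helper71.GonRes

namespace Pool.Agent.Helper71

open Polynomial WithZero IsLocalRing IsDedekindDomain

/-- ramification is bounded by the degree -/
theorem ram_le {E F : Type*} [Field E] [Field F] [Algebra E F] [FiniteDimensional E F]
    (v : Valuation F ℤᵐ⁰) (m : ℕ)
    (hE : ∀ c : E, c ≠ 0 → ∃ j : ℤ, v (algebraMap E F c) = exp (m * j))
    (t : F) (ht : v t = exp (-1 : ℤ)) : m ≤ Module.finrank E F := by
  classical
  by_contra hcon
  push Not at hcon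
  have ht0 : t ≠ 0 := by
    intro h
    rw [h, map_zero] at ht
    exact exp_ne_zero ht.symm
  have hint : IsIntegral E t := Algebra.IsIntegral.isIntegral t
  set f := minpoly E t with hf
  have hf0 : f ≠ 0 := minpoly.ne_zero hint
  have hdeg : f.natDegree < m := (minpoly.natDegree_le t).trans_lt hcon
  have hsum : ∑ i ∈ f.support, algebraMap E F (f.coeff i) * t ^ i = 0 := by
    have := minpoly.aeval E t
    rw [← hf, aeval_eq_sum_range] at this
    rw [← this]
    rw [Finset.sum_subset (s₁ := f.support) (s₂ := Finset.range (f.natDegree + 1))]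
    · exact Finset.sum_congr rfl fun i _ => by rw [Algebra.smul_def]
    · exact supp_subset_range_natDegree_succ
    · intro i _ hi
      rw [notMem_support_iff.1 hi, map_zero, zero_mul]
  have hne : f.support.Nonempty := by
    rwa [Finset.nonempty_iff_ne_empty, Ne, Polynomial.support_eq_empty]
  obtain ⟨j, hj, hjmax⟩ := Finset.exists_max_image f.support
    (fun i => v (algebraMap E F (f.coeff i) * t ^ i)) hne
  have hval : ∀ i ∈ f.support, ∃ a : ℤ, v (algebraMap E F (f.coeff i) * t ^ i)
      = exp (m * a - i) := by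
    intro i hi
    obtain ⟨a, ha⟩ := hE (f.coeff i) (mem_support_iff.1 hi)
    refine ⟨a, ?_⟩
    rw [map_mul, ha, map_pow, ht, ← exp_nsmul, ← exp_add]
    congr 1
    simp
    ring
  have hlt : ∀ i ∈ f.support \ {j}, v (algebraMap E F (f.coeff i) * t ^ i) <
      v (algebraMap E F (f.coeff j) * t ^ j) := by
    intro i hi
    rw [Finset.mem_sdiff, Finset.mem_singleton] at hi
    refine lt_of_le_of_ne (hjmax i hi.1) ?_
    intro heq
    obtain ⟨a, ha⟩ := hval i hi.1
    obtain ⟨b, hb⟩ := hval j hj
    rw [ha, hb, exp_inj] at heq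
    have hi' : i < m := (le_natDegree_of_mem_supp i hi.1).trans_lt hdeg
    have hj' : j < m := (le_natDegree_of_mem_supp j hj).trans_lt hdeg
    have h1 : (m : ℤ) * (a - b) = i - j := by linear_combination heq
    have h2 : (i : ℤ) - j = 0 := by
      apply Int.eq_zero_of_abs_lt_dvd (m := (m : ℤ)) ⟨a - b, h1.symm⟩
      rw [abs_lt]
      constructor <;> omega
    apply hi.2
    omega
  have := v.map_sum_eq_of_lt hj hlt
  rw [hsum, map_zero] at this
  obtain ⟨b, hb⟩ := hval j hj
  rw [hb] at this
  exact exp_ne_zero this.symm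

section place

variable {k R E F S : Type*} [CommRing k] [CommRing R] [IsDomain R] [IsDiscreteValuationRing R]
  [Field E] [Field F] [CommRing S] [IsDedekindDomain S]
  [Algebra R E] [IsFractionRing R E] [Algebra E F] [Algebra R F] [IsScalarTower R E F]
  [FiniteDimensional E F] [Algebra R S] [Algebra S F] [IsScalarTower R S F]
  [IsFractionRing S F] [Module.Finite R S] [Algebra k F]

variable (p : ℕ) [Fact p.Prime] [CharP F p]

include E in
theorem place_data (hlt : Module.finrank E F < p) (q : HeightOneSpectrum S) (π : R)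
    (hπ : Irreducible π) :
    (∀ r : R, q.valuation F (algebraMap R F r) ≤ 1) ∧
    (∀ r : R, r ∈ maximalIdeal R ↔ q.valuation F (algebraMap R F r) < 1) ∧
    ∃ (t w0 : F) (m : ℕ), q.valuation F t = exp (-1 : ℤ) ∧
      algebraMap R F π = t ^ m * w0 ∧ q.valuation F w0 = 1 ∧ q.valuation F (m : F) = 1 ∧
      m ≠ 0 := by
  set v := q.valuation F with hv
  have hRF : Function.Injective (algebraMap R F) := by
    rw [IsScalarTower.algebraMap_eq R E F]
    exact (algebraMap E F).injective.comp (IsFractionRing.injective R E)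
  have hRS : Function.Injective (algebraMap R S) := by
    have : Function.Injective ((algebraMap S F).comp (algebraMap R S)) := by
      rw [← IsScalarTower.algebraMap_eq]; exact hRF
    exact Function.Injective.of_comp this
  have h1 : ∀ r : R, v (algebraMap R F r) ≤ 1 := by
    intro r
    rw [IsScalarTower.algebraMap_apply R S F]
    exact q.valuation_le_one _
  have hcomap : q.asIdeal.comap (algebraMap R S) = maximalIdeal R := by
    haveI : q.asIdeal.IsMaximal := q.isMaximal
    haveI : Algebra.IsIntegral R S := Algebra.IsIntegral.of_finite R S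
    exact IsLocalRing.eq_maximalIdeal (Ideal.isMaximal_comap_of_isIntegral_of_isMaximal q.asIdeal)
  have h2 : ∀ r : R, r ∈ maximalIdeal R ↔ v (algebraMap R F r) < 1 := by
    intro r
    rw [IsScalarTower.algebraMap_apply R S F, hv, q.valuation_lt_one_iff_mem, ← hcomap,
      Ideal.mem_comap]
  refine ⟨h1, h2, ?_⟩
  obtain ⟨t, ht⟩ := q.valuation_exists_uniformizer F
  have ht0 : t ≠ 0 := by
    intro h
    rw [h, map_zero] at ht
    exact exp_ne_zero ht.symm
  have hπ0 : algebraMap R F π ≠ 0 := by
    rw [Ne, map_eq_zero_iff _ hRF]; exact hπ.ne_zero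
  have hπlt : v (algebraMap R F π) < 1 := (h2 π).1 (by
    rw [hπ.maximalIdeal_eq]; exact Ideal.mem_span_singleton_self π)
  have hvπ0 : v (algebraMap R F π) ≠ 0 := (v.ne_zero_iff).2 hπ0
  obtain ⟨m, hm⟩ : ∃ m : ℕ, v (algebraMap R F π) = exp (-(m : ℤ)) := by
    have h3 : v (algebraMap R F π) = exp (log (v (algebraMap R F π))) := (exp_log hvπ0).symm
    rw [h3, ← exp_zero, exp_lt_exp] at hπlt
    refine ⟨(-(log (v (algebraMap R F π)))).toNat, ?_⟩
    rw [Int.toNat_of_nonneg (by omega), neg_neg]
    exact h3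
  have hm0 : m ≠ 0 := by
    rintro rfl
    rw [hm] at hπlt
    simp at hπlt
  have hE : ∀ c : E, c ≠ 0 → ∃ j : ℤ, v (algebraMap E F c) = exp (m * j) := by
    have hRval : ∀ r : R, r ≠ 0 → ∃ j : ℤ, v (algebraMap R F r) = exp (m * j) := by
      intro r hr
      obtain ⟨n, hn⟩ := IsDiscreteValuationRing.associated_pow_irreducible hr hπ
      obtain ⟨u, hu⟩ := hn
      refine ⟨-n, ?_⟩
      have hu1 : v (algebraMap R F (u : R)) = 1 := by
        refine le_antisymm (h1 _) ?_
        by_contra hcon
        push Not at hcon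
        rw [← h2] at hcon
        exact (IsLocalRing.mem_maximalIdeal _).1 hcon u.isUnit
      have := congrArg (fun x => v (algebraMap R F x)) hu
      simp only [map_mul, hu1, mul_one, map_pow] at this
      rw [this, hm, ← exp_nsmul]
      congr 1
      simp
      ring
    intro c hc
    obtain ⟨a, b, hb, rfl⟩ := IsFractionRing.div_surjective (A := R) c
    have ha : a ≠ 0 := by
      rintro rfl
      simp at hc
    obtain ⟨i, hi⟩ := hRval a ha
    obtain ⟨j, hj⟩ := hRval b (nonZeroDivisors.ne_zero hb)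
    refine ⟨i - j, ?_⟩
    rw [map_div₀, ← IsScalarTower.algebraMap_apply, ← IsScalarTower.algebraMap_apply, map_div₀,
      hi, hj, ← exp_sub]
    congr 1
    ring
  have hmle := ram_le v m hE t ht
  refine ⟨t, algebraMap R F π / t ^ m, m, ht, ?_, ?_, ?_, hm0⟩
  · field_simp
  · rw [map_div₀, hm, map_pow, ht, ← exp_nsmul]
    have : (m • (-1 : ℤ)) = -(m : ℤ) := by simp
    rw [this]
    exact div_self exp_ne_zero
  · exact val_natCast p v m (Nat.pos_of_ne_zero hm0) (lt_of_le_of_lt hmle hlt)

/-- boundedness of a derivation on the valuation ring -/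
theorem place_bound (q : HeightOneSpectrum S) (D : Derivation k F F)
    (hD : ∀ r : R, q.valuation F (D (algebraMap R F r)) ≤ 1)
    (hR : ∀ r : R, q.valuation F (algebraMap R F r) ≤ 1) :
    ∃ N : ℕ, ∀ a, q.valuation F a ≤ 1 → q.valuation F (D a) ≤ exp (N : ℤ) := by
  classical
  set v := q.valuation F with hv
  have hS : ∀ s : S, v (algebraMap S F s) ≤ 1 := fun s => q.valuation_le_one s
  obtain ⟨G, hG⟩ := (Module.Finite.fg_top : (⊤ : Submodule R S).FG)
  obtain ⟨N, hN⟩ : ∃ N : ℕ, ∀ g ∈ G, v (D (algebraMap S F g)) ≤ exp (N : ℤ) := by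
    have hbd : ∀ x : ℤᵐ⁰, ∃ N : ℕ, x ≤ exp (N : ℤ) := by
      intro x
      by_cases hx : x = 0
      · exact ⟨0, by simp [hx]⟩
      · refine ⟨(log x).toNat, ?_⟩
        conv_lhs => rw [← exp_log hx]
        rw [exp_le_exp]
        exact Int.self_le_toNat _
    choose f hf using hbd
    refine ⟨G.sup (fun g => f (v (D (algebraMap S F g)))), fun g hg => ?_⟩
    refine (hf _).trans ?_
    rw [exp_le_exp, Int.ofNat_le]
    exact Finset.le_sup (f := fun g => f (v (D (algebraMap S F g)))) hg
  have hDS : ∀ s : S, v (D (algebraMap S F s)) ≤ exp (N : ℤ) := by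
    intro s
    have hs : s ∈ Submodule.span R (G : Set S) := by rw [hG]; trivial
    induction hs using Submodule.span_induction with
    | mem x hx => exact hN x hx
    | zero => simp
    | add x y _ _ hx hy =>
      rw [map_add, map_add]
      exact (v.map_add _ _).trans (max_le hx hy)
    | smul r x _ hx =>
      rw [Algebra.smul_def, map_mul, ← IsScalarTower.algebraMap_apply, Derivation.leibniz,
        smul_eq_mul, smul_eq_mul]
      refine (v.map_add _ _).trans (max_le ?_ ?_)
      · rw [map_mul]
        calc _ ≤ 1 * exp (N : ℤ) := mul_le_mul' (hR r) hx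
          _ = _ := one_mul _
      · rw [map_mul]
        calc _ ≤ 1 * (1 : ℤᵐ⁰) := mul_le_mul' (hS x) (hD r)
          _ ≤ exp (N : ℤ) := by rw [one_mul, ← exp_zero, exp_le_exp]; positivity
  refine ⟨N, fun a ha => ?_⟩
  obtain ⟨n, d, hnd⟩ := q.exists_primeCompl_mul_eq_of_integer a ha
  have hd1 : v (algebraMap S F d) = 1 := by
    rw [hv, HeightOneSpectrum.valuation_of_algebraMap]
    exact (q.intValuation_eq_one_iff_mem_primeCompl d).2 d.2
  have h3 : algebraMap S F d * D a = D (algebraMap S F n) - a * D (algebraMap S F d) := by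
    rw [← hnd, Derivation.leibniz, smul_eq_mul, smul_eq_mul]
    ring
  have h4 : v (D a) = v (algebraMap S F d * D a) := by rw [map_mul, hd1, one_mul]
  rw [h4, h3]
  refine (v.map_sub _ _).trans (max_le (hDS n) ?_)
  rw [map_mul]
  calc _ ≤ 1 * exp (N : ℤ) := mul_le_mul' ha (hDS d)
    _ = _ := one_mul _

include E in
theorem place_kill (hlt : Module.finrank E F < p) (q : HeightOneSpectrum S) (π : R)
    (hπ : Irreducible π) (D : Derivation k F F)
    (hD : ∀ r : R, ∃ s : R, D (algebraMap R F r) = algebraMap R F s)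
    (hDπ : D (algebraMap R F π) = 0) (a : F) (ha : q.valuation F a ≤ 1) :
    q.valuation F (D a) ≤ 1 := by
  obtain ⟨h1, h2, t, w0, m, ht, hπt, hw0, hm, hm0⟩ := place_data (E := E) p hlt q π hπ
  have hD' : ∀ r : R, q.valuation F (D (algebraMap R F r)) ≤ 1 := by
    intro r
    obtain ⟨s, hs⟩ := hD r
    rw [hs]; exact h1 s
  obtain ⟨N, hN⟩ := place_bound q D hD' h1
  exact local_kill (R := R) _ D hD' (fun a ha => res_sep (E := E) p hlt _ h1 h2 a ha) t ht _ w0 m
    hπt hw0 hm hm0 hDπ N hN a ha

include E in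
theorem place_log (hlt : Module.finrank E F < p) (q : HeightOneSpectrum S) (π : R)
    (hπ : Irreducible π) (D : Derivation k F F)
    (hD : ∀ r : R, ∃ s : R, D (algebraMap R F r) = algebraMap R F s)
    (a : F) (ha : q.valuation F a ≤ 1) :
    q.valuation F (algebraMap R F π * D a) < 1 := by
  obtain ⟨h1, h2, t, w0, m, ht, hπt, hw0, hm, hm0⟩ := place_data (E := E) p hlt q π hπ
  have hD' : ∀ r : R, q.valuation F (D (algebraMap R F r)) ≤ 1 := by
    intro r
    obtain ⟨s, hs⟩ := hD r
    rw [hs]; exact h1 s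
  obtain ⟨N, hN⟩ := place_bound q D hD' h1
  exact local_log (R := R) _ D hD' (fun a ha => res_sep (E := E) p hlt _ h1 h2 a ha) t ht _ w0 m
    hπt hw0 hm hm0 (hD' π) N hN a ha

end place

end Pool.Agent.Helper71
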