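import Mathlib
import Pool.Agent.Helper71.GonPlace

namespace Pool.Agent.Helper71

open Polynomial WithZero IsLocalRing IsDedekindDomain

variable {R E F S : Type*} [CommRing R] [IsDomain R] [IsDiscreteValuationRing R]
  [Field E] [Field F] [CommRing S] [IsDedekindDomain S]
  [Algebra R E] [IsFractionRing R E] [Algebra E F] [Algebra R F] [IsScalarTower R E F]
  [FiniteDimensional E F] [Algebra R S] [Algebra S F] [IsScalarTower R S F]
  [IsFractionRing S F] [Module.Finite R S] [IsIntegralClosure S R F]

attribute [local instance] Ideal.Quotient.field in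
theorem trace_mem (π : R) (hπ : Irreducible π) (y : F)
    (hy : ∀ q : HeightOneSpectrum S, q.valuation F (algebraMap R F π * y) < 1) :
    ∃ r : R, algebraMap R E r = Algebra.trace E F y := by
  have hRF : Function.Injective (algebraMap R F) := by
    rw [IsScalarTower.algebraMap_eq R E F]
    exact (algebraMap E F).injective.comp (IsFractionRing.injective R E)
  have hRS : Function.Injective (algebraMap R S) := by
    have : Function.Injective ((algebraMap S F).comp (algebraMap R S)) := by
      rw [← IsScalarTower.algebraMap_eq]; exact hRF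
    exact Function.Injective.of_comp this
  have : Module.IsTorsionFree R S := by
    rw [Module.isTorsionFree_iff_algebraMap_injective]
    exact hRS
  have : Module.Free R S := inferInstance
  obtain ⟨x, hx⟩ : algebraMap R F π * y ∈ (algebraMap S F).range :=
    HeightOneSpectrum.mem_integers_of_valuation_le_one F _ (fun q => (hy q).le)
  have hxq : ∀ q : HeightOneSpectrum S, x ∈ q.asIdeal := by
    intro q
    have := hy q
    rwa [← hx, q.valuation_lt_one_iff_mem] at this
  -- x is nilpotent modulo the maximal ideal of R
  have hrad : x ∈ (Ideal.map (algebraMap R S) (maximalIdeal R)).radical := by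
    rw [Ideal.radical_eq_sInf, Ideal.mem_sInf]
    intro P hP
    have hPne : P ≠ ⊥ := by
      rintro rfl
      have h1 : algebraMap R S π ∈ (⊥ : Ideal S) := hP.1 (Ideal.mem_map_of_mem _ (by
        rw [hπ.maximalIdeal_eq]; exact Ideal.mem_span_singleton_self π))
      rw [Ideal.mem_bot, map_eq_zero_iff _ hRS] at h1
      exact hπ.ne_zero h1
    exact hxq ⟨P, hP.2, hPne⟩
  obtain ⟨n, hn⟩ := hrad
  have htr : Algebra.trace R S x ∈ maximalIdeal R := by
    rw [← Ideal.Quotient.eq_zero_iff_mem, ← Algebra.trace_quotient_mk, ← isNilpotent_iff_eq_zero]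
    refine Algebra.isNilpotent_trace_of_isNilpotent ⟨n, ?_⟩
    rw [← map_pow, Ideal.Quotient.eq_zero_iff_mem]
    exact hn
  rw [hπ.maximalIdeal_eq, Ideal.mem_span_singleton] at htr
  obtain ⟨r, hr⟩ := htr
  refine ⟨r, ?_⟩
  have h2 : Algebra.trace E F (algebraMap S F x) = algebraMap R E (Algebra.trace R S x) := by
    have : IsLocalization (Algebra.algebraMapSubmonoid S (nonZeroDivisors R)) F := by
      exact IsIntegralClosure.isLocalization R E F S
    exact Algebra.trace_localization R (nonZeroDivisors R) x
  rw [hx, hr, IsScalarTower.algebraMap_apply R E F, ← Algebra.smul_def, map_smul,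
    smul_eq_mul, map_mul] at h2
  have hπ0 : algebraMap R E π ≠ 0 := by
    rw [Ne, IsFractionRing.to_map_eq_zero_iff (K := E)]; exact hπ.ne_zero
  exact (mul_left_cancel₀ hπ0 h2).symm

end Pool.Agent.Helper71
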