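import Mathlib
import Pool.Agent.Helper71.GonTrace
import Pool.Agent.Helper71.GonForm

namespace Pool.Agent.Helper71

open WithZero IsLocalRing IsDedekindDomain

theorem isSeparable_of_finrank_lt {E F : Type*} [Field E] [Field F] [Algebra E F]
    [FiniteDimensional E F] (p : ℕ) [Fact p.Prime] [CharP E p] (h : Module.finrank E F < p) :
    Algebra.IsSeparable E F := by
  refine ⟨fun a => ?_⟩
  have hint : IsIntegral E a := Algebra.IsIntegral.isIntegral a
  rw [IsSeparable]
  rw [Polynomial.separable_iff_derivative_ne_zero (minpoly.irreducible hint)]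
  intro hd
  have hdeg : 0 < (minpoly E a).natDegree := minpoly.natDegree_pos hint
  have hlt : (minpoly E a).natDegree < p := (minpoly.natDegree_le a).trans_lt h
  have hc := congrArg (fun f => Polynomial.coeff f ((minpoly E a).natDegree - 1)) hd
  simp only [Polynomial.coeff_derivative, Polynomial.coeff_zero] at hc
  rw [Nat.sub_add_cancel hdeg] at hc
  have hlc : (minpoly E a).coeff (minpoly E a).natDegree = 1 := (minpoly.monic hint)
  rw [hlc, one_mul] at hc
  have hc' : (((minpoly E a).natDegree : ℕ) : E) = 0 := by
    rw [← hc]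
    have : ((minpoly E a).natDegree : E) = (((minpoly E a).natDegree - 1 + 1 : ℕ) : E) := by
      rw [Nat.sub_add_cancel hdeg]
    rw [this]; push_cast; ring
  rw [CharP.cast_eq_zero_iff E p] at hc'
  exact absurd (Nat.le_of_dvd hdeg hc') (by omega)

theorem trace_form_dvr {k R E F : Type*} [CommRing k] [CommRing R] [IsDomain R]
    [IsDiscreteValuationRing R] [Field E] [Field F]
    [Algebra R E] [IsFractionRing R E] [Algebra E F] [Algebra R F] [IsScalarTower R E F]
    [FiniteDimensional E F] [Algebra k F]
    (p : ℕ) [Fact p.Prime] [CharP F p] [CharP E p] (hlt : Module.finrank E F < p)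
    (x y : Fin 3 → F)
    (hx0 : x 0 = 1) (hy0 : y 0 = 1) (h1 : ∑ i, x i * y i ^ p = 0) (h2 : ∑ i, x i ^ p * y i = 0)
    (D D' : Derivation k F F)
    (hD : ∀ r : R, ∃ s : R, D (algebraMap R F r) = algebraMap R F s)
    (hD' : ∀ r : R, ∃ s : R, D' (algebraMap R F r) = algebraMap R F s)
    (π : R) (hπ : Irreducible π) (hDπ : D (algebraMap R F π) = 0) (I J : Fin (p - 2) → Fin 3) :
    ∃ r : R, algebraMap R E r =
      Algebra.trace E F ((∏ a, x (I a) * y (J a)) * formG x y D D') := by
  have hsep : Algebra.IsSeparable E F := isSeparable_of_finrank_lt p hlt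
  have : IsFractionRing (integralClosure R F) F :=
    integralClosure.isFractionRing_of_finite_extension E F
  have : IsDedekindDomain (integralClosure R F) := integralClosure.isDedekindDomain R E F
  have : Module.Finite R (integralClosure R F) :=
    IsIntegralClosure.finite R E F (integralClosure R F)
  refine trace_mem (S := integralClosure R F) π hπ _ (fun q => ?_)
  exact reg_bound p (q.valuation F) x y hx0 hy0 h1 h2 D D' _
    (fun a ha => place_kill (E := E) p hlt q π hπ D hD hDπ a ha)
    (fun a ha => place_log (E := E) p hlt q π hπ D' hD' a ha) I J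

end Pool.Agent.Helper71
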