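import Mathlib
import Pool.Agent.Helper71.GonDvr

namespace Pool.Agent.Helper71

open WithZero IsLocalRing MvPolynomial

theorem not_dvd_pderiv {k : Type*} [Field k] {σ : Type*} (π : MvPolynomial σ k) (i : σ)
    (h : pderiv i π ≠ 0) : ¬ π ∣ pderiv i π := by
  intro hdvd
  obtain ⟨c, hc⟩ := hdvd
  have hπ0 : π ≠ 0 := by
    rintro rfl
    simp at h
  have hc0 : c ≠ 0 := by
    rintro rfl
    rw [mul_zero] at hc
    exact h hc
  have h1 : (pderiv i π).totalDegree = π.totalDegree + c.totalDegree := by
    rw [hc, totalDegree_mul_of_isDomain hπ0 hc0]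
  obtain ⟨m, hm, hm'⟩ : ∃ m ∈ (pderiv i π).support, (pderiv i π).totalDegree = m.degree := by
    have hne : (pderiv i π).support.Nonempty := by
      rwa [Finset.nonempty_iff_ne_empty, Ne, MvPolynomial.support_eq_empty]
    obtain ⟨m, hm, hm'⟩ := Finset.exists_mem_eq_sup (pderiv i π).support hne
      (fun s => s.sum fun _ e => e)
    exact ⟨m, hm, hm'⟩
  have h2 : m + Finsupp.single i 1 ∈ π.support := by
    rw [mem_support_iff] at hm ⊢
    rw [coeff_pderiv] at hm
    exact left_ne_zero_of_mul hm
  have h3 := le_totalDegree h2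
  have h4 : ((m + Finsupp.single i 1).sum fun _ e => e) = m.degree + 1 := by
    change (m + Finsupp.single i 1).degree = _
    rw [map_add, Finsupp.degree_single]
  omega

section

variable {A E F k' : Type*} [CommRing A] [IsDomain A] [IsNoetherianRing A]
  [Field E] [Field F] [CommRing k'] [Algebra A E] [IsFractionRing A E]
  [Algebra E F] [Algebra A F] [IsScalarTower A E F] [FiniteDimensional E F] [Algebra k' F]

theorem crossD_smul_sub (D D' : Derivation k' F F) (a b : F) (x : Fin 3 → F) (j : Fin 3) :
    crossD (a • D - b • D') x j = a * crossD D x j - b * crossD D' x j := by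
  simp only [crossD, Derivation.sub_apply, Derivation.smul_apply, smul_eq_mul]
  ring

theorem formG_smul_sub (D D' : Derivation k' F F) (a b : F) (x y : Fin 3 → F) :
    formG x y (a • D - b • D') D' = a * formG x y D D' := by
  simp only [formG, crossD_smul_sub]
  ring

theorem formG_swap (D D' : Derivation k' F F) (x y : Fin 3 → F) :
    formG x y D' D = - formG x y D D' := by
  simp only [formG]
  ring

set_option maxHeartbeats 1000000 in
theorem trace_form_prime
    (p : ℕ) [Fact p.Prime] [CharP F p] [CharP E p] (hlt : Module.finrank E F < p)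
    (x y : Fin 3 → F)
    (hx0 : x 0 = 1) (hy0 : y 0 = 1) (h1 : ∑ i, x i * y i ^ p = 0) (h2 : ∑ i, x i ^ p * y i = 0)
    (D : Fin 2 → Derivation k' F F) (d : Fin 2 → A → A)
    (hD : ∀ i (a : A), D i (algebraMap A F a) = algebraMap A F (d i a))
    (π : A) (hπ : Prime π) (hnd : d 1 π ≠ 0 → ¬ π ∣ d 1 π) (I J : Fin (p - 2) → Fin 3) :
    ∃ b c : A, ¬ π ∣ c ∧
      Algebra.trace E F ((∏ a, x (I a) * y (J a)) * formG x y (D 0) (D 1)) * algebraMap A E c
        = algebraMap A E b := by
  classical
  obtain ⟨P, hP⟩ : ∃ P : Ideal A, P = Ideal.span {π} := ⟨_, rfl⟩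
  have hPprime : P.IsPrime := by rw [hP]; exact (Ideal.span_singleton_prime hπ.ne_zero).2 hπ
  let R := Localization.AtPrime P
  have hle : P.primeCompl ≤ nonZeroDivisors A := P.primeCompl_le_nonZeroDivisors
  let _ : Algebra R E := IsLocalization.localizationAlgebraOfSubmonoidLe R E P.primeCompl
    (nonZeroDivisors A) hle
  have : IsScalarTower A R E := IsLocalization.localization_isScalarTower_of_submonoid_le R E
    P.primeCompl (nonZeroDivisors A) hle
  have : IsFractionRing R E :=
    IsFractionRing.isFractionRing_of_isLocalization P.primeCompl R E hle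
  let _ : Algebra R F := ((algebraMap E F).comp (algebraMap R E)).toAlgebra
  have : IsScalarTower R E F := IsScalarTower.of_algebraMap_eq fun _ => rfl
  have : IsScalarTower A R F := IsScalarTower.of_algebraMap_eq fun a => by
    rw [IsScalarTower.algebraMap_apply A E F, IsScalarTower.algebraMap_apply A R E]; rfl
  have hmax : maximalIdeal R = Ideal.span {algebraMap A R π} := by
    rw [← Localization.AtPrime.map_eq_maximalIdeal]
    have : Ideal.map (algebraMap A R) P = Ideal.map (algebraMap A R) (Ideal.span {π}) := by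
      rw [← hP]
    rw [this, Ideal.map_span, Set.image_singleton]
  have hπR : algebraMap A R π ≠ 0 := by
    rw [Ne, IsLocalization.to_map_eq_zero_iff R hle]
    exact hπ.ne_zero
  have : IsNoetherianRing R := IsLocalization.isNoetherianRing P.primeCompl R inferInstance
  have : IsDomain R := IsLocalization.isDomain_localization hle
  have hnf : ¬ IsField R := by
    intro hf
    have := IsLocalRing.isField_iff_maximalIdeal_eq.1 hf
    rw [hmax, Ideal.span_singleton_eq_bot] at this
    exact hπR this
  have : IsDiscreteValuationRing R :=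
    ((IsDiscreteValuationRing.TFAE R hnf).out 0 4).2 (by
      constructor
      exact ⟨_, hmax⟩)
  have hπirr : Irreducible (algebraMap A R π) :=
    (IsDiscreteValuationRing.irreducible_iff_uniformizer _).2 hmax
  have hDR : ∀ i, ∀ r : R, ∃ s : R, D i (algebraMap R F r) = algebraMap R F s := by
    intro i r
    obtain ⟨a, c, rfl⟩ := IsLocalization.exists_mk'_eq P.primeCompl r
    have hc2 : (c : A) ^ 2 ∈ P.primeCompl := P.primeCompl.pow_mem c.2 2
    refine ⟨IsLocalization.mk' R (c * d i a - a * d i (c : A)) ⟨_, hc2⟩, ?_⟩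
    have hcF : algebraMap A F c ≠ 0 := by
      rw [IsScalarTower.algebraMap_apply A E F]
      rw [Ne, map_eq_zero_iff _ (algebraMap E F).injective,
        IsFractionRing.to_map_eq_zero_iff (K := E)]
      intro h0
      exact c.2 (by rw [h0]; exact P.zero_mem)
    have e1 : algebraMap R F (IsLocalization.mk' R a c) * algebraMap A F c = algebraMap A F a := by
      rw [IsScalarTower.algebraMap_apply A R F, ← map_mul, IsLocalization.mk'_spec,
        ← IsScalarTower.algebraMap_apply]
    have e2 : algebraMap R F (IsLocalization.mk' R (c * d i a - a * d i (c : A))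
        ⟨_, hc2⟩) * algebraMap A F c ^ 2 = algebraMap A F (c * d i a - a * d i (c : A)) := by
      rw [← map_pow, IsScalarTower.algebraMap_apply A R F, ← map_mul]
      have := IsLocalization.mk'_spec R (c * d i a - a * d i (c : A))
        (⟨_, hc2⟩ : P.primeCompl)
      rw [this, ← IsScalarTower.algebraMap_apply]
    have e3 := congrArg (D i) e1
    rw [Derivation.leibniz, smul_eq_mul, smul_eq_mul, hD, hD] at e3
    apply mul_right_cancel₀ (pow_ne_zero 2 hcF)
    rw [e2, map_sub, map_mul, map_mul]
    linear_combination (algebraMap A F c) * e3 - (algebraMap A F (d i (c : A))) * e1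
  have hfin : ∀ (T : F) (u : A), ¬ π ∣ u → (∃ r : R, algebraMap R E r =
      Algebra.trace E F (algebraMap A F u * T)) →
      ∃ b c : A, ¬ π ∣ c ∧ Algebra.trace E F T * algebraMap A E c = algebraMap A E b := by
    rintro T u hu ⟨r, hr⟩
    obtain ⟨b, c, rfl⟩ := IsLocalization.exists_mk'_eq P.primeCompl r
    refine ⟨b, u * c, ?_, ?_⟩
    · intro hdvd
      rcases hπ.dvd_or_dvd hdvd with h | h
      · exact hu h
      · exact c.2 (hP.symm.le (Ideal.mem_span_singleton.2 h))
    · rw [IsScalarTower.algebraMap_apply A E F, ← Algebra.smul_def, map_smul, smul_eq_mul] at hr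
      have e1 : algebraMap R E (IsLocalization.mk' R b c) * algebraMap A E c
          = algebraMap A E b := by
        rw [IsScalarTower.algebraMap_apply A R E, ← map_mul, IsLocalization.mk'_spec,
          ← IsScalarTower.algebraMap_apply]
      rw [← e1, hr, map_mul]
      ring
  by_cases hcase : d 1 π = 0
  · -- D 1 kills π
    refine hfin _ 1 (fun h => hπ.not_isUnit (isUnit_of_dvd_one h)) ?_
    obtain ⟨r, hr⟩ := trace_form_dvr (R := R) (E := E) p hlt x y hx0 hy0 h1 h2 (D 1) (D 0)
      (hDR 1) (hDR 0) _ hπirr (by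
        rw [← IsScalarTower.algebraMap_apply, hD, hcase, map_zero]) I J
    refine ⟨-r, ?_⟩
    rw [map_neg, hr, formG_swap, map_one, one_mul, mul_neg, map_neg, neg_neg]
  · refine hfin _ (d 1 π) (hnd hcase) ?_
    obtain ⟨D', hD'⟩ : ∃ D' : Derivation k' F F, D' = (algebraMap A F (d 1 π)) • D 0 -
      (algebraMap A F (d 0 π)) • D 1 := ⟨_, rfl⟩
    obtain ⟨r, hr⟩ := trace_form_dvr (R := R) (E := E) p hlt x y hx0 hy0 h1 h2 D' (D 1)
      (by
        intro r
        obtain ⟨s0, hs0⟩ := hDR 0 r
        obtain ⟨s1, hs1⟩ := hDR 1 r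
        refine ⟨algebraMap A R (d 1 π) * s0 - algebraMap A R (d 0 π) * s1, ?_⟩
        rw [hD', Derivation.sub_apply, Derivation.smul_apply, Derivation.smul_apply, hs0, hs1,
          map_sub, map_mul, map_mul, smul_eq_mul, smul_eq_mul,
          ← IsScalarTower.algebraMap_apply, ← IsScalarTower.algebraMap_apply])
      (hDR 1) _ hπirr (by
        rw [← IsScalarTower.algebraMap_apply, hD', Derivation.sub_apply, Derivation.smul_apply,
          Derivation.smul_apply, hD, hD, smul_eq_mul, smul_eq_mul, mul_comm, sub_self]) I J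
    refine ⟨r, ?_⟩
    rw [hr, hD', formG_smul_sub]
    congr 1
    ring

end

end Pool.Agent.Helper71
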