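import Mathlib
import Pool.Agent.Helper71.GonPoly

namespace Pool.Agent.Helper71

open MvPolynomial

theorem ufd_mem {A E : Type*} [CommRing A] [IsDomain A] [UniqueFactorizationMonoid A]
    [Field E] [Algebra A E] [IsFractionRing A E] (T : E)
    (h : ∀ π : A, Prime π → ∃ b c : A, ¬ π ∣ c ∧ T * algebraMap A E c = algebraMap A E b) :
    ∃ r : A, algebraMap A E r = T := by
  have hden : IsUnit (IsFractionRing.den A T : A) := by
    by_contra hu
    have hne : (IsFractionRing.den A T : A) ≠ 0 :=
      nonZeroDivisors.ne_zero (IsFractionRing.den A T).2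
    obtain ⟨π, hπ, hπd⟩ := WfDvdMonoid.exists_irreducible_factor hu hne
    have hπp : Prime π := hπ.prime
    obtain ⟨b, c, hc, hbc⟩ := h π hπp
    have e1 : T * algebraMap A E (IsFractionRing.den A T) =
        algebraMap A E (IsFractionRing.num A T) := by
      have := IsLocalization.mk'_spec E (IsFractionRing.num A T) (IsFractionRing.den A T)
      rwa [IsFractionRing.mk'_num_den] at this
    have e2 : IsFractionRing.num A T * c = b * IsFractionRing.den A T := by
      apply IsFractionRing.injective A E
      rw [map_mul, map_mul, ← e1, ← hbc]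
      ring
    have hdvd : π ∣ IsFractionRing.num A T * c := by
      rw [e2]; exact Dvd.dvd.mul_left hπd _
    rcases hπp.dvd_or_dvd hdvd with h1 | h1
    · exact hπ.not_isUnit (IsFractionRing.num_den_reduced A T h1 hπd)
    · exact hc h1
  obtain ⟨u, hu⟩ := hden
  refine ⟨IsFractionRing.num A T * (u⁻¹ : Aˣ), ?_⟩
  have e1 : T * algebraMap A E (IsFractionRing.den A T) =
      algebraMap A E (IsFractionRing.num A T) := by
    have := IsLocalization.mk'_spec E (IsFractionRing.num A T) (IsFractionRing.den A T)
    rwa [IsFractionRing.mk'_num_den] at this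
  rw [map_mul, ← e1, ← hu, mul_assoc, ← map_mul, Units.mul_inv, map_one, mul_one]

variable {k E F : Type*} [Field k] [Field E] [Field F] [Algebra k E] [Algebra k F]
  [Algebra E F] [IsScalarTower k E F] [FiniteDimensional E F]

theorem deriv_aeval (w : Fin 2 → F) (D : Fin 2 → Derivation k F F)
    (hD : ∀ i j, D i (w j) = if i = j then 1 else 0) (i : Fin 2) (a : MvPolynomial (Fin 2) k) :
    D i (aeval w a) = aeval w (pderiv i a) := by
  let _ : Algebra (MvPolynomial (Fin 2) k) F := (aeval w).toAlgebra
  have : IsScalarTower k (MvPolynomial (Fin 2) k) F :=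
    IsScalarTower.of_algebraMap_eq fun c => ((aeval w).commutes c).symm
  have hh : (D i).compAlgebraMap (MvPolynomial (Fin 2) k) =
      (Algebra.linearMap (MvPolynomial (Fin 2) k) F).compDer (pderiv i) := by
    apply MvPolynomial.derivation_ext
    intro j
    change D i (aeval w (X j)) = aeval w (pderiv i (X j))
    rw [aeval_X, hD, pderiv_X]
    by_cases h : i = j
    · subst h; simp
    · rw [if_neg h, Pi.single_eq_of_ne (fun h' => h h'.symm), map_zero]
  exact congrArg (fun d => d a) hh

theorem trace_poly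
    (p : ℕ) [Fact p.Prime] [CharP F p] [CharP E p] (hlt : Module.finrank E F < p)
    (x y : Fin 3 → F)
    (hx0 : x 0 = 1) (hy0 : y 0 = 1) (h1 : ∑ i, x i * y i ^ p = 0) (h2 : ∑ i, x i ^ p * y i = 0)
    (w : Fin 2 → E) (hw : AlgebraicIndependent k w)
    (hgen : ∀ z : E, ∃ a b : MvPolynomial (Fin 2) k, aeval w b ≠ 0 ∧ z * aeval w b = aeval w a)
    (D : Fin 2 → Derivation k F F)
    (hD : ∀ i j, D i (algebraMap E F (w j)) = if i = j then 1 else 0)
    (I J : Fin (p - 2) → Fin 3) :
    ∃ r : MvPolynomial (Fin 2) k, aeval w r =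
      Algebra.trace E F ((∏ a, x (I a) * y (J a)) * formG x y (D 0) (D 1)) := by
  let _ : Algebra (MvPolynomial (Fin 2) k) E := (aeval w).toAlgebra
  let _ : Algebra (MvPolynomial (Fin 2) k) F := ((algebraMap E F).comp
    (algebraMap (MvPolynomial (Fin 2) k) E)).toAlgebra
  have : IsScalarTower (MvPolynomial (Fin 2) k) E F := IsScalarTower.of_algebraMap_eq fun _ => rfl
  have hinj : Function.Injective (algebraMap (MvPolynomial (Fin 2) k) E) := hw
  have : IsFractionRing (MvPolynomial (Fin 2) k) E := by
    constructor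
    refine ⟨?_, ?_, ?_⟩
    · rintro ⟨a, ha⟩
      rw [isUnit_iff_ne_zero]
      intro h
      exact nonZeroDivisors.ne_zero ha (hinj (h.trans (map_zero _).symm))
    · intro z
      obtain ⟨a, b, hb, hab⟩ := hgen z
      refine ⟨⟨a, ⟨b, mem_nonZeroDivisors_of_ne_zero ?_⟩⟩, hab⟩
      rintro rfl
      exact hb (map_zero _)
    · intro a b hab
      exact ⟨1, by rw [hinj hab]⟩
  refine ufd_mem (A := MvPolynomial (Fin 2) k) _ (fun π hπ => ?_)
  refine trace_form_prime p hlt x y hx0 hy0 h1 h2 D (fun i => pderiv i) ?_ π hπ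
    (not_dvd_pderiv π 1) I J
  intro i a
  have key : ∀ a : MvPolynomial (Fin 2) k, algebraMap (MvPolynomial (Fin 2) k) F a =
      aeval (fun j => algebraMap E F (w j)) a := by
    intro a
    change algebraMap E F (aeval w a) = _
    rw [← aeval_algebraMap_apply]
    rfl
  rw [key, key]
  exact deriv_aeval _ D hD i a

end Pool.Agent.Helper71
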