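import Mathlib
import Pool.Agent.Helper71.GonTwo

namespace Pool.Agent.Helper71

open MvPolynomial

/-- replace the second variable by its inverse and clear denominators. -/
noncomputable def flipPoly {k : Type*} [Field k] (r : MvPolynomial (Fin 2) k) :
    MvPolynomial (Fin 2) k :=
  ∑ m ∈ r.support, C (coeff m r) * ((X 0) ^ (m 0) * (X 1) ^ (degreeOf 1 r - m 1))

theorem flip_deg {k : Type*} [Field k] (r : MvPolynomial (Fin 2) k) :
    degreeOf 1 (flipPoly r) ≤ degreeOf 1 r := by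
  refine (degreeOf_sum_le _ _ _).trans (Finset.sup_le fun m _ => ?_)
  refine (degreeOf_C_mul_le _ _ _).trans ((degreeOf_mul_le _ _ _).trans ?_)
  have e1 : degreeOf 1 ((X 0 : MvPolynomial (Fin 2) k) ^ (m 0)) = 0 :=
    degreeOf_X_pow_of_ne _ (by decide)
  have e2 : degreeOf 1 ((X 1 : MvPolynomial (Fin 2) k) ^ (degreeOf 1 r - m 1)) =
      degreeOf 1 r - m 1 := degreeOf_X_self_pow _ _
  rw [e1, e2]
  omega

theorem aeval_flip {k E : Type*} [Field k] [Field E] [Algebra k E] (w : Fin 2 → E)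
    (hw1 : w 1 ≠ 0) (r : MvPolynomial (Fin 2) k) :
    aeval w (flipPoly r) = (w 1) ^ (degreeOf 1 r) * aeval ![w 0, (w 1)⁻¹] r := by
  have hle : ∀ m ∈ r.support, m 1 ≤ degreeOf 1 r := by
    intro m hm
    exact (degreeOf_le_iff.1 le_rfl) m hm
  have e1 : aeval ![w 0, (w 1)⁻¹] r = ∑ m ∈ r.support,
      algebraMap k E (coeff m r) * ((w 0) ^ (m 0) * (w 1)⁻¹ ^ (m 1)) := by
    rw [aeval_def, eval₂_eq']
    refine Finset.sum_congr rfl fun m _ => ?_
    rw [Fin.prod_univ_two]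
    rfl
  rw [e1, Finset.mul_sum, flipPoly, map_sum]
  refine Finset.sum_congr rfl fun m hm => ?_
  rw [map_mul, map_mul, map_pow, map_pow, aeval_X, aeval_X]
  have e2 : w 1 ^ (degreeOf 1 r) = w 1 ^ (degreeOf 1 r - m 1) * w 1 ^ (m 1) := by
    rw [← pow_add, Nat.sub_add_cancel (hle m hm)]
  rw [e2, algHom_C, inv_pow]
  have e3 : w 1 ^ (m 1) ≠ 0 := pow_ne_zero _ hw1
  field_simp

theorem flip_ne_zero {k : Type*} [Field k] (r : MvPolynomial (Fin 2) k) (hr : r ≠ 0) :
    flipPoly r ≠ 0 := by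
  intro h
  have hX : algebraMap (MvPolynomial (Fin 2) k) (FractionRing (MvPolynomial (Fin 2) k)) (X 1) ≠ 0 := by
    rw [Ne, IsFractionRing.to_map_eq_zero_iff]
    exact X_ne_zero 1
  have key := aeval_flip (k := k) ![algebraMap (MvPolynomial (Fin 2) k)
    (FractionRing (MvPolynomial (Fin 2) k)) (X 0), (algebraMap (MvPolynomial (Fin 2) k)
    (FractionRing (MvPolynomial (Fin 2) k)) (X 1))⁻¹] (inv_ne_zero hX) r
  rw [h, map_zero] at key
  have e1 : (aeval (R := k) ![algebraMap (MvPolynomial (Fin 2) k)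
    (FractionRing (MvPolynomial (Fin 2) k)) (X 0), (algebraMap (MvPolynomial (Fin 2) k)
    (FractionRing (MvPolynomial (Fin 2) k)) (X 1))]) r =
    algebraMap (MvPolynomial (Fin 2) k) (FractionRing (MvPolynomial (Fin 2) k)) r := by
    have : (aeval (R := k) ![algebraMap (MvPolynomial (Fin 2) k)
      (FractionRing (MvPolynomial (Fin 2) k)) (X 0), (algebraMap (MvPolynomial (Fin 2) k)
      (FractionRing (MvPolynomial (Fin 2) k)) (X 1))]) = Algebra.algHom k _ _ := by
      apply MvPolynomial.algHom_ext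
      intro i
      fin_cases i
      · rw [aeval_X]; rfl
      · rw [aeval_X]; rfl
    rw [this]
    rfl
  have e2 : (![algebraMap (MvPolynomial (Fin 2) k)
    (FractionRing (MvPolynomial (Fin 2) k)) (X 0), (algebraMap (MvPolynomial (Fin 2) k)
    (FractionRing (MvPolynomial (Fin 2) k)) (X 1))⁻¹] 1)⁻¹ = algebraMap (MvPolynomial (Fin 2) k)
    (FractionRing (MvPolynomial (Fin 2) k)) (X 1) := by
    simp
  rw [e2] at key
  have e3 := key.symm
  rw [mul_eq_zero] at e3
  rcases e3 with e3 | e3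
  · exact absurd e3 (pow_ne_zero _ (inv_ne_zero hX))
  · have : (aeval (R := k) ![algebraMap (MvPolynomial (Fin 2) k)
      (FractionRing (MvPolynomial (Fin 2) k)) (X 0), (algebraMap (MvPolynomial (Fin 2) k)
      (FractionRing (MvPolynomial (Fin 2) k)) (X 1))]) r = 0 := e3
    rw [e1, IsFractionRing.to_map_eq_zero_iff] at this
    exact hr this

theorem no_common {k E : Type*} [Field k] [Field E] [Algebra k E] (w : Fin 2 → E)
    (hw : AlgebraicIndependent k w) (T : E) (r r' : MvPolynomial (Fin 2) k)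
    (hr : aeval w r = T) (hr' : aeval ![w 0, (w 1)⁻¹] r' = - ((w 1) ^ 2 * T)) : T = 0 := by
  by_contra hT
  have hr0 : r ≠ 0 := by
    rintro rfl
    rw [map_zero] at hr
    exact hT hr.symm
  have hw1 : w 1 ≠ 0 := hw.ne_zero 1
  have hpoly : r * X 1 ^ (degreeOf 1 r' + 2) = - flipPoly r' := by
    apply hw
    rw [map_mul, map_neg, aeval_flip w hw1, hr', hr, map_pow, aeval_X]
    ring
  have hdeg := degreeOf_mul_X_self_pow_eq_add_of_ne_zero 1 (degreeOf 1 r' + 2) hr0
  rw [hpoly, degreeOf_neg] at hdeg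
  have := flip_deg r'
  omega

theorem algIndep_inv {k E : Type*} [Field k] [Field E] [Algebra k E] (w : Fin 2 → E)
    (hw : AlgebraicIndependent k w) : AlgebraicIndependent k ![w 0, (w 1)⁻¹] := by
  rw [algebraicIndependent_iff]
  intro r hr
  by_contra hr0
  have hw1 : w 1 ≠ 0 := hw.ne_zero 1
  have := aeval_flip w hw1 r
  rw [hr, mul_zero] at this
  exact flip_ne_zero r hr0 (hw (this.trans (map_zero _).symm))

theorem gen_inv {k E : Type*} [Field k] [Field E] [Algebra k E] (w : Fin 2 → E)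
    (hw : AlgebraicIndependent k w)
    (hgen : ∀ z : E, ∃ a b : MvPolynomial (Fin 2) k, aeval w b ≠ 0 ∧ z * aeval w b = aeval w a)
    (z : E) : ∃ a b : MvPolynomial (Fin 2) k, aeval ![w 0, (w 1)⁻¹] b ≠ 0 ∧
      z * aeval ![w 0, (w 1)⁻¹] b = aeval ![w 0, (w 1)⁻¹] a := by
  obtain ⟨a, b, hb, hab⟩ := hgen z
  have hw1 : w 1 ≠ 0 := hw.ne_zero 1
  have hw1' : (![w 0, (w 1)⁻¹] : Fin 2 → E) 1 ≠ 0 := inv_ne_zero hw1
  have key := aeval_flip (k := k) ![w 0, (w 1)⁻¹] hw1'
  have e : ![(![w 0, (w 1)⁻¹] : Fin 2 → E) 0, (![w 0, (w 1)⁻¹] 1)⁻¹] = w := by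
    funext i
    fin_cases i
    · rfl
    · simp
  rw [e] at key
  have e1 : (![w 0, (w 1)⁻¹] : Fin 2 → E) 1 = (w 1)⁻¹ := rfl
  rw [e1] at key
  refine ⟨flipPoly a * X 1 ^ degreeOf 1 b, flipPoly b * X 1 ^ degreeOf 1 a, ?_, ?_⟩
  · rw [map_mul, key, map_pow, aeval_X, e1]
    refine mul_ne_zero (mul_ne_zero (pow_ne_zero _ (inv_ne_zero hw1)) hb)
      (pow_ne_zero _ (inv_ne_zero hw1))
  · rw [map_mul, map_mul, key, key, map_pow, map_pow, aeval_X, e1, ← hab]
    ring

end Pool.Agent.Helper71
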