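import Mathlib
import Pool.Agent.Helper71.GonLower

namespace Pool.Agent.Helper71

open MvPolynomial
open scoped Pointwise

theorem span_pow_top {E F : Type*} [Field E] [Field F] [Algebra E F] [FiniteDimensional E F]
    (S : Set F) (h1 : (1 : F) ∈ S) (hS : Algebra.adjoin E S = ⊤) (n : ℕ)
    (hn : Module.finrank E F ≤ n + 1) : Submodule.span E S ^ n = ⊤ := by
  have hV1 : (1 : F) ∈ Submodule.span E S := Submodule.subset_span h1
  have hmono : ∀ n, Submodule.span E S ^ n ≤ Submodule.span E S ^ (n + 1) := by
    intro n z hz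
    rw [pow_succ]
    have := Submodule.mul_mem_mul hz hV1
    rwa [mul_one] at this
  have hstab : ∀ n, Submodule.span E S ^ (n + 1) ≤ Submodule.span E S ^ n →
      Submodule.span E S ^ n = ⊤ := by
    intro n hle
    have hone : ∀ n, (1 : F) ∈ Submodule.span E S ^ n := by
      intro n
      induction n with
      | zero => rw [pow_zero]; exact Submodule.one_le.1 le_rfl
      | succ n ih => exact hmono n ih
    rw [eq_top_iff]
    intro z hz'
    have hz : z ∈ Algebra.adjoin E S := by rw [hS]; trivial
    clear hz'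
    have : ∀ t ∈ Submodule.span E S ^ n, z * t ∈ Submodule.span E S ^ n := by
      induction hz using Algebra.adjoin_induction with
      | mem s hs =>
        intro t ht
        apply hle
        rw [pow_succ']
        exact Submodule.mul_mem_mul (Submodule.subset_span hs) ht
      | algebraMap c =>
        intro t ht
        rw [← Algebra.smul_def]
        exact Submodule.smul_mem _ _ ht
      | add a b _ _ ha hb =>
        intro t ht
        rw [add_mul]
        exact Submodule.add_mem _ (ha t ht) (hb t ht)
      | mul a b _ _ ha hb =>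
        intro t ht
        rw [mul_assoc]
        exact ha _ (hb t ht)
    have h2 := this 1 (hone n)
    rwa [mul_one] at h2
  have hdim : ∀ n, Submodule.span E S ^ n = ⊤ ∨
      n + 1 ≤ Module.finrank E (Submodule.span E S ^ n : Submodule E F) := by
    intro n
    induction n with
    | zero =>
      right
      rw [pow_zero, zero_add, Nat.one_le_iff_ne_zero]
      intro h
      rw [Submodule.finrank_eq_zero] at h
      have : (1 : F) ∈ (1 : Submodule E F) := Submodule.one_le.1 le_rfl
      rw [h, Submodule.mem_bot] at this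
      exact one_ne_zero this
    | succ n ih =>
      rcases ih with ih | ih
      · left
        rw [eq_top_iff, ← ih]
        exact hmono n
      · by_cases hst : Submodule.span E S ^ (n + 1) ≤ Submodule.span E S ^ n
        · left
          rw [eq_top_iff, ← hstab n hst]
          exact hmono n
        · right
          have hlt : Submodule.span E S ^ n < Submodule.span E S ^ (n + 1) :=
            lt_of_le_not_ge (hmono n) hst
          have := Submodule.finrank_lt_finrank_of_lt hlt
          omega
  rcases hdim n with h | h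
  · exact h
  · apply Submodule.eq_top_of_finrank_eq
    have := Submodule.finrank_le (Submodule.span E S ^ n)
    omega

variable {k E F : Type*} [Field k] [Field E] [Field F] [Algebra k E] [Algebra k F]
  [Algebra E F] [IsScalarTower k E F] [FiniteDimensional E F]

theorem formG_smul_right (D D' : Derivation k F F) (b : F) (x y : Fin 3 → F) :
    formG x y D (b • D') = b * formG x y D D' := by
  simp only [formG, crossD, Derivation.smul_apply, smul_eq_mul]
  ring

theorem trace_zero
    (p : ℕ) [Fact p.Prime] [CharP F p] [CharP E p] (hlt : Module.finrank E F < p)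
    (x y : Fin 3 → F)
    (hx0 : x 0 = 1) (hy0 : y 0 = 1) (h1 : ∑ i, x i * y i ^ p = 0) (h2 : ∑ i, x i ^ p * y i = 0)
    (w : Fin 2 → E) (hw : AlgebraicIndependent k w)
    (hgen : ∀ z : E, ∃ a b : MvPolynomial (Fin 2) k, aeval w b ≠ 0 ∧ z * aeval w b = aeval w a)
    (D : Fin 2 → Derivation k F F)
    (hD : ∀ i j, D i (algebraMap E F (w j)) = if i = j then 1 else 0)
    (I J : Fin (p - 2) → Fin 3) :
    Algebra.trace E F ((∏ a, x (I a) * y (J a)) * formG x y (D 0) (D 1)) = 0 := by
  have hw1 : w 1 ≠ 0 := hw.ne_zero 1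
  have hw1' : algebraMap E F (w 1) ≠ 0 := by
    rw [Ne, map_eq_zero_iff _ (algebraMap E F).injective]; exact hw1
  obtain ⟨r, hr⟩ := trace_poly p hlt x y hx0 hy0 h1 h2 w hw hgen D hD I J
  obtain ⟨r', hr'⟩ := trace_poly p hlt x y hx0 hy0 h1 h2 ![w 0, (w 1)⁻¹] (algIndep_inv w hw)
    (gen_inv w hw hgen) ![D 0, (- algebraMap E F (w 1) ^ 2) • D 1] (by
      have h00 := hD 0 0
      have h01 := hD 0 1
      have h10 := hD 1 0
      have h11 := hD 1 1
      rw [if_pos rfl] at h00 h11
      rw [if_neg (by decide)] at h01 h10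
      intro i j
      fin_cases i <;> fin_cases j
      · change D 0 (algebraMap E F (w 0)) = _
        rw [h00]; rfl
      · change D 0 (algebraMap E F ((w 1)⁻¹)) = _
        rw [map_inv₀, Derivation.leibniz_inv, h01, smul_zero]; rfl
      · change (- algebraMap E F (w 1) ^ 2) * D 1 (algebraMap E F (w 0)) = _
        rw [h10, mul_zero]; rfl
      · change (- algebraMap E F (w 1) ^ 2) * D 1 (algebraMap E F ((w 1)⁻¹)) = _
        rw [map_inv₀, Derivation.leibniz_inv, h11, smul_eq_mul, mul_one]
        change _ = (1 : F)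
        field_simp) I J
  refine no_common w hw _ r r' hr ?_
  rw [hr']
  change Algebra.trace E F ((∏ a, x (I a) * y (J a)) *
    formG x y (D 0) ((- algebraMap E F (w 1) ^ 2) • D 1)) = _
  rw [formG_smul_right]
  have : (∏ a, x (I a) * y (J a)) * (-algebraMap E F (w 1) ^ 2 * formG x y (D 0) (D 1)) =
      (-(w 1) ^ 2) • ((∏ a, x (I a) * y (J a)) * formG x y (D 0) (D 1)) := by
    rw [Algebra.smul_def, map_neg, map_pow]
    ring
  rw [this, map_smul, smul_eq_mul, neg_mul]

theorem formG_zero
    (p : ℕ) [Fact p.Prime] [CharP F p] [CharP E p] (hlt : Module.finrank E F < p)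
    (x y : Fin 3 → F)
    (hx0 : x 0 = 1) (hy0 : y 0 = 1) (h1 : ∑ i, x i * y i ^ p = 0) (h2 : ∑ i, x i ^ p * y i = 0)
    (hxy : Algebra.adjoin E (Set.range x ∪ Set.range y) = ⊤)
    (w : Fin 2 → E) (hw : AlgebraicIndependent k w)
    (hgen : ∀ z : E, ∃ a b : MvPolynomial (Fin 2) k, aeval w b ≠ 0 ∧ z * aeval w b = aeval w a)
    (D : Fin 2 → Derivation k F F)
    (hD : ∀ i j, D i (algebraMap E F (w j)) = if i = j then 1 else 0) :
    formG x y (D 0) (D 1) = 0 := by
  have hp2 : 2 ≤ p := (Fact.out : p.Prime).two_le
  have hsep : Algebra.IsSeparable E F := isSeparable_of_finrank_lt p hlt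
  obtain ⟨S, hS⟩ : ∃ S : Set F, S = Set.range (fun ij : Fin 3 × Fin 3 => x ij.1 * y ij.2) :=
    ⟨_, rfl⟩
  have hone : (1 : F) ∈ S := by
    rw [hS]; exact ⟨(0, 0), by simp [hx0, hy0]⟩
  have hadj : Algebra.adjoin E S = ⊤ := by
    rw [eq_top_iff, ← hxy]
    apply Algebra.adjoin_mono
    rintro z (⟨i, rfl⟩ | ⟨j, rfl⟩)
    · rw [hS]; exact ⟨(i, 0), by simp [hy0]⟩
    · rw [hS]; exact ⟨(0, j), by simp [hx0]⟩
  have htop := span_pow_top S hone hadj (p - 2) (by omega)
  rw [Submodule.span_pow] at htop
  have hall : ∀ h : F, Algebra.trace E F (h * formG x y (D 0) (D 1)) = 0 := by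
    intro h
    have hh : h ∈ Submodule.span E (S ^ (p - 2)) := by rw [htop]; trivial
    induction hh using Submodule.span_induction with
    | mem z hz =>
      obtain ⟨f, rfl⟩ := Set.mem_pow.1 hz
      have hf : ∀ a, ∃ ij : Fin 3 × Fin 3, x ij.1 * y ij.2 = (f a : F) := by
        intro a
        exact hS.subset (f a).2
      choose ij hij using hf
      have e : (List.ofFn fun i => (f i : F)).prod =
          ∏ a, x ((ij a).1) * y ((ij a).2) := by
        rw [List.prod_ofFn]
        exact Finset.prod_congr rfl fun a _ => (hij a).symm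
      rw [e]
      exact trace_zero p hlt x y hx0 hy0 h1 h2 w hw hgen D hD (fun a => (ij a).1)
        (fun a => (ij a).2)
    | zero => rw [zero_mul, map_zero]
    | add a b _ _ ha hb => rw [add_mul, map_add, ha, hb, add_zero]
    | smul c a _ ha => rw [smul_mul_assoc, map_smul, ha, smul_zero]
  have hnd := traceForm_nondegenerate E F
  refine hnd.1 _ (fun h => ?_)
  rw [Algebra.traceForm_apply, mul_comm]
  exact hall h

end Pool.Agent.Helper71
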