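import Mathlib
import Pool.Agent.Helper71.GonSpan
import Pool.Agent.Helper71.GonDer

namespace Pool.Agent.Helper71

open MvPolynomial

theorem formG_ne_zero {k F : Type*} [Field k] [Field F] [Algebra k F]
    (p : ℕ) [Fact p.Prime] [CharP F p] (x y : Fin 3 → F)
    (hx0 : x 0 = 1) (hy0 : y 0 = 1) (h1 : ∑ i, x i * y i ^ p = 0) (h2 : ∑ i, x i ^ p * y i = 0)
    (hxy : IntermediateField.adjoin k (Set.range x ∪ Set.range y) = ⊤)
    (w : Fin 2 → F) (D : Fin 2 → Derivation k F F)
    (hD : ∀ i j, D i (w j) = if i = j then 1 else 0) :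
    formG x y (D 0) (D 1) ≠ 0 := by
  intro hG
  -- a nontrivial combination killing both
  obtain ⟨a, b, hab, hA, hB⟩ : ∃ a b : F, (a ≠ 0 ∨ b ≠ 0) ∧
      a * crossD (D 0) x 0 + b * crossD (D 1) x 0 = 0 ∧
      a * crossD (D 0) y 0 + b * crossD (D 1) y 0 = 0 := by
    simp only [formG] at hG
    by_cases hc : crossD (D 0) x 0 = 0 ∧ crossD (D 1) x 0 = 0
    · by_cases hc' : crossD (D 0) y 0 = 0 ∧ crossD (D 1) y 0 = 0
      · exact ⟨1, 0, Or.inl one_ne_zero, by rw [hc.1, hc.2]; ring, by rw [hc'.1, hc'.2]; ring⟩
      · refine ⟨crossD (D 1) y 0, - crossD (D 0) y 0, ?_, by rw [hc.1, hc.2]; ring, by ring⟩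
        by_contra h
        push Not at h
        exact hc' ⟨neg_eq_zero.1 h.2, h.1⟩
    · refine ⟨crossD (D 1) x 0, - crossD (D 0) x 0, ?_, by ring, ?_⟩
      · by_contra h
        push Not at h
        exact hc ⟨neg_eq_zero.1 h.2, h.1⟩
      · linear_combination -hG
  have hlin : ∀ z : Fin 3 → F, ∀ j, crossD (a • D 0 + b • D 1) z j =
      a * crossD (D 0) z j + b * crossD (D 1) z j := by
    intro z j
    simp only [crossD, Derivation.add_apply, Derivation.smul_apply, smul_eq_mul]
    ring
  obtain ⟨D', hD'⟩ : ∃ D' : Derivation k F F, D' = a • D 0 + b • D 1 := ⟨_, rfl⟩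
  rw [← hD'] at hlin
  have h2' : ∑ i, y i * x i ^ p = 0 := by
    rw [← h2]; exact Finset.sum_congr rfl fun _ _ => mul_comm _ _
  have hkill : ∀ z z' : Fin 3 → F, z 0 = 1 → z' 0 = 1 → ∑ i, z i * z' i ^ p = 0 →
      crossD D' z 0 = 0 → ∀ i, D' (z i) = 0 := by
    intro z z' hz hz' hrel h0 i
    have e1 := crossD_eq p z z' hz' hrel D' 1
    have e2 := crossD_eq p z z' hz' hrel D' 2
    rw [h0, zero_mul] at e1 e2
    simp only [crossD] at e1 e2
    change z 2 * D' (z 0) - z 0 * D' (z 2) = 0 at e1
    change z 0 * D' (z 1) - z 1 * D' (z 0) = 0 at e2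
    rw [hz, Derivation.map_one_eq_zero] at e1 e2
    fin_cases i
    · change D' (z 0) = 0
      rw [hz, Derivation.map_one_eq_zero]
    · change D' (z 1) = 0
      linear_combination e2
    · change D' (z 2) = 0
      linear_combination -e1
  have hkx := hkill x y hx0 hy0 h1 (by rw [hlin, hA])
  have hky := hkill y x hy0 hx0 h2' (by rw [hlin, hB])
  have hall : ∀ z : F, D' z = 0 := by
    intro z
    have hz : z ∈ IntermediateField.adjoin k (Set.range x ∪ Set.range y) := by
      rw [hxy]; trivial
    induction hz using IntermediateField.adjoin_induction with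
    | mem z hz =>
      rcases hz with ⟨i, rfl⟩ | ⟨i, rfl⟩
      · exact hkx i
      · exact hky i
    | algebraMap c => exact D'.map_algebraMap c
    | add s t _ _ hs ht => rw [map_add, hs, ht, add_zero]
    | inv s _ hs => rw [Derivation.leibniz_inv, hs, smul_zero]
    | mul s t _ _ hs ht => rw [Derivation.leibniz, hs, ht, smul_zero, smul_zero, add_zero]
  have h00 := hall (w 0)
  have h11 := hall (w 1)
  rw [hD', Derivation.add_apply, Derivation.smul_apply, Derivation.smul_apply, hD, hD] at h00 h11
  simp at h00 h11
  rcases hab with h | h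
  · exact h h00
  · exact h h11

theorem lower_bound {k F : Type*} [Field k] [Field F] [Algebra k F]
    (p : ℕ) [Fact p.Prime] [CharP k p] (x y : Fin 3 → F)
    (hx0 : x 0 = 1) (hy0 : y 0 = 1) (h1 : ∑ i, x i * y i ^ p = 0) (h2 : ∑ i, x i ^ p * y i = 0)
    (hxy : IntermediateField.adjoin k (Set.range x ∪ Set.range y) = ⊤)
    (w : Fin 2 → F) (hw : AlgebraicIndependent k w)
    (hfin : FiniteDimensional (IntermediateField.adjoin k (Set.range w)) F) :
    p ≤ Module.finrank (IntermediateField.adjoin k (Set.range w)) F := by
  by_contra hlt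
  push Not at hlt
  have : CharP F p := charP_of_injective_algebraMap (algebraMap k F).injective p
  have : CharP (IntermediateField.adjoin k (Set.range w)) p :=
    charP_of_injective_algebraMap (algebraMap k _).injective p
  have hsep : Algebra.IsSeparable (IntermediateField.adjoin k (Set.range w)) F :=
    isSeparable_of_finrank_lt p hlt
  obtain ⟨w', hw'⟩ : ∃ w' : Fin 2 → IntermediateField.adjoin k (Set.range w),
      ∀ j, (w' j : F) = w j :=
    ⟨fun j => ⟨w j, IntermediateField.subset_adjoin _ _ ⟨j, rfl⟩⟩, fun j => rfl⟩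
  have hww : (IntermediateField.adjoin k (Set.range w)).val ∘ w' = w := funext hw'
  have hwi : AlgebraicIndependent k w' := by
    apply AlgebraicIndependent.of_comp (IntermediateField.adjoin k (Set.range w)).val
    rw [hww]; exact hw
  have haev : ∀ a : MvPolynomial (Fin 2) k,
      ((aeval w' a : IntermediateField.adjoin k (Set.range w)) : F) = aeval w a := by
    intro a
    have := (aeval_algebraMap_apply (R := k) F w' a)
    exact this.symm.trans (congrArg (fun u : Fin 2 → F => aeval u a) hww)
  have hgen : ∀ z : IntermediateField.adjoin k (Set.range w),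
      ∃ a b : MvPolynomial (Fin 2) k, aeval w' b ≠ 0 ∧ z * aeval w' b = aeval w' a := by
    intro z
    obtain ⟨r, s, hrs⟩ := (IntermediateField.mem_adjoin_range_iff k w (z : F)).1 z.2
    by_cases hs : aeval w s = 0
    · refine ⟨0, 1, ?_, ?_⟩
      · rw [map_one]; exact one_ne_zero
      · rw [hs, div_zero] at hrs
        rw [map_one, map_zero, mul_one]
        exact Subtype.ext hrs
    · refine ⟨r, s, ?_, ?_⟩
      · intro h
        apply hs
        rw [← haev, h]; rfl
      · apply Subtype.ext
        change (z : F) * ((aeval w' s : IntermediateField.adjoin k (Set.range w)) : F) = _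
        rw [haev, haev, hrs, div_mul_cancel₀ _ hs]
  -- derivations
  obtain ⟨D, hD⟩ : ∃ D : Fin 2 → Derivation k F F,
      ∀ i j, D i (w j) = if i = j then 1 else 0 := by
    let _ : Algebra (MvPolynomial (Fin 2) k) (IntermediateField.adjoin k (Set.range w)) :=
      (aeval w').toAlgebra
    let _ : Algebra (MvPolynomial (Fin 2) k) F :=
      ((algebraMap (IntermediateField.adjoin k (Set.range w)) F).comp
      (algebraMap (MvPolynomial (Fin 2) k) (IntermediateField.adjoin k (Set.range w)))).toAlgebra
    have : IsScalarTower (MvPolynomial (Fin 2) k) (IntermediateField.adjoin k (Set.range w)) F :=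
      IsScalarTower.of_algebraMap_eq fun _ => rfl
    have : IsScalarTower k (MvPolynomial (Fin 2) k) F := by
      refine IsScalarTower.of_algebraMap_eq fun c => ?_
      change algebraMap k F c = ((aeval w' (C c) : IntermediateField.adjoin k (Set.range w)) : F)
      rw [haev, algHom_C]
    have hinj : Function.Injective (algebraMap (MvPolynomial (Fin 2) k)
      (IntermediateField.adjoin k (Set.range w))) := hwi
    have hfr : IsFractionRing (MvPolynomial (Fin 2) k)
        (IntermediateField.adjoin k (Set.range w)) := by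
      constructor
      refine ⟨?_, ?_, ?_⟩
      · rintro ⟨a, ha⟩
        rw [isUnit_iff_ne_zero]
        intro h
        exact nonZeroDivisors.ne_zero ha (hinj (h.trans (map_zero _).symm))
      · intro z
        obtain ⟨a, b, hb, hab⟩ := hgen z
        refine ⟨⟨a, ⟨b, mem_nonZeroDivisors_of_ne_zero ?_⟩⟩, hab⟩
        rintro rfl
        exact hb (map_zero _)
      · intro a b hab
        exact ⟨1, by rw [hinj hab]⟩
    have e1 : Algebra.FormallyEtale (MvPolynomial (Fin 2) k)
        (IntermediateField.adjoin k (Set.range w)) :=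
      Algebra.FormallyEtale.of_isLocalization (nonZeroDivisors (MvPolynomial (Fin 2) k))
    have e2 : Algebra.FormallyEtale (IntermediateField.adjoin k (Set.range w)) F :=
      Algebra.FormallyEtale.of_isSeparable _ _
    have e3 : Algebra.FormallyEtale (MvPolynomial (Fin 2) k) F :=
      Algebra.FormallyEtale.comp _ (IntermediateField.adjoin k (Set.range w)) _
    have : ∀ i : Fin 2, ∃ D : Derivation k F F, ∀ a : MvPolynomial (Fin 2) k,
        D (algebraMap _ F a) = algebraMap _ F (pderiv i a) := by
      intro i
      obtain ⟨D, hD⟩ := exists_derivation_extends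
        ((Algebra.linearMap (MvPolynomial (Fin 2) k) F).compDer (pderiv i))
      exact ⟨D, hD⟩
    choose D hD using this
    refine ⟨D, fun i j => ?_⟩
    have h := hD i (X j)
    have e4 : algebraMap (MvPolynomial (Fin 2) k) F (X j) = w j := by
      change ((aeval w' (X j) : IntermediateField.adjoin k (Set.range w)) : F) = w j
      rw [aeval_X, hw']
    rw [e4, pderiv_X] at h
    rw [h]
    by_cases hij : i = j
    · subst hij
      rw [Pi.single_eq_same, map_one, if_pos rfl]
    · rw [Pi.single_eq_of_ne (fun h' => hij h'.symm), map_zero, if_neg hij]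
  have hadj : Algebra.adjoin (IntermediateField.adjoin k (Set.range w))
      (Set.range x ∪ Set.range y) = ⊤ := by
    have hfield : (Algebra.adjoin (IntermediateField.adjoin k (Set.range w))
        (Set.range x ∪ Set.range y)) = (IntermediateField.adjoin
        (IntermediateField.adjoin k (Set.range w)) (Set.range x ∪ Set.range y)).toSubalgebra := by
      rw [IntermediateField.adjoin_toSubalgebra]
    rw [hfield]
    rw [← IntermediateField.top_toSubalgebra]
    congr 1
    rw [eq_top_iff]
    intro z _
    have hz : z ∈ IntermediateField.adjoin k (Set.range x ∪ Set.range y) := by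
      rw [hxy]; trivial
    have hle : IntermediateField.adjoin k (Set.range x ∪ Set.range y) ≤
        (IntermediateField.adjoin (IntermediateField.adjoin k (Set.range w))
          (Set.range x ∪ Set.range y)).restrictScalars k := by
      rw [IntermediateField.adjoin_le_iff]
      exact IntermediateField.subset_adjoin _ _
    exact hle hz
  refine formG_ne_zero p x y hx0 hy0 h1 h2 hxy w D hD ?_
  refine formG_zero p hlt x y hx0 hy0 h1 h2 hadj w' hwi hgen D ?_
  intro i j
  change D i (w' j : F) = _
  rw [hw']
  exact hD i j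

end Pool.Agent.Helper71
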