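import Mathlib
import Pool.Agent.Helper71.PPProper
import Pool.Agent.Helper71.PPExists

namespace Pool.Agent.Helper71

open AlgebraicGeometry CategoryTheory MvPolynomial HomogeneousLocalization Limits

universe u

attribute [local instance] MvPolynomial.gradedAlgebra

variable {k : Type u} [Field k] {n : ℕ}

theorem exists_hom_stalk {X : Scheme.{u}} {F : Type u} [Field F] (g : Spec (.of F) ⟶ X) (y : X)
    (e : g (IsLocalRing.closedPoint F) = y) :
    ∃ κ : X.presheaf.stalk y ⟶ .of F, Spec.map κ ≫ X.fromSpecStalk y = g ∧
      Set.range κ.hom = Set.range (Scheme.stalkClosedPointTo g).hom := by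
  subst e
  exact ⟨Scheme.stalkClosedPointTo g, Scheme.Spec_stalkClosedPointTo_fromSpecStalk g, rfl⟩

theorem closedPoint_eq_genericPoint {X : Scheme.{u}} [IsIntegral X] {F : Type u} [Field F]
    (g : Spec (.of F) ⟶ X) [hg : IsDominant g] :
    g (IsLocalRing.closedPoint F) = genericPoint X := by
  have h1 : DenseRange g := g.denseRange
  have h2 : Set.range g = {g (IsLocalRing.closedPoint F)} := by
    ext t
    constructor
    · rintro ⟨q, rfl⟩
      have : q = IsLocalRing.closedPoint F := Subsingleton.elim (α := PrimeSpectrum F) _ _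
      rw [this]
      rfl
    · rintro rfl
      exact ⟨_, rfl⟩
  have h3 : closure {g (IsLocalRing.closedPoint F)} = Set.univ := by
    rw [← h2]
    exact h1.closure_range
  exact ((genericPoint_spec X).eq h3).symm

/-- The function field as the field of a dominant point. -/
theorem exists_iso_functionField {X : Scheme.{u}} [IsIntegral X] {F : Type u} [Field F]
    (g : Spec (.of F) ⟶ X) [IsDominant g]
    (hcl : Subfield.closure (Set.range (Scheme.stalkClosedPointTo g).hom) = ⊤) :
    ∃ κ : X.functionField ≅ .of F, Spec.map κ.hom ≫ X.fromSpecStalk (genericPoint X) = g := by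
  obtain ⟨κ, h1, h2⟩ := exists_hom_stalk g _ (closedPoint_eq_genericPoint g)
  have hsurj : Function.Surjective κ.hom := by
    intro z
    have hz : z ∈ Subfield.closure (Set.range (Scheme.stalkClosedPointTo g).hom) := by
      rw [hcl]; trivial
    rw [← h2] at hz
    have hle : Subfield.closure (Set.range κ.hom) ≤
        (κ.hom : X.functionField →+* F).fieldRange := Subfield.closure_le.2 (by
      rintro _ ⟨t, rfl⟩
      exact ⟨t, rfl⟩)
    obtain ⟨t, ht⟩ := hle hz
    exact ⟨t, ht⟩
  have hinj : Function.Injective κ.hom := (κ.hom : X.functionField →+* F).injective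
  have : IsIso κ := by
    rw [ConcreteCategory.isIso_iff_bijective]
    exact ⟨hinj, hsurj⟩
  exact ⟨@asIso _ _ _ _ κ this, h1⟩

end Pool.Agent.Helper71
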