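import Mathlib
import Pool.Agent.Helper71.FunField

namespace Pool.Agent.Helper71

open AlgebraicGeometry CategoryTheory MvPolynomial HomogeneousLocalization Limits

universe u

attribute [local instance] MvPolynomial.gradedAlgebra

theorem rank_subfield_transfer {K F : Type u} [Field K] [Field F] (e : F ≃+* K) (S : Subfield F)
    (T : Subfield K) (h : T = S.map (e : F →+* K)) : Module.rank T K = Module.rank S F := by
  subst h
  symm
  refine Algebra.rank_eq_of_equiv_equiv
    (RingEquiv.ofBijective ((e : F →+* K).restrict S (S.map (e : F →+* K)) ?_) ⟨?_, ?_⟩) e ?_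
  · intro x hx
    exact ⟨x, hx, rfl⟩
  · intro x y hxy
    apply Subtype.ext
    exact e.injective (congrArg Subtype.val hxy)
  · rintro ⟨_, x, hx, rfl⟩
    exact ⟨⟨x, hx⟩, rfl⟩
  · ext x
    rfl

variable {k : Type u} [Field k] {n : ℕ}

theorem IsDomRat.fromFunctionField_comp {X : Scheme.{u}} [IsIntegral X] {s : X ⟶ Spec (.of k)}
    {φ : X.RationalMap (PP k n)} (h : IsDomRat s φ) :
    φ.fromFunctionField ≫ PPtoSpec k n = X.fromSpecStalk (genericPoint X) ≫ s :=
  ((Scheme.RationalMap.equivFunctionField s (PPtoSpec k n)).symm ⟨φ, h.isOver⟩).2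

/-- Degree of a rational map with given coordinates. -/
theorem ratDegree_eq {X : Scheme.{u}} [IsIntegral X] {F : Type u} [Field F]
    [Algebra k F] (κ : X.functionField ≅ .of F)
    (φ : X.RationalMap (PP k n)) (m : Fin (n + 1)) (w : Fin (n + 1) → F) (h1 : w m = 1)
    (h : IsUnit (w m)) (hφ : Spec.map κ.hom ≫ φ.fromFunctionField = pt m w h) :
    ratDegree φ = Module.rank (IntermediateField.adjoin k (Set.range w)) F := by
  let _ : Algebra k X.functionField :=
    ((κ.inv.hom : F →+* X.functionField).comp (algebraMap k F)).toAlgebra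
  let κ' : F →ₐ[k] X.functionField := { (κ.inv.hom : F →+* X.functionField) with
    commutes' := fun r => rfl }
  have hκ' : CommRingCat.ofHom κ'.toRingHom = κ.inv := rfl
  have hu : IsUnit (κ' (w m)) := h.map κ'
  have e1 : φ.fromFunctionField = pt m (fun i => κ' (w i)) hu := by
    have e2 := pt_comp (k := k) m w h κ' hu
    rw [← e2, ← hφ, hκ', ← Spec.map_comp_assoc, κ.hom_inv_id, Spec.map_id]
    exact (Category.id_comp _).symm
  have e3 := closure_pt (k := k) m (fun i => κ' (w i)) (by rw [h1, map_one]) hu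
  have e4 : pullbackField φ = (IntermediateField.adjoin k
      (Set.range (fun i => κ' (w i)))).toSubfield := by
    rw [← e3, ← e1]
    rfl
  have hbij : Function.Bijective (κ.inv.hom : F →+* X.functionField) :=
    ConcreteCategory.bijective_of_isIso κ.inv
  let e : F ≃+* X.functionField := RingEquiv.ofBijective (κ.inv.hom : F →+* X.functionField) hbij
  have e5 := rank_subfield_transfer e (IntermediateField.adjoin k (Set.range w)).toSubfield
    (pullbackField φ) (by
      rw [e4, IntermediateField.adjoin_toSubfield, IntermediateField.adjoin_toSubfield,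
        RingHom.map_field_closure, Set.image_union, ← Set.range_comp, ← Set.range_comp]
      rfl)
  exact e5

theorem IsDomRat.exists_coord {X : Scheme.{u}} [IsIntegral X] {s : X ⟶ Spec (.of k)}
    {φ : X.RationalMap (PP k n)} (hφ : IsDomRat s φ) {F : Type u} [Field F]
    [Algebra k F] (κ : X.functionField ≅ .of F)
    (hκ : Spec.map κ.hom ≫ X.fromSpecStalk (genericPoint X) ≫ s =
      Spec.map (CommRingCat.ofHom (algebraMap k F))) :
    ∃ (m : Fin (n + 1)) (w : Fin (n + 1) → F) (_ : w m = 1) (h : IsUnit (w m)),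
      IsDominant (pt (k := k) m w h) ∧
      ratDegree φ = Module.rank (IntermediateField.adjoin k (Set.range w)) F := by
  obtain ⟨m, w, h1, h, hg⟩ := exists_pt (k := k) (Spec.map κ.hom ≫ φ.fromFunctionField) (by
    rw [Category.assoc, hφ.fromFunctionField_comp, hκ])
  refine ⟨m, w, h1, h, ?_, ratDegree_eq κ φ m w h1 h hg⟩
  rw [← hg]
  have := (isDominant_iff_fromFunctionField φ).1 hφ.dominant
  infer_instance

/-- existence of rational maps with given coordinates -/
theorem exists_ratMap {X : Scheme.{u}} [IsIntegral X] (s : X ⟶ Spec (.of k))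
    {F : Type u} [Field F] [Algebra k F] (κ : X.functionField ≅ .of F)
    (hκ : Spec.map κ.hom ≫ X.fromSpecStalk (genericPoint X) ≫ s =
      Spec.map (CommRingCat.ofHom (algebraMap k F)))
    (m : Fin (n + 1)) (w : Fin (n + 1) → F) (h1 : w m = 1) (h : IsUnit (w m))
    (hd : IsDominant (pt (k := k) m w h)) :
    ∃ φ : X.RationalMap (PP k n), IsDomRat s φ ∧ Spec.map κ.hom ≫ φ.fromFunctionField = pt m w h ∧
      ratDegree φ = Module.rank (IntermediateField.adjoin k (Set.range w)) F := by
  have hov : (Spec.map κ.inv ≫ pt (k := k) m w h) ≫ PPtoSpec k n =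
      X.fromSpecStalk (genericPoint X) ≫ s := by
    rw [Category.assoc, pt_over, ← hκ, ← Spec.map_comp_assoc, κ.hom_inv_id, Spec.map_id,
      Category.id_comp]
  obtain ⟨φ, hφ⟩ : ∃ φ : X.RationalMap (PP k n), φ.fromFunctionField =
      Spec.map κ.inv ≫ pt (k := k) m w h ∧ φ.compHom (PPtoSpec k n) = s.toRationalMap :=
    ⟨_, Scheme.RationalMap.fromFunctionField_ofFunctionField s (PPtoSpec k n) _ hov,
      ((Scheme.RationalMap.equivFunctionField s (PPtoSpec k n)) ⟨_, hov⟩).2⟩
  have e : Spec.map κ.hom ≫ φ.fromFunctionField = pt m w h := by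
    rw [hφ.1, ← Spec.map_comp_assoc, κ.inv_hom_id, Spec.map_id, Category.id_comp]
  refine ⟨φ, ⟨hφ.2, ?_⟩, e, ratDegree_eq κ φ m w h1 h e⟩
  rw [isDominant_iff_fromFunctionField, hφ.1]
  infer_instance

end Pool.Agent.Helper71
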