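import Mathlib
import Pool.Agent.Helper71.SegChart
import Pool.Agent.Helper71.RatTransfer
import Pool.Agent.Helper71.GonMain

namespace Pool.Agent.Helper71

open AlgebraicGeometry CategoryTheory MvPolynomial HomogeneousLocalization Limits Set

universe u

attribute [local instance] MvPolynomial.gradedAlgebra

variable {k : Type u} [Field k] {p : ℕ} {F : Type u} [Field F] [Algebra k F] {x y : Fin 3 → F}

theorem Sys.gen' (h : Sys k p x y) (K : IntermediateField k F)
    (hx : ∀ i j, x i / x j ∈ K) (hy : ∀ i j, y i / y j ∈ K) : K = ⊤ := by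
  rw [eq_top_iff, ← h.gen, IntermediateField.adjoin_le_iff]
  rintro _ (⟨⟨i, j⟩, rfl⟩ | ⟨⟨i, j⟩, rfl⟩)
  · exact hx i j
  · exact hy i j

theorem Sys.closure_gp (h : Sys k p x y) :
    Subfield.closure (Set.range (Scheme.stalkClosedPointTo h.gp).hom) = ⊤ := by
  obtain ⟨w, hw⟩ : ∃ w : Fin (8 + 1) → F, w = fun m => (seg x y (idx 0 1))⁻¹ * seg x y m :=
    ⟨_, rfl⟩
  have hne := h.seg_ne_zero (idx 0 1)
  have hw1 : w (idx 0 1) = 1 := by rw [hw]; exact inv_mul_cancel₀ hne
  have hu : IsUnit (w (idx 0 1)) := by rw [hw1]; exact isUnit_one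
  have e1 : h.gp ≫ h.emb = pt (k := k) (idx 0 1) w hu := by
    rw [Scheme.Hom.toImage_imageι]
    subst hw
    exact (pt_scale _ _ _ _ (isUnit_iff_ne_zero.2 (inv_ne_zero hne)) _).symm
  have e2 := closure_pt (k := k) (idx 0 1) w hw1 hu
  have e3 : IntermediateField.adjoin k (Set.range w) = ⊤ := by
    have hmem : ∀ i j, x i * y j / (x 0 * y 1) ∈ IntermediateField.adjoin k (Set.range w) := by
      intro i j
      refine IntermediateField.subset_adjoin _ _ ⟨idx i j, ?_⟩
      rw [hw]
      beta_reduce
      rw [seg_idx, seg_idx, div_eq_mul_inv, mul_comm]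
    have h0 := h.hx 0
    have h1 := h.hy 1
    apply h.gen'
    · intro i j
      have := div_mem (hmem i 1) (hmem j 1)
      have e : x i / x j = (x i * y 1 / (x 0 * y 1)) / (x j * y 1 / (x 0 * y 1)) := by
        have := h.hx j
        field_simp
      rwa [e]
    · intro i j
      have := div_mem (hmem 0 i) (hmem 0 j)
      have e : y i / y j = (x 0 * y i / (x 0 * y 1)) / (x 0 * y j / (x 0 * y 1)) := by
        have := h.hy j
        field_simp
      rwa [e]
  rw [e3, ← e1] at e2
  rw [eq_top_iff]
  have e4 : (⊤ : IntermediateField k F).toSubfield = ⊤ := rfl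
  rw [← e4, ← e2, Subfield.closure_le]
  rintro _ ⟨t, rfl⟩
  rw [Scheme.stalkClosedPointTo_comp]
  exact Subfield.subset_closure ⟨_, rfl⟩

theorem Sys.exists_iso (h : Sys k p x y) [IsIntegral h.S] :
    ∃ κ : h.S.functionField ≅ .of F, Spec.map κ.hom ≫ h.S.fromSpecStalk (genericPoint h.S) =
      h.gp :=
  exists_iso_functionField h.gp h.closure_gp

theorem Sys.gp_str (h : Sys k p x y) :
    h.gp ≫ h.str = Spec.map (CommRingCat.ofHom (algebraMap k F)) := by
  rw [Scheme.Hom.toImage_imageι_assoc, pt_over]

theorem Sys.p_le_ratDegree [Fact p.Prime] [CharP k p] (h : Sys k p x y) [IsIntegral h.S]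
    (φ : h.S.RationalMap (PP k 2)) (hφ : IsDomRat h.str φ) : (p : Cardinal) ≤ ratDegree φ := by
  obtain ⟨κ, hκ⟩ := h.exists_iso
  have hκ2 : Spec.map κ.hom ≫ h.S.fromSpecStalk (genericPoint h.S) ≫ h.str =
      Spec.map (CommRingCat.ofHom (algebraMap k F)) := by
    rw [← h.gp_str, ← hκ, Category.assoc]
  obtain ⟨m, w, h1, hu, hdom, hdeg⟩ := hφ.exists_coord κ hκ2
  rw [hdeg]
  obtain ⟨v, hv⟩ : ∃ v : Fin 2 → F, v = fun i => w (m.succAbove i) := ⟨_, rfl⟩
  have hvi : AlgebraicIndependent k v := by
    have := algIndep_of_isDominant (k := k) m w h1 hu hdom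
      (fun i : ULift.{u} (Fin 2) => m.succAbove i.down)
      (fun a b hab => ULift.ext _ _ (Fin.succAbove_right_injective hab))
      (fun i => Fin.succAbove_ne m _)
    have h2 := this.comp (fun i : Fin 2 => ULift.up i) ULift.up_injective
    rw [hv]
    exact h2
  have hadj : IntermediateField.adjoin k (Set.range w) = IntermediateField.adjoin k (Set.range v) := by
    apply le_antisymm
    · rw [IntermediateField.adjoin_le_iff]
      rintro _ ⟨i, rfl⟩
      rcases eq_or_ne i m with rfl | hne
      · rw [h1]; exact one_mem _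
      · obtain ⟨j, rfl⟩ := Fin.exists_succAbove_eq hne
        apply IntermediateField.subset_adjoin
        exact ⟨j, by rw [hv]⟩
    · rw [IntermediateField.adjoin_le_iff]
      rintro _ ⟨i, rfl⟩
      apply IntermediateField.subset_adjoin
      exact ⟨_, by rw [hv]⟩
  rw [hadj]
  by_cases hfin : FiniteDimensional (IntermediateField.adjoin k (Set.range v)) F
  · rw [← Module.finrank_eq_rank]
    have hx0 := h.hx 0
    have hy0 := h.hy 0
    have := lower_bound (k := k) p (fun i => x i / x 0) (fun i => y i / y 0)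
      (div_self hx0) (div_self hy0) (by
        have : ∀ i, x i / x 0 * (y i / y 0) ^ p = x i * y i ^ p * (x 0 * y 0 ^ p)⁻¹ := by
          intro i; rw [div_pow]; field_simp
        simp only [this]
        rw [← Finset.sum_mul, h.h1, zero_mul]) (by
        have : ∀ i, (x i / x 0) ^ p * (y i / y 0) = x i ^ p * y i * (x 0 ^ p * y 0)⁻¹ := by
          intro i; rw [div_pow]; field_simp
        simp only [this]
        rw [← Finset.sum_mul, h.h2, zero_mul]) (by
        have hmx : ∀ i, x i / x 0 ∈ IntermediateField.adjoin k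
            (range (fun i => x i / x 0) ∪ range (fun i => y i / y 0)) :=
          fun i => IntermediateField.subset_adjoin _ _ (Or.inl ⟨i, rfl⟩)
        have hmy : ∀ i, y i / y 0 ∈ IntermediateField.adjoin k
            (range (fun i => x i / x 0) ∪ range (fun i => y i / y 0)) :=
          fun i => IntermediateField.subset_adjoin _ _ (Or.inr ⟨i, rfl⟩)
        apply h.gen'
        · intro i j
          have := div_mem (hmx i) (hmx j)
          rwa [div_div_div_cancel_right₀ hx0] at this
        · intro i j
          have := div_mem (hmy i) (hmy j)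
          rwa [div_div_div_cancel_right₀ hy0] at this) v hvi hfin
    exact_mod_cast this
  · have h2 : Cardinal.aleph0 ≤ Module.rank (IntermediateField.adjoin k (Set.range v)) F := by
      by_contra hlt
      push Not at hlt
      exact hfin (Module.rank_lt_aleph0_iff.1 hlt)
    exact Cardinal.natCast_lt_aleph0.le.trans h2

end Pool.Agent.Helper71
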