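import Mathlib
import Pool.Agent.Helper71.Sys

namespace Pool.Agent.Helper71

open Set

universe u

variable {k : Type u} [Field k] {p : ℕ} {F : Type u} [Field F] [Algebra k F] {x y : Fin 3 → F}

theorem Sys.gen'' (h : Sys k p x y) (K : IntermediateField k F)
    (hx : ∀ i j, x i / x j ∈ K) (hy : ∀ i j, y i / y j ∈ K) : K = ⊤ := by
  rw [eq_top_iff, ← h.gen, IntermediateField.adjoin_le_iff]
  rintro _ (⟨⟨i, j⟩, rfl⟩ | ⟨⟨i, j⟩, rfl⟩)
  · exact hx i j
  · exact hy i j

variable [Fact p.Prime] [CharP k p]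

theorem Sys.transcendental (h : Sys k p x y) {i l : Fin 3} (hil : i ≠ l) :
    Transcendental k (x l / x i) := by
  obtain ⟨j, hij, hjl⟩ : ∃ j : Fin 3, i ≠ j ∧ j ≠ l := by
    revert i l; decide
  exact (h.algebraicIndependent hij hil hjl).transcendental 0

/-- the power relation -/
theorem Sys.rel_q (h : Sys k p x y) : ∑ i, x i ^ (p ^ 2) * y i ^ p = 0 := by
  have : CharP F p := charP_of_injective_algebraMap (algebraMap k F).injective p
  have : ExpChar F p := ExpChar.prime Fact.out
  have h2 := congrArg (fun t => t ^ p) h.h2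
  simp only [sum_pow_char, zero_pow (Fact.out : p.Prime).ne_zero] at h2
  rw [← h2]
  apply Finset.sum_congr rfl
  intro i _
  rw [mul_pow, ← pow_mul, sq]

theorem Sys.det_ne_zero (h : Sys k p x y) {i j : Fin 3} (hij : i ≠ j) :
    x i * x j ^ (p ^ 2) - x i ^ (p ^ 2) * x j ≠ 0 := by
  have hp : p.Prime := Fact.out
  have hp2 : 1 < p ^ 2 := Nat.one_lt_pow (by norm_num) hp.one_lt
  intro h0
  apply h.transcendental hij
  refine ⟨Polynomial.X ^ (p ^ 2) - Polynomial.X, FiniteField.X_pow_card_sub_X_ne_zero _ hp2, ?_⟩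
  rw [map_sub, map_pow, Polynomial.aeval_X, div_pow, sub_eq_zero]
  have hi := h.hx i
  have hj := h.hx j
  rw [div_eq_div_iff (pow_ne_zero _ hi) hi]
  linear_combination h0

/-- solving for `y^p`. -/
theorem Sys.y_pow (h : Sys k p x y) {i j l : Fin 3} (hij : i ≠ j) (hil : i ≠ l) (hjl : j ≠ l) :
    (y j / y i) ^ p * (x j * x l ^ (p ^ 2) - x j ^ (p ^ 2) * x l) =
      x l * x i ^ (p ^ 2) - x l ^ (p ^ 2) * x i := by
  have h1 := h.h1
  have hq := h.rel_q
  rw [sum_three _ hij hil hjl] at h1 hq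
  have hi := pow_ne_zero p (h.hy i)
  rw [div_pow, div_mul_eq_mul_div, div_eq_iff hi]
  linear_combination x l ^ (p ^ 2) * h1 - x l * hq

theorem Sys.rank_le (h : Sys k p x y) :
    Module.rank (IntermediateField.adjoin k (Set.range (fun i => x i / x 0))) F ≤ p := by
  have hp : p.Prime := Fact.out
  obtain ⟨K, hK⟩ : ∃ K, K = IntermediateField.adjoin k (Set.range (fun i => x i / x 0)) :=
    ⟨_, rfl⟩
  rw [← hK]
  have hu : ∀ i, x i / x 0 ∈ K := by
    intro i
    rw [hK]
    exact IntermediateField.subset_adjoin _ _ ⟨i, rfl⟩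
  have hx0 := h.hx 0
  -- the p-th power of `y 1 / y 0`
  have hyp : (y 1 / y 0) ^ p ∈ K := by
    have h1 := h.y_pow (i := 0) (j := 1) (l := 2) (by decide) (by decide) (by decide)
    have hD := h.det_ne_zero (i := 1) (j := 2) (by decide)
    have h2 : (y 1 / y 0) ^ p = ((x 2 / x 0) * (x 0 / x 0) ^ (p ^ 2) -
        (x 2 / x 0) ^ (p ^ 2) * (x 0 / x 0)) / ((x 1 / x 0) * (x 2 / x 0) ^ (p ^ 2) -
        (x 1 / x 0) ^ (p ^ 2) * (x 2 / x 0)) := by
      have hD' : (x 1 / x 0) * (x 2 / x 0) ^ (p ^ 2) - (x 1 / x 0) ^ (p ^ 2) * (x 2 / x 0) ≠ 0 := by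
        have : (x 1 / x 0) * (x 2 / x 0) ^ (p ^ 2) - (x 1 / x 0) ^ (p ^ 2) * (x 2 / x 0) =
          (x 1 * x 2 ^ (p ^ 2) - x 1 ^ (p ^ 2) * x 2) / (x 0 ^ (p ^ 2) * x 0) := by
          rw [div_pow, div_pow]; field_simp
        rw [this]
        exact div_ne_zero hD (mul_ne_zero (pow_ne_zero _ hx0) hx0)
      rw [eq_div_iff hD', div_pow, div_pow, div_pow _ (x 0)]
      field_simp
      linear_combination h1
    rw [h2]
    have := hu
    exact div_mem (sub_mem (mul_mem (hu 2) (pow_mem (hu 0) _)) (mul_mem (pow_mem (hu 2) _) (hu 0)))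
      (sub_mem (mul_mem (hu 1) (pow_mem (hu 2) _)) (mul_mem (pow_mem (hu 1) _) (hu 2)))
  have hroot : Polynomial.aeval (y 1 / y 0) (Polynomial.X ^ p - Polynomial.C
      (⟨_, hyp⟩ : K)) = 0 := by
    rw [map_sub, map_pow, Polynomial.aeval_X, Polynomial.aeval_C, sub_eq_zero]
    rfl
  have hmonic : (Polynomial.X ^ p - Polynomial.C (⟨_, hyp⟩ : K)).Monic :=
    Polynomial.monic_X_pow_sub_C _ hp.ne_zero
  have hint : IsIntegral K (y 1 / y 0) := ⟨_, hmonic, hroot⟩
  have htop : IntermediateField.adjoin K {y 1 / y 0} = ⊤ := by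
    obtain ⟨L, hL⟩ : ∃ L, L = IntermediateField.adjoin K {y 1 / y 0} := ⟨_, rfl⟩
    rw [← hL]
    have hKL : ∀ z ∈ K, z ∈ L := fun z hz => L.algebraMap_mem ⟨z, hz⟩
    have hy1 : y 1 / y 0 ∈ L := by
      rw [hL]; exact IntermediateField.mem_adjoin_simple_self _ _
    have hy0 := h.hy 0
    have hyi : ∀ i, y i / y 0 ∈ L := by
      intro i
      fin_cases i
      · change y 0 / y 0 ∈ L
        rw [div_self hy0]; exact one_mem _
      · exact hy1
      · have h2 := h.h2
        rw [Fin.sum_univ_three] at h2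
        have hx2 := pow_ne_zero p (h.hx 2)
        have e : y 2 / y 0 = -(1 + (x 1 / x 0) ^ p * (y 1 / y 0)) / (x 2 / x 0) ^ p := by
          rw [div_pow, div_pow]
          field_simp
          linear_combination h2
        change y 2 / y 0 ∈ L
        rw [e]
        exact div_mem (neg_mem (add_mem (one_mem _) (mul_mem (pow_mem (hKL _ (hu 1)) _) hy1)))
          (pow_mem (hKL _ (hu 2)) _)
    have := h.gen'' (L.restrictScalars k) (by
      intro i j
      have := div_mem (hKL _ (hu i)) (hKL _ (hu j))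
      rwa [div_div_div_cancel_right₀ hx0] at this) (by
      intro i j
      have := div_mem (hyi i) (hyi j)
      rwa [div_div_div_cancel_right₀ hy0] at this)
    rw [eq_top_iff]
    intro z _
    have hz : z ∈ (⊤ : IntermediateField k F) := trivial
    rw [← this] at hz
    exact hz
  have hfin : FiniteDimensional K (IntermediateField.adjoin K {y 1 / y 0}) :=
    IntermediateField.adjoin.finiteDimensional hint
  have hrank := IntermediateField.adjoin.finrank hint
  have hdeg : (minpoly K (y 1 / y 0)).natDegree ≤ p := by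
    have e1 := Polynomial.natDegree_le_natDegree (minpoly.min K (y 1 / y 0) hmonic hroot)
    rwa [Polynomial.natDegree_X_pow_sub_C] at e1
  rw [htop] at hfin hrank
  rw [← IntermediateField.rank_top', ← Module.finrank_eq_rank, hrank]
  exact_mod_cast hdeg

theorem Sys.indep_x (h : Sys k p x y) :
    AlgebraicIndependent k (fun i : Fin 2 => x i.succ / x 0) := by
  have hp : p.Prime := Fact.out
  obtain ⟨A, hA⟩ : ∃ A, A = Algebra.adjoin k (range (fun i : Fin 2 => x i.succ / x 0)) := ⟨_, rfl⟩
  have alg : ∀ z ∈ A, IsAlgebraic A z := fun z hz => isAlgebraic_algebraMap (⟨z, hz⟩ : A)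
  have hx0 := h.hx 0
  have hy0 := h.hy 0
  have hu : ∀ i, IsAlgebraic A (x i / x 0) := by
    intro i
    refine Fin.cases ?_ (fun j => ?_) i
    · rw [div_self hx0]; exact isAlgebraic_one
    · apply alg
      rw [hA]
      exact Algebra.subset_adjoin ⟨j, rfl⟩
  have hv : ∀ i, IsAlgebraic A (y i / y 0) := by
    intro j
    by_cases hj : j = 0
    · subst hj
      rw [div_self hy0]; exact isAlgebraic_one
    · obtain ⟨l, hl0, hjl⟩ : ∃ l : Fin 3, 0 ≠ l ∧ j ≠ l := by
        revert j; decide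
      have h1 := h.y_pow (i := 0) (j := j) (l := l) (Ne.symm hj) hl0 hjl
      have hD := h.det_ne_zero (i := j) (j := l) hjl
      have h2 : (y j / y 0) ^ p = ((x l / x 0) * (x 0 / x 0) ^ (p ^ 2) -
          (x l / x 0) ^ (p ^ 2) * (x 0 / x 0)) * ((x j / x 0) * (x l / x 0) ^ (p ^ 2) -
          (x j / x 0) ^ (p ^ 2) * (x l / x 0))⁻¹ := by
        have hD' : (x j / x 0) * (x l / x 0) ^ (p ^ 2) - (x j / x 0) ^ (p ^ 2) * (x l / x 0) ≠
            0 := by
          have : (x j / x 0) * (x l / x 0) ^ (p ^ 2) - (x j / x 0) ^ (p ^ 2) * (x l / x 0) =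
            (x j * x l ^ (p ^ 2) - x j ^ (p ^ 2) * x l) / (x 0 ^ (p ^ 2) * x 0) := by
            rw [div_pow, div_pow]; field_simp
          rw [this]
          exact div_ne_zero hD (mul_ne_zero (pow_ne_zero _ hx0) hx0)
        rw [← div_eq_mul_inv, eq_div_iff hD', div_self hx0, one_pow]
        generalize (y j / y 0) ^ p = Y at h1 ⊢
        rw [div_pow, div_pow]
        field_simp
        linear_combination h1
      apply IsAlgebraic.of_pow hp.pos
      rw [h2]
      exact (((hu l).mul ((hu 0).pow _)).sub (((hu l).pow _).mul (hu 0))).mul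
        ((((hu j).mul ((hu l).pow _)).sub (((hu j).pow _).mul (hu l))).inv)
  have halg : Algebra.IsAlgebraic A F := by
    constructor
    intro z
    have hz : z ∈ (⊤ : IntermediateField k F) := trivial
    rw [← h.gen] at hz
    induction hz using IntermediateField.adjoin_induction with
    | mem z hz =>
      rcases hz with ⟨⟨s, t⟩, rfl⟩ | ⟨⟨s, t⟩, rfl⟩
      · have : x s / x t = (x s / x 0) * (x t / x 0)⁻¹ := by
          have := h.hx t
          field_simp
        change IsAlgebraic A (x s / x t)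
        rw [this]
        exact (hu s).mul (hu t).inv
      · have : y s / y t = (y s / y 0) * (y t / y 0)⁻¹ := by
          have := h.hy t
          field_simp
        change IsAlgebraic A (y s / y t)
        rw [this]
        exact (hv s).mul (hv t).inv
    | algebraMap a => exact alg _ (A.algebraMap_mem a)
    | add a b _ _ ha hb => exact ha.add hb
    | inv a _ ha => exact ha.inv
    | mul a b _ _ ha hb => exact ha.mul hb
  rw [hA] at halg
  refine (Algebra.IsAlgebraic.isTranscendenceBasis_of_lift_le_trdeg_of_finite k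
    (fun i : Fin 2 => x i.succ / x 0) ?_).1
  rw [h.trdeg]
  simp

end Pool.Agent.Helper71
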