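import Mathlib
import Pool.Agent.Helper71.SysBound
import Pool.Agent.Helper71.SysKx
import Pool.Agent.Helper71.PPDomX

namespace Pool.Agent.Helper71

open AlgebraicGeometry CategoryTheory MvPolynomial HomogeneousLocalization Limits Set

universe u

attribute [local instance] MvPolynomial.gradedAlgebra

variable {k : Type u} [Field k] {p : ℕ} {F : Type u} [Field F] [Algebra k F] {x y : Fin 3 → F}
  [Fact p.Prime] [CharP k p]

theorem Sys.exists_psi (h : Sys k p x y) [IsIntegral h.S] :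
    ∃ (κ : h.S.functionField ≅ .of F) (ψ : h.S.RationalMap (PP k 2)),
      Spec.map κ.hom ≫ h.S.fromSpecStalk (genericPoint h.S) = h.gp ∧
      IsDomRat h.str ψ ∧
      Spec.map κ.hom ≫ ψ.fromFunctionField =
        pt (k := k) 0 x (isUnit_iff_ne_zero.2 (h.hx 0)) ∧
      ratDegree ψ = p := by
  obtain ⟨κ, hκ⟩ := h.exists_iso
  have hκ2 : Spec.map κ.hom ≫ h.S.fromSpecStalk (genericPoint h.S) ≫ h.str =
      Spec.map (CommRingCat.ofHom (algebraMap k F)) := by
    rw [← h.gp_str, ← hκ, Category.assoc]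
  have hx0 := h.hx 0
  obtain ⟨w, hw⟩ : ∃ w : Fin 3 → F, w = Fin.cons 1 (fun i : Fin 2 => x i.succ / x 0) := ⟨_, rfl⟩
  have hw' : w = fun i => (x 0)⁻¹ * x i := by
    rw [hw]
    ext i
    refine Fin.cases ?_ (fun j => ?_) i
    · change 1 = (x 0)⁻¹ * x 0
      rw [inv_mul_cancel₀ hx0]
    · change x j.succ / x 0 = (x 0)⁻¹ * x j.succ
      rw [div_eq_mul_inv, mul_comm]
  have h1 : w 0 = 1 := by rw [hw]; rfl
  have hu : IsUnit (w 0) := by rw [h1]; exact isUnit_one
  have hpt : pt (k := k) 0 w hu = pt (k := k) 0 x (isUnit_iff_ne_zero.2 (h.hx 0)) := by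
    subst hw'
    exact pt_scale _ _ _ _ (isUnit_iff_ne_zero.2 (inv_ne_zero hx0)) _
  have hdom : IsDominant (pt (k := k) 0 w hu) := by
    subst hw
    exact isDominant_pt_cons _ h.indep_x _
  obtain ⟨ψ, h2, h3, h4⟩ := exists_ratMap h.str κ hκ2 0 w h1 hu hdom
  refine ⟨κ, ψ, hκ, h2, h3.trans hpt, ?_⟩
  apply le_antisymm
  · rw [h4]
    have := h.rank_le
    have e : (fun i => x i / x 0) = w := by
      rw [hw']
      ext i
      rw [div_eq_mul_inv, mul_comm]
    rwa [e] at this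
  · exact h.p_le_ratDegree ψ h2

end Pool.Agent.Helper71
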