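import Mathlib
import Pool.Agent.Helper71.CurvePar
import Pool.Agent.Helper71.ChartMap
import Pool.Agent.Helper71.SysPsi

namespace Pool.Agent.Helper71

open AlgebraicGeometry CategoryTheory MvPolynomial HomogeneousLocalization Limits Set

universe u

attribute [local instance] MvPolynomial.gradedAlgebra

variable {k : Type u} [Field k] {p : ℕ} {F : Type u} [Field F] [Algebra k F] {x y : Fin 3 → F}
  [Fact p.Prime] [CharP k p]

theorem pt_eq_of_scale {n : ℕ} {R : Type u} [CommRing R] [Algebra k R] (m m' : Fin (n + 1))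
    (w w' : Fin (n + 1) → R) (h : IsUnit (w m)) (h' : IsUnit (w' m')) (r : R) (hr : IsUnit r)
    (hw : ∀ i, r * w i = w' i) : pt (k := k) m w h = pt m' w' h' := by
  have hu : IsUnit (r * w m) := hr.mul h
  rw [← pt_scale m w h r hr hu]
  have e : (fun i => r * w i) = w' := funext hw
  have hu' : IsUnit (w' m) := by rw [← hw]; exact hu
  rw [pt_index m' m w' h' hu']
  congr 1

section

variable {E : Type u} [Field E] [Algebra k E] [CharP E p] {x' y' : Fin 3 → E}

omit [CharP k p] in
theorem Pre.comp_pt (e : Pre p x' y') {i j l : Fin 3} (hij : i ≠ j) (hil : i ≠ l)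
    (hjl : j ≠ l) :
    Spec.map (CommRingCat.ofHom (e.θ k hij hil hjl).toRingHom) ≫
      pt (k := k) (idx i j) (seg (chX k p i j) (chY k p i j)) (ch_unit hij) =
      pt (k := k) (idx 0 1) (seg x' y') (e.seg_unit _) := by
  have hu := (ch_unit (k := k) (p := p) hij).map (e.θ k hij hil hjl)
  rw [pt_comp _ _ _ (e.θ k hij hil hjl) hu]
  exact pt_eq_of_scale _ _ _ _ _ _ (seg x' y' (idx i j)) (e.seg_unit _)
    (fun m => e.seg_θ hij hil hjl m)

theorem Sys.exists_point (h : Sys k p x y) (e : Pre p x' y') :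
    ∃ γ : Spec (.of E) ⟶ h.S,
      γ ≫ h.emb = pt (k := k) (idx 0 1) (seg x' y') (e.seg_unit _) := by
  obtain ⟨c, h1, h2, h3, -⟩ := h.exists_chart (i := 0) (j := 1) (l := 2) (by decide) (by decide)
    (by decide)
  refine ⟨Spec.map (CommRingCat.ofHom (e.θ k (i := 0) (j := 1) (l := 2) (by decide) (by decide)
    (by decide)).toRingHom) ≫ c, ?_⟩
  rw [Category.assoc, h3]
  exact e.comp_pt _ _ _

end

theorem Sys.chart_point (h : Sys k p x y) {E : Type u} [Field E] [Algebra k E] [CharP E p]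
    {x' y' : Fin 3 → E} (e : Pre p x' y') (γ : Spec (.of E) ⟶ h.S)
    (hγ : γ ≫ h.emb = pt (k := k) (idx 0 1) (seg x' y') (e.seg_unit _))
    {i j l : Fin 3} (hij : i ≠ j) (hil : i ≠ l) (hjl : j ≠ l)
    (c : Spec (.of (ChartRing k p)) ⟶ h.S)
    (hc : c ≫ h.emb = pt (idx i j) (seg (chX k p i j) (chY k p i j)) (ch_unit hij)) :
    Spec.map (CommRingCat.ofHom (e.θ k hij hil hjl).toRingHom) ≫ c = γ := by
  rw [← cancel_mono h.emb, Category.assoc, hc, hγ, e.comp_pt]

instance : Nontrivial (ChartRing k p) := (isDomain_chartRing k p).toNontrivial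

omit [Fact p.Prime] [CharP k p] in
theorem ch_unitX (i j : Fin 3) : IsUnit (chX k p i j i) := by
  rw [chX_i]; exact isUnit_one

/-- on a chart, the rational map `ψ` is given by the first coordinates. -/
theorem Sys.chartMap_eq (h : Sys k p x y) [IsIntegral h.S] (κ : h.S.functionField ≅ .of F)
    (hκ : Spec.map κ.hom ≫ h.S.fromSpecStalk (genericPoint h.S) = h.gp)
    (ψ : h.S.RationalMap (PP k 2))
    (hψ : Spec.map κ.hom ≫ ψ.fromFunctionField =
      pt (k := k) 0 x (isUnit_iff_ne_zero.2 (h.hx 0)))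
    {i j l : Fin 3} (hij : i ≠ j) (hil : i ≠ l) (hjl : j ≠ l)
    (c : Spec (.of (ChartRing k p)) ⟶ h.S) [IsOpenImmersion c]
    (hc : Spec.map (CommRingCat.ofHom (h.θ hij hil hjl).toRingHom) ≫ c = h.gp) :
    (chartMap c (pt (k := k) (n := 2) i (chX k p i j) (ch_unitX i j))).toRationalMap = ψ := by
  apply Scheme.RationalMap.eq_of_fromFunctionField_eq
  have e1 := chartMap_fromFunctionField c (pt (k := k) (n := 2) i (chX k p i j) (ch_unitX i j))
    (CommRingCat.ofHom (h.θ hij hil hjl).toRingHom) κ (by rw [hκ, hc])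
  have hu := (ch_unitX (k := k) (p := p) i j).map (h.θ hij hil hjl)
  have e2 := pt_comp (k := k) (n := 2) i (chX k p i j) (ch_unitX i j) (h.θ hij hil hjl) hu
  have e3 : pt (k := k) (n := 2) i (fun s => h.θ hij hil hjl (chX k p i j s)) hu =
      pt (k := k) 0 x (isUnit_iff_ne_zero.2 (h.hx 0)) := by
    apply pt_eq_of_scale _ _ _ _ _ _ (x i) (isUnit_iff_ne_zero.2 (h.hx i))
    intro s
    rw [h.θ_X]
    have := h.hx i
    field_simp
  rw [← cancel_epi (Spec.map κ.hom), hψ, e1, e2, e3]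

theorem mem_line_iff {R : Type u} [CommRing R] [Algebra k R] (m : Fin 3) (w : Fin 3 → R)
    (h : IsUnit (w m)) (c : Fin 3 → k) (q : Spec (.of R)) :
    pt (k := k) (n := 2) m w h q ∈ line k c ↔
      ∑ s, algebraMap k R (c s) * w s ∈ PrimeSpectrum.asIdeal q := by
  have hhom : (∑ i, C (c i) * X i : MvPolynomial (Fin (2 + 1)) k) ∈ hsub k 2 1 := by
    apply Submodule.sum_mem
    intro i _
    have := (isHomogeneous_C (Fin 3) (c i)).mul (isHomogeneous_X k i)
    rw [zero_add] at this
    exact this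
  refine (pt_mem m w h _ hhom Nat.one_pos q).trans ?_
  rw [map_sum]
  simp only [map_mul, aeval_X, aeval_C]

theorem exists_residue {B : Type u} [CommRing B] [Algebra k B] (q : PrimeSpectrum B) :
    ∃ (κ : Type u) (_ : Field κ) (_ : IsAlgClosed κ) (_ : Algebra k κ) (π : B →ₐ[k] κ),
      ∀ f, π f = 0 ↔ f ∈ q.asIdeal := by
  let κ0 := FractionRing (B ⧸ q.asIdeal)
  let κ := AlgebraicClosure κ0
  let ρ : B →+* κ := (algebraMap κ0 κ).comp ((algebraMap (B ⧸ q.asIdeal) κ0).comp
    (Ideal.Quotient.mk q.asIdeal))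
  let _ : Algebra k κ := (ρ.comp (algebraMap k B)).toAlgebra
  refine ⟨κ, inferInstance, inferInstance, inferInstance,
    { ρ with commutes' := fun r => rfl }, ?_⟩
  intro f
  change algebraMap κ0 κ (algebraMap (B ⧸ q.asIdeal) κ0 (Ideal.Quotient.mk q.asIdeal f)) = 0 ↔ _
  rw [map_eq_zero_iff _ (algebraMap κ0 κ).injective, map_eq_zero_iff _
    (IsFractionRing.injective (B ⧸ q.asIdeal) κ0), Ideal.Quotient.eq_zero_iff_mem]

/-- The closure of the preimage of a general line is the closure of one point. -/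
theorem Sys.preimageClosure_eq (h : Sys k p x y) [IsIntegral h.S] (κ : h.S.functionField ≅ .of F)
    (hκ : Spec.map κ.hom ≫ h.S.fromSpecStalk (genericPoint h.S) = h.gp)
    (ψ : h.S.RationalMap (PP k 2))
    (hψ : Spec.map κ.hom ≫ ψ.fromFunctionField =
      pt (k := k) 0 x (isUnit_iff_ne_zero.2 (h.hx 0)))
    {E : Type u} [Field E] [Algebra k E] [CharP E p] (J : MvPolynomial (Fin 2) k →ₐ[k] E)
    (hJ : Function.Injective J) (c c' : Fin 3 → k) (hc' : ∀ s, c' s ≠ 0)
    (hcc : ∀ s, c' s ^ p = c s)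
    (hkey : ∀ (κ : Type u) [Field κ] [Algebra k κ] (x : Fin 3 → κ), (∀ i, x i ^ (p ^ 2) = x i) →
      ∑ i, algebraMap k κ (c i) * x i = 0 → x = 0)
    (γ : Spec (.of E) ⟶ h.S)
    (hγ : γ ≫ h.emb = pt (k := k) (idx 0 1) (seg (fun s => J (VV c' s) ^ p)
      (fun s => J (WW p c' s))) ((pre_par p J hJ c' hc').seg_unit _)) :
    preimageClosure ψ (line k c) = closure (range γ) := by
  have hp : p.Prime := Fact.out
  apply subset_antisymm
  · apply closure_minimal _ isClosed_closure
    rintro z ⟨g, hg, hz, hgz⟩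
    obtain ⟨i, j, l, hij, hil, hjl, hzc⟩ := h.cover z
    obtain ⟨ch, h1, h2, h3, h4⟩ := h.exists_chart hij hil hjl
    rw [← h2] at hzc
    obtain ⟨q, rfl⟩ := hzc
    have e1 := h.chartMap_eq κ hκ ψ hψ hij hil hjl ch h4
    have e2 := hom_apply_eq g _ (hg.trans e1.symm) (ch q) hz (⟨q, rfl⟩ :
      ch q ∈ (chartMap ch (pt (k := k) (n := 2) i (chX k p i j) (ch_unitX i j))).domain)
    rw [chartMap_apply] at e2
    rw [e2, mem_line_iff] at hgz
    obtain ⟨K, _, _, _, π, hπ⟩ := exists_residue (k := k) (B := ChartRing k p) q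
    have hL : ∑ s, algebraMap k K (c s) * π (chX k p i j s) = 0 := by
      have := (hπ _).2 hgz
      rw [map_sum] at this
      rw [← this]
      apply Finset.sum_congr rfl
      intro s _
      rw [map_mul, AlgHom.commutes]
    have hspec := curve_spec p J hJ c c' hc' hcc (hkey K) hij hil hjl π hL
    let θ := (pre_par p J hJ c' hc').θ k hij hil hjl
    let o : Spec (.of (ChartRing k p)) := Spec.map (CommRingCat.ofHom θ.toRingHom)
      (IsLocalRing.closedPoint E)
    have ho : o ⤳ q := by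
      refine (PrimeSpectrum.le_iff_specializes (o : PrimeSpectrum (ChartRing k p)) q).1 ?_
      intro f hf
      apply (hπ f).1
      apply hspec
      have hf' : θ f ∈ IsLocalRing.maximalIdeal E := hf
      rw [IsLocalRing.maximalIdeal_eq_bot] at hf'
      exact hf'
    have hγo : γ (IsLocalRing.closedPoint E) = ch o := by
      rw [← h.chart_point (pre_par p J hJ c' hc') γ hγ hij hil hjl ch h3, Scheme.Hom.comp_apply]
    have h5 : γ (IsLocalRing.closedPoint E) ⤳ ch q := by
      rw [hγo]; exact ho.map ch.continuous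
    exact h5.mem_closed isClosed_closure (subset_closure ⟨_, rfl⟩)
  · apply closure_mono
    rintro _ ⟨q, rfl⟩
    have h01 : (0 : Fin 3) ≠ 1 := by decide
    have h02 : (0 : Fin 3) ≠ 2 := by decide
    have h12 : (1 : Fin 3) ≠ 2 := by decide
    obtain ⟨ch, h1, h2, h3, h4⟩ := h.exists_chart h01 h02 h12
    have e1 := h.chartMap_eq κ hκ ψ hψ h01 h02 h12 ch h4
    have hch := h.chart_point (pre_par p J hJ c' hc') γ hγ h01 h02 h12 ch h3
    rw [← hch, Scheme.Hom.comp_apply]
    refine ⟨_, e1, ⟨_, rfl⟩, ?_⟩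
    rw [chartMap_apply, mem_line_iff]
    have e3 : ∑ s, algebraMap k E (c s) * (J (VV c' s) ^ p / J (VV c' 0) ^ p) = 0 := by
      have : ExpChar E p := ExpChar.prime Fact.out
      have h5 := congrArg (fun t => J t ^ p) (vv_orth c' (X 0 : MvPolynomial (Fin 2) k) (X 1))
      simp only [map_sum, sum_pow_char, map_zero, zero_pow hp.ne_zero] at h5
      have h6 : ∀ s, algebraMap k E (c s) * (J (VV c' s) ^ p / J (VV c' 0) ^ p) =
          J (algebraMap k (MvPolynomial (Fin 2) k) (c' s) * vv c' (X 0) (X 1) s) ^ p *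
            (J (VV c' 0) ^ p)⁻¹ := by
        intro s
        rw [map_mul, AlgHom.commutes, mul_pow, ← map_pow (algebraMap k E), hcc, div_eq_mul_inv,
          mul_assoc]
        rfl
      simp only [h6]
      rw [← Finset.sum_mul, h5, zero_mul]
    change ((pre_par p J hJ c' hc').θ k h01 h02 h12)
      (∑ s, algebraMap k (ChartRing k p) (c s) * chX k p 0 1 s) ∈ PrimeSpectrum.asIdeal q
    rw [map_sum]
    have e4 : ∀ s, ((pre_par p J hJ c' hc').θ k h01 h02 h12) (algebraMap k (ChartRing k p) (c s) * chX k p 0 1 s) =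
        algebraMap k E (c s) * (J (VV c' s) ^ p / J (VV c' 0) ^ p) := by
      intro s
      rw [map_mul, AlgHom.commutes, Pre.θ_X]
    simp only [e4]
    rw [e3]
    exact zero_mem _

end Pool.Agent.Helper71
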