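import Mathlib
import Pool.Agent.Helper71.CurvePre
import Pool.Agent.Helper71.CurveField
import Pool.Agent.Helper69.GonalityOne

namespace Pool.Agent.Helper71

open AlgebraicGeometry CategoryTheory MvPolynomial HomogeneousLocalization Limits Set

universe u

attribute [local instance] MvPolynomial.gradedAlgebra

/-- The function field of the closure of a point with values in a field. -/
theorem exists_iso_subfield {X : Scheme.{u}} [IsIntegral X] {E : Type u} [Field E]
    (g : Spec (.of E) ⟶ X) [IsDominant g] (K1 : Subfield E)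
    (hcl : Subfield.closure (Set.range (Scheme.stalkClosedPointTo g).hom) = K1) :
    ∃ κ : X.functionField ⟶ .of K1, Function.Surjective κ.hom ∧
      Spec.map (CommRingCat.ofHom K1.subtype) ≫ Spec.map κ ≫
        X.fromSpecStalk (genericPoint X) = g := by
  obtain ⟨κ, h1, h2⟩ := exists_hom_stalk g _ (closedPoint_eq_genericPoint g)
  have hrange : ((κ.hom : X.functionField →+* E).fieldRange : Subfield E) = K1 := by
    rw [← hcl, ← h2]
    apply le_antisymm
    · rintro _ ⟨t, rfl⟩
      exact Subfield.subset_closure ⟨t, rfl⟩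
    · rw [Subfield.closure_le]
      rintro _ ⟨t, rfl⟩
      exact ⟨t, rfl⟩
  have hmem : ∀ z, (κ.hom : X.functionField →+* E) z ∈ K1 := by
    intro z; rw [← hrange]; exact ⟨z, rfl⟩
  let κ1 : X.functionField →+* K1 := (κ.hom : X.functionField →+* E).codRestrict K1 hmem
  refine ⟨CommRingCat.ofHom κ1, ?_, ?_⟩
  · rintro ⟨z, hz⟩
    rw [← hrange] at hz
    obtain ⟨t, ht⟩ := hz
    exact ⟨t, Subtype.ext ht⟩
  · rw [← Category.assoc, ← Spec.map_comp]
    exact h1

variable {k : Type u} [Field k] {p : ℕ}

/-- the gonality of the closure of a point whose coordinates generate a rational field -/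
theorem gonality_image {Y : Scheme.{u}} {n : ℕ} (emb : Y ⟶ PP k n) [IsClosedImmersion emb]
    {E : Type u} [Field E] [Algebra k E] (γ : Spec (.of E) ⟶ Y) [QuasiCompact γ]
    [IsIntegral γ.image]
    (m : Fin (n + 1)) (w : Fin (n + 1) → E) (h1 : w m = 1) (hu : IsUnit (w m))
    (hγ : γ ≫ emb = pt (k := k) m w hu) (τ : E) (hτ : Transcendental k τ)
    (hadj : IntermediateField.adjoin k (range w) = IntermediateField.adjoin k {τ}) :
    gonality (γ.imageι ≫ emb ≫ PPtoSpec k n) = 1 := by
  obtain ⟨K1, hK1⟩ : ∃ K1 : IntermediateField k E, K1 = IntermediateField.adjoin k (range w) :=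
    ⟨_, rfl⟩
  have hcl : Subfield.closure (Set.range (Scheme.stalkClosedPointTo γ.toImage).hom) =
      K1.toSubfield := by
    rw [hK1, ← closure_pt (k := k) m w h1 hu]
    have e1 : pt (k := k) m w hu = γ.toImage ≫ (γ.imageι ≫ emb) := by
      rw [← hγ, Scheme.Hom.toImage_imageι_assoc]
    rw [e1, Scheme.stalkClosedPointTo_comp]
    congr 1
    have hs : Function.Surjective
        ((γ.imageι ≫ emb).stalkMap (γ.toImage (IsLocalRing.closedPoint E))).hom :=
      SurjectiveOnStalks.stalkMap_surjective (γ.imageι ≫ emb) _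
    ext z
    constructor
    · rintro ⟨t, rfl⟩
      obtain ⟨t', rfl⟩ := hs t
      exact ⟨t', rfl⟩
    · rintro ⟨t, rfl⟩
      exact ⟨_, rfl⟩
  obtain ⟨κ, hκs, hκ⟩ := exists_iso_subfield γ.toImage K1.toSubfield hcl
  have hτK : τ ∈ K1 := by
    rw [hK1, hadj]; exact IntermediateField.mem_adjoin_simple_self _ _
  refine Helper69.gonality_eq_one_aux2 (γ.imageι ≫ emb ≫ PPtoSpec k n) K1 _ rfl κ hκs ?_
    ⟨τ, hτK⟩ ?_ ?_
  · have hmono : ∀ (a b : Spec (.of K1) ⟶ Spec (.of k)),
        Spec.map (CommRingCat.ofHom K1.toSubfield.subtype) ≫ a =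
        Spec.map (CommRingCat.ofHom K1.toSubfield.subtype) ≫ b → a = b := by
      intro a b hab
      obtain ⟨a', rfl⟩ := Spec.map_surjective a
      obtain ⟨b', rfl⟩ := Spec.map_surjective b
      rw [← Spec.map_comp, ← Spec.map_comp] at hab
      have h3 := Spec.map_injective hab
      congr 1
      ext z
      have h4 := congrArg (fun f => f.hom z) h3
      exact h4
    apply hmono
    have e2 : Spec.map (CommRingCat.ofHom K1.toSubfield.subtype) ≫ Spec.map κ ≫
        γ.image.fromSpecStalk (genericPoint γ.image) ≫ γ.imageι ≫ emb ≫ PPtoSpec k n =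
        γ.toImage ≫ γ.imageι ≫ emb ≫ PPtoSpec k n := by
      rw [← hκ]; simp only [Category.assoc]
    refine e2.trans ?_
    rw [Scheme.Hom.toImage_imageι_assoc, ← Category.assoc, hγ, pt_over, ← Spec.map_comp]
    rfl
  · intro halg
    apply hτ
    exact (isAlgebraic_algHom_iff K1.val K1.val.injective).2 halg
  · rw [eq_top_iff]
    intro z _
    have h2 : (z : E) ∈ IntermediateField.adjoin k {τ} := by
      rw [← hadj, ← hK1]; exact z.2
    have h3 := IntermediateField.adjoin_map k {(⟨τ, hτK⟩ : K1)} K1.val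
    rw [Set.image_singleton] at h3
    have h4 : (z : E) ∈ (IntermediateField.adjoin k {(⟨τ, hτK⟩ : K1)}).map K1.val := by
      rw [h3]; exact h2
    obtain ⟨z', hz', he⟩ := h4
    have : z' = z := Subtype.ext he
    rwa [← this]

end Pool.Agent.Helper71
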