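import Mathlib

namespace Pool.Agent.Helper71

open Polynomial IntermediateField

theorem pow_mem_adjoin_pow {k E : Type*} [Field k] [Field E] [Algebra k E] (p : ℕ)
    [Fact p.Prime] [CharP k p] (t z : E) (hz : z ∈ adjoin k {t}) :
    z ^ p ∈ adjoin k {t ^ p} := by
  have hE : CharP E p := charP_of_injective_algebraMap (algebraMap k E).injective p
  induction hz using adjoin_induction with
  | mem x hx =>
    rw [Set.mem_singleton_iff] at hx
    subst hx
    exact mem_adjoin_simple_self k _
  | algebraMap x =>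
    rw [← map_pow]
    exact IntermediateField.algebraMap_mem _ _
  | add x y _ _ hx hy =>
    rw [add_pow_char]
    exact add_mem hx hy
  | inv x _ hx =>
    rw [inv_pow]
    exact inv_mem hx
  | mul x y _ _ hx hy =>
    rw [mul_pow]
    exact mul_mem hx hy

theorem adjoin_le_of_notMem {k E : Type*} [Field k] [Field E] [Algebra k E] (p : ℕ)
    [Fact p.Prime] [CharP k p] (t : E) (K1 : IntermediateField k E) (h1 : t ^ p ∈ K1)
    (z : E) (hz1 : z ∈ K1) (hzt : z ∈ adjoin k {t}) (hz0 : z ∉ adjoin k {t ^ p}) :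
    adjoin k {t} ≤ K1 := by
  have hE : CharP E p := charP_of_injective_algebraMap (algebraMap k E).injective p
  have hp : p.Prime := Fact.out
  have hle : adjoin k {t ^ p} ≤ K1 := adjoin_simple_le_iff.2 h1
  have hzp : z ^ p ∈ adjoin k {t ^ p} := pow_mem_adjoin_pow p t z hzt
  set K0 : IntermediateField k E := adjoin k {t ^ p} with hK0
  have htint : IsIntegral K0 t := by
    refine ⟨X ^ p - C (⟨t ^ p, mem_adjoin_simple_self k _⟩ : K0), monic_X_pow_sub_C _ hp.ne_zero, ?_⟩
    rw [← aeval_def]
    simp [IntermediateField.algebraMap_apply]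
  have hzint : IsIntegral K0 z := by
    refine ⟨X ^ p - C (⟨z ^ p, hzp⟩ : K0), monic_X_pow_sub_C _ hp.ne_zero, ?_⟩
    rw [← aeval_def]
    simp [IntermediateField.algebraMap_apply]
  have hft : Module.finrank K0 K0⟮t⟯ ≤ p := by
    rw [adjoin.finrank htint]
    refine (natDegree_le_of_dvd (minpoly.dvd K0 t (p := X ^ p - C (⟨t ^ p, mem_adjoin_simple_self k _⟩ : K0))
      ?_) (monic_X_pow_sub_C _ hp.ne_zero).ne_zero).trans_eq (natDegree_X_pow_sub_C)
    simp [IntermediateField.algebraMap_apply]
  have hfz : Module.finrank K0 K0⟮z⟯ = p := by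
    rw [adjoin.finrank hzint]
    have hirr : Irreducible (X ^ p - C (⟨z ^ p, hzp⟩ : K0)) := by
      apply X_pow_sub_C_irreducible_of_prime hp
      intro b hb
      have hb' : (b : E) ^ p = z ^ p := congrArg Subtype.val hb
      have : (b : E) = z := frobenius_inj E p hb'
      exact hz0 (this ▸ b.2)
    rw [← minpoly.eq_of_irreducible_of_monic hirr (x := z) ?_ (monic_X_pow_sub_C _ hp.ne_zero),
      natDegree_X_pow_sub_C]
    simp [IntermediateField.algebraMap_apply]
  have hzle : K0⟮z⟯ ≤ K0⟮t⟯ := by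
    rw [adjoin_simple_le_iff]
    have : adjoin k {t} ≤ (K0⟮t⟯).restrictScalars k := by
      rw [adjoin_simple_le_iff]
      exact mem_adjoin_simple_self K0 t
    exact this hzt
  have hfin : FiniteDimensional K0 K0⟮t⟯ := adjoin.finiteDimensional htint
  have heq : K0⟮z⟯ = K0⟮t⟯ := by
    apply IntermediateField.eq_of_le_of_finrank_le hzle
    rw [hfz]; exact hft
  have hz1' : K0⟮z⟯ ≤ extendScalars hle := by
    rw [adjoin_simple_le_iff]
    exact hz1
  rw [adjoin_simple_le_iff]
  have : t ∈ extendScalars hle := hz1' (heq ▸ mem_adjoin_simple_self K0 t)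
  exact this

theorem exists_tau {k E : Type*} [Field k] [Field E] [Algebra k E] (p : ℕ) [Fact p.Prime]
    [CharP k p] (t : E) (ht : Transcendental k t) (K1 : IntermediateField k E)
    (h1 : t ^ p ∈ K1) (h2 : K1 ≤ adjoin k {t}) :
    ∃ τ : E, Transcendental k τ ∧ K1 = adjoin k {τ} := by
  have hp : p.Prime := Fact.out
  by_cases h : K1 ≤ adjoin k {t ^ p}
  · exact ⟨t ^ p, ht.pow hp.pos, le_antisymm h (adjoin_simple_le_iff.2 h1)⟩
  · obtain ⟨z, hz1, hz0⟩ := Set.not_subset.1 h
    exact ⟨t, ht, le_antisymm h2 (adjoin_le_of_notMem p t K1 h1 z hz1 (h2 hz1) hz0)⟩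

theorem rank_adjoin_pow {k K : Type*} [Field k] [Field K] [Algebra k K] (p : ℕ)
    [Fact p.Prime] [CharP k p] (τ : K) (htop : adjoin k {τ} = ⊤) (hnot : τ ∉ adjoin k {τ ^ p}) :
    Module.rank (adjoin k {τ ^ p}) K = p := by
  have hE : CharP K p := charP_of_injective_algebraMap (algebraMap k K).injective p
  have hp : p.Prime := Fact.out
  have htint : IsIntegral (adjoin k {τ ^ p}) τ := by
    refine ⟨X ^ p - C (⟨τ ^ p, mem_adjoin_simple_self k _⟩ : adjoin k {τ ^ p}),
      monic_X_pow_sub_C _ hp.ne_zero, ?_⟩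
    rw [← aeval_def]
    simp [IntermediateField.algebraMap_apply]
  have hfz : Module.finrank (adjoin k {τ ^ p}) (adjoin (adjoin k {τ ^ p}) {τ}) = p := by
    rw [adjoin.finrank htint]
    have hirr : Irreducible
        (X ^ p - C (⟨τ ^ p, mem_adjoin_simple_self k _⟩ : adjoin k {τ ^ p})) := by
      apply X_pow_sub_C_irreducible_of_prime hp
      intro b hb
      have hb' : (b : K) ^ p = τ ^ p := congrArg Subtype.val hb
      have : (b : K) = τ := frobenius_inj K p hb'
      have h := b.2
      rw [this] at h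
      exact hnot h
    rw [← minpoly.eq_of_irreducible_of_monic hirr (x := τ) ?_ (monic_X_pow_sub_C _ hp.ne_zero),
      natDegree_X_pow_sub_C]
    simp [IntermediateField.algebraMap_apply]
  have htop' : adjoin (adjoin k {τ ^ p}) {τ} = ⊤ := by
    rw [eq_top_iff]
    intro z _
    have h1 : adjoin k {τ} ≤ (adjoin (adjoin k {τ ^ p}) {τ}).restrictScalars k := by
      rw [adjoin_simple_le_iff]
      exact mem_adjoin_simple_self _ τ
    exact h1 (by rw [htop]; exact IntermediateField.mem_top)
  rw [htop', finrank_top'] at hfz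
  have hfin : FiniteDimensional (adjoin k {τ ^ p}) K :=
    FiniteDimensional.of_finrank_pos (by rw [hfz]; exact hp.pos)
  rw [← Module.finrank_eq_rank, hfz]

end Pool.Agent.Helper71
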