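import Mathlib
import Pool.Agent.Helper71.CurveField
import Pool.Agent.Helper71.Tau

namespace Pool.Agent.Helper71

open MvPolynomial Set

universe u

variable {k : Type u} [Field k] (p : ℕ) [Fact p.Prime] [CharP k p]

/-- elements of `k(t^p)` are quotients of polynomials killed by a derivation. -/
theorem adjoin_pow_quot {E : Type u} [Field E] [Algebra k E]
    (J : MvPolynomial (Fin 2) k →ₐ[k] E) (hJ : Function.Injective J)
    (a b : MvPolynomial (Fin 2) k) (hb : b ≠ 0) (u : E)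
    (hu : u ∈ IntermediateField.adjoin k {(J a / J b) ^ p}) :
    ∃ n d : MvPolynomial (Fin 2) k, d ≠ 0 ∧ pderiv 1 n = 0 ∧ pderiv 1 d = 0 ∧ u * J d = J n := by
  have hpow : ∀ f : MvPolynomial (Fin 2) k, pderiv 1 (f ^ p) = 0 := by
    intro f
    rw [Derivation.leibniz_pow, nsmul_eq_mul, CharP.cast_eq_zero, zero_mul]
  induction hu using IntermediateField.adjoin_induction with
  | mem x hx =>
    rw [Set.mem_singleton_iff] at hx
    subst hx
    refine ⟨a ^ p, b ^ p, pow_ne_zero _ hb, hpow _, hpow _, ?_⟩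
    have hb' : J b ≠ 0 := by rw [Ne, map_eq_zero_iff _ hJ]; exact hb
    rw [map_pow, map_pow, div_pow, div_mul_cancel₀]
    exact pow_ne_zero _ hb'
  | algebraMap x =>
    refine ⟨C x, 1, one_ne_zero, pderiv_C, by rw [← C_1, pderiv_C], ?_⟩
    rw [map_one, mul_one]
    exact (J.commutes x).symm
  | add x y _ _ hx hy =>
    obtain ⟨n, d, h1, h2, h3, h4⟩ := hx
    obtain ⟨n', d', h1', h2', h3', h4'⟩ := hy
    refine ⟨n * d' + n' * d, d * d', mul_ne_zero h1 h1', ?_, ?_, ?_⟩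
    · rw [map_add, Derivation.leibniz, Derivation.leibniz, h2, h2', h3, h3']; simp
    · rw [Derivation.leibniz, h3, h3']; simp
    · rw [map_mul, map_add, map_mul, map_mul, ← h4, ← h4']; ring
  | inv x _ hx =>
    obtain ⟨n, d, h1, h2, h3, h4⟩ := hx
    by_cases hn : n = 0
    · have hx0 : x = 0 := by
        rw [hn, map_zero] at h4
        refine (mul_eq_zero.1 h4).resolve_right ?_
        rw [map_eq_zero_iff _ hJ]; exact h1
      refine ⟨0, 1, one_ne_zero, map_zero _, by rw [← C_1, pderiv_C], ?_⟩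
      rw [hx0, inv_zero, zero_mul, map_zero]
    · refine ⟨d, n, hn, h3, h2, ?_⟩
      have hx0 : x ≠ 0 := by
        rintro rfl
        rw [zero_mul] at h4
        exact hn ((map_eq_zero_iff _ hJ).1 h4.symm)
      rw [← h4, ← mul_assoc, inv_mul_cancel₀ hx0, one_mul]
  | mul x y _ _ hx hy =>
    obtain ⟨n, d, h1, h2, h3, h4⟩ := hx
    obtain ⟨n', d', h1', h2', h3', h4'⟩ := hy
    refine ⟨n * n', d * d', mul_ne_zero h1 h1', ?_, ?_, ?_⟩
    · rw [Derivation.leibniz, h2, h2']; simp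
    · rw [Derivation.leibniz, h3, h3']; simp
    · rw [map_mul, map_mul, ← h4, ← h4']; ring

/-- the parameter is not in `k(t^p)` -/
theorem ratio_notMem {E : Type u} [Field E] [Algebra k E]
    (J : MvPolynomial (Fin 2) k →ₐ[k] E) (hJ : Function.Injective J) (c' : Fin 3 → k)
    (hc' : ∀ s, c' s ≠ 0) :
    J (VV c' 2) / J (VV c' 0) ∉
      IntermediateField.adjoin k {(J (VV c' 2) / J (VV c' 0)) ^ p} := by
  intro h
  obtain ⟨n, d, h1, h2, h3, h4⟩ := adjoin_pow_quot p J hJ _ _ (VV_ne_zero c' hc' 0) _ h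
  have hV0 : J (VV c' 0) ≠ 0 := by
    rw [Ne, map_eq_zero_iff _ hJ]; exact VV_ne_zero c' hc' 0
  have h5 : VV c' 2 * d = VV c' 0 * n := by
    apply hJ
    rw [map_mul, map_mul, ← h4]
    field_simp
  have h6 := congrArg (pderiv 1) h5
  have e2 : pderiv 1 (VV c' 2) = -C (c' 1) := by
    change pderiv 1 (-C (c' 1) * X 1 : MvPolynomial (Fin 2) k) = _
    rw [neg_mul, map_neg, pderiv_C_mul, pderiv_X_self]
    simp [MvPolynomial.smul_eq_C_mul]
  rw [Derivation.leibniz, Derivation.leibniz, h2, h3, pderiv1_VV0, e2] at h6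
  simp only [smul_eq_mul, mul_zero, zero_add, mul_neg, neg_eq_zero] at h6
  exact mul_ne_zero h1 (C_ne_zero.2 (hc' 1)) h6

/-- the second coordinates are not in `k(t^p)` -/
theorem ratioW_notMem {E : Type u} [Field E] [Algebra k E]
    (J : MvPolynomial (Fin 2) k →ₐ[k] E) (hJ : Function.Injective J) (c c' : Fin 3 → k)
    (hc' : ∀ s, c' s ≠ 0) (hcc : ∀ s, c' s ^ p = c s)
    (hkey : ∀ x : Fin 3 → k, (∀ i, x i ^ (p ^ 2) = x i) → ∑ i, c i * x i = 0 → x = 0) :
    J (WW p c' 2) / J (WW p c' 1) ∉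
      IntermediateField.adjoin k {(J (VV c' 2) / J (VV c' 0)) ^ p} := by
  have hp : p.Prime := Fact.out
  intro h
  obtain ⟨n, d, h1, h2, h3, h4⟩ := adjoin_pow_quot p J hJ _ _ (VV_ne_zero c' hc' 0) _ h
  have hW1 : J (WW p c' 1) ≠ 0 := by
    rw [Ne, map_eq_zero_iff _ hJ]; exact WW_ne_zero p c' hc' 1
  have h5 : WW p c' 2 * d = WW p c' 1 * n := by
    apply hJ
    rw [map_mul, map_mul, ← h4]
    field_simp
  have h6 := congrArg (pderiv 1) h5
  rw [Derivation.leibniz, Derivation.leibniz, h2, h3] at h6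
  simp only [smul_eq_mul, mul_zero, zero_add] at h6
  have h7 : (WW p c' 1 * pderiv 1 (WW p c' 2) - WW p c' 2 * pderiv 1 (WW p c' 1)) * d = 0 := by
    linear_combination WW p c' 1 * h6 - pderiv 1 (WW p c' 1) * h5
  have h8 := (mul_eq_zero.1 h7).resolve_right h1
  have e2 : pderiv 1 (VV c' 2) = -C (c' 1) := by
    change pderiv 1 (-C (c' 1) * X 1 : MvPolynomial (Fin 2) k) = _
    rw [neg_mul, map_neg, pderiv_C_mul, pderiv_X_self]
    simp [MvPolynomial.smul_eq_C_mul]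
  have w1 : pderiv 1 (WW p c' 1) = -C (c' 1) * VV c' 0 ^ (p ^ 2) := by
    change pderiv 1 (VV c' 2 * VV c' 0 ^ (p ^ 2) - VV c' 0 * VV c' 2 ^ (p ^ 2)) = _
    rw [map_sub, Derivation.leibniz, Derivation.leibniz, pderiv_pow_q, pderiv_pow_q, pderiv1_VV0,
      e2]
    simp only [smul_eq_mul, mul_zero, zero_add, sub_zero]
    ring
  have w2 : pderiv 1 (WW p c' 2) = -C (c' 2) * VV c' 0 ^ (p ^ 2) := by
    change pderiv 1 (VV c' 0 * VV c' 1 ^ (p ^ 2) - VV c' 1 * VV c' 0 ^ (p ^ 2)) = _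
    rw [map_sub, Derivation.leibniz, Derivation.leibniz, pderiv_pow_q, pderiv_pow_q, pderiv1_VV0,
      pderiv1_VV1]
    simp only [smul_eq_mul, mul_zero, zero_add, zero_sub]
    ring
  rw [w1, w2] at h8
  have o := vv_orth c' (X 0 : MvPolynomial (Fin 2) k) (X 1)
  rw [Fin.sum_univ_three] at o
  change C (c' 0) * VV c' 0 + C (c' 1) * VV c' 1 + C (c' 2) * VV c' 2 = 0 at o
  have h9 : VV c' 0 ^ (p ^ 2) * (VV c' 0 * (C (c' 0) * VV c' 0 ^ (p ^ 2) +
      C (c' 1) * VV c' 1 ^ (p ^ 2) + C (c' 2) * VV c' 2 ^ (p ^ 2))) = 0 := by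
    have hw1 : WW p c' 1 = VV c' 2 * VV c' 0 ^ (p ^ 2) - VV c' 0 * VV c' 2 ^ (p ^ 2) := rfl
    have hw2 : WW p c' 2 = VV c' 0 * VV c' 1 ^ (p ^ 2) - VV c' 1 * VV c' 0 ^ (p ^ 2) := rfl
    rw [hw1, hw2] at h8
    linear_combination h8 + (VV c' 0 ^ (p ^ 2)) ^ 2 * o
  have hV := VV_ne_zero c' hc' 0
  have h10 := (mul_eq_zero.1 ((mul_eq_zero.1 h9).resolve_left (pow_ne_zero _ hV))).resolve_left hV
  have h11 := congrArg (eval ![1, 0]) h10
  have ev0 : eval ![1, 0] (VV c' 0) = c' 1 := by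
    change eval ![1, 0] (C (c' 1) * X 0 : MvPolynomial (Fin 2) k) = _
    simp
  have ev1 : eval ![1, 0] (VV c' 1) = - c' 0 := by
    change eval ![1, 0] (-C (c' 0) * X 0 + C (c' 2) * X 1 : MvPolynomial (Fin 2) k) = _
    simp
  have ev2 : eval ![1, 0] (VV c' 2) = 0 := by
    change eval ![1, 0] (-C (c' 1) * X 1 : MvPolynomial (Fin 2) k) = _
    simp
  have hexp : ExpChar k p := ExpChar.prime hp
  have hneg : (-1 : k) ^ (p ^ 2) = -1 := neg_one_pow_expChar_pow k p 2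
  rw [map_add, map_add, map_mul, map_mul, map_mul, map_pow, map_pow, map_pow, ev0, ev1, ev2,
    eval_C, eval_C, eval_C, map_zero, zero_pow (pow_ne_zero _ hp.ne_zero), mul_zero, add_zero,
    neg_pow, hneg] at h11
  -- the ratio is fixed by the Frobenius power
  obtain ⟨r, hr⟩ : ∃ r, r = c' 0 / c' 1 := ⟨_, rfl⟩
  have hc1 := hc' 1
  have hrq : r ^ (p ^ 2) = r := by
    rw [hr, div_pow]
    have := pow_ne_zero (p ^ 2) hc1
    field_simp
    linear_combination - h11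
  have hx := hkey ![1, - r ^ p, 0] ?_ ?_
  · have := congrFun hx 0
    simp at this
  · intro i
    fin_cases i
    · simp
    · change (- r ^ p) ^ (p ^ 2) = - r ^ p
      rw [neg_pow, hneg, ← pow_mul, mul_comm p, pow_mul, hrq]
      ring
    · change (0 : k) ^ (p ^ 2) = 0
      rw [zero_pow (pow_ne_zero _ hp.ne_zero)]
  · rw [Fin.sum_univ_three]
    change c 0 * 1 + c 1 * (- r ^ p) + c 2 * 0 = 0
    rw [← hcc, ← hcc 1, hr, div_pow]
    have := pow_ne_zero p hc1
    field_simp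
    ring

end Pool.Agent.Helper71
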