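import Mathlib
import Pool.Agent.Helper71.GonDefs

namespace Pool.Agent.Helper71

open AlgebraicGeometry CategoryTheory

universe u

/-- `χ` is the restriction of the rational map `ψ` along `j : D ⟶ X`: some representative `g` of
`ψ` is defined on an open set whose preimage in `D` is dense, and `χ` is represented by the
restriction of `g` to this preimage. -/
def IsRestriction {X Y D : Scheme.{u}} (j : D ⟶ X) (ψ : X.RationalMap Y)
    (χ : D.RationalMap Y) : Prop :=
  ∃ (g : X.PartialMap Y) (hd : Dense ((j ⁻¹ᵁ g.domain : D.Opens) : Set D)),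
    g.toRationalMap = ψ ∧
      (⟨j ⁻¹ᵁ g.domain, hd, j ∣_ g.domain ≫ g.hom⟩ : D.PartialMap Y).toRationalMap = χ

end Pool.Agent.Helper71
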