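import Mathlib
import Pool.Agent.Helper71.DegAlg
import Pool.Agent.Helper71.RestrDef
import Pool.Agent.Helper71.CurveGon

namespace Pool.Agent.Helper71

open AlgebraicGeometry CategoryTheory MvPolynomial HomogeneousLocalization Limits Set

universe u

attribute [local instance] MvPolynomial.gradedAlgebra

/-- a partial map on a chart restricts to a closed subscheme whose generic point is in the
chart. -/
theorem exists_restriction {X Y D : Scheme.{u}} [IsIntegral X] [IsIntegral D] (j : D ⟶ X)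
    {B : CommRingCat.{u}} [Nontrivial B] (c : Spec B ⟶ X) [IsOpenImmersion c] (f : Spec B ⟶ Y)
    {E : Type u} [Field E] (θ : B ⟶ .of E) (g : Spec (.of E) ⟶ D) [IsDominant g]
    (hj : g ≫ j = Spec.map θ ≫ c) (κ : D.functionField ⟶ .of E)
    (hκ : Spec.map κ ≫ D.fromSpecStalk (genericPoint D) = g) :
    ∃ χ : D.RationalMap Y, IsRestriction j (chartMap c f).toRationalMap χ ∧
      Spec.map κ ≫ χ.fromFunctionField = Spec.map θ ≫ f := by
  have hη : genericPoint D ∈ j ⁻¹ᵁ (chartMap c f).domain := by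
    rw [← closedPoint_eq_genericPoint g]
    change j (g (IsLocalRing.closedPoint E)) ∈ c.opensRange
    rw [← Scheme.Hom.comp_apply, hj, Scheme.Hom.comp_apply]
    exact ⟨_, rfl⟩
  have hd : Dense ((j ⁻¹ᵁ (chartMap c f).domain : D.Opens) : Set D) :=
    (j ⁻¹ᵁ (chartMap c f).domain).isOpen.dense ⟨_, hη⟩
  refine ⟨_, ⟨chartMap c f, hd, rfl, rfl⟩, ?_⟩
  rw [Scheme.RationalMap.fromFunctionField_toRationalMap]
  change Spec.map κ ≫ ((j ⁻¹ᵁ c.opensRange).fromSpecStalkOfMem (genericPoint D) hη) ≫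
    (j ∣_ c.opensRange) ≫ c.isoOpensRange.inv ≫ f = Spec.map θ ≫ f
  have h1 : Spec.map κ ≫ ((j ⁻¹ᵁ c.opensRange).fromSpecStalkOfMem (genericPoint D) hη) ≫
      (j ∣_ c.opensRange) = Spec.map θ ≫ c.isoOpensRange.hom := by
    rw [← cancel_mono c.opensRange.ι]
    simp only [Category.assoc]
    rw [Scheme.Hom.isoOpensRange_hom_ι]
    rw [morphismRestrict_ι, Scheme.Opens.fromSpecStalkOfMem_ι_assoc, ← Category.assoc, hκ, hj]
  rw [← Category.assoc, ← Category.assoc, Category.assoc (Spec.map κ), h1, Category.assoc,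
    Iso.hom_inv_id_assoc]

end Pool.Agent.Helper71
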