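import Mathlib
import Pool.Agent.Helper71.DegRestr

namespace Pool.Agent.Helper71

open AlgebraicGeometry CategoryTheory MvPolynomial HomogeneousLocalization Limits Set

universe u

attribute [local instance] MvPolynomial.gradedAlgebra

variable {k : Type u} [Field k]

/-- the residue field of a point of a closed subscheme of projective space. -/
theorem closure_toImage {Y : Scheme.{u}} {n : ℕ} (emb : Y ⟶ PP k n) [IsClosedImmersion emb]
    {E : Type u} [Field E] [Algebra k E] (γ : Spec (.of E) ⟶ Y) [QuasiCompact γ]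
    [IsIntegral γ.image]
    (m : Fin (n + 1)) (w : Fin (n + 1) → E) (h1 : w m = 1) (hu : IsUnit (w m))
    (hγ : γ ≫ emb = pt (k := k) m w hu) :
    Subfield.closure (Set.range (Scheme.stalkClosedPointTo γ.toImage).hom) =
      (IntermediateField.adjoin k (range w)).toSubfield := by
  rw [← closure_pt (k := k) m w h1 hu]
  have e1 : pt (k := k) m w hu = γ.toImage ≫ (γ.imageι ≫ emb) := by
    rw [← hγ, Scheme.Hom.toImage_imageι_assoc]
  rw [e1, Scheme.stalkClosedPointTo_comp]
  congr 1
  have hs : Function.Surjective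
      ((γ.imageι ≫ emb).stalkMap (γ.toImage (IsLocalRing.closedPoint E))).hom :=
    SurjectiveOnStalks.stalkMap_surjective (γ.imageι ≫ emb) _
  ext z
  constructor
  · rintro ⟨t, rfl⟩
    obtain ⟨t', rfl⟩ := hs t
    exact ⟨t', rfl⟩
  · rintro ⟨t, rfl⟩
    exact ⟨_, rfl⟩

theorem epi_specMap {K E : Type u} [Field K] [Field E] (f : K →+* E) :
    Epi (Spec.map (CommRingCat.ofHom f)) := by
  have h1 : Flat (Spec.map (CommRingCat.ofHom f)) := by
    rw [HasRingHomProperty.Spec_iff (P := @Flat)]
    algebraize [f]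
    change RingHom.Flat f
    exact inferInstanceAs (Module.Flat K E)
  have h2 : Surjective (Spec.map (CommRingCat.ofHom f)) := by
    constructor
    intro q
    refine ⟨IsLocalRing.closedPoint E, ?_⟩
    exact Subsingleton.elim (α := PrimeSpectrum K) _ _
  exact Flat.epi_of_flat_of_surjective _

theorem exists_restriction_image {Y : Scheme.{u}} [IsIntegral Y] {n n' : ℕ} (emb : Y ⟶ PP k n)
    [IsClosedImmersion emb]
    {E : Type u} [Field E] [Algebra k E] (γ : Spec (.of E) ⟶ Y) [QuasiCompact γ]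
    [IsIntegral γ.image]
    (m : Fin (n + 1)) (w : Fin (n + 1) → E) (h1 : w m = 1) (hu : IsUnit (w m))
    (hγ : γ ≫ emb = pt (k := k) m w hu) (K1 : IntermediateField k E)
    (hK1 : K1 = IntermediateField.adjoin k (range w))
    {B : CommRingCat.{u}} [Nontrivial B] (c : Spec B ⟶ Y) [IsOpenImmersion c]
    (f : Spec B ⟶ PP k n') (θ : B ⟶ .of E) (hθ : Spec.map θ ≫ c = γ)
    (m' : Fin (n' + 1)) (w' : Fin (n' + 1) → K1) (h1' : w' m' = 1)
    (hu' : IsUnit ((w' m' : K1) : E))
    (hf : Spec.map θ ≫ f = pt (k := k) m' (fun s => ((w' s : K1) : E)) hu') :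
    ∃ χ : γ.image.RationalMap (PP k n'), IsRestriction γ.imageι (chartMap c f).toRationalMap χ ∧
      ratDegree χ = Module.rank (IntermediateField.adjoin k (range w')) K1 := by
  obtain ⟨κ, hκs, hκ⟩ := exists_iso_subfield γ.toImage K1.toSubfield
    (by rw [hK1]; exact closure_toImage emb γ m w h1 hu hγ)
  obtain ⟨χ, hχ1, hχ2⟩ := exists_restriction γ.imageι c f θ γ.toImage
    (by rw [Scheme.Hom.toImage_imageι, hθ]) (κ ≫ CommRingCat.ofHom K1.toSubfield.subtype)
    (by rw [Spec.map_comp, Category.assoc]; exact hκ)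
  refine ⟨χ, hχ1, ?_⟩
  have hbij : Function.Bijective κ.hom := ⟨RingHom.injective κ.hom, hκs⟩
  have hiso : IsIso κ := (ConcreteCategory.isIso_iff_bijective κ).2 hbij
  let κ' : γ.image.functionField ≅ .of K1 := asIso κ
  have huK : IsUnit (w' m') := by rw [h1']; exact isUnit_one
  refine ratDegree_eq κ' χ m' w' h1' huK ?_
  have := epi_specMap (K1.val : K1 →+* E)
  rw [← cancel_epi (Spec.map (CommRingCat.ofHom (K1.val : K1 →+* E)))]
  have e1 := pt_comp (k := k) m' w' huK K1.val hu'
  refine Eq.trans ?_ e1.symm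
  rw [← Category.assoc, ← Spec.map_comp]
  exact hχ2.trans hf

end Pool.Agent.Helper71
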