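import Mathlib
import Pool.Agent.Helper71.DegImage

namespace Pool.Agent.Helper71

open AlgebraicGeometry CategoryTheory MvPolynomial HomogeneousLocalization Limits Set

universe u

attribute [local instance] MvPolynomial.gradedAlgebra

variable {k : Type u} [Field k] {p : ℕ} {F : Type u} [Field F] [Algebra k F] {x y : Fin 3 → F}
  [Fact p.Prime] [CharP k p]

/-- the normalized coordinates of the line in terms of one parameter -/
theorem coord_pow {E : Type u} [Field E] [Algebra k E] [CharP E p]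
    (J : MvPolynomial (Fin 2) k →ₐ[k] E)
    (hJ : Function.Injective J) (c' : Fin 3 → k) (hc' : ∀ s, c' s ≠ 0) (s : Fin 3) :
    J (VV c' s) / J (VV c' 0) =
      ![1, -(algebraMap k E (c' 0) + algebraMap k E (c' 2) * (J (VV c' 2) / J (VV c' 0))) /
        algebraMap k E (c' 1), J (VV c' 2) / J (VV c' 0)] s := by
  have hV : ∀ s, J (VV c' s) ≠ 0 := by
    intro s; rw [Ne, map_eq_zero_iff _ hJ]; exact VV_ne_zero c' hc' s
  fin_cases s
  · change J (VV c' 0) / J (VV c' 0) = 1
    rw [div_self (hV 0)]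
  · change J (VV c' 1) / J (VV c' 0) = _ / _
    have h := congrArg J (vv_orth c' (X 0 : MvPolynomial (Fin 2) k) (X 1))
    rw [Fin.sum_univ_three, map_zero, map_add, map_add, map_mul, map_mul, map_mul,
      AlgHom.commutes, AlgHom.commutes, AlgHom.commutes] at h
    have hc1 : algebraMap k E (c' 1) ≠ 0 := by
      rw [Ne, map_eq_zero_iff _ (algebraMap k E).injective]; exact hc' 1
    have := hV 0
    field_simp
    change algebraMap k E (c' 0) * J (VV c' 0) + algebraMap k E (c' 1) * J (VV c' 1) +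
      algebraMap k E (c' 2) * J (VV c' 2) = 0 at h
    linear_combination h
  · rfl

theorem frac_aux {E : Type u} [Field E] (a b d : E) (n : ℕ) (ha : a ≠ 0) (hb : b ≠ 0) :
    (a ^ n * b)⁻¹ * (a ^ n * d) = d / b := by
  field_simp

theorem Sys.exists_curve' [PerfectField k] (h : Sys k p x y) [IsIntegral h.S]
    (κ : h.S.functionField ≅ .of F)
    (hκ : Spec.map κ.hom ≫ h.S.fromSpecStalk (genericPoint h.S) = h.gp)
    (ψ : h.S.RationalMap (PP k 2))
    (hψ : Spec.map κ.hom ≫ ψ.fromFunctionField =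
      pt (k := k) 0 x (isUnit_iff_ne_zero.2 (h.hx 0)))
    (c : Fin 3 → k) (hc : ∀ s, c s ≠ 0)
    (hkey : ∀ (κ : Type u) [Field κ] [Algebra k κ] (x : Fin 3 → κ), (∀ i, x i ^ (p ^ 2) = x i) →
      ∑ i, algebraMap k κ (c i) * x i = 0 → x = 0) :
    ∃ (D : Scheme.{u}) (_ : IsIntegral D) (j : D ⟶ h.S), IsClosedImmersion j ∧
      range j = preimageClosure ψ (line k c) ∧
      (∃ χ : D.RationalMap (PP k 2), IsRestriction j ψ χ ∧ ratDegree χ = p) ∧
      gonality (j ≫ h.str) = 1 := by
  have hp : p.Prime := Fact.out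
  have hexp : ExpChar k p := ExpChar.prime hp
  have hperf : PerfectRing k p := PerfectField.toPerfectRing p
  choose c' hcc using fun s => surjective_frobenius k p (c s)
  have hcc' : ∀ s, c' s ^ p = c s := hcc
  have hc' : ∀ s, c' s ≠ 0 := by
    intro s h0
    apply hc s
    rw [← hcc', h0, zero_pow hp.ne_zero]
  let E : Type u := FractionRing (MvPolynomial (Fin 2) k)
  let J : MvPolynomial (Fin 2) k →ₐ[k] E := IsScalarTower.toAlgHom k (MvPolynomial (Fin 2) k) E
  have hJ : Function.Injective J := IsFractionRing.injective (MvPolynomial (Fin 2) k) E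
  have : CharP E p := charP_of_injective_algebraMap (algebraMap k E).injective p
  have hexpE : ExpChar E p := ExpChar.prime hp
  have e := pre_par p J hJ c' hc'
  obtain ⟨γ, hγ⟩ := h.exists_point e
  have hqc : QuasiCompact (γ ≫ h.emb) := inferInstance
  have hqcγ : QuasiCompact γ := QuasiCompact.of_comp γ h.emb
  have hint : IsIntegral γ.image := isIntegral_image γ
  obtain ⟨x', hx'⟩ : ∃ x' : Fin 3 → E, x' = fun s => J (VV c' s) ^ p := ⟨_, rfl⟩
  obtain ⟨y', hy'⟩ : ∃ y' : Fin 3 → E, y' = fun s => J (WW p c' s) := ⟨_, rfl⟩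
  obtain ⟨w, hw⟩ : ∃ w : Fin (8 + 1) → E, w = fun m => (seg x' y' (idx 0 1))⁻¹ * seg x' y' m :=
    ⟨_, rfl⟩
  have hne : seg x' y' (idx 0 1) ≠ 0 := by
    rw [hx', hy']; exact e.seg_ne_zero _
  have hw1 : w (idx 0 1) = 1 := by rw [hw]; exact inv_mul_cancel₀ hne
  have hu : IsUnit (w (idx 0 1)) := by rw [hw1]; exact isUnit_one
  have hγw : γ ≫ h.emb = pt (k := k) (idx 0 1) w hu := by
    rw [hγ]
    apply pt_eq_of_scale _ _ _ _ _ _ (seg x' y' (idx 0 1))⁻¹
      (isUnit_iff_ne_zero.2 (inv_ne_zero hne))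
    intro m
    rw [hw, hx', hy']
  obtain ⟨t, ht⟩ : ∃ t, t = J (VV c' 2) / J (VV c' 0) := ⟨_, rfl⟩
  obtain ⟨h1, h2⟩ := curve_field p J hJ c' hc' x' y' hx' hy' _ rfl
  obtain ⟨K1, hK1⟩ : ∃ K1, K1 = IntermediateField.adjoin k (range w) := ⟨_, rfl⟩
  rw [← hw, ← hK1, ← ht] at h1 h2
  have hzK : J (WW p c' 2) / J (WW p c' 1) ∈ K1 := by
    rw [hK1]
    apply IntermediateField.subset_adjoin
    refine ⟨idx 0 2, ?_⟩
    rw [hw]
    beta_reduce
    rw [seg_idx, seg_idx, hx', hy']
    have g1 : J (VV c' 0) ≠ 0 := by rw [Ne, map_eq_zero_iff _ hJ]; exact VV_ne_zero c' hc' 0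
    have g2 : J (WW p c' 1) ≠ 0 := by rw [Ne, map_eq_zero_iff _ hJ]; exact WW_ne_zero p c' hc' 1
    exact frac_aux _ _ _ _ g1 g2
  have hz0 := ratioW_notMem p J hJ c c' hc' hcc' (fun x hx h0 => hkey k x hx h0)
  have ht0 := ratio_notMem p J hJ c' hc'
  rw [← ht] at hz0 ht0
  have hKt : K1 = IntermediateField.adjoin k {t} :=
    le_antisymm h2 (adjoin_le_of_notMem p t K1 h1 _ hzK (h2 hzK) hz0)
  have htK : t ∈ K1 := by rw [hKt]; exact IntermediateField.mem_adjoin_simple_self k _
  refine ⟨γ.image, hint, γ.imageι, inferInstance, ?_, ?_, ?_⟩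
  · rw [h.preimageClosure_eq κ hκ ψ hψ J hJ c c' hc' hcc' hkey γ hγ]
    rw [Scheme.IdealSheafData.range_subschemeι, Scheme.Hom.support_ker]
  · obtain ⟨ch, g1, g2, g3, g4⟩ := h.exists_chart (i := 0) (j := 1) (l := 2) (by decide) (by decide)
      (by decide)
    have e1 := h.chartMap_eq κ hκ ψ hψ (i := 0) (j := 1) (l := 2) (by decide) (by decide)
      (by decide) ch g4
    have hch := h.chart_point e γ hγ (i := 0) (j := 1) (l := 2) (by decide) (by decide)
      (by decide) ch g3
    obtain ⟨τ, hτ⟩ : ∃ τ : K1, τ = ⟨t, htK⟩ := ⟨_, rfl⟩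
    obtain ⟨v, hv⟩ : ∃ v : Fin 3 → K1, v = ![1, (-(algebraMap k K1 (c' 0) +
      algebraMap k K1 (c' 2) * τ) / algebraMap k K1 (c' 1)) ^ p, τ ^ p] := ⟨_, rfl⟩
    have hvE : ∀ s, ((v s : K1) : E) = J (VV c' s) ^ p / J (VV c' 0) ^ p := by
      intro s
      rw [← div_pow, coord_pow (p := p) J hJ c' hc' s, ← ht, hv]
      fin_cases s
      · change ((1 : K1) : E) = 1 ^ p
        rw [one_pow]; rfl
      · rw [hτ]; rfl
      · rw [hτ]; rfl
    obtain ⟨χ, hχ1, hχ2⟩ := exists_restriction_image h.emb γ (idx 0 1) w hw1 hu hγw K1 hK1 ch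
      (pt (k := k) (n := 2) 0 (chX k p 0 1) (ch_unitX 0 1))
      (CommRingCat.ofHom (e.θ k (i := 0) (j := 1) (l := 2) (by decide) (by decide)
        (by decide)).toRingHom) hch 0 v (by rw [hv]; rfl) (by rw [hv]; exact isUnit_one)
        (by
          have hu2 := (ch_unitX (k := k) (p := p) 0 1).map (e.θ k (i := 0) (j := 1) (l := 2)
            (by decide) (by decide) (by decide))
          rw [pt_comp (k := k) (n := 2) 0 (chX k p 0 1) (ch_unitX 0 1) _ hu2]
          congr 1
          ext s
          rw [hvE, e.θ_X])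
    refine ⟨χ, e1 ▸ hχ1, ?_⟩
    rw [hχ2]
    have hadj : IntermediateField.adjoin k (range v) = IntermediateField.adjoin k {τ ^ p} := by
      apply le_antisymm
      · rw [IntermediateField.adjoin_le_iff]
        rintro _ ⟨s, rfl⟩
        rw [hv]
        have hm : τ ^ p ∈ IntermediateField.adjoin k {τ ^ p} :=
          IntermediateField.mem_adjoin_simple_self k _
        fin_cases s
        · exact one_mem _
        · change (-(algebraMap k K1 (c' 0) + algebraMap k K1 (c' 2) * τ) /
            algebraMap k K1 (c' 1)) ^ p ∈ _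
          have : ExpChar K1 p := ExpChar.prime hp
          have : CharP K1 p := charP_of_injective_algebraMap (algebraMap k K1).injective p
          rw [div_pow, neg_pow, neg_one_pow_expChar, add_pow_expChar, mul_pow, ← map_pow,
            ← map_pow, ← map_pow]
          exact div_mem (mul_mem (neg_mem (one_mem _))
            (add_mem (IntermediateField.algebraMap_mem _ _)
            (mul_mem (IntermediateField.algebraMap_mem _ _) hm)))
            (IntermediateField.algebraMap_mem _ _)
        · exact hm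
      · rw [IntermediateField.adjoin_simple_le_iff]
        apply IntermediateField.subset_adjoin
        exact ⟨2, by rw [hv]; rfl⟩
    rw [hadj]
    apply rank_adjoin_pow
    · rw [eq_top_iff]
      intro z _
      have h2 : (z : E) ∈ IntermediateField.adjoin k {t} := by
        rw [← hKt]; exact z.2
      have h3 := IntermediateField.adjoin_map k {τ} K1.val
      rw [Set.image_singleton] at h3
      have h4 : (z : E) ∈ (IntermediateField.adjoin k {τ}).map K1.val := by
        rw [h3, hτ]; exact h2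
      obtain ⟨z', hz', he⟩ := h4
      have : z' = z := Subtype.ext he
      rwa [← this]
    · intro hmem
      apply ht0
      have h3 := IntermediateField.adjoin_map k {τ ^ p} K1.val
      rw [Set.image_singleton] at h3
      have h4 : ((τ : K1) : E) ∈ (IntermediateField.adjoin k {τ ^ p}).map K1.val :=
        ⟨τ, hmem, rfl⟩
      rw [h3, hτ] at h4
      exact h4
  · refine gonality_image h.emb γ (idx 0 1) w hw1 hu hγw t ?_ ?_
    · rw [ht]; exact transcendental_ratio J hJ c' hc'
    · rw [← hK1]; exact hKt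

end Pool.Agent.Helper71
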