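import Mathlib
import Pool.Agent.Helper71.Sys

namespace Pool.Agent.Helper71

open MvPolynomial TensorProduct Set

universe u

variable (k : Type u) [Field k] (p : ℕ) [Fact p.Prime] [CharP k p]

theorem chart_algebraicIndependent : AlgebraicIndependent k ![cb k p, ce k p] := by
  have hdeg : (chartPoly k p).degree ≠ 0 := by
    have hp : p.Prime := Fact.out
    have hp2 : 1 < p ^ 2 := Nat.one_lt_pow (by norm_num) hp.one_lt
    intro h0
    have h1 := Polynomial.eq_C_of_degree_eq_zero h0
    have h2 := congrArg (fun f => Polynomial.coeff f (p ^ 2)) h1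
    have h12 : ¬ (1 = p ^ 2) := by omega
    have h22 : ¬ (p ^ 2 = 0) := by omega
    simp only [chartPoly, Polynomial.coeff_add, Polynomial.coeff_sub, Polynomial.coeff_X_pow,
        Polynomial.coeff_X, Polynomial.coeff_C, if_neg h12, if_neg h22] at h2
    simp at h2
  have hinj := AdjoinRoot.of.injective_of_degree_ne_zero hdeg
  have h : (aeval ![cb k p, ce k p] : MvPolynomial (Fin 2) k →ₐ[k] ChartRing k p) =
      IsScalarTower.toAlgHom k (MvPolynomial (Fin 2) k) (ChartRing k p) := by
    apply MvPolynomial.algHom_ext
    intro i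
    rw [aeval_X]
    fin_cases i <;> rfl
  change Function.Injective (aeval ![cb k p, ce k p])
  rw [h]
  exact hinj

variable (F : Type u) [Field F] [Algebra k F] [Algebra (ChartRing k p) F]
  [IsScalarTower k (ChartRing k p) F] [IsFractionRing (ChartRing k p) F]

/-- first coordinates of the generic point -/
noncomputable def gx : Fin 3 → F :=
  ![1, algebraMap (ChartRing k p) F (-(cc k p ^ p + cb k p * ce k p ^ p)),
    algebraMap (ChartRing k p) F (cb k p)]

/-- second coordinates of the generic point -/
noncomputable def gy : Fin 3 → F :=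
  ![algebraMap (ChartRing k p) F (cc k p), 1, algebraMap (ChartRing k p) F (ce k p)]

theorem g_algebraicIndependent : AlgebraicIndependent k
    ![algebraMap (ChartRing k p) F (cb k p), algebraMap (ChartRing k p) F (ce k p)] := by
  have h := (chart_algebraicIndependent k p).map' (f := IsScalarTower.toAlgHom k (ChartRing k p) F)
    (IsFractionRing.injective (ChartRing k p) F)
  convert h using 1
  ext i
  fin_cases i <;> rfl

theorem g_rel : algebraMap (ChartRing k p) F (cc k p) ^ (p ^ 2) -
    algebraMap (ChartRing k p) F (cc k p) + algebraMap (ChartRing k p) F (cb k p) ^ p *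
    (algebraMap (ChartRing k p) F (ce k p) ^ (p ^ 2) - algebraMap (ChartRing k p) F (ce k p)) =
    0 := by
  have h := congrArg (algebraMap (ChartRing k p) F) (chart_rel k p)
  rw [map_add, map_sub, map_mul, map_sub, map_pow, map_pow, map_pow, map_zero] at h
  exact h

theorem g_isAlgebraic : Algebra.IsAlgebraic (Algebra.adjoin k (range
    ![algebraMap (ChartRing k p) F (cb k p), algebraMap (ChartRing k p) F (ce k p)])) F := by
  have hdom := isDomain_chartRing k p
  obtain ⟨A, hA⟩ : ∃ A, A = Algebra.adjoin k (range
    ![algebraMap (ChartRing k p) F (cb k p), algebraMap (ChartRing k p) F (ce k p)]) := ⟨_, rfl⟩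
  rw [← hA]
  have hb : algebraMap (ChartRing k p) F (cb k p) ∈ A := by
    rw [hA]; exact Algebra.subset_adjoin ⟨0, rfl⟩
  have he : algebraMap (ChartRing k p) F (ce k p) ∈ A := by
    rw [hA]; exact Algebra.subset_adjoin ⟨1, rfl⟩
  have alg : ∀ z ∈ A, IsAlgebraic A z := fun z hz => isAlgebraic_algebraMap (⟨z, hz⟩ : A)
  have hp : p.Prime := Fact.out
  have hc : IsAlgebraic A (algebraMap (ChartRing k p) F (cc k p)) := by
    obtain ⟨d, hd⟩ : ∃ d : A, (d : F) = (algebraMap (ChartRing k p) F (cb k p)) ^ p *
        ((algebraMap (ChartRing k p) F (ce k p)) ^ (p ^ 2) -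
          algebraMap (ChartRing k p) F (ce k p)) :=
      ⟨⟨_, mul_mem (pow_mem hb _) (sub_mem (pow_mem he _) he)⟩, rfl⟩
    refine ⟨Polynomial.X ^ (p ^ 2) - Polynomial.X + Polynomial.C d, ?_, ?_⟩
    · intro h0
      have hp2 : 1 < p ^ 2 := Nat.one_lt_pow (by norm_num) hp.one_lt
      have := congrArg (fun f => Polynomial.coeff f (p ^ 2)) h0
      simp only [Polynomial.coeff_add, Polynomial.coeff_sub, Polynomial.coeff_X_pow,
        Polynomial.coeff_X, Polynomial.coeff_C, Polynomial.coeff_zero] at this
      have h12 : ¬ (1 = p ^ 2) := by omega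
      have h22 : ¬ (p ^ 2 = 0) := by omega
      simp [h12, hp.ne_zero] at this
    · rw [map_add, map_sub, map_pow, Polynomial.aeval_X, Polynomial.aeval_C]
      change _ + (d : F) = 0
      rw [hd]
      exact g_rel k p F
  have hB : ∀ z : ChartRing k p, IsAlgebraic A (algebraMap (ChartRing k p) F z) := by
    intro z
    have hz : z ∈ Algebra.adjoin k {cb k p, ce k p, cc k p} := by
      rw [chart_adjoin]; trivial
    induction hz using Algebra.adjoin_induction with
    | mem z hz =>
      rcases hz with rfl | rfl | rfl
      · exact alg _ hb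
      · exact alg _ he
      · exact hc
    | algebraMap r =>
      rw [← IsScalarTower.algebraMap_apply]
      exact alg _ (A.algebraMap_mem r)
    | add a b _ _ ha hb =>
      rw [map_add]; exact ha.add hb
    | mul a b _ _ ha hb =>
      rw [map_mul]; exact ha.mul hb
  constructor
  intro z
  obtain ⟨n, d, hd, rfl⟩ := IsFractionRing.div_surjective (A := ChartRing k p) z
  rw [div_eq_mul_inv]
  exact (hB n).mul (hB d).inv

include p in
theorem g_trdeg : Algebra.trdeg k F = 2 := by
  have := g_isAlgebraic k p F
  have h := (isTranscendenceBasis_iff_algebraicIndependent_isAlgebraic.2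
    ⟨g_algebraicIndependent k p F, this⟩).lift_cardinalMk_eq_trdeg
  simpa using h.symm

omit [Algebra (ChartRing k p) F] [IsScalarTower k (ChartRing k p) F]
  [IsFractionRing (ChartRing k p) F] in
theorem pow_sub_ne_zero {z : F} (hz : Transcendental k z) {n : ℕ} (hn : 1 < n) :
    z ^ n - z ≠ 0 := by
  intro h0
  apply hz
  refine ⟨Polynomial.X ^ n - Polynomial.X, FiniteField.X_pow_card_sub_X_ne_zero _ hn, ?_⟩
  rw [map_sub, map_pow, Polynomial.aeval_X]
  exact h0

omit [Algebra k F] [IsScalarTower k (ChartRing k p) F] [IsFractionRing (ChartRing k p) F] in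
theorem g_eq1 : ∑ i, gx k p F i * gy k p F i ^ p = 0 := by
  rw [Fin.sum_univ_three]
  simp only [gx, gy, Matrix.cons_val_zero, Matrix.cons_val_one, Matrix.cons_val]
  rw [map_neg, map_add, map_mul, map_pow, map_pow]
  ring

theorem g_eq2 : ∑ i, gx k p F i ^ p * gy k p F i = 0 := by
  rw [Fin.sum_univ_three]
  simp only [gx, gy, Matrix.cons_val_zero, Matrix.cons_val_one, Matrix.cons_val]
  have : CharP F p := charP_of_injective_algebraMap (algebraMap k F).injective p
  have : ExpChar F p := ExpChar.prime Fact.out
  have h4 : (-1 : F) ^ p = -1 := neg_one_pow_expChar F p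
  rw [map_neg, map_add, map_mul, map_pow, map_pow, neg_pow, h4, add_pow_expChar, mul_pow,
    ← pow_mul, ← pow_mul]
  linear_combination - (g_rel k p F)

theorem g_sys : Sys k p (gx k p F) (gy k p F) := by
  have hdom := isDomain_chartRing k p
  have hp : p.Prime := Fact.out
  have hp2 : 1 < p ^ 2 := Nat.one_lt_pow (by norm_num) hp.one_lt
  have hind := g_algebraicIndependent k p F
  have htb : Transcendental k (algebraMap (ChartRing k p) F (cb k p)) := hind.transcendental 0
  have hte : Transcendental k (algebraMap (ChartRing k p) F (ce k p)) := hind.transcendental 1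
  have hb0 : algebraMap (ChartRing k p) F (cb k p) ≠ 0 := fun h => htb (h ▸ isAlgebraic_zero)
  have he0 : algebraMap (ChartRing k p) F (ce k p) ≠ 0 := fun h => hte (h ▸ isAlgebraic_zero)
  have hc0 : algebraMap (ChartRing k p) F (cc k p) ≠ 0 := by
    intro h0
    have h := g_rel k p F
    rw [h0, zero_pow (by omega), sub_zero, zero_add] at h
    exact mul_ne_zero (pow_ne_zero _ hb0) (pow_sub_ne_zero k F hte hp2) h
  have ha0 : algebraMap (ChartRing k p) F (-(cc k p ^ p + cb k p * ce k p ^ p)) ≠ 0 := by
    intro h0
    have h1 := g_eq1 k p F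
    have h2 := g_eq2 k p F
    rw [Fin.sum_univ_three] at h1 h2
    simp only [gx, gy, Matrix.cons_val_zero, Matrix.cons_val_one, Matrix.cons_val] at h1 h2
    rw [h0, zero_mul, add_zero, one_mul] at h1
    rw [h0, zero_pow hp.ne_zero, zero_mul, add_zero, one_pow, one_mul] at h2
    have : CharP F p := charP_of_injective_algebraMap (algebraMap k F).injective p
    have : ExpChar F p := ExpChar.prime Fact.out
    have h4 : (-1 : F) ^ p = -1 := neg_one_pow_expChar F p
    have hc : algebraMap (ChartRing k p) F (cc k p) = -(algebraMap (ChartRing k p) F (cb k p) ^ p *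
      algebraMap (ChartRing k p) F (ce k p)) := by linear_combination h2
    rw [hc, neg_pow, h4, mul_pow, ← pow_mul, ← sq] at h1
    have h5 : algebraMap (ChartRing k p) F (ce k p) ^ p *
      (algebraMap (ChartRing k p) F (cb k p) ^ (p ^ 2) -
        algebraMap (ChartRing k p) F (cb k p)) = 0 := by linear_combination -h1
    exact mul_ne_zero (pow_ne_zero _ he0) (pow_sub_ne_zero k F htb hp2) h5
  refine ⟨g_eq1 k p F, g_eq2 k p F, ?_, ?_, ?_, g_trdeg k p F⟩
  · intro i
    fin_cases i
    · exact one_ne_zero
    · exact ha0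
    · exact hb0
  · intro i
    fin_cases i
    · exact hc0
    · exact one_ne_zero
    · exact he0
  · obtain ⟨K, hK⟩ : ∃ K, K = IntermediateField.adjoin k
      (range (fun s : Fin 3 × Fin 3 => gx k p F s.1 / gx k p F s.2) ∪
      range (fun s : Fin 3 × Fin 3 => gy k p F s.1 / gy k p F s.2)) := ⟨_, rfl⟩
    rw [← hK]
    have hbK : algebraMap (ChartRing k p) F (cb k p) ∈ K := by
      rw [hK]
      refine IntermediateField.subset_adjoin _ _ (Or.inl ⟨(2, 0), ?_⟩)
      exact div_one _
    have heK : algebraMap (ChartRing k p) F (ce k p) ∈ K := by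
      rw [hK]
      refine IntermediateField.subset_adjoin _ _ (Or.inr ⟨(2, 1), ?_⟩)
      exact div_one _
    have hcK : algebraMap (ChartRing k p) F (cc k p) ∈ K := by
      rw [hK]
      refine IntermediateField.subset_adjoin _ _ (Or.inr ⟨(0, 1), ?_⟩)
      exact div_one _
    have hB : ∀ z : ChartRing k p, algebraMap (ChartRing k p) F z ∈ K := by
      intro z
      have hz : z ∈ Algebra.adjoin k {cb k p, ce k p, cc k p} := by
        rw [chart_adjoin]; trivial
      induction hz using Algebra.adjoin_induction with
      | mem z hz =>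
        rcases hz with rfl | rfl | rfl
        · exact hbK
        · exact heK
        · exact hcK
      | algebraMap r =>
        rw [← IsScalarTower.algebraMap_apply]
        exact K.algebraMap_mem r
      | add a b _ _ ha hb =>
        rw [map_add]; exact add_mem ha hb
      | mul a b _ _ ha hb =>
        rw [map_mul]; exact mul_mem ha hb
    rw [eq_top_iff]
    intro z _
    obtain ⟨n, d, hd, rfl⟩ := IsFractionRing.div_surjective (A := ChartRing k p) z
    exact div_mem (hB n) (hB d)

end Pool.Agent.Helper71
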