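import Mathlib
import Pool.Agent.Helper71.ChartRing

namespace Pool.Agent.Helper71

open MvPolynomial TensorProduct

universe u

theorem isDomain_tensor_chartRing (k K : Type u) [Field k] [Field K] [Algebra k K] (p : ℕ)
    [Fact p.Prime] [CharP k p] : IsDomain (K ⊗[k] ChartRing k p) := by
  have : CharP K p := charP_of_injective_algebraMap (algebraMap k K).injective p
  have hdom := isDomain_chartRing K p
  let e1 := AdjoinRoot.tensorAlgEquiv (R := k) (T := K) (chartPoly k p) _ rfl
  let e := (algebraTensorAlgEquiv (σ := Fin 2) k K).toRingEquiv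
  have he : ((chartPoly k p).map (Algebra.TensorProduct.includeRight.toRingHom :
      MvPolynomial (Fin 2) k →+* K ⊗[k] MvPolynomial (Fin 2) k)).map (e : _ →+* _) =
      chartPoly K p := by
    rw [Polynomial.map_map]
    have hc : (e : K ⊗[k] MvPolynomial (Fin 2) k →+* MvPolynomial (Fin 2) K).comp
        (Algebra.TensorProduct.includeRight.toRingHom :
        MvPolynomial (Fin 2) k →+* K ⊗[k] MvPolynomial (Fin 2) k) =
        MvPolynomial.map (algebraMap k K) := by
      apply RingHom.ext
      intro x
      change algebraTensorAlgEquiv k K (1 ⊗ₜ x) = _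
      rw [algebraTensorAlgEquiv_tmul, one_smul]
    rw [hc]
    rw [chartPoly, Polynomial.map_add, Polynomial.map_sub, Polynomial.map_pow,
      Polynomial.map_X, Polynomial.map_C, chartPoly]
    congr 2
    rw [map_mul, map_pow, map_sub, map_pow, map_X, map_X]
  let e2 := AdjoinRoot.mapRingEquiv e _ (chartPoly K p) (Associated.of_eq he)
  exact (e1.toRingEquiv.trans e2).toMulEquiv.isDomain _

end Pool.Agent.Helper71
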