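import Mathlib
import Pool.Agent.Helper71.ChartBase

namespace Pool.Agent.Helper71

open MvPolynomial TensorProduct

universe u

theorem isDomain_tensor_fraction (k K B F : Type u) [Field k] [Field K] [Algebra k K]
    [CommRing B] [IsDomain B] [Algebra k B] [Field F] [Algebra k F] [Algebra B F]
    [IsScalarTower k B F] [IsFractionRing B F] (h : IsDomain (K ⊗[k] B)) :
    IsDomain (K ⊗[k] F) := by
  let f : K ⊗[k] B →ₐ[k] K ⊗[k] F :=
    Algebra.TensorProduct.map (AlgHom.id k K) (IsScalarTower.toAlgHom k B F)
  let _ : Algebra (K ⊗[k] B) (K ⊗[k] F) := f.toRingHom.toAlgebra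
  have halg : algebraMap (K ⊗[k] B) (K ⊗[k] F) = f.toRingHom := rfl
  have : IsScalarTower K (K ⊗[k] B) (K ⊗[k] F) := by
    apply IsScalarTower.of_algebraMap_eq'
    ext x
    rw [halg]
    simp [f]
  have hloc := IsLocalization.tensorProduct_tensorProduct_right (R := k) (S := K) (A := B)
    (nonZeroDivisors B) F (by
      ext x
      rw [halg]
      simp [f])
  apply @IsLocalization.isDomain_of_le_nonZeroDivisors (K ⊗[k] B) _ _ (K ⊗[k] F) _ _ hloc
  rintro _ ⟨b, hb, rfl⟩
  apply mem_nonZeroDivisors_of_ne_zero
  have hinj : Function.Injective (Algebra.TensorProduct.includeRight : B →ₐ[k] K ⊗[k] B) :=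
    Algebra.TensorProduct.includeRight_injective (algebraMap k K).injective
  intro h0
  apply nonZeroDivisors.ne_zero hb
  apply hinj
  rw [map_zero]
  exact h0

theorem isDomain_fraction_tensor (k K : Type u) [Field k] [Field K] [Algebra k K] (p : ℕ)
    [Fact p.Prime] [CharP k p] (F : Type u) [Field F] [Algebra k F] [Algebra (ChartRing k p) F]
    [IsScalarTower k (ChartRing k p) F] [IsFractionRing (ChartRing k p) F] :
    IsDomain (F ⊗[k] K) := by
  have := isDomain_chartRing k p
  have h1 := isDomain_tensor_fraction k K (ChartRing k p) F (isDomain_tensor_chartRing k K p)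
  exact (Algebra.TensorProduct.comm k F K).toRingEquiv.toMulEquiv.isDomain _

end Pool.Agent.Helper71
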