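import Mathlib
import Pool.Agent.Helper71.SysPsi
import Pool.Agent.Helper71.SysGen
import Pool.Agent.Helper71.TensorDom
import Pool.Agent.Helper71.GonDefs
import Pool.Agent.Helper69.GeomIntImage
import Pool.Agent.Helper69.SmoothCharts

namespace Pool.Agent.Helper71

open AlgebraicGeometry CategoryTheory MvPolynomial HomogeneousLocalization Limits Set

universe u

attribute [local instance] MvPolynomial.gradedAlgebra

variable {k : Type u} [Field k] {p : ℕ} {F : Type u} [Field F] [Algebra k F] {x y : Fin 3 → F}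
  [Fact p.Prime] [CharP k p]

theorem Sys.smooth (h : Sys k p x y) : SmoothOfRelativeDimension 2 h.str := by
  have hss := Helper69.standardSmooth_chartRing k p
  let ι : Type := {t : Fin 3 × Fin 3 × Fin 3 // t.1 ≠ t.2.1 ∧ t.1 ≠ t.2.2 ∧ t.2.1 ≠ t.2.2}
  have hex : ∀ t : ι, ∃ (c : Spec (.of (ChartRing k p)) ⟶ h.S) (_ : IsOpenImmersion c),
      c.opensRange = h.emb ⁻¹ᵁ Proj.basicOpen (hsub k 8) (X (idx t.1.1 t.1.2.1)) ∧
      c ≫ h.emb = pt (idx t.1.1 t.1.2.1) (seg (chX k p t.1.1 t.1.2.1) (chY k p t.1.1 t.1.2.1))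
        (ch_unit t.2.1) := by
    intro t
    obtain ⟨c, h1, h2, h3, -⟩ := h.exists_chart t.2.1 t.2.2.1 t.2.2.2
    exact ⟨c, h1, h2, h3⟩
  choose c hc h1 h2 using hex
  refine Helper69.smooth_of_charts h.str 2 c hc ?_ ?_
  · intro t
    rw [← Category.assoc, h2, pt_over]
  · intro z
    obtain ⟨i, j, l, hij, hil, hjl, hz⟩ := h.cover z
    refine ⟨⟨(i, j, l), hij, hil, hjl⟩, ?_⟩
    rw [h1]
    exact hz

theorem Sys.isNice (h : Sys k p x y)
    (hF : ∀ (K : Type u) [Field K] [Algebra k K], IsDomain (TensorProduct k F K)) :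
    IsNice 2 h.str where
  smooth := h.smooth
  geometricallyIntegral := Helper69.geometricallyIntegral_image hF (PPtoSpec k 8)
    (pt (k := k) (idx 0 1) (seg x y) (h.seg_unit _)) (pt_over _ _ _)
  projective := ⟨8, h.emb, inferInstance, rfl⟩

end Pool.Agent.Helper71
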