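import Mathlib
import Pool.Agent.Helper71.CurveMain2
import Pool.Agent.Helper71.SysNice

namespace Pool.Agent.Helper71

open AlgebraicGeometry CategoryTheory MvPolynomial HomogeneousLocalization Limits Set

universe u

attribute [local instance] MvPolynomial.gradedAlgebra

theorem main_aux (p : ℕ) [Fact p.Prime] (k : Type u) [Field k] [CharP k p] [PerfectField k] :
    ∃ (X : Scheme.{u}) (s : X ⟶ Spec (.of k)) (_ : IsIntegral X) (ψ : X.RationalMap (PP k 2)),
      IsNice 2 s ∧ IsDomRat s ψ ∧ ratDegree ψ = p ∧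
      (∀ φ : X.RationalMap (PP k 2), IsDomRat s φ → ratDegree ψ ≤ ratDegree φ) ∧
      ∀ (c : Fin 3 → k) (_ : ∀ s, c s ≠ 0)
        (_ : ∀ (κ : Type u) [Field κ] [Algebra k κ] (x : Fin 3 → κ),
          (∀ i, x i ^ (p ^ 2) = x i) → ∑ i, algebraMap k κ (c i) * x i = 0 → x = 0),
        ∃ (D : Scheme.{u}) (_ : IsIntegral D) (j : D ⟶ X), IsClosedImmersion j ∧
          range j = preimageClosure ψ (line k c) ∧
          (∃ χ : D.RationalMap (PP k 2), IsRestriction j ψ χ ∧ ratDegree χ = p) ∧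
          gonality (j ≫ s) = 1 := by
  have hdom := isDomain_chartRing k p
  let F : Type u := FractionRing (ChartRing k p)
  have h : Sys k p (gx k p F) (gy k p F) := g_sys k p F
  have hint : IsIntegral h.S := h.isIntegral
  obtain ⟨κ, ψ, hκ, hψ1, hψ2, hψ3⟩ := h.exists_psi
  refine ⟨h.S, h.str, hint, ψ, ?_, hψ1, hψ3, ?_, ?_⟩
  · exact h.isNice fun K _ _ => isDomain_fraction_tensor k K p F
  · intro φ hφ
    rw [hψ3]
    exact h.p_le_ratDegree φ hφ
  · intro c hc hkey
    exact h.exists_curve' κ hκ ψ hψ2 c hc hkey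

end Pool.Agent.Helper71
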