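import Mathlib
import Pool.Agent.Helper71.CurveGon

namespace Pool.Agent.Helper71

open AlgebraicGeometry CategoryTheory MvPolynomial HomogeneousLocalization Limits Set

universe u

attribute [local instance] MvPolynomial.gradedAlgebra

variable {k : Type u} [Field k] {p : ℕ} {F : Type u} [Field F] [Algebra k F] {x y : Fin 3 → F}
  [Fact p.Prime] [CharP k p]

theorem Sys.exists_curve [PerfectField k] (h : Sys k p x y) [IsIntegral h.S]
    (κ : h.S.functionField ≅ .of F)
    (hκ : Spec.map κ.hom ≫ h.S.fromSpecStalk (genericPoint h.S) = h.gp)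
    (ψ : h.S.RationalMap (PP k 2))
    (hψ : Spec.map κ.hom ≫ ψ.fromFunctionField =
      pt (k := k) 0 x (isUnit_iff_ne_zero.2 (h.hx 0)))
    (c : Fin 3 → k) (hc : ∀ s, c s ≠ 0)
    (hkey : ∀ (κ : Type u) [Field κ] [Algebra k κ] (x : Fin 3 → κ), (∀ i, x i ^ (p ^ 2) = x i) →
      ∑ i, algebraMap k κ (c i) * x i = 0 → x = 0)
    (htau : ∀ (E : Type u) [Field E] [Algebra k E] (t : E) (_ : Transcendental k t)
      (K1 : IntermediateField k E) (_ : t ^ p ∈ K1) (_ : K1 ≤ IntermediateField.adjoin k {t}),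
      ∃ τ : E, Transcendental k τ ∧ K1 = IntermediateField.adjoin k {τ}) :
    ∃ (D : Scheme.{u}) (_ : IsIntegral D) (j : D ⟶ h.S), IsClosedImmersion j ∧
      range j = preimageClosure ψ (line k c) ∧ gonality (j ≫ h.str) = 1 := by
  have hp : p.Prime := Fact.out
  have hexp : ExpChar k p := ExpChar.prime hp
  have hperf : PerfectRing k p := PerfectField.toPerfectRing p
  choose c' hcc using fun s => surjective_frobenius k p (c s)
  have hcc' : ∀ s, c' s ^ p = c s := hcc
  have hc' : ∀ s, c' s ≠ 0 := by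
    intro s h0
    apply hc s
    rw [← hcc', h0, zero_pow hp.ne_zero]
  let E : Type u := FractionRing (MvPolynomial (Fin 2) k)
  let J : MvPolynomial (Fin 2) k →ₐ[k] E := IsScalarTower.toAlgHom k (MvPolynomial (Fin 2) k) E
  have hJ : Function.Injective J := IsFractionRing.injective (MvPolynomial (Fin 2) k) E
  have : CharP E p := charP_of_injective_algebraMap (algebraMap k E).injective p
  have e := pre_par p J hJ c' hc'
  obtain ⟨γ, hγ⟩ := h.exists_point e
  have hqc : QuasiCompact (γ ≫ h.emb) := inferInstance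
  have hqcγ : QuasiCompact γ := QuasiCompact.of_comp γ h.emb
  have hint : IsIntegral γ.image := isIntegral_image γ
  refine ⟨γ.image, hint, γ.imageι, inferInstance, ?_, ?_⟩
  · rw [h.preimageClosure_eq κ hκ ψ hψ J hJ c c' hc' hcc' hkey γ hγ]
    rw [Scheme.IdealSheafData.range_subschemeι, Scheme.Hom.support_ker]
  · obtain ⟨x', hx'⟩ : ∃ x' : Fin 3 → E, x' = fun s => J (VV c' s) ^ p := ⟨_, rfl⟩
    obtain ⟨y', hy'⟩ : ∃ y' : Fin 3 → E, y' = fun s => J (WW p c' s) := ⟨_, rfl⟩
    obtain ⟨w, hw⟩ : ∃ w : Fin (8 + 1) → E, w = fun m => (seg x' y' (idx 0 1))⁻¹ * seg x' y' m :=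
      ⟨_, rfl⟩
    have hne : seg x' y' (idx 0 1) ≠ 0 := by
      rw [hx', hy']; exact e.seg_ne_zero _
    have hw1 : w (idx 0 1) = 1 := by rw [hw]; exact inv_mul_cancel₀ hne
    have hu : IsUnit (w (idx 0 1)) := by rw [hw1]; exact isUnit_one
    have hγw : γ ≫ h.emb = pt (k := k) (idx 0 1) w hu := by
      rw [hγ]
      apply pt_eq_of_scale _ _ _ _ _ _ (seg x' y' (idx 0 1))⁻¹
        (isUnit_iff_ne_zero.2 (inv_ne_zero hne))
      intro m
      rw [hw, hx', hy']
    obtain ⟨h1, h2⟩ := curve_field p J hJ c' hc' x' y' hx' hy' _ rfl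
    obtain ⟨τ, hτ1, hτ2⟩ := htau E _ (transcendental_ratio J hJ c' hc') _ h1 h2
    refine gonality_image h.emb γ (idx 0 1) w hw1 hu hγw τ hτ1 ?_
    rw [hw]
    exact hτ2

end Pool.Agent.Helper71
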