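import Mathlib

namespace Pool.Agent.Helper71

open MvPolynomial

universe u

/-- The Moore determinant `det (X_j ^ (q ^ i))` for `q = p ^ 2`. -/
noncomputable def moore (k : Type u) [CommRing k] (p : ℕ) : MvPolynomial (Fin 3) k :=
  Matrix.det (Matrix.of fun i j : Fin 3 =>
    (X j : MvPolynomial (Fin 3) k) ^ ((p ^ 2) ^ (i : ℕ)))

theorem moore_homogeneous (k : Type u) [CommRing k] (p : ℕ) :
    (moore k p).IsHomogeneous (1 + p ^ 2 + p ^ 4) := by
  unfold moore
  rw [Matrix.det_apply]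
  apply IsHomogeneous.sum
  intro σ _
  have h1 : (∏ i, (Matrix.of fun i j : Fin 3 =>
      (X j : MvPolynomial (Fin 3) k) ^ ((p ^ 2) ^ (i : ℕ))) (σ i) i).IsHomogeneous
      (∑ i, (p ^ 2) ^ ((σ i : Fin 3) : ℕ)) := by
    apply IsHomogeneous.prod
    intro i _
    rw [Matrix.of_apply]
    have := (isHomogeneous_X k i).pow ((p ^ 2) ^ ((σ i : Fin 3) : ℕ))
    rwa [one_mul] at this
  have h2 : ∑ i, (p ^ 2) ^ ((σ i : Fin 3) : ℕ) = 1 + p ^ 2 + p ^ 4 := by
    rw [Equiv.sum_comp σ (fun i : Fin 3 => (p ^ 2) ^ (i : ℕ)), Fin.sum_univ_three]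
    simp only [Fin.val_zero, Fin.val_one, Fin.val_two]
    ring
  rw [h2] at h1
  rcases Int.units_eq_one_or (Equiv.Perm.sign σ) with h | h
  · rw [h, one_smul]; exact h1
  · rw [h, Units.neg_smul, one_smul]; exact h1.neg

theorem eval_moore {k : Type u} [CommRing k] (p : ℕ) (c : Fin 3 → k) :
    eval c (moore k p) =
      Matrix.det (Matrix.of fun i j : Fin 3 => c j ^ ((p ^ 2) ^ (i : ℕ))) := by
  unfold moore
  rw [RingHom.map_det]
  congr 1
  ext i j
  simp

theorem moore_ne_zero (k : Type u) [Field k] (p : ℕ) [Fact p.Prime] [CharP k p] :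
    moore k p ≠ 0 := by
  intro h
  have hp : p.Prime := Fact.out
  have h1 : pderiv 0 (moore k p) = 0 := by rw [h, map_zero]
  have hp2 : ((p : MvPolynomial (Fin 3) k)) = 0 := by
    rw [← C_eq_coe_nat, CharP.cast_eq_zero, map_zero]
  have h2 : pderiv 0 (moore k p) = X 1 ^ (p ^ 2) * X 2 ^ ((p ^ 2) ^ 2) -
      X 2 ^ (p ^ 2) * X 1 ^ ((p ^ 2) ^ 2) := by
    unfold moore
    rw [Matrix.det_fin_three]
    simp only [Matrix.of_apply, Fin.val_zero, Fin.val_one, Fin.val_two, pow_zero, pow_one, map_sub,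
      map_add, Derivation.leibniz, Derivation.leibniz_pow, smul_eq_mul, pderiv_X_self,
      pderiv_X_of_ne (show (1 : Fin 3) ≠ 0 by decide), pderiv_X_of_ne (show (2 : Fin 3) ≠ 0 by decide),
      nsmul_eq_mul, Nat.cast_pow, hp2, zero_pow (two_ne_zero), mul_zero, zero_mul, add_zero,
      zero_add, sub_zero, mul_one]
    ring
  rw [h1] at h2
  have h3 := congrArg (aeval ![(0 : Polynomial k), 1, Polynomial.X]) h2
  simp only [map_zero, map_sub, map_mul, map_pow, aeval_X] at h3
  simp only [Matrix.cons_val, one_pow, one_mul, mul_one] at h3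
  have h4 := (sub_eq_zero.1 h3.symm)
  have h5 := congrArg Polynomial.natDegree h4
  rw [Polynomial.natDegree_X_pow, Polynomial.natDegree_X_pow] at h5
  have h6 : (p ^ 2) ^ 2 = (p ^ 2) ^ 1 := by rw [pow_one]; exact h5
  have h7 := Nat.pow_right_injective (one_lt_pow₀ hp.one_lt two_ne_zero) h6
  omega

theorem exists_moore (k : Type u) [Field k] [Infinite k] (p : ℕ) [Fact p.Prime] [CharP k p] :
    ∃ c : Fin 3 → k, eval c (moore k p) ≠ 0 := by
  by_contra! h
  apply moore_ne_zero k p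
  apply MvPolynomial.funext
  intro c
  rw [h c, map_zero]

theorem moore_coord {k : Type u} [Field k] (p : ℕ) (hp : p ≠ 0) (c : Fin 3 → k)
    (h : eval c (moore k p) ≠ 0) (i : Fin 3) : c i ≠ 0 := by
  intro hi
  apply h
  rw [eval_moore]
  apply Matrix.det_eq_zero_of_column_eq_zero i
  intro j
  rw [Matrix.of_apply, hi, zero_pow]
  exact pow_ne_zero _ (pow_ne_zero _ hp)

theorem moore_key {k : Type u} [Field k] (p : ℕ) [Fact p.Prime] [CharP k p]
    {K : Type*} [Field K] [Algebra k K] (c : Fin 3 → k) (h : eval c (moore k p) ≠ 0)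
    (x : Fin 3 → K) (hx : ∀ i, x i ^ (p ^ 2) = x i)
    (h0 : ∑ i, algebraMap k K (c i) * x i = 0) : x = 0 := by
  have hK : CharP K p := charP_of_injective_algebraMap (algebraMap k K).injective p
  by_contra hne
  apply h
  apply (algebraMap k K).injective
  rw [eval_moore, map_zero, RingHom.map_det]
  rw [← Matrix.exists_mulVec_eq_zero_iff]
  refine ⟨x, hne, ?_⟩
  ext i
  rw [Pi.zero_apply]
  have key : ∀ n : ℕ, ∑ j, algebraMap k K (c j) ^ ((p ^ 2) ^ n) * x j = 0 := by
    intro n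
    induction n with
    | zero => simpa using h0
    | succ n ih =>
      have h1 : (∑ j, algebraMap k K (c j) ^ ((p ^ 2) ^ n) * x j) ^ (p ^ 2) = 0 := by
        rw [ih, zero_pow (pow_ne_zero _ (Fact.out : p.Prime).ne_zero)]
      rw [sum_pow_char_pow] at h1
      rw [← h1]
      apply Finset.sum_congr rfl
      intro j _
      rw [mul_pow, hx j, pow_succ (p ^ 2) n, pow_mul]
  have := key i
  rw [← this]
  rw [Matrix.mulVec, dotProduct]
  apply Finset.sum_congr rfl
  intro j _
  simp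

end Pool.Agent.Helper71
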