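import Mathlib

/-!
# Catalan convolution identities

`α r = Cat (r-1)` and `β r = 4^(r-1) - binom(2r-1, r-1)` satisfy, for `r ≥ 2`,
`∑_{0<t<r} α t α (r-t) = α r` and
`∑_{0<t<r} (β t α (r-t) + α t β (r-t)) + (r-1) α r = β r`.
-/

open Finset

namespace Pool.Agent.Helper71.Wg

/-- `α r = Cat (r-1)`. -/
noncomputable def al (r : ℕ) : ℝ := catalan (r - 1)

/-- `β r = 4^(r-1) - binom (2(r-1)+1) (r-1)`. -/
noncomputable def be (r : ℕ) : ℝ := 4 ^ (r - 1) - ((2 * (r - 1) + 1).choose (r - 1) : ℕ)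

lemma two_mul_choose (k : ℕ) : 2 * (2 * k + 1).choose k = (k + 1).centralBinom := by
  rw [Nat.centralBinom_eq_two_mul_choose, show 2 * (k + 1) = (2 * k + 1) + 1 by ring,
    Nat.choose_succ_succ (2 * k + 1) k]
  have : (2 * k + 1).choose k.succ = (2 * k + 1).choose k :=
    (Nat.choose_symm_of_eq_add (by omega))
  omega

lemma conv_catalan (k : ℕ) :
    ∑ s ∈ range (k + 1), (catalan s : ℝ) * catalan (k - s) = catalan (k + 1) := by
  rw [catalan_succ', Finset.Nat.sum_antidiagonal_eq_sum_range_succ_mk]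
  push_cast
  rfl

/-- `2 ∑ 4^s Cat (m-s) = 4^(m+1) - centralBinom (m+1)`. -/
lemma conv_four (m : ℕ) : 2 * ∑ s ∈ range (m + 1), (4 : ℝ) ^ s * catalan (m - s) =
    4 ^ (m + 1) - (m + 1).centralBinom := by
  induction m with
  | zero => simp [Nat.centralBinom]; norm_num
  | succ m ih =>
    rw [Finset.sum_range_succ']
    have h1 : ∑ s ∈ range (m + 1), (4 : ℝ) ^ (s + 1) * catalan (m + 1 - (s + 1)) =
        4 * ∑ s ∈ range (m + 1), (4 : ℝ) ^ s * catalan (m - s) := by
      rw [Finset.mul_sum]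
      refine Finset.sum_congr rfl fun s _ => ?_
      rw [show m + 1 - (s + 1) = m - s by omega]
      ring
    rw [h1]
    have h2 : ((m + 1 + 1 : ℕ) : ℝ) * catalan (m + 1) = (m + 1).centralBinom := by
      exact_mod_cast succ_mul_catalan_eq_centralBinom (m + 1)
    have h3 : ((m + 1 + 1 : ℕ) : ℝ) * (m + 1 + 1).centralBinom =
        2 * (2 * (m + 1) + 1) * (m + 1).centralBinom := by
      exact_mod_cast Nat.succ_mul_centralBinom_succ (m + 1)
    have hpos : ((m + 1 + 1 : ℕ) : ℝ) ≠ 0 := by positivity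
    have h4 : 2 * (catalan (m + 1) : ℝ) + (m + 1 + 1).centralBinom =
        4 * (m + 1).centralBinom := by
      apply mul_left_cancel₀ hpos
      rw [mul_add, h3, show ((m + 1 + 1 : ℕ) : ℝ) * (2 * catalan (m + 1)) =
        2 * (((m + 1 + 1 : ℕ) : ℝ) * catalan (m + 1)) by ring, h2]
      push_cast
      ring
    simp only [pow_zero, Nat.sub_zero, one_mul]
    rw [pow_succ]
    linarith

/-- `∑ centralBinom s Cat (k-s) = binom (2k+1) k`. -/
lemma conv_central (k : ℕ) : ∑ s ∈ range (k + 1), (s.centralBinom : ℝ) * catalan (k - s) =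
    ((2 * k + 1).choose k : ℕ) := by
  have h1 : ∀ s ∈ range (k + 1), (s.centralBinom : ℝ) * catalan (k - s) =
      (s + 1) * ((catalan s : ℝ) * catalan (k - s)) := by
    intro s _
    have : ((s + 1 : ℕ) : ℝ) * catalan s = s.centralBinom := by
      exact_mod_cast succ_mul_catalan_eq_centralBinom s
    rw [← this]
    push_cast
    ring
  rw [Finset.sum_congr rfl h1]
  set T := ∑ s ∈ range (k + 1), ((s : ℝ) + 1) * ((catalan s : ℝ) * catalan (k - s)) with hT
  have h2 : T = ∑ s ∈ range (k + 1), (((k - s : ℕ) : ℝ) + 1) *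
      ((catalan s : ℝ) * catalan (k - s)) := by
    rw [hT, ← Finset.sum_range_reflect]
    refine Finset.sum_congr rfl fun s hs => ?_
    have hs' := Finset.mem_range.1 hs
    rw [show k + 1 - 1 - s = k - s by omega, show k - (k - s) = s by omega]
    ring
  have h3 : T + T = (k + 2) * catalan (k + 1) := by
    nth_rewrite 2 [h2]
    rw [hT, ← Finset.sum_add_distrib, ← conv_catalan, Finset.mul_sum]
    refine Finset.sum_congr rfl fun s hs => ?_
    have hs' := Finset.mem_range.1 hs
    have : ((k - s : ℕ) : ℝ) = k - s := by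
      rw [Nat.cast_sub (by omega)]
    rw [this]
    ring
  have h4 : ((k + 1 + 1 : ℕ) : ℝ) * catalan (k + 1) = (k + 1).centralBinom := by
    exact_mod_cast succ_mul_catalan_eq_centralBinom (k + 1)
  have h5 : (2 : ℝ) * ((2 * k + 1).choose k : ℕ) = (k + 1).centralBinom := by
    exact_mod_cast two_mul_choose k
  push_cast at h4
  linarith

lemma al_conv {r : ℕ} (hr : 2 ≤ r) : ∑ t ∈ Ioo 0 r, al t * al (r - t) = al r := by
  obtain ⟨k, rfl⟩ : ∃ k, r = k + 2 := ⟨r - 2, by omega⟩
  have h1 : ∑ t ∈ Ioo 0 (k + 2), al t * al (k + 2 - t) =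
      ∑ s ∈ range (k + 1), (catalan s : ℝ) * catalan (k - s) := by
    symm
    refine Finset.sum_bij (fun s _ => s + 1) ?_ ?_ ?_ ?_
    · intro s hs; simp at hs ⊢; omega
    · intro a _ b _ h; omega
    · intro t ht; simp at ht; exact ⟨t - 1, by simp; omega, by omega⟩
    · intro s hs
      unfold al
      rw [show s + 1 - 1 = s by omega, show k + 2 - (s + 1) - 1 = k - s by omega]
  rw [h1, conv_catalan]
  rfl

lemma be_conv {r : ℕ} (hr : 2 ≤ r) :
    ∑ t ∈ Ioo 0 r, (be t * al (r - t) + al t * be (r - t)) + (r - 1) * al r = be r := by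
  obtain ⟨k, rfl⟩ : ∃ k, r = k + 2 := ⟨r - 2, by omega⟩
  rw [Finset.sum_add_distrib]
  have hsymm : ∑ t ∈ Ioo 0 (k + 2), al t * be (k + 2 - t) =
      ∑ t ∈ Ioo 0 (k + 2), be t * al (k + 2 - t) := by
    refine Finset.sum_bij (fun s _ => k + 2 - s) ?_ ?_ ?_ ?_
    · intro s hs; simp at hs ⊢; omega
    · intro a ha b hb h; simp at ha hb; omega
    · intro t ht; simp at ht; exact ⟨k + 2 - t, by simp; omega, by omega⟩
    · intro s hs
      simp at hs
      rw [show k + 2 - (k + 2 - s) = s by omega]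
      ring
  have h1 : ∑ t ∈ Ioo 0 (k + 2), be t * al (k + 2 - t) =
      ∑ s ∈ range (k + 1), ((4 : ℝ) ^ s - ((2 * s + 1).choose s : ℕ)) * catalan (k - s) := by
    symm
    refine Finset.sum_bij (fun s _ => s + 1) ?_ ?_ ?_ ?_
    · intro s hs; simp at hs ⊢; omega
    · intro a _ b _ h; omega
    · intro t ht; simp at ht; exact ⟨t - 1, by simp; omega, by omega⟩
    · intro s hs
      unfold al be
      rw [show s + 1 - 1 = s by omega, show k + 2 - (s + 1) - 1 = k - s by omega]
  rw [hsymm, h1]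
  have h2 : ∑ s ∈ range (k + 1), ((4 : ℝ) ^ s - ((2 * s + 1).choose s : ℕ)) * catalan (k - s) =
      ∑ s ∈ range (k + 1), (4 : ℝ) ^ s * catalan (k - s) -
      ∑ s ∈ range (k + 1), (((2 * s + 1).choose s : ℕ) : ℝ) * catalan (k - s) := by
    rw [← Finset.sum_sub_distrib]
    refine Finset.sum_congr rfl fun s _ => by ring
  have h3 : 2 * ∑ s ∈ range (k + 1), (((2 * s + 1).choose s : ℕ) : ℝ) * catalan (k - s) =
      ((2 * (k + 1) + 1).choose (k + 1) : ℕ) - catalan (k + 1) := by
    have h4 := conv_central (k + 1)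
    rw [Finset.sum_range_succ'] at h4
    simp only [Nat.centralBinom_zero, Nat.cast_one, one_mul, Nat.sub_zero] at h4
    rw [← h4, Finset.mul_sum]
    have : ∑ s ∈ range (k + 1), ((s + 1).centralBinom : ℝ) * catalan (k + 1 - (s + 1)) =
        ∑ s ∈ range (k + 1), 2 * ((((2 * s + 1).choose s : ℕ) : ℝ) * catalan (k - s)) := by
      refine Finset.sum_congr rfl fun s _ => ?_
      rw [show k + 1 - (s + 1) = k - s by omega]
      have h5 : (2 : ℝ) * ((2 * s + 1).choose s : ℕ) = (s + 1).centralBinom := by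
        exact_mod_cast two_mul_choose s
      rw [← h5]
      ring
    rw [this]
    ring
  have h4 := conv_four k
  have h5 : ((k + 1 + 1 : ℕ) : ℝ) * catalan (k + 1) = (k + 1).centralBinom := by
    exact_mod_cast succ_mul_catalan_eq_centralBinom (k + 1)
  rw [h2]
  unfold al be
  rw [show k + 2 - 1 = k + 1 by omega]
  push_cast at h5 h3 h4 ⊢
  linarith

lemma al_pos (r : ℕ) : 0 < al r := by
  unfold al
  have h := succ_mul_catalan_eq_centralBinom (r - 1)
  have h2 := Nat.centralBinom_pos (r - 1)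
  have : 0 < catalan (r - 1) := by
    rcases Nat.eq_zero_or_pos (catalan (r - 1)) with h0 | h0
    · rw [h0] at h; omega
    · exact h0
  exact_mod_cast this

lemma al_one : al 1 = 1 := by simp [al]

lemma be_one : be 1 = 0 := by simp [be]

end Pool.Agent.Helper71.Wg
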