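import Mathlib

/-!
# Cycle lengths of a permutation multiplied by a transposition

`per π x` is the length of the cycle of `π` through `x`, and `S G π = ∑ x, G (per π x)`.
We compute how `S G π` changes when `π` is multiplied by a transposition.
-/

set_option linter.unusedSectionVars false

open Function Finset Equiv

namespace Pool.Agent.Helper71.Wg

variable {V : Type*} [Fintype V] [DecidableEq V]

/-- Length of the cycle of `π` through `x`. -/
noncomputable def per (π : Perm V) (x : V) : ℕ := minimalPeriod π x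

/-- The sum over all points of a function of the length of the cycle through the point. -/
noncomputable def S (G : ℕ → ℝ) (π : Perm V) : ℝ := ∑ x, G (per π x)

lemma mem_per (π : Perm V) (x : V) : x ∈ periodicPts (π : V → V) := by
  refine mk_mem_periodicPts (n := orderOf π) (orderOf_pos π) ?_
  show (π : V → V)^[orderOf π] x = x
  rw [Perm.iterate_eq_pow, pow_orderOf_eq_one]
  rfl

lemma per_pos (π : Perm V) (x : V) : 0 < per π x :=
  minimalPeriod_pos_of_mem_periodicPts (mem_per π x)

lemma iter_per (π : Perm V) (x : V) : (π : V → V)^[per π x] x = x :=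
  iterate_minimalPeriod

lemma iter_ne (π : Perm V) (x : V) {s : ℕ} (h0 : 0 < s) (h1 : s < per π x) :
    (π : V → V)^[s] x ≠ x := fun h =>
  not_isPeriodicPt_of_pos_of_lt_minimalPeriod h0.ne' h1 h

lemma iter_inj (π : Perm V) (x : V) {s t : ℕ} (hs : s < per π x) (ht : t < per π x)
    (h : (π : V → V)^[s] x = (π : V → V)^[t] x) : s = t :=
  (iterate_eq_iterate_iff_of_lt_minimalPeriod hs ht).1 h

lemma per_eq (π : Perm V) (x : V) {t : ℕ} (h0 : 0 < t) (ht : (π : V → V)^[t] x = x)
    (h : ∀ s, 0 < s → s < t → (π : V → V)^[s] x ≠ x) : per π x = t := by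
  refine le_antisymm (IsPeriodicPt.minimalPeriod_le h0 ht) ?_
  by_contra hlt
  push Not at hlt
  exact h _ (per_pos π x) hlt (iter_per π x)

lemma per_iter (π : Perm V) (x : V) (s : ℕ) : per π ((π : V → V)^[s] x) = per π x :=
  minimalPeriod_apply_iterate (mem_per π x) s

lemma iter_inj' (π : Perm V) (s : ℕ) {x y : V} (h : (π : V → V)^[s] x = (π : V → V)^[s] y) :
    x = y :=
  (π.injective.iterate s) h

/-- reachability along the cycle is symmetric -/
lemma reach_symm (π : Perm V) {x y : V} {s : ℕ} (h : (π : V → V)^[s] x = y) :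
    ∃ u, (π : V → V)^[u] y = x := by
  refine ⟨s * (per π x) - s, ?_⟩
  have h1 : 1 ≤ per π x := per_pos π x
  have h2 : s ≤ s * per π x := Nat.le_mul_of_pos_right s h1
  rw [← h, ← iterate_add_apply, Nat.sub_add_cancel h2]
  have : IsPeriodicPt (π : V → V) (per π x) x := iter_per π x
  exact this.const_mul s

lemma reach_lt (π : Perm V) {x y : V} {s : ℕ} (h : (π : V → V)^[s] x = y) :
    ∃ u, u < per π x ∧ (π : V → V)^[u] x = y :=
  ⟨s % per π x, Nat.mod_lt _ (per_pos π x), by
    rw [← h]; exact iterate_mod_minimalPeriod_eq⟩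

/-- If the cycle of `x` avoids `a, b` then multiplying by `swap a b` changes nothing along it. -/
lemma iter_mul_swap_of_avoid (π : Perm V) {a b x : V} (ha : ∀ s, (π : V → V)^[s] x ≠ a)
    (hb : ∀ s, (π : V → V)^[s] x ≠ b) (s : ℕ) :
    ((π * swap a b : Perm V) : V → V)^[s] x = (π : V → V)^[s] x := by
  induction s with
  | zero => rfl
  | succ s ih =>
    rw [iterate_succ_apply', ih, iterate_succ_apply', Perm.mul_apply,
      swap_apply_of_ne_of_ne (ha s) (hb s)]

lemma per_mul_swap_of_avoid (π : Perm V) {a b x : V} (ha : ∀ s, (π : V → V)^[s] x ≠ a)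
    (hb : ∀ s, (π : V → V)^[s] x ≠ b) : per (π * swap a b) x = per π x := by
  refine minimalPeriod_eq_minimalPeriod_iff.2 fun n => ?_
  unfold IsPeriodicPt IsFixedPt
  rw [iter_mul_swap_of_avoid π ha hb]

/-- **Splitting.** -/
theorem S_split (G : ℕ → ℝ) (π : Perm V) (i j : V) (t : ℕ) (hij : (π : V → V)^[t] j = i)
    (ht0 : 0 < t) (htr : t < per π j) :
    S G (π * swap i j) = S G π - per π j * G (per π j) + t * G t
      + ((per π j - t : ℕ) : ℝ) * G (per π j - t) := by
  set r := per π j with hr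
  set ρ := π * swap i j with hρ
  have hr0 : 0 < r := per_pos π j
  have hρi : ρ i = π j := by rw [hρ, Perm.mul_apply, swap_apply_left]
  have hρj : ρ j = π i := by rw [hρ, Perm.mul_apply, swap_apply_right]
  have hρx : ∀ x, x ≠ i → x ≠ j → ρ x = π x := fun x h1 h2 => by
    rw [hρ, Perm.mul_apply, swap_apply_of_ne_of_ne h1 h2]
  have hne_j : ∀ s, 0 < s → s < r → (π : V → V)^[s] j ≠ j := fun s h0 h1 => iter_ne π j h0 h1
  have hne_i : ∀ s, s ≠ t → s < r → (π : V → V)^[s] j ≠ i := by
    intro s h0 h1 h2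
    rw [← hij] at h2
    exact h0 (iter_inj π j h1 htr h2)
  have hfix : (π : V → V)^[r] j = j := iter_per π j
  -- the orbit of `i` under `ρ`
  have h1 : ∀ s, 0 < s → s ≤ t → (ρ : V → V)^[s] i = (π : V → V)^[s] j := by
    intro s hs0 hst
    induction s with
    | zero => omega
    | succ s ih =>
      rcases Nat.eq_zero_or_pos s with rfl | hs
      · simpa using hρi
      · rw [iterate_succ_apply', ih hs (by omega), iterate_succ_apply',
          hρx _ (hne_i s (by omega) (by omega)) (hne_j s hs (by omega))]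
  have h2 : ∀ s, 0 < s → s ≤ r - t → (ρ : V → V)^[s] j = (π : V → V)^[t + s] j := by
    intro s hs0 hst
    induction s with
    | zero => omega
    | succ s ih =>
      rcases Nat.eq_zero_or_pos s with rfl | hs
      · rw [iterate_succ_apply', iterate_zero_apply, hρj, iterate_succ_apply', hij]
      · rw [iterate_succ_apply', ih hs (by omega), ← add_assoc, iterate_succ_apply',
          hρx _ (hne_i _ (by omega) (by omega)) (hne_j _ (by omega) (by omega))]
  have peri : per ρ i = t := by
    refine per_eq ρ i ht0 ?_ ?_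
    · rw [h1 t ht0 le_rfl, hij]
    · intro s hs0 hst
      rw [h1 s hs0 hst.le]
      exact hne_i s (by omega) (by omega)
  have perj : per ρ j = r - t := by
    refine per_eq ρ j (by omega) ?_ ?_
    · rw [h2 _ (by omega) le_rfl, show t + (r - t) = r by omega, hfix]
    · intro s hs0 hst
      rw [h2 s hs0 (by omega)]
      exact hne_j _ (by omega) (by omega)
  -- the cycle as a finset
  set E : Finset V := (Finset.Ioc 0 r).image (fun s => (π : V → V)^[s] j) with hE
  have hinj : Set.InjOn (fun s => (π : V → V)^[s] j) (Finset.Ioc 0 r : Finset ℕ) := by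
    intro s hs u hu hsu
    simp only [Finset.coe_Ioc, Set.mem_Ioc] at hs hu
    have h3 : (π : V → V)^[s] j = (π : V → V)^[u] j := hsu
    obtain ⟨s', rfl⟩ : ∃ s', s = s' + 1 := ⟨s - 1, by omega⟩
    obtain ⟨u', rfl⟩ : ∃ u', u = u' + 1 := ⟨u - 1, by omega⟩
    rw [iterate_succ_apply', iterate_succ_apply'] at h3
    have := iter_inj π j (by omega) (by omega) (π.injective h3)
    omega
  have hEmem : ∀ s, (π : V → V)^[s] j ∈ E := by
    intro s
    have h3 : (π : V → V)^[s % r] j = (π : V → V)^[s] j := iterate_mod_minimalPeriod_eq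
    rw [← h3]
    have h4 := Nat.mod_lt s hr0
    rcases Nat.eq_zero_or_pos (s % r) with h5 | h5
    · rw [h5]
      exact Finset.mem_image.2 ⟨r, by simp [hr0], hfix⟩
    · exact Finset.mem_image.2 ⟨s % r, by simp; omega, rfl⟩
  have hEsum : ∀ f : V → ℝ, ∑ x ∈ E, f x = ∑ s ∈ Finset.Ioc 0 r, f ((π : V → V)^[s] j) := by
    intro f
    rw [hE, Finset.sum_image (fun a ha b hb hab => hinj ha hb hab)]
  have hout : ∀ x, x ∉ E → per ρ x = per π x := by
    intro x hx
    have key : ∀ y, (∃ s, (π : V → V)^[s] j = y) → ∀ s, (π : V → V)^[s] x ≠ y := by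
      rintro y ⟨u, hu⟩ s hs
      obtain ⟨v, hv⟩ := reach_symm π hs
      apply hx
      rw [← hv, ← hu, ← iterate_add_apply]
      exact hEmem _
    exact per_mul_swap_of_avoid π (key i ⟨t, hij⟩) (key j ⟨0, rfl⟩)
  have hin1 : ∀ s, 0 < s → s ≤ t → per ρ ((π : V → V)^[s] j) = t := by
    intro s hs0 hst
    rw [← h1 s hs0 hst, per_iter, peri]
  have hin2 : ∀ s, t < s → s ≤ r → per ρ ((π : V → V)^[s] j) = r - t := by
    intro s hs0 hst
    have := h2 (s - t) (by omega) (by omega)
    rw [show t + (s - t) = s by omega] at this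
    rw [← this, per_iter, perj]
  unfold S
  have hsplit : ∀ f : V → ℝ, ∑ x, f x = ∑ x ∈ E, f x + ∑ x ∈ Eᶜ, f x := fun f =>
    (Finset.sum_add_sum_compl E f).symm
  rw [hsplit (fun x => G (per ρ x)), hsplit (fun x => G (per π x)), hEsum, hEsum]
  have e1 : ∑ x ∈ Eᶜ, G (per ρ x) = ∑ x ∈ Eᶜ, G (per π x) := by
    refine Finset.sum_congr rfl fun x hx => ?_
    rw [hout x (by simpa using hx)]
  have e2 : ∑ s ∈ Finset.Ioc 0 r, G (per π ((π : V → V)^[s] j)) = r * G r := by
    rw [Finset.sum_congr rfl (fun s _ => by rw [per_iter])]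
    simp [← hr]
  have e3 : ∑ s ∈ Finset.Ioc 0 r, G (per ρ ((π : V → V)^[s] j)) =
      t * G t + ((r - t : ℕ) : ℝ) * G (r - t) := by
    have hun : Finset.Ioc 0 r = Finset.Ioc 0 t ∪ Finset.Ioc t r := by
      ext s; simp; omega
    have hdisj : Disjoint (Finset.Ioc 0 t) (Finset.Ioc t r) := by
      rw [Finset.disjoint_left]; intro s; simp; omega
    rw [hun, Finset.sum_union hdisj]
    rw [Finset.sum_congr rfl (g := fun _ => G t) (fun s hs => by
      simp only [Finset.mem_Ioc] at hs; rw [hin1 s hs.1 hs.2])]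
    rw [Finset.sum_congr (s₁ := Finset.Ioc t r) rfl (g := fun _ => G (r - t)) (fun s hs => by
      simp only [Finset.mem_Ioc] at hs; rw [hin2 s hs.1 hs.2])]
    simp
  rw [e1, e2, e3]
  ring

/-- **Joining.** -/
theorem S_join (G : ℕ → ℝ) (π : Perm V) (i j : V) (hij : ∀ s, (π : V → V)^[s] j ≠ i) :
    S G (π * swap i j) = S G π - per π i * G (per π i) - per π j * G (per π j)
      + ((per π i + per π j : ℕ) : ℝ) * G (per π i + per π j) ∧
    (per (π * swap i j) j = per π i + per π j) ∧
    (∀ s, 0 < s → s ≤ per π i → ((π * swap i j : Perm V) : V → V)^[s] j = (π : V → V)^[s] i) ∧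
    (∀ s, 0 < s → s ≤ per π j → ((π * swap i j : Perm V) : V → V)^[per π i + s] j =
      (π : V → V)^[s] j) := by
  have hji : ∀ s, (π : V → V)^[s] i ≠ j := by
    intro s hs
    obtain ⟨u, hu⟩ := reach_symm π hs
    exact hij u hu
  set ρ := π * swap i j with hρ
  set a := per π i with ha
  set b := per π j with hb
  have ha0 : 0 < a := per_pos π i
  have hb0 : 0 < b := per_pos π j
  have hρi : ρ i = π j := by rw [hρ, Perm.mul_apply, swap_apply_left]
  have hρj : ρ j = π i := by rw [hρ, Perm.mul_apply, swap_apply_right]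
  have hρx : ∀ x, x ≠ i → x ≠ j → ρ x = π x := fun x h1 h2 => by
    rw [hρ, Perm.mul_apply, swap_apply_of_ne_of_ne h1 h2]
  have h1 : ∀ s, 0 < s → s ≤ a → (ρ : V → V)^[s] j = (π : V → V)^[s] i := by
    intro s hs0 hst
    induction s with
    | zero => omega
    | succ s ih =>
      rcases Nat.eq_zero_or_pos s with rfl | hs
      · simpa using hρj
      · rw [iterate_succ_apply', ih hs (by omega), iterate_succ_apply',
          hρx _ (iter_ne π i hs (by omega)) (hji s)]
  have h2 : ∀ s, 0 < s → s ≤ b → (ρ : V → V)^[s] i = (π : V → V)^[s] j := by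
    intro s hs0 hst
    induction s with
    | zero => omega
    | succ s ih =>
      rcases Nat.eq_zero_or_pos s with rfl | hs
      · simpa using hρi
      · rw [iterate_succ_apply', ih hs (by omega), iterate_succ_apply',
          hρx _ (hij s) (iter_ne π j hs (by omega))]
  have hi : (ρ : V → V)^[a] j = i := by rw [h1 a ha0 le_rfl]; exact iter_per π i
  have h3 : ∀ s, 0 < s → s ≤ b → (ρ : V → V)^[a + s] j = (π : V → V)^[s] j := by
    intro s hs0 hst
    rw [add_comm, iterate_add_apply, hi, h2 s hs0 hst]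
  have hper : per ρ j = a + b := by
    refine per_eq ρ j (by omega) ?_ ?_
    · rw [h3 b hb0 le_rfl]; exact iter_per π j
    · intro s hs0 hst
      rcases le_or_gt s a with h4 | h4
      · rw [h1 s hs0 h4]; exact hji s
      · obtain ⟨u, rfl⟩ : ∃ u, s = a + u := ⟨s - a, by omega⟩
        rw [h3 u (by omega) (by omega)]
        exact iter_ne π j (by omega) (by omega)
  refine ⟨?_, hper, h1, h3⟩
  have hsp := S_split G ρ i j a hi ha0 (by omega)
  have hback : ρ * swap i j = π := by
    rw [hρ, mul_assoc, swap_mul_self, mul_one]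
  rw [hback, hper, show a + b - a = b by omega] at hsp
  rw [hsp]
  ring

section Pairs

/-! ### Two fixed point free involutions `τ, p`; components are unions of two cycles of `τ p` -/

variable {τ p : Perm V}

/-- The permutation `τ p` for a pair of involutions. -/
lemma conj_iter (hτ : ∀ x, τ (τ x) = x) (hp : ∀ x, p (p x) = x) (x : V) (s : ℕ) :
    ((τ * p : Perm V) : V → V)^[s] (p (((τ * p : Perm V) : V → V)^[s] x)) = p x := by
  induction s generalizing x with
  | zero => rfl
  | succ s ih =>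
    rw [iterate_succ_apply' _ s x, iterate_succ_apply]
    have : (τ * p) (p ((τ * p) (((τ * p : Perm V) : V → V)^[s] x))) =
        p (((τ * p : Perm V) : V → V)^[s] x) := by
      simp only [Perm.mul_apply, hp, hτ]
    rw [this, ih]

lemma per_p (hτ : ∀ x, τ (τ x) = x) (hp : ∀ x, p (p x) = x) (x : V) :
    per (τ * p) (p x) = per (τ * p) x := by
  refine minimalPeriod_eq_minimalPeriod_iff.2 fun n => ?_
  unfold IsPeriodicPt IsFixedPt
  constructor
  · intro h
    have h1 := conj_iter hτ hp x n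
    have h2 : ((τ * p : Perm V) : V → V)^[n] (p (((τ * p : Perm V) : V → V)^[n] x)) =
      ((τ * p : Perm V) : V → V)^[n] (p x) := by rw [h1, h]
    have h3 := iter_inj' (τ * p) n h2
    exact p.injective h3
  · intro h
    have h1 := conj_iter hτ hp x n
    rwa [h] at h1

/-- `x` and `p x` are in different cycles of `τ p`. -/
lemma not_reach_p (hτ : ∀ x, τ (τ x) = x) (hp : ∀ x, p (p x) = x) (hτ0 : ∀ x, τ x ≠ x)
    (hp0 : ∀ x, p x ≠ x) (x : V) (s : ℕ) : ((τ * p : Perm V) : V → V)^[s] x ≠ p x := by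
  intro h
  obtain ⟨u, hu | hu⟩ : ∃ u, s = 2 * u ∨ s = 2 * u + 1 := ⟨s / 2, by omega⟩
  · -- `π^u (π^u x) = p x`, and `π^u p π^u x = p x`
    have h1 := conj_iter hτ hp x u
    rw [hu, two_mul, iterate_add_apply, ← h1] at h
    exact hp0 _ (iter_inj' (τ * p) u h).symm
  · have h1 := conj_iter hτ hp x u
    rw [hu, two_mul, add_assoc, iterate_add_apply, ← h1] at h
    have h2 := iter_inj' (τ * p) u h
    rw [iterate_succ_apply', Perm.mul_apply] at h2
    exact hτ0 _ h2

/-- The effect on `τ p` of conjugating `p` by a transposition. -/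
lemma conj_swap (hp : ∀ x, p (p x) = x) (i j : V) :
    τ * (swap i j * p * swap i j) = τ * p * swap (p i) (p j) * swap i j := by
  have hpp : p * p = 1 := by ext x; simp [hp]
  have hpi : p⁻¹ = p := inv_eq_of_mul_eq_one_left hpp
  have h1 : swap (p i) (p j) = p * swap i j * p := by
    rw [Equiv.swap_apply_apply, hpi]
  have h2 : p * swap (p i) (p j) = swap i j * p := by
    rw [h1, ← mul_assoc, ← mul_assoc, hpp, one_mul]
  rw [← h2]
  simp only [mul_assoc]

theorem pair_split (G : ℕ → ℝ) (hτ : ∀ x, τ (τ x) = x) (hp : ∀ x, p (p x) = x)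
    (hτ0 : ∀ x, τ x ≠ x) (hp0 : ∀ x, p x ≠ x) (i j : V) (t : ℕ)
    (hij : ((τ * p : Perm V) : V → V)^[t] j = i) (ht0 : 0 < t) (htr : t < per (τ * p) j) :
    S G (τ * (swap i j * p * swap i j)) = S G (τ * p) - 2 * (per (τ * p) j * G (per (τ * p) j))
      + 2 * (t * G t) + 2 * (((per (τ * p) j - t : ℕ) : ℝ) * G (per (τ * p) j - t)) := by
  rw [conj_swap hp]
  set π := τ * p with hπ
  set r := per π j with hr
  have hri : per π i = r := by rw [← hij, per_iter]
  have hpij : (π : V → V)^[t] (p i) = p j := by rw [← hij]; exact conj_iter hτ hp j t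
  have h1 := S_split G π (p j) (p i) t hpij ht0 (by rw [per_p hτ hp, hri]; exact htr)
  rw [per_p hτ hp, hri, Equiv.swap_comm] at h1
  set ρ := π * swap (p i) (p j) with hρ
  have ha : ∀ s, (π : V → V)^[s] j ≠ p i := by
    intro s hs
    obtain ⟨u, hu⟩ := reach_symm π hij
    refine not_reach_p hτ hp hτ0 hp0 i (s + u) ?_
    rw [iterate_add_apply, hu, hs]
  have hb : ∀ s, (π : V → V)^[s] j ≠ p j := not_reach_p hτ hp hτ0 hp0 j
  have h2 := S_split G ρ i j t (by rw [hρ, iter_mul_swap_of_avoid π ha hb, hij]) ht0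
    (by rw [hρ, per_mul_swap_of_avoid π ha hb]; exact htr)
  rw [hρ, per_mul_swap_of_avoid π ha hb, ← hρ, ← hr] at h2
  rw [h2, h1]
  ring

theorem pair_join (G : ℕ → ℝ) (hτ : ∀ x, τ (τ x) = x) (hp : ∀ x, p (p x) = x)
    (hτ0 : ∀ x, τ x ≠ x) (hp0 : ∀ x, p x ≠ x) (i j : V)
    (hij : ∀ s, ((τ * p : Perm V) : V → V)^[s] j ≠ i)
    (hij' : ∀ s, ((τ * p : Perm V) : V → V)^[s] j ≠ p i) :
    S G (τ * (swap i j * p * swap i j)) = S G (τ * p) - 2 * (per (τ * p) i * G (per (τ * p) i))
      - 2 * (per (τ * p) j * G (per (τ * p) j))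
      + 2 * (((per (τ * p) i + per (τ * p) j : ℕ) : ℝ) *
        G (per (τ * p) i + per (τ * p) j)) := by
  rw [conj_swap hp]
  set π := τ * p with hπ
  have h0 : ∀ s, (π : V → V)^[s] (p j) ≠ p i := by
    intro s hs
    have h1 := conj_iter hτ hp (p j) s
    rw [← hπ, hs, hp, hp] at h1
    obtain ⟨u, hu⟩ := reach_symm π h1
    exact hij u hu
  obtain ⟨h1, -, -, -⟩ := S_join G π (p i) (p j) h0
  rw [per_p hτ hp, per_p hτ hp] at h1
  set ρ := π * swap (p i) (p j) with hρ
  have hb : ∀ s, (π : V → V)^[s] j ≠ p j := not_reach_p hτ hp hτ0 hp0 j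
  have hc : ∀ s, (π : V → V)^[s] i ≠ p i := not_reach_p hτ hp hτ0 hp0 i
  have hd : ∀ s, (π : V → V)^[s] i ≠ p j := by
    intro s hs
    have h1 := conj_iter hτ hp i s
    rw [← hπ, hs, hp] at h1
    exact hij' s h1
  have hj : per ρ j = per π j := by rw [hρ, per_mul_swap_of_avoid π hij' hb]
  have hi : per ρ i = per π i := by rw [hρ, per_mul_swap_of_avoid π hc hd]
  obtain ⟨h2, -, -, -⟩ := S_join G ρ i j (by
    intro s
    rw [hρ, iter_mul_swap_of_avoid π hij' hb]
    exact hij s)
  rw [h2, h1, hi, hj]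
  ring

theorem pair_twist (G : ℕ → ℝ) (hτ : ∀ x, τ (τ x) = x) (hp : ∀ x, p (p x) = x)
    (hτ0 : ∀ x, τ x ≠ x) (hp0 : ∀ x, p x ≠ x) (i j : V) (t : ℕ)
    (hij : p (((τ * p : Perm V) : V → V)^[t] j) = i) (htr : t < per (τ * p) j) :
    S G (τ * (swap i j * p * swap i j)) = S G (τ * p) := by
  rw [conj_swap hp]
  set π := τ * p with hπ
  set r := per π j with hr
  have hr0 : 0 < r := per_pos π j
  have hpi : p i = (π : V → V)^[t] j := by rw [← hij, hp]
  have hri : per π i = r := by rw [← hij, per_p hτ hp, per_iter]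
  rcases Nat.eq_zero_or_pos t with rfl | ht0
  · rw [iterate_zero_apply] at hpi hij
    rw [hpi, hij, Equiv.swap_comm, mul_assoc, swap_mul_self, mul_one]
  have h0 : ∀ s, (π : V → V)^[s] (p j) ≠ p i := by
    intro s hs
    obtain ⟨u, hu⟩ := reach_symm π hs
    refine not_reach_p hτ hp hτ0 hp0 j (u + t) ?_
    rw [← hπ, iterate_add_apply, ← hpi, hu]
  obtain ⟨h1, h2, h3, h4⟩ := S_join G π (p i) (p j) h0
  have e1 : per π (p i) = r := by rw [per_p hτ hp, hri]
  have e2 : per π (p j) = r := by rw [per_p hτ hp]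
  rw [e1, e2] at h1 h2
  rw [e1] at h3
  rw [e1, e2] at h4
  set ρ := π * swap (p i) (p j) with hρ
  have hj : (ρ : V → V)^[r - t] (p j) = j := by
    rw [h3 (r - t) (by omega) (by omega), hpi, ← iterate_add_apply,
      show r - t + t = r by omega]
    exact iter_per π j
  have hti : (π : V → V)^[t] i = p j := by
    have := conj_iter hτ hp j t
    rw [← hπ, hij] at this
    exact this
  have hi : (ρ : V → V)^[r + (r - t)] (p j) = i := by
    rw [h4 (r - t) (by omega) (by omega), ← hti, ← iterate_add_apply,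
      show r - t + t = r by omega, ← hri]
    exact iter_per π i
  have hij2 : (ρ : V → V)^[r] j = i := by
    rw [← hi, iterate_add_apply, hj]
  have hperj : per ρ j = r + r := by rw [← h2, ← per_iter ρ (p j) (r - t), hj]
  have h5 := S_split G ρ i j r hij2 hr0 (by omega)
  rw [hperj, show r + r - r = r by omega] at h5
  rw [h5, h1]
  ring

end Pairs

end Pool.Agent.Helper71.Wg
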