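import Mathlib
import Pool.Agent.Helper71.WgPerm
import Pool.Agent.Helper71.WgCat

/-!
# Solving the Jucys-Murphy recursion to subleading order
-/

set_option linter.unusedSectionVars false

open Function Finset Equiv

namespace Pool.Agent.Helper71.Wg

/-- The fixed point free involution `(0 1)(2 3)...(2n-2 2n-1)`. -/
def tau (n : ℕ) : Perm (Fin (2 * n)) where
  toFun x := ⟨if x.val % 2 = 0 then x.val + 1 else x.val - 1, by
    have := x.2; split_ifs <;> omega⟩
  invFun x := ⟨if x.val % 2 = 0 then x.val + 1 else x.val - 1, by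
    have := x.2; split_ifs <;> omega⟩
  left_inv x := by
    ext
    simp only
    split_ifs <;> omega
  right_inv x := by
    ext
    simp only
    split_ifs <;> omega

variable {n : ℕ}

lemma tau_val (x : Fin (2 * n)) :
    (tau n x).val = if x.val % 2 = 0 then x.val + 1 else x.val - 1 := rfl

lemma tau_tau (x : Fin (2 * n)) : tau n (tau n x) = x := (tau n).left_inv x

lemma tau_ne (x : Fin (2 * n)) : tau n x ≠ x := by
  intro h
  have := congrArg Fin.val h
  rw [tau_val] at this
  split_ifs at this <;> omega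

/-- The pairing of `σ`: the involution `σ τ σ⁻¹`. -/
def pr (σ : Perm (Fin (2 * n))) : Perm (Fin (2 * n)) := σ * tau n * σ⁻¹

lemma pr_apply (σ : Perm (Fin (2 * n))) (x : Fin (2 * n)) : pr σ x = σ (tau n (σ⁻¹ x)) := rfl

lemma pr_pr (σ : Perm (Fin (2 * n))) (x : Fin (2 * n)) : pr σ (pr σ x) = x := by
  simp [pr_apply, tau_tau]

lemma pr_ne (σ : Perm (Fin (2 * n))) (x : Fin (2 * n)) : pr σ x ≠ x := by
  intro h
  rw [pr_apply] at h
  have h2 : tau n (σ⁻¹ x) = σ⁻¹ x := by
    apply σ.injective
    rw [h]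
    simp
  exact tau_ne _ h2

lemma pr_swap (σ : Perm (Fin (2 * n))) (i j : Fin (2 * n)) :
    pr (swap i j * σ) = swap i j * pr σ * swap i j := by
  unfold pr
  rw [mul_inv_rev, swap_inv]
  simp only [mul_assoc]

noncomputable def ell (σ : Perm (Fin (2 * n))) : ℝ := S (fun r => 1 / (2 * r)) (tau n * pr σ)

noncomputable def LL (σ : Perm (Fin (2 * n))) : ℝ :=
  S (fun r => Real.log (al r) / (2 * r)) (tau n * pr σ)

noncomputable def BB (σ : Perm (Fin (2 * n))) : ℝ :=
  S (fun r => (be r / al r) / (2 * r)) (tau n * pr σ)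

/-- All pairs of the pairing of `σ` outside `[0, 2m)` are standard. -/
def Good (m : ℕ) (σ : Perm (Fin (2 * n))) : Prop := ∀ x : Fin (2 * n), 2 * m ≤ x.val →
  pr σ x = tau n x

lemma split_aux (g : ℕ → ℝ) (σ : Perm (Fin (2 * n))) (i j : Fin (2 * n)) (t : ℕ)
    (hij : ((tau n * pr σ : Perm (Fin (2 * n))) : Fin (2 * n) → Fin (2 * n))^[t] j = i)
    (ht0 : 0 < t) (htr : t < per (tau n * pr σ) j) :
    S (fun r => g r / (2 * r)) (tau n * pr (swap i j * σ)) =
      S (fun r => g r / (2 * r)) (tau n * pr σ) - g (per (tau n * pr σ) j) + g t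
        + g (per (tau n * pr σ) j - t) := by
  rw [pr_swap, pair_split _ tau_tau (pr_pr σ) tau_ne (pr_ne σ) i j t hij ht0 htr]
  have h1 : ((per (tau n * pr σ) j : ℕ) : ℝ) ≠ 0 := by
    have := per_pos (tau n * pr σ) j
    positivity
  have h2 : (t : ℝ) ≠ 0 := by positivity
  have h3 : ((per (tau n * pr σ) j - t : ℕ) : ℝ) ≠ 0 := by
    have : 0 < per (tau n * pr σ) j - t := by omega
    positivity
  field_simp

lemma twist_aux (G : ℕ → ℝ) (σ : Perm (Fin (2 * n))) (i j : Fin (2 * n)) (t : ℕ)
    (hij : pr σ (((tau n * pr σ : Perm (Fin (2 * n))) : Fin (2 * n) → Fin (2 * n))^[t] j) = i)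
    (htr : t < per (tau n * pr σ) j) :
    S G (tau n * pr (swap i j * σ)) = S G (tau n * pr σ) := by
  rw [pr_swap, pair_twist _ tau_tau (pr_pr σ) tau_ne (pr_ne σ) i j t hij htr]

lemma join_aux (σ : Perm (Fin (2 * n))) (i j : Fin (2 * n))
    (hij : ∀ s, ((tau n * pr σ : Perm (Fin (2 * n))) : Fin (2 * n) → Fin (2 * n))^[s] j ≠ i)
    (hij' : ∀ s, ((tau n * pr σ : Perm (Fin (2 * n))) : Fin (2 * n) → Fin (2 * n))^[s] j ≠
      pr σ i) :
    ell (swap i j * σ) = ell σ - 1 := by
  unfold ell
  rw [pr_swap, pair_join _ tau_tau (pr_pr σ) tau_ne (pr_ne σ) i j hij hij']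
  have h1 : ((per (tau n * pr σ) j : ℕ) : ℝ) ≠ 0 := by
    have := per_pos (tau n * pr σ) j
    positivity
  have h2 : ((per (tau n * pr σ) i : ℕ) : ℝ) ≠ 0 := by
    have := per_pos (tau n * pr σ) i
    positivity
  have h3 : ((per (tau n * pr σ) i + per (tau n * pr σ) j : ℕ) : ℝ) ≠ 0 := by
    have := per_pos (tau n * pr σ) i
    positivity
  field_simp
  ring

lemma good_swap {m : ℕ} (σ : Perm (Fin (2 * n))) (i j : Fin (2 * n)) (hi : i.val < 2 * m)
    (hj : j.val < 2 * m) : Good m (swap i j * σ) ↔ Good m σ := by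
  have key : ∀ σ : Perm (Fin (2 * n)), Good m σ → Good m (swap i j * σ) := by
    intro σ h x hx
    have hx1 : x ≠ i := fun h => by rw [h] at hx; omega
    have hx2 : x ≠ j := fun h => by rw [h] at hx; omega
    have ht : 2 * m ≤ (tau n x).val := by rw [tau_val]; split_ifs <;> omega
    have hy1 : tau n x ≠ i := fun h => by rw [h] at ht; omega
    have hy2 : tau n x ≠ j := fun h => by rw [h] at ht; omega
    rw [pr_swap, Perm.mul_apply, Perm.mul_apply, swap_apply_of_ne_of_ne hx1 hx2, h x hx,
      swap_apply_of_ne_of_ne hy1 hy2]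
  refine ⟨fun h => ?_, key σ⟩
  have := key _ h
  rwa [← mul_assoc, swap_mul_self, one_mul] at this

lemma per_one_iff (σ : Perm (Fin (2 * n))) (x : Fin (2 * n)) :
    per (tau n * pr σ) x = 1 ↔ pr σ x = tau n x := by
  unfold per
  rw [minimalPeriod_eq_one_iff_isFixedPt]
  unfold IsFixedPt
  rw [Perm.mul_apply]
  constructor
  · intro h
    rw [← tau_tau (pr σ x), h]
  · intro h
    rw [h, tau_tau]

lemma ell_le (σ : Perm (Fin (2 * n))) : ell σ ≤ n ∧ (ell σ = n → ∀ x, pr σ x = tau n x) := by
  have h1 : ∀ x : Fin (2 * n), (1 : ℝ) / (2 * (per (tau n * pr σ) x : ℕ)) ≤ 1 / 2 := by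
    intro x
    have := per_pos (tau n * pr σ) x
    have h2 : (1 : ℝ) ≤ (per (tau n * pr σ) x : ℕ) := by exact_mod_cast this
    rw [div_le_div_iff₀ (by positivity) (by norm_num)]
    linarith
  have hsum : ∑ _x : Fin (2 * n), (1 / 2 : ℝ) = n := by
    simp
    ring
  constructor
  · unfold ell S
    rw [← hsum]
    exact Finset.sum_le_sum fun x _ => h1 x
  · intro h x
    rw [← per_one_iff]
    unfold ell S at h
    rw [← hsum] at h
    have h2 := (Finset.sum_eq_sum_iff_of_le (fun x _ => h1 x)).1 h x (Finset.mem_univ x)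
    have h3 := per_pos (tau n * pr σ) x
    have h4 : (0 : ℝ) < (per (tau n * pr σ) x : ℕ) := by exact_mod_cast h3
    rw [div_eq_div_iff (by positivity) (by norm_num)] at h2
    have h5 : ((per (tau n * pr σ) x : ℕ) : ℝ) = 1 := by linarith
    exact_mod_cast h5

lemma of_std (σ : Perm (Fin (2 * n))) (h : ∀ x, pr σ x = tau n x) :
    ell σ = n ∧ LL σ = 0 ∧ BB σ = 0 := by
  have h1 : ∀ x, per (tau n * pr σ) x = 1 := fun x => (per_one_iff σ x).2 (h x)
  unfold ell LL BB S
  simp only [h1, al_one, be_one]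
  refine ⟨?_, by simp, by simp⟩
  simp
  ring

lemma mem_H_iff (σ : Perm (Fin (2 * n))) :
    σ ∈ Subgroup.centralizer {tau n} ↔ ∀ x, pr σ x = tau n x := by
  rw [Subgroup.mem_centralizer_singleton_iff]
  constructor
  · intro h x
    have : pr σ = tau n := by
      unfold pr
      rw [h]
      group
    rw [this]
  · intro h
    have : pr σ = tau n := Equiv.ext h
    unfold pr at this
    exact mul_inv_eq_iff_eq_mul.1 this

/-- The abstract recursion satisfied by the coefficients. -/
structure IsRec (n : ℕ) (c : ℕ → ℕ → Perm (Fin (2 * n)) → ℂ) : Prop where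
  zero_of_mem : ∀ m σ, σ ∈ Subgroup.centralizer {tau n} → c 0 m σ = 1
  zero_of_notMem : ∀ m σ, σ ∉ Subgroup.centralizer {tau n} → c 0 m σ = 0
  succ_zero : ∀ k σ, c (k + 1) 0 σ = 0
  succ_succ : ∀ k m (h : m < n) σ, c (k + 1) (m + 1) σ = c (k + 1) m σ +
    ∑ i ∈ Finset.univ.filter (fun i : Fin (2 * n) => i.val < 2 * m),
      c k (m + 1) (swap i ⟨2 * m, by omega⟩ * σ)

def Claim (c : ℕ → ℕ → Perm (Fin (2 * n)) → ℂ) (k m : ℕ) : Prop :=
  ∀ σ : Perm (Fin (2 * n)), (¬ Good m σ → c k m σ = 0) ∧
    (((k : ℝ) < n - ell σ → c k m σ = 0) ∧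
    (Good m σ → (k : ℝ) = n - ell σ → c k m σ = ((Real.exp (LL σ) : ℝ) : ℂ)) ∧
    (Good m σ → (k : ℝ) = n - ell σ + 1 → c k m σ = ((Real.exp (LL σ) * BB σ : ℝ) : ℂ)))

lemma claim_zero {c : ℕ → ℕ → Perm (Fin (2 * n)) → ℂ} (hc : IsRec n c) (m : ℕ) :
    Claim c 0 m := by
  intro σ
  have hle := ell_le σ
  refine ⟨?_, ?_, ?_, ?_⟩
  · intro h
    refine hc.zero_of_notMem m σ fun hmem => h ?_
    exact fun x _ => (mem_H_iff σ).1 hmem x
  · intro h
    refine hc.zero_of_notMem m σ fun hmem => ?_
    have := (of_std σ ((mem_H_iff σ).1 hmem)).1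
    rw [this] at h
    simp at h
  · intro _ h
    have hstd := hle.2 (by push_cast at h; linarith)
    rw [hc.zero_of_mem m σ ((mem_H_iff σ).2 hstd), (of_std σ hstd).2.1]
    simp
  · intro _ h
    push_cast at h
    linarith [hle.1]

lemma claim_succ_zero {c : ℕ → ℕ → Perm (Fin (2 * n)) → ℂ} (hc : IsRec n c) (k : ℕ) :
    Claim c (k + 1) 0 := by
  intro σ
  refine ⟨fun _ => hc.succ_zero k σ, fun _ => hc.succ_zero k σ, ?_, ?_⟩
  · intro hg h
    have hstd : ∀ x, pr σ x = tau n x := fun x => hg x (by omega)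
    rw [(of_std σ hstd).1] at h
    push_cast at h
    have : (0 : ℝ) ≤ k := Nat.cast_nonneg k
    linarith
  · intro hg h
    have hstd : ∀ x, pr σ x = tau n x := fun x => hg x (by omega)
    rw [hc.succ_zero k σ, (of_std σ hstd).2.2]
    simp

lemma claim_step {c : ℕ → ℕ → Perm (Fin (2 * n)) → ℂ} (hc : IsRec n c) (k m : ℕ) (hm : m < n)
    (ih1 : Claim c (k + 1) m) (ih2 : Claim c k (m + 1)) : Claim c (k + 1) (m + 1) := by
  intro σ
  set j : Fin (2 * n) := ⟨2 * m, by omega⟩ with hj
  have hjval : j.val = 2 * m := rfl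
  have hrec := hc.succ_succ k m hm σ
  rw [← hj] at hrec
  by_cases hgood : Good (m + 1) σ
  swap
  · -- everything vanishes
    have hz : c (k + 1) (m + 1) σ = 0 := by
      rw [hrec, (ih1 σ).1 (fun h => hgood fun x hx => h x (by omega)), zero_add]
      refine Finset.sum_eq_zero fun i hi => ?_
      simp only [Finset.mem_filter, Finset.mem_univ, true_and] at hi
      refine (ih2 _).1 fun h => hgood ?_
      exact (good_swap σ i j (by omega) (by omega)).1 h
    exact ⟨fun _ => hz, fun _ => hz, fun h => absurd h hgood, fun h => absurd h hgood⟩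
  have hgood' : ∀ i : Fin (2 * n), i.val < 2 * m → Good (m + 1) (swap i j * σ) := fun i hi =>
    (good_swap σ i j (by omega) (by omega)).2 hgood
  set p := pr σ with hp
  set π := tau n * p with hπ
  have hπx : ∀ x, π x = tau n (p x) := fun x => rfl
  set r := per π j with hr
  have hr0 : 0 < r := per_pos π j
  have hjr : (π : Fin (2 * n) → Fin (2 * n))^[r] j = j := iter_per π j
  -- `τ j = p (π^[r-1] j)`
  have htj : p ((π : Fin (2 * n) → Fin (2 * n))^[r - 1] j) = tau n j := by
    have h1 : π ((π : Fin (2 * n) → Fin (2 * n))^[r - 1] j) = j := by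
      rw [← iterate_succ_apply' (⇑π), show (r - 1).succ = r by omega, hjr]
    rw [hπx] at h1
    rw [← h1, tau_tau, h1]
  have hnr : ∀ x s, (π : Fin (2 * n) → Fin (2 * n))^[s] x ≠ p x := fun x s =>
    not_reach_p tau_tau (pr_pr σ) tau_ne (pr_ne σ) x s
  -- even and odd elements of the component are distinct
  have heo : ∀ s u, (π : Fin (2 * n) → Fin (2 * n))^[s] j ≠
      p ((π : Fin (2 * n) → Fin (2 * n))^[u] j) := by
    intro s u h
    obtain ⟨v, hv⟩ := reach_symm π (rfl : (π : Fin (2 * n) → Fin (2 * n))^[u] j = _)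
    refine hnr ((π : Fin (2 * n) → Fin (2 * n))^[u] j) (s + v) ?_
    rw [iterate_add_apply, hv, h]
  have htjval : (tau n j).val = 2 * m + 1 := by
    rw [tau_val, hjval, if_pos (by omega)]
  -- membership of the joins
  have hjoin : ∀ i : Fin (2 * n),
      (∀ s, (π : Fin (2 * n) → Fin (2 * n))^[s] j ≠ i) →
      (∀ s, (π : Fin (2 * n) → Fin (2 * n))^[s] j ≠ p i) →
      (k : ℝ) < n - ell σ + 1 → c k (m + 1) (swap i j * σ) = 0 := by
    intro i h1 h2 h3
    refine (ih2 _).2.1 ?_
    rw [join_aux σ i j h1 h2]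
    linarith
  by_cases hpj : p j = tau n j
  · -- the pair of `j` is standard
    have hgm : Good m σ := by
      intro x hx
      rcases Nat.lt_or_ge x.val (2 * (m + 1)) with h1 | h1
      · have h2 : x.val = 2 * m ∨ x.val = 2 * m + 1 := by omega
        rcases h2 with h2 | h2
        · have : x = j := Fin.ext (by rw [h2])
          rw [this]; exact hpj
        · have : x = tau n j := Fin.ext (by rw [h2, htjval])
          rw [this, tau_tau, ← hpj]; exact pr_pr σ j
      · exact hgood x h1
    have hfix : ∀ s, (π : Fin (2 * n) → Fin (2 * n))^[s] j = j := by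
      intro s
      induction s with
      | zero => rfl
      | succ s ih => rw [iterate_succ_apply', ih, hπx, hpj, tau_tau]
    have hsum : (k : ℝ) < n - ell σ + 1 → ∑ i ∈ Finset.univ.filter
        (fun i : Fin (2 * n) => i.val < 2 * m), c k (m + 1) (swap i j * σ) = 0 := by
      intro h
      refine Finset.sum_eq_zero fun i hi => ?_
      simp only [Finset.mem_filter, Finset.mem_univ, true_and] at hi
      refine hjoin i (fun s h1 => ?_) (fun s h1 => ?_) h
      · rw [hfix] at h1
        rw [← h1, hjval] at hi; omega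
      · rw [hfix] at h1
        have : i = p j := by rw [h1]; exact (pr_pr σ i).symm
        rw [this, hpj, htjval] at hi; omega
    refine ⟨fun h => absurd hgood h, fun h => ?_, fun _ h => ?_, fun _ h => ?_⟩
    · rw [hrec, (ih1 σ).2.1 h, hsum (by push_cast at h; linarith), add_zero]
    · rw [hrec, (ih1 σ).2.2.1 hgm h, hsum (by push_cast at h; linarith), add_zero]
    · rw [hrec, (ih1 σ).2.2.2 hgm h, hsum (by push_cast at h; linarith), add_zero]
  -- the component of `j` has size at least 4
  have hr2 : 2 ≤ r := by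
    by_contra h
    have : r = 1 := by omega
    exact hpj ((per_one_iff σ j).1 this)
  have hngm : ¬ Good m σ := fun h => hpj (h j (by omega))
  rw [(ih1 σ).1 hngm, zero_add] at hrec
  -- closure of `[0, 2m+2)`
  have hclτ : ∀ x : Fin (2 * n), x.val < 2 * (m + 1) → (tau n x).val < 2 * (m + 1) := by
    intro x hx; rw [tau_val]; split_ifs <;> omega
  have hclp : ∀ x : Fin (2 * n), x.val < 2 * (m + 1) → (p x).val < 2 * (m + 1) := by
    intro x hx
    by_contra h
    push Not at h
    have h1 := hgood _ h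
    rw [pr_pr] at h1
    have h2 : (tau n (p x)).val < 2 * (m + 1) := by rw [← h1]; exact hx
    rw [tau_val] at h2
    split_ifs at h2 <;> omega
  have hclπ : ∀ s, ((π : Fin (2 * n) → Fin (2 * n))^[s] j).val < 2 * (m + 1) := by
    intro s
    induction s with
    | zero => rw [iterate_zero_apply, hjval]; omega
    | succ s ih => rw [iterate_succ_apply', hπx]; exact hclτ _ (hclp _ ih)
  set I : Finset (Fin (2 * n)) := Finset.univ.filter (fun i : Fin (2 * n) => i.val < 2 * m)
    with hI
  have hmemI : ∀ x : Fin (2 * n), x.val < 2 * (m + 1) → x ≠ j → x ≠ tau n j → x ∈ I := by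
    intro x hx h1 h2
    rw [hI, Finset.mem_filter]
    refine ⟨Finset.mem_univ _, ?_⟩
    by_contra h3
    have h4 : x.val = 2 * m ∨ x.val = 2 * m + 1 := by omega
    rcases h4 with h4 | h4
    · exact h1 (Fin.ext (by rw [h4]))
    · exact h2 (Fin.ext (by rw [h4, htjval]))
  set E : Finset (Fin (2 * n)) :=
    (Finset.Ioo 0 r).image (fun t => (π : Fin (2 * n) → Fin (2 * n))^[t] j) with hE
  set O : Finset (Fin (2 * n)) :=
    (Finset.range (r - 1)).image (fun t => p ((π : Fin (2 * n) → Fin (2 * n))^[t] j)) with hO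
  have hEI : E ⊆ I := by
    intro x hx
    obtain ⟨t, ht, rfl⟩ := Finset.mem_image.1 hx
    rw [Finset.mem_Ioo] at ht
    refine hmemI _ (hclπ t) (iter_ne π j ht.1 ht.2) ?_
    rw [← htj]
    exact heo t _
  have hOI : O ⊆ I := by
    intro x hx
    obtain ⟨t, ht, rfl⟩ := Finset.mem_image.1 hx
    rw [Finset.mem_range] at ht
    refine hmemI _ (hclp _ (hclπ t)) ?_ ?_
    · intro h
      exact heo 0 t h.symm
    · rw [← htj]
      intro h
      have := iter_inj π j (by omega) (by omega) (p.injective h)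
      omega
  have hEO : Disjoint E O := by
    rw [Finset.disjoint_left]
    intro x hx hy
    obtain ⟨t, _, rfl⟩ := Finset.mem_image.1 hx
    obtain ⟨u, _, hu⟩ := Finset.mem_image.1 hy
    exact heo t u hu.symm
  have hsumI : ∀ f : Fin (2 * n) → ℂ, ∑ i ∈ I, f i =
      ∑ t ∈ Finset.Ioo 0 r, f ((π : Fin (2 * n) → Fin (2 * n))^[t] j) +
      ∑ t ∈ Finset.range (r - 1), f (p ((π : Fin (2 * n) → Fin (2 * n))^[t] j)) +
      ∑ i ∈ I \ (E ∪ O), f i := by
    intro f
    rw [← Finset.sum_sdiff (Finset.union_subset hEI hOI), Finset.sum_union hEO, add_comm]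
    congr 2
    · rw [hE, Finset.sum_image]
      intro a ha b hb hab
      simp only [Finset.coe_Ioo, Set.mem_Ioo] at ha hb
      exact iter_inj π j ha.2 hb.2 hab
    · rw [hO, Finset.sum_image]
      intro a ha b hb hab
      simp only [Finset.coe_range, Set.mem_Iio] at ha hb
      exact iter_inj π j (by omega) (by omega) (p.injective hab)
  have hrest : (k : ℝ) < n - ell σ + 1 →
      ∑ i ∈ I \ (E ∪ O), c k (m + 1) (swap i j * σ) = 0 := by
    intro h
    refine Finset.sum_eq_zero fun i hi => ?_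
    rw [Finset.mem_sdiff, Finset.mem_union, not_or] at hi
    obtain ⟨hiI, hiE, hiO⟩ := hi
    have hiv : i.val < 2 * m := by simpa [hI] using hiI
    refine hjoin i (fun s h1 => ?_) (fun s h1 => ?_) h
    · obtain ⟨u, hu, hu2⟩ := reach_lt π h1
      rcases Nat.eq_zero_or_pos u with rfl | hu0
      · rw [iterate_zero_apply] at hu2
        rw [← hu2, hjval] at hiv; omega
      · exact hiE (Finset.mem_image.2 ⟨u, by rw [Finset.mem_Ioo]; exact ⟨hu0, hu⟩, hu2⟩)
    · obtain ⟨u, hu, hu2⟩ := reach_lt π h1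
      have hiu : i = p ((π : Fin (2 * n) → Fin (2 * n))^[u] j) := by
        rw [hu2]; exact (pr_pr σ i).symm
      rcases Nat.lt_or_ge u (r - 1) with hu3 | hu3
      · exact hiO (Finset.mem_image.2 ⟨u, Finset.mem_range.2 hu3, hiu.symm⟩)
      · have : u = r - 1 := by omega
        rw [this, htj] at hiu
        rw [hiu, htjval] at hiv; omega
  have hsplitell : ∀ t ∈ Finset.Ioo 0 r,
      ell (swap ((π : Fin (2 * n) → Fin (2 * n))^[t] j) j * σ) = ell σ + 1 := by
    intro t ht
    rw [Finset.mem_Ioo] at ht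
    have := split_aux (fun _ => 1) σ _ j t rfl ht.1 ht.2
    unfold ell
    rw [this]
    ring
  have hsplitLL : ∀ t ∈ Finset.Ioo 0 r,
      LL (swap ((π : Fin (2 * n) → Fin (2 * n))^[t] j) j * σ) =
        LL σ - Real.log (al r) + Real.log (al t) + Real.log (al (r - t)) := by
    intro t ht
    rw [Finset.mem_Ioo] at ht
    exact split_aux (fun r => Real.log (al r)) σ _ j t rfl ht.1 ht.2
  have hsplitBB : ∀ t ∈ Finset.Ioo 0 r,
      BB (swap ((π : Fin (2 * n) → Fin (2 * n))^[t] j) j * σ) =
        BB σ - be r / al r + be t / al t + be (r - t) / al (r - t) := by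
    intro t ht
    rw [Finset.mem_Ioo] at ht
    exact split_aux (fun r => be r / al r) σ _ j t rfl ht.1 ht.2
  have htw : ∀ t ∈ Finset.range (r - 1),
      ell (swap (p ((π : Fin (2 * n) → Fin (2 * n))^[t] j)) j * σ) = ell σ ∧
      LL (swap (p ((π : Fin (2 * n) → Fin (2 * n))^[t] j)) j * σ) = LL σ := by
    intro t ht
    rw [Finset.mem_range] at ht
    have htr : t < r := by omega
    exact ⟨twist_aux _ σ _ j t rfl htr, twist_aux _ σ _ j t rfl htr⟩
  have hEmem : ∀ t ∈ Finset.Ioo 0 r,
      Good (m + 1) (swap ((π : Fin (2 * n) → Fin (2 * n))^[t] j) j * σ) := by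
    intro t ht
    have := hEI (Finset.mem_image_of_mem _ ht)
    exact hgood' _ (by simpa [hI] using this)
  have hOmem : ∀ t ∈ Finset.range (r - 1),
      Good (m + 1) (swap (p ((π : Fin (2 * n) → Fin (2 * n))^[t] j)) j * σ) := by
    intro t ht
    have := hOI (Finset.mem_image_of_mem _ ht)
    exact hgood' _ (by simpa [hI] using this)
  have hexp : ∀ t, Real.exp (LL σ - Real.log (al r) + Real.log (al t) + Real.log (al (r - t))) =
      Real.exp (LL σ) * (al t * al (r - t) / al r) := by
    intro t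
    rw [Real.exp_add, Real.exp_add, Real.exp_sub, Real.exp_log (al_pos _),
      Real.exp_log (al_pos _), Real.exp_log (al_pos _)]
    ring
  have har : al r ≠ 0 := (al_pos r).ne'
  refine ⟨fun h => absurd hgood h, fun h => ?_, fun _ h => ?_, fun _ h => ?_⟩
  · push_cast at h
    rw [hrec, hsumI, hrest (by linarith)]
    rw [Finset.sum_eq_zero (s := Finset.Ioo 0 r) (fun t ht => (ih2 _).2.1 (by
      rw [hsplitell t ht]; linarith))]
    rw [Finset.sum_eq_zero (s := Finset.range (r - 1)) (fun t ht => (ih2 _).2.1 (by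
      rw [(htw t ht).1]; linarith))]
    simp
  · push_cast at h
    rw [hrec, hsumI, hrest (by linarith)]
    rw [Finset.sum_congr (s₁ := Finset.Ioo 0 r) rfl (fun t ht => (ih2 _).2.2.1 (hEmem t ht) (by
      rw [hsplitell t ht]; linarith))]
    rw [Finset.sum_eq_zero (s := Finset.range (r - 1)) (fun t ht => (ih2 _).2.1 (by
      rw [(htw t ht).1]; linarith))]
    rw [add_zero, add_zero, ← Complex.ofReal_sum]
    congr 1
    rw [Finset.sum_congr rfl (fun t ht => by rw [hsplitLL t ht, hexp t])]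
    rw [← Finset.mul_sum, ← Finset.sum_div, al_conv hr2, div_self har, mul_one]
  · push_cast at h
    rw [hrec, hsumI, hrest (by linarith)]
    rw [Finset.sum_congr (s₁ := Finset.Ioo 0 r) rfl (fun t ht => (ih2 _).2.2.2 (hEmem t ht) (by
      rw [hsplitell t ht]; linarith))]
    rw [Finset.sum_congr (s₁ := Finset.range (r - 1)) rfl
      (fun t ht => (ih2 _).2.2.1 (hOmem t ht) (by rw [(htw t ht).1]; linarith))]
    rw [add_zero, ← Complex.ofReal_sum, ← Complex.ofReal_sum, ← Complex.ofReal_add]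
    congr 1
    rw [Finset.sum_congr rfl (fun t ht => by rw [hsplitLL t ht, hexp t, hsplitBB t ht])]
    rw [Finset.sum_congr (s₁ := Finset.range (r - 1)) rfl (fun t ht => by rw [(htw t ht).2])]
    rw [Finset.sum_const, Finset.card_range, nsmul_eq_mul, Nat.cast_sub (by omega : 1 ≤ r)]
    have hbe := be_conv hr2
    have h1 : ∀ t ∈ Finset.Ioo 0 r, Real.exp (LL σ) * (al t * al (r - t) / al r) *
        (BB σ - be r / al r + be t / al t + be (r - t) / al (r - t)) =
        Real.exp (LL σ) * ((BB σ - be r / al r) / al r) * (al t * al (r - t)) +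
        Real.exp (LL σ) / al r * (be t * al (r - t) + al t * be (r - t)) := by
      intro t _
      have h2 : al t ≠ 0 := (al_pos t).ne'
      have h3 : al (r - t) ≠ 0 := (al_pos _).ne'
      field_simp
      ring
    rw [Finset.sum_congr rfl h1, Finset.sum_add_distrib, ← Finset.mul_sum, ← Finset.mul_sum,
      al_conv hr2]
    have h4 : ∑ t ∈ Finset.Ioo 0 r, (be t * al (r - t) + al t * be (r - t)) =
        be r - (r - 1) * al r := by linarith
    rw [h4]
    push_cast
    field_simp
    ring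

theorem claim_all {c : ℕ → ℕ → Perm (Fin (2 * n)) → ℂ} (hc : IsRec n c) (k m : ℕ) (hm : m ≤ n) :
    Claim c k m := by
  induction k generalizing m with
  | zero => exact claim_zero hc m
  | succ k ihk =>
    induction m with
    | zero => exact claim_succ_zero hc k
    | succ m ihm => exact claim_step hc k m (by omega) (ihm (by omega)) (ihk (m + 1) hm)

end Pool.Agent.Helper71.Wg
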