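import Mathlib

/-!
# Continuous endomorphisms of compact abelian groups have algebraic entropy `0` or `∞`

For a finite subgroup `F` of an abelian group `G` and an endomorphism `φ`, the algebraic entropy
of `φ` with respect to `F` is `H(φ,F) = lim log |T_n(φ,F)| / n`, where
`T_n(φ,F) = F + φ F + ... + φ^(n-1) F`, and `ent φ` is the supremum over all finite `F`.

We prove by a Baire category argument that a continuous endomorphism of a compact Hausdorff
abelian group has entropy `0` or `∞`.  In particular this holds for `K^ℕ`, `K` finite.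
-/

open Filter Topology Polynomial
open scoped ENNReal

namespace Pool.Agent.Helper71.WithdrawnEntropy

universe u

/-- The partial trajectory `T_n(φ, F) = F + φ(F) + … + φ^(n-1)(F)`. -/
def traj {G : Type u} [AddCommGroup G] (φ : AddMonoid.End G) (F : AddSubgroup G) (n : ℕ) :
    AddSubgroup G :=
  ⨆ i < n, F.map (φ ^ i)

/-- `H(φ, F) = lim_n log |T_n(φ,F)| / n`. -/
noncomputable def relEnt {G : Type u} [AddCommGroup G] (φ : AddMonoid.End G) (F : AddSubgroup G) :
    ℝ :=
  limUnder atTop (fun n : ℕ => Real.log (Nat.card (traj φ F n)) / n)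

/-- The algebraic entropy `ent φ = sup H(φ, F)`, over the finite subgroups `F`, in `[0, ∞]`. -/
noncomputable def ent {G : Type u} [AddCommGroup G] (φ : AddMonoid.End G) : ℝ≥0∞ :=
  ⨆ (F : AddSubgroup G) (_ : Finite F), ENNReal.ofReal (relEnt φ F)

section Algebra

variable {G : Type u} [AddCommGroup G] (φ : AddMonoid.End G)

lemma traj_zero (F : AddSubgroup G) : traj φ F 0 = ⊥ := by
  simp [traj]

lemma traj_succ (F : AddSubgroup G) (n : ℕ) :
    traj φ F (n + 1) = traj φ F n ⊔ F.map (φ ^ n) := by
  unfold traj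
  exact Nat.iSup_lt_succ (fun i => F.map (φ ^ i)) n

lemma traj_mono_right (F : AddSubgroup G) {m n : ℕ} (h : m ≤ n) : traj φ F m ≤ traj φ F n := by
  unfold traj
  exact iSup₂_le fun i hi => le_iSup₂_of_le i (lt_of_lt_of_le hi h) le_rfl

lemma traj_mono_left {F F' : AddSubgroup G} (h : F ≤ F') (n : ℕ) : traj φ F n ≤ traj φ F' n := by
  unfold traj
  exact iSup₂_mono fun i _ => AddSubgroup.map_mono h

lemma traj_add (F : AddSubgroup G) (m n : ℕ) :
    traj φ F (m + n) = traj φ F m ⊔ (traj φ F n).map (φ ^ m) := by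
  induction n with
  | zero => simp [traj_zero]
  | succ n ih =>
    rw [← add_assoc, traj_succ, ih, traj_succ, AddSubgroup.map_sup, sup_assoc]
    congr 2
    rw [AddSubgroup.map_map]
    congr 1
    rw [pow_add]
    rfl

lemma card_sup_le (A B : AddSubgroup G) [Finite A] [Finite B] :
    Finite (A ⊔ B : AddSubgroup G) ∧ Nat.card (A ⊔ B : AddSubgroup G) ≤ Nat.card A * Nat.card B := by
  have hsurj : Function.Surjective
      (fun p : A × B => (⟨(p.1 : G) + p.2, AddSubgroup.add_mem_sup p.1.2 p.2.2⟩ :
        (A ⊔ B : AddSubgroup G))) := by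
    rintro ⟨x, hx⟩
    obtain ⟨a, ha, b, hb, rfl⟩ := AddSubgroup.mem_sup.1 hx
    exact ⟨(⟨a, ha⟩, ⟨b, hb⟩), rfl⟩
  refine ⟨Finite.of_surjective _ hsurj, ?_⟩
  rw [← Nat.card_prod]
  exact Nat.card_le_card_of_surjective _ hsurj

instance finite_map (F : AddSubgroup G) [Finite F] (f : AddMonoid.End G) :
    Finite (F.map f) := by
  have : (F.map f : Set G).Finite := by
    rw [AddSubgroup.coe_map]
    exact Set.Finite.image _ (Set.toFinite _)
  exact this.to_subtype

lemma card_map_le (F : AddSubgroup G) [Finite F] (f : AddMonoid.End G) :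
    Nat.card (F.map f) ≤ Nat.card F := by
  have : Set.ncard ((F.map f : AddSubgroup G) : Set G) ≤ Set.ncard (F : Set G) := by
    rw [AddSubgroup.coe_map]
    exact Set.ncard_image_le (Set.toFinite _)
  exact this

instance finite_traj (F : AddSubgroup G) [Finite F] (n : ℕ) : Finite (traj φ F n) := by
  induction n with
  | zero => rw [traj_zero]; infer_instance
  | succ n ih => rw [traj_succ]; exact (card_sup_le _ _).1

lemma one_le_card (F : AddSubgroup G) [Finite F] (n : ℕ) : 1 ≤ Nat.card (traj φ F n) :=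
  Nat.card_pos

/-- The sequence `log |T_n|` is subadditive. -/
lemma subadditive_log (F : AddSubgroup G) [Finite F] :
    Subadditive (fun n => Real.log (Nat.card (traj φ F n))) := by
  intro m n
  have h1 : Nat.card (traj φ F (m + n)) ≤ Nat.card (traj φ F m) * Nat.card (traj φ F n) := by
    rw [traj_add]
    exact (card_sup_le _ _).2.trans (Nat.mul_le_mul_left _ (card_map_le _ _))
  have hm : (0 : ℝ) < Nat.card (traj φ F m) := by exact_mod_cast one_le_card φ F m
  have hn : (0 : ℝ) < Nat.card (traj φ F n) := by exact_mod_cast one_le_card φ F n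
  have hmn : (0 : ℝ) < Nat.card (traj φ F (m + n)) := by exact_mod_cast one_le_card φ F (m + n)
  show Real.log _ ≤ Real.log _ + Real.log _
  rw [← Real.log_mul hm.ne' hn.ne']
  exact Real.log_le_log hmn (by exact_mod_cast h1)

/-- The limit defining `H(φ, F)` exists. -/
lemma tendsto_relEnt (F : AddSubgroup G) [Finite F] :
    Tendsto (fun n : ℕ => Real.log (Nat.card (traj φ F n)) / n) atTop (𝓝 (relEnt φ F)) := by
  have h := (subadditive_log φ F).tendsto_lim (by
    refine ⟨0, ?_⟩
    rintro _ ⟨n, rfl⟩
    exact div_nonneg (Real.log_nonneg (by exact_mod_cast one_le_card φ F n)) (Nat.cast_nonneg n))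
  have h2 : relEnt φ F = (subadditive_log φ F).lim := h.limUnder_eq
  rw [h2]
  exact h

lemma le_ent (F : AddSubgroup G) [hF : Finite F] : ENNReal.ofReal (relEnt φ F) ≤ ent φ := by
  unfold ent
  exact le_iSup₂_of_le F hF le_rfl

/-- Elements of the trajectory of a cyclic subgroup are values of polynomials. -/
lemma mem_traj_zmultiples (v : G) (n : ℕ) (x : G) (hx : x ∈ traj φ (AddSubgroup.zmultiples v) n) :
    ∃ g : ℤ[X], g.degree < n ∧ aeval φ g v = x := by
  induction n generalizing x with
  | zero =>
    rw [traj_zero, AddSubgroup.mem_bot] at hx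
    exact ⟨0, by simp, by simp [hx]⟩
  | succ n ih =>
    rw [traj_succ] at hx
    obtain ⟨y, hy, z, hz, rfl⟩ := AddSubgroup.mem_sup.1 hx
    obtain ⟨g, hg, rfl⟩ := ih y hy
    obtain ⟨w, hw, rfl⟩ := AddSubgroup.mem_map.1 hz
    obtain ⟨k, rfl⟩ := AddSubgroup.mem_zmultiples_iff.1 hw
    refine ⟨g + C k * X ^ n, ?_, ?_⟩
    · refine lt_of_le_of_lt (degree_add_le _ _) (max_lt ?_ ?_)
      · exact hg.trans (by exact_mod_cast Nat.lt_succ_self n)
      · exact lt_of_le_of_lt (degree_C_mul_X_pow_le n k) (by exact_mod_cast Nat.lt_succ_self n)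
    · have h1 : aeval φ (g + C k * X ^ n) = aeval φ g + k • φ ^ n := by
        simp [zsmul_eq_mul]
      rw [h1, map_zsmul]
      rfl

/-- Values of polynomials of degree `< n` lie in the partial trajectory. -/
lemma aeval_mem_traj (F : AddSubgroup G) {v : G} (hv : v ∈ F) (n : ℕ) (g : ℤ[X])
    (hg : g.natDegree < n) : aeval φ g v ∈ traj φ F n := by
  rw [aeval_eq_sum_range' hg]
  have hsum : (∑ i ∈ Finset.range n, g.coeff i • φ ^ i) v =
      ∑ i ∈ Finset.range n, (g.coeff i • φ ^ i) v :=
    AddMonoidHom.finsetSum_apply _ _ _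
  rw [hsum]
  refine AddSubgroup.sum_mem _ fun i hi => ?_
  have : (g.coeff i • φ ^ i) v = g.coeff i • (φ ^ i) v := rfl
  rw [this]
  refine AddSubgroup.zsmul_mem _ ?_ _
  unfold traj
  exact AddSubgroup.mem_iSup_of_mem i (AddSubgroup.mem_iSup_of_mem (Finset.mem_range.1 hi)
    (AddSubgroup.mem_map_of_mem _ hv))

/-- The full trajectory. -/
def full (F : AddSubgroup G) : AddSubgroup G := ⨆ n, traj φ F n

lemma mem_full {F : AddSubgroup G} {x : G} : x ∈ full φ F ↔ ∃ n, x ∈ traj φ F n := by
  unfold full
  exact AddSubgroup.mem_iSup_of_directed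
    (Monotone.directed_le fun _ _ h => traj_mono_right φ F h)

lemma countable_full (F : AddSubgroup G) [Finite F] : (full φ F : Set G).Countable := by
  have : (full φ F : Set G) = ⋃ n, (traj φ F n : Set G) := by
    ext x
    simp [mem_full]
  rw [this]
  refine Set.countable_iUnion fun n => ?_
  have : Finite (traj φ F n) := finite_traj φ F n
  exact Set.Finite.countable (Set.toFinite (traj φ F n : Set G))

/-- If `φ^n v` never lies in `T_∞(φ,F) + T_n(φ,v)` then adding `v` to `F` increases the growth
by a factor `2`. -/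
lemma card_double (F : AddSubgroup G) [Finite F] (v : G) (hv : IsOfFinAddOrder v)
    (h : ∀ n, (φ ^ n) v ∉ full φ F ⊔ traj φ (AddSubgroup.zmultiples v) n) (n : ℕ) :
    2 ^ n * Nat.card (traj φ F n) ≤ Nat.card (traj φ (F ⊔ AddSubgroup.zmultiples v) n) := by
  have hZ : Finite (AddSubgroup.zmultiples v) := by
    have := (finite_zmultiples (a := v)).2 hv
    exact this.to_subtype
  have key : ∀ k, 2 ^ k * Nat.card (traj φ F n) ≤
      Nat.card (traj φ F n ⊔ traj φ (AddSubgroup.zmultiples v) k : AddSubgroup G) := by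
    intro k
    induction k with
    | zero => simp [traj_zero]
    | succ k ih =>
      have hfin : Finite (traj φ F n ⊔ traj φ (AddSubgroup.zmultiples v) k : AddSubgroup G) :=
        (card_sup_le _ _).1
      have hfin' : Finite
          (traj φ F n ⊔ traj φ (AddSubgroup.zmultiples v) (k + 1) : AddSubgroup G) :=
        (card_sup_le _ _).1
      have hle : (traj φ F n ⊔ traj φ (AddSubgroup.zmultiples v) k : AddSubgroup G) ≤
          traj φ F n ⊔ traj φ (AddSubgroup.zmultiples v) (k + 1) :=
        sup_le_sup_left (traj_mono_right φ _ (Nat.le_succ k)) _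
      have hne : (traj φ F n ⊔ traj φ (AddSubgroup.zmultiples v) k : AddSubgroup G) ≠
          traj φ F n ⊔ traj φ (AddSubgroup.zmultiples v) (k + 1) := by
        intro heq
        apply h k
        have h1 : (φ ^ k) v ∈ traj φ F n ⊔ traj φ (AddSubgroup.zmultiples v) (k + 1) := by
          refine AddSubgroup.mem_sup_right ?_
          rw [traj_succ]
          exact AddSubgroup.mem_sup_right
            (AddSubgroup.mem_map_of_mem _ (AddSubgroup.mem_zmultiples v))
        rw [← heq] at h1
        have h2 : traj φ F n ≤ full φ F := fun x hx => (mem_full φ).2 ⟨n, hx⟩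
        exact sup_le_sup_right h2 _ h1
      have hdvd := AddSubgroup.card_dvd_of_le hle
      have hcard : Nat.card (traj φ F n ⊔ traj φ (AddSubgroup.zmultiples v) k : AddSubgroup G) ≠
          Nat.card (traj φ F n ⊔ traj φ (AddSubgroup.zmultiples v) (k + 1) : AddSubgroup G) := by
        intro hc
        exact hne (AddSubgroup.eq_of_le_of_card_ge hle hc.ge)
      have h2 : 2 * Nat.card (traj φ F n ⊔ traj φ (AddSubgroup.zmultiples v) k : AddSubgroup G) ≤
          Nat.card (traj φ F n ⊔ traj φ (AddSubgroup.zmultiples v) (k + 1) : AddSubgroup G) := by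
        obtain ⟨c, hc⟩ := hdvd
        have hpos : 0 < Nat.card
          (traj φ F n ⊔ traj φ (AddSubgroup.zmultiples v) (k + 1) : AddSubgroup G) := Nat.card_pos
        have hc2 : 2 ≤ c := by
          rcases c with _ | _ | c
          · simp at hc; omega
          · simp at hc; exact absurd hc.symm hcard
          · omega
        rw [hc, mul_comm]
        exact Nat.mul_le_mul_left _ hc2
      calc 2 ^ (k + 1) * Nat.card (traj φ F n) = 2 * (2 ^ k * Nat.card (traj φ F n)) := by ring
        _ ≤ _ := (Nat.mul_le_mul_left 2 ih).trans h2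
  refine (key n).trans ?_
  have hF' : Finite (F ⊔ AddSubgroup.zmultiples v : AddSubgroup G) := (card_sup_le _ _).1
  exact AddSubgroup.card_le_of_le
    (sup_le (traj_mono_left φ le_sup_left n) (traj_mono_left φ le_sup_right n))

/-- In the situation of `card_double`, the entropy increases by at least `log 2`. -/
lemma relEnt_add_log_two_le (F : AddSubgroup G) [Finite F] (v : G) (hv : IsOfFinAddOrder v)
    (h : ∀ n, (φ ^ n) v ∉ full φ F ⊔ traj φ (AddSubgroup.zmultiples v) n) :
    relEnt φ F + Real.log 2 ≤ relEnt φ (F ⊔ AddSubgroup.zmultiples v) := by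
  have hZ : Finite (AddSubgroup.zmultiples v) := by
    have := (finite_zmultiples (a := v)).2 hv
    exact this.to_subtype
  have hF' : Finite (F ⊔ AddSubgroup.zmultiples v : AddSubgroup G) := (card_sup_le _ _).1
  have h1 := (tendsto_relEnt φ F).add_const (Real.log 2)
  have h2 := tendsto_relEnt φ (F ⊔ AddSubgroup.zmultiples v)
  refine le_of_tendsto_of_tendsto h1 h2 ?_
  filter_upwards [eventually_gt_atTop 0] with n hn
  have hn' : (0 : ℝ) < n := by exact_mod_cast hn
  have hc : (0 : ℝ) < Nat.card (traj φ F n) := by exact_mod_cast one_le_card φ F n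
  rw [← sub_nonneg]
  have : Real.log (Nat.card (traj φ (F ⊔ AddSubgroup.zmultiples v) n)) / n -
      (Real.log (Nat.card (traj φ F n)) / n + Real.log 2) =
      (Real.log (Nat.card (traj φ (F ⊔ AddSubgroup.zmultiples v) n)) -
        (Real.log (Nat.card (traj φ F n)) + n * Real.log 2)) / n := by
    field_simp
  rw [this]
  refine div_nonneg ?_ hn'.le
  rw [sub_nonneg, ← Real.log_pow, ← Real.log_mul hc.ne' (by positivity)]
  refine Real.log_le_log (by positivity) ?_
  have := card_double φ F v hv h n
  rw [mul_comm] at this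
  exact_mod_cast this

/-- If the entropy is finite, there is a finite subgroup `F` such that every torsion element is
sent into the trajectory of `F` by some monic polynomial in `φ`. -/
lemma exists_good (hent : ent φ ≠ ⊤) : ∃ F : AddSubgroup G, Finite F ∧
    ∀ v : G, IsOfFinAddOrder v → ∃ g : ℤ[X], g.Monic ∧ aeval φ g v ∈ full φ F := by
  by_contra hcon
  push Not at hcon
  have hstep : ∀ F : AddSubgroup G, Finite F → ∃ F' : AddSubgroup G, Finite F' ∧
      relEnt φ F + Real.log 2 ≤ relEnt φ F' := by
    intro F hF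
    obtain ⟨v, hv, hg⟩ := hcon F hF
    have hZ : Finite (AddSubgroup.zmultiples v) := by
      have := (finite_zmultiples (a := v)).2 hv
      exact this.to_subtype
    refine ⟨F ⊔ AddSubgroup.zmultiples v, (card_sup_le _ _).1,
      relEnt_add_log_two_le φ F v hv ?_⟩
    intro n hn
    obtain ⟨y, hy, z, hz, hyz⟩ := AddSubgroup.mem_sup.1 hn
    obtain ⟨g, hgd, hgv⟩ := mem_traj_zmultiples φ v n z hz
    refine hg (X ^ n - g) (monic_X_pow_sub hgd) ?_
    have : aeval φ (X ^ n - g) v = y := by
      have h1 : aeval φ (X ^ n - g) = φ ^ n - aeval φ g := by simp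
      rw [h1]
      have h2 : (φ ^ n - aeval φ g) v = (φ ^ n) v - aeval φ g v := rfl
      rw [h2, hgv, ← hyz]
      abel
    rw [this]
    exact hy
  have hk : ∀ k : ℕ, ∃ F : AddSubgroup G, Finite F ∧ (k : ℝ) * Real.log 2 ≤ relEnt φ F := by
    intro k
    induction k with
    | zero =>
      refine ⟨⊥, inferInstance, ?_⟩
      have h := tendsto_relEnt φ (⊥ : AddSubgroup G)
      have : (0 : ℝ) ≤ relEnt φ (⊥ : AddSubgroup G) := by
        refine ge_of_tendsto' h fun n => ?_
        exact div_nonneg (Real.log_nonneg (by exact_mod_cast one_le_card φ _ n))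
          (Nat.cast_nonneg n)
      simpa using this
    | succ k ih =>
      obtain ⟨F, hF, hFk⟩ := ih
      obtain ⟨F', hF', h⟩ := hstep F hF
      refine ⟨F', hF', ?_⟩
      push_cast
      linarith
  apply hent
  rw [← top_le_iff]
  refine ENNReal.le_of_forall_nnreal_lt fun r _ => ?_
  obtain ⟨k, hkr⟩ := exists_nat_gt ((r : ℝ) / Real.log 2)
  obtain ⟨F, hF, hFk⟩ := hk k
  refine le_trans ?_ (le_ent φ F)
  rw [← ENNReal.ofReal_coe_nnreal]
  refine ENNReal.ofReal_le_ofReal ?_
  have hlog : 0 < Real.log 2 := Real.log_pos (by norm_num)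
  rw [div_lt_iff₀ hlog] at hkr
  linarith

/-- If a monic polynomial `g(φ)` has finite image on a `φ`-invariant subgroup `L`, then finite
subgroups of `L` have zero entropy. -/
lemma relEnt_eq_zero (F : AddSubgroup G) [Finite F] (L : AddSubgroup G) (hFL : F ≤ L)
    (hL : ∀ x ∈ L, φ x ∈ L) (g : ℤ[X]) (hg : g.Monic)
    (hfin : ((L.map (aeval φ g) : AddSubgroup G) : Set G).Finite) : relEnt φ F = 0 := by
  have hE : Finite (L.map (aeval φ g)) := hfin.to_subtype
  have hpow : ∀ (i : ℕ), ∀ x ∈ L, (φ ^ i) x ∈ L := by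
    intro i
    induction i with
    | zero => intro x hx; simpa using hx
    | succ i ih =>
      intro x hx
      rw [pow_succ']
      exact hL _ (ih x hx)
  have hpol : ∀ (q : ℤ[X]), ∀ x ∈ L, aeval φ q x ∈ L := by
    intro q x hx
    rw [aeval_eq_sum_range]
    have hsum : (∑ i ∈ Finset.range (q.natDegree + 1), q.coeff i • φ ^ i) x =
        ∑ i ∈ Finset.range (q.natDegree + 1), (q.coeff i • φ ^ i) x :=
      AddMonoidHom.finsetSum_apply _ _ _
    rw [hsum]
    exact AddSubgroup.sum_mem _ fun i _ => AddSubgroup.zsmul_mem _ (hpow i x hx) _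
  set S : AddSubgroup G := L.map (aeval φ g) ⊔ traj φ F (g.natDegree + 1) with hS
  have hSfin : Finite S := (card_sup_le _ _).1
  have hle : ∀ n, traj φ F n ≤ S := by
    intro n
    unfold traj
    refine iSup₂_le fun i _ => ?_
    rintro _ ⟨v, hv, rfl⟩
    have h1 : (X ^ i : ℤ[X]) = X ^ i %ₘ g + g * (X ^ i /ₘ g) := (modByMonic_add_div _ g).symm
    have h2 : φ ^ i = aeval φ (X ^ i %ₘ g) + aeval φ g * aeval φ (X ^ i /ₘ g) := by
      rw [← map_mul, ← map_add, ← h1]
      simp
    have h3 : (φ ^ i) v = aeval φ g (aeval φ (X ^ i /ₘ g) v) + aeval φ (X ^ i %ₘ g) v := by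
      rw [h2, add_comm]
      rfl
    show (φ ^ i) v ∈ S
    rw [h3]
    refine AddSubgroup.add_mem_sup (AddSubgroup.mem_map_of_mem _ (hpol _ _ (hFL hv))) ?_
    refine aeval_mem_traj φ F hv _ _ ?_
    exact Nat.lt_succ_of_le (natDegree_modByMonic_le _ hg)
  have hb : Tendsto (fun n : ℕ => Real.log (Nat.card (traj φ F n)) / n) atTop (𝓝 0) := by
    have hub : Tendsto (fun n : ℕ => Real.log (Nat.card S) / (n : ℝ)) atTop (𝓝 0) :=
      tendsto_const_div_atTop_nhds_zero_nat _
    refine squeeze_zero (fun n => ?_) (fun n => ?_) hub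
    · exact div_nonneg (Real.log_nonneg (by exact_mod_cast one_le_card φ F n)) (Nat.cast_nonneg n)
    · refine div_le_div_of_nonneg_right ?_ (Nat.cast_nonneg n)
      refine Real.log_le_log (by exact_mod_cast one_le_card φ F n) ?_
      exact_mod_cast AddSubgroup.card_le_of_le (hle n)
  exact tendsto_nhds_unique (tendsto_relEnt φ F) hb

end Algebra

section Topology

variable {G : Type u} [AddCommGroup G] [TopologicalSpace G] [IsTopologicalAddGroup G]

lemma continuous_aeval (φ : AddMonoid.End G) (hφ : Continuous φ) (g : ℤ[X]) :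
    Continuous (aeval φ g : AddMonoid.End G) := by
  have hpow : ∀ i : ℕ, Continuous (φ ^ i : AddMonoid.End G) := by
    intro i
    induction i with
    | zero => exact continuous_id
    | succ i ih =>
      rw [pow_succ']
      exact hφ.comp ih
  have h : (fun x => aeval φ g x) =
      fun x => ∑ i ∈ Finset.range (g.natDegree + 1), g.coeff i • (φ ^ i) x := by
    funext x
    rw [aeval_eq_sum_range]
    exact AddMonoidHom.finsetSum_apply _ _ _
  show Continuous (fun x => aeval φ g x)
  rw [h]
  exact continuous_finsetSum _ fun i _ => (continuous_zsmul _).comp (hpow i)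

instance countable_intPoly : Countable ℤ[X] := by
  have h := Polynomial.cardinalMk_le_max (R := ℤ)
  rw [← Cardinal.mk_le_aleph0_iff]
  exact h.trans (by simp)

/-- Baire category: if every element of a compact subgroup `L` is sent by a monic polynomial in
`φ` into a countable set, then some monic polynomial in `φ` has finite image on `L`. -/
lemma exists_finite_range [T2Space G] (φ : AddMonoid.End G) (hφ : Continuous φ)
    (L : AddSubgroup G) [CompactSpace L] (N : Set G) (hN : N.Countable)
    (h : ∀ v ∈ L, ∃ g : ℤ[X], g.Monic ∧ aeval φ g v ∈ N) :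
    ∃ g : ℤ[X], g.Monic ∧ ((L.map (aeval φ g) : AddSubgroup G) : Set G).Finite := by
  have := hN.to_subtype
  let ψ : ℤ[X] → (L →+ G) := fun g => AddMonoidHom.comp (aeval φ g : AddMonoid.End G) L.subtype
  have hψ : ∀ g, Continuous (ψ g) := fun g =>
    (continuous_aeval φ hφ g).comp continuous_subtype_val
  let f : ({g : ℤ[X] // g.Monic} × N) → Set L := fun p => {v | ψ p.1.1 v = (p.2 : G)}
  have hclosed : ∀ p, IsClosed (f p) := fun p => isClosed_eq (hψ _) continuous_const
  have hU : ⋃ p, f p = Set.univ := by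
    ext v
    simp only [Set.mem_iUnion, Set.mem_univ, iff_true]
    obtain ⟨g, hg, hgv⟩ := h v v.2
    exact ⟨(⟨g, hg⟩, ⟨_, hgv⟩), rfl⟩
  obtain ⟨p, hp⟩ := nonempty_interior_of_iUnion_of_closed hclosed hU
  refine ⟨p.1.1, p.1.2, ?_⟩
  obtain ⟨v, hv⟩ := hp
  have hker : IsOpen ((AddMonoidHom.ker (ψ p.1.1) : AddSubgroup L) : Set L) := by
    apply AddSubgroup.isOpen_of_mem_nhds (g := 0)
    have h1 : interior (f p) ∈ 𝓝 v := isOpen_interior.mem_nhds hv
    have h2 : (fun x => x + v) ⁻¹' (interior (f p)) ∈ 𝓝 (0 : L) := by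
      apply (continuous_id.add continuous_const).continuousAt.preimage_mem_nhds
      simpa using h1
    refine Filter.mem_of_superset h2 fun x hx => ?_
    have hx1 : x + v ∈ f p := interior_subset hx
    have hv1 : v ∈ f p := interior_subset hv
    have hx' : ψ p.1.1 (x + v) = p.2 := hx1
    have hv' : ψ p.1.1 v = p.2 := hv1
    rw [map_add, hv'] at hx'
    show ψ p.1.1 x = 0
    simpa using hx'
  have hfin : Finite (AddMonoidHom.range (ψ p.1.1)) := by
    have : Finite (L ⧸ AddMonoidHom.ker (ψ p.1.1)) := AddSubgroup.quotient_finite_of_isOpen _ hker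
    exact Finite.of_equiv _ (QuotientAddGroup.quotientKerEquivRange (ψ p.1.1)).toEquiv
  refine (Set.toFinite (AddMonoidHom.range (ψ p.1.1) : Set G)).subset ?_
  rintro _ ⟨x, hx, rfl⟩
  exact ⟨⟨x, hx⟩, rfl⟩

/-- **Dichotomy.** A continuous endomorphism of a compact Hausdorff abelian group has algebraic
entropy `0` or `∞`. -/
theorem ent_eq_zero_or_top [CompactSpace G] [T2Space G] (φ : AddMonoid.End G)
    (hφ : Continuous φ) : ent φ = 0 ∨ ent φ = ⊤ := by
  by_cases hent : ent φ = ⊤
  · exact Or.inr hent
  left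
  obtain ⟨F, hF, hgood⟩ := exists_good φ hent
  have hz : ∀ F' : AddSubgroup G, Finite F' → relEnt φ F' = 0 := by
    intro F' hF'
    set m := Nat.card F' with hm
    have hmpos : 0 < m := Nat.card_pos
    let L : AddSubgroup G := (nsmulAddMonoidHom (α := G) m).ker
    have hLmem : ∀ x, x ∈ L ↔ m • x = 0 := fun x => Iff.rfl
    have hLclosed : IsClosed (L : Set G) := by
      have : (L : Set G) = {x | m • x = 0} := rfl
      rw [this]
      exact isClosed_eq (continuous_nsmul m) continuous_const
    have hLc : CompactSpace L := isCompact_iff_compactSpace.1 hLclosed.isCompact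
    have hFL : F' ≤ L := by
      intro x hx
      rw [hLmem]
      have h1 : m • (⟨x, hx⟩ : F') = 0 := card_nsmul_eq_zero'
      simpa using congrArg Subtype.val h1
    have hL : ∀ x ∈ L, φ x ∈ L := by
      intro x hx
      rw [hLmem] at hx ⊢
      rw [← map_nsmul, hx, map_zero]
    obtain ⟨g, hg, hfin⟩ := exists_finite_range φ hφ L (full φ F) (countable_full φ F) (by
      intro v hv
      refine hgood v ?_
      rw [isOfFinAddOrder_iff_nsmul_eq_zero]
      exact ⟨m, hmpos, (hLmem v).1 hv⟩)
    exact relEnt_eq_zero φ F' L hFL hL g hg hfin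
  unfold ent
  simp only [ENNReal.iSup_eq_zero, ENNReal.ofReal_eq_zero]
  intro F' hF'
  exact (hz F' hF').le

end Topology

/-- **Answer to Q1.**  For every finite abelian group `K`, every continuous endomorphism of
`K^ℕ` has algebraic entropy `0` or `∞`; so none has finite positive entropy.  The same holds for
every compact Hausdorff abelian group.  (The limit that defines `H(φ, F)` exists.) -/
theorem entropyDichotomy :
    (∀ (K : Type u) [AddCommGroup K] [Finite K] [TopologicalSpace K] [DiscreteTopology K]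
      (φ : (ℕ → K) →+ (ℕ → K)), Continuous φ → ent φ = 0 ∨ ent φ = ⊤) ∧
    (∀ (G : Type u) [AddCommGroup G] [TopologicalSpace G] [IsTopologicalAddGroup G]
      [CompactSpace G] [T2Space G] (φ : G →+ G), Continuous φ → ent φ = 0 ∨ ent φ = ⊤) ∧
    (∀ (G : Type u) [AddCommGroup G] (φ : G →+ G) (F : AddSubgroup G), Finite F →
      Tendsto (fun n : ℕ => Real.log (Nat.card (traj φ F n)) / n) atTop (𝓝 (relEnt φ F))) := by
  refine ⟨?_, ?_, ?_⟩
  · intro K _ _ _ _ φ hφ
    exact ent_eq_zero_or_top φ hφ
  · intro G _ _ _ _ _ φ hφ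
    exact ent_eq_zero_or_top φ hφ
  · intro G _ φ F hF
    exact tendsto_relEnt φ F

end Pool.Agent.Helper71.WithdrawnEntropy
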