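import Mathlib
import Pool.Agent.Helper71.WgRec

/-!
# The subleading orthogonal Weingarten coefficient for one-row partitions

We prove that `G^{k+1}_{(k)}(n) = 4^k - binom(2k+1, k)` for all `n > k ≥ 0`.
-/

open Equiv Finset

namespace Pool.Agent.Helper71.WithdrawnOneRow

/-- The involution `(1 2)(3 4)⋯(2n-1 2n)`; the points `1, …, 2n` are here `0, …, 2n-1`. -/
def stdInvolution (n : ℕ) : Perm (Fin (2 * n)) where
  toFun x := ⟨if x.val % 2 = 0 then x.val + 1 else x.val - 1, by
    have := x.2; split_ifs <;> omega⟩
  invFun x := ⟨if x.val % 2 = 0 then x.val + 1 else x.val - 1, by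
    have := x.2; split_ifs <;> omega⟩
  left_inv x := by
    ext
    simp only
    split_ifs <;> omega
  right_inv x := by
    ext
    simp only
    split_ifs <;> omega

/-- The hyperoctahedral group `H_n`: the centralizer of `(1 2)(3 4)⋯(2n-1 2n)`. -/
def hyperoctahedral (n : ℕ) : Subgroup (Perm (Fin (2 * n))) :=
  Subgroup.centralizer {stdInvolution n}

open Classical in
/-- `P_n = ∑_{ζ ∈ H_n} ζ` in the group algebra `ℂ[S_{2n}]`. -/
noncomputable def hyperSum (n : ℕ) : MonoidAlgebra ℂ (Perm (Fin (2 * n))) :=
  ∑ ζ ∈ Finset.univ.filter (fun ζ : Perm (Fin (2 * n)) => ζ ∈ hyperoctahedral n),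
    MonoidAlgebra.single ζ 1

/-- The Jucys-Murphy element `∑_{i < m} (i m)` (it is `J_{m+1}` in one-based numbering). -/
noncomputable def jucysMurphy (n : ℕ) (m : Fin (2 * n)) : MonoidAlgebra ℂ (Perm (Fin (2 * n))) :=
  ∑ i ∈ Finset.univ.filter (fun i : Fin (2 * n) => i < m), MonoidAlgebra.single (swap i m) 1

open Classical in
/-- The complete homogeneous symmetric function
`h_k(x_1,…,x_m) = ∑_{i_1 ≥ i_2 ≥ ⋯ ≥ i_k} x_{i_1} x_{i_2} ⋯ x_{i_k}`, for commuting `x_i`. -/
noncomputable def completeHomogeneous {A : Type} [Semiring A] {m : ℕ} (k : ℕ) (x : Fin m → A) :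
    A :=
  ∑ f ∈ Finset.univ.filter (fun f : Fin k → Fin m => Antitone f),
    (List.ofFn fun a => x (f a)).prod

/-- `h_k(J_1, J_3, …, J_{2n-1}) · P_n` in `ℂ[S_{2n}]`. -/
noncomputable def weingartenElement (n k : ℕ) : MonoidAlgebra ℂ (Perm (Fin (2 * n))) :=
  completeHomogeneous k (fun a : Fin n => jucysMurphy n ⟨2 * a.val, by omega⟩) * hyperSum n

/-- The graph on the points with edges `{2i-1, 2i}` and `{σ(2i-1), σ(2i)}`. -/
def cosetGraph {n : ℕ} (σ : Perm (Fin (2 * n))) : SimpleGraph (Fin (2 * n)) where
  Adj x y := x ≠ y ∧ (x.val / 2 = y.val / 2 ∨ (σ⁻¹ x).val / 2 = (σ⁻¹ y).val / 2)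
  symm := ⟨fun _ _ h => ⟨h.1.symm, h.2.imp Eq.symm Eq.symm⟩⟩
  loopless := ⟨fun _ h => h.1 rfl⟩

open Classical in
/-- The coset-type of `σ`: the multiset of half the sizes of the connected components. -/
noncomputable def cosetType {n : ℕ} (σ : Perm (Fin (2 * n))) : Multiset ℕ :=
  (Finset.univ : Finset (cosetGraph σ).ConnectedComponent).val.map
    (fun c => Nat.card c.supp / 2)

/-- The reduced coset-type: subtract one from each part, and remove the zeros. -/
noncomputable def reducedCosetType {n : ℕ} (σ : Perm (Fin (2 * n))) : Multiset ℕ :=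
  ((cosetType σ).map (fun r => r - 1)).filter (fun r => r ≠ 0)

/-- The one-row partition `(k)`, as a multiset of its nonzero parts. -/
def oneRow (k : ℕ) : Multiset ℕ := ({k} : Multiset ℕ).filter (fun r => r ≠ 0)

open Classical in
/-- `ψ_μ(n)`: the sum of all `σ ∈ S_{2n}` of reduced coset-type `μ`. -/
noncomputable def psi (n : ℕ) (μ : Multiset ℕ) : MonoidAlgebra ℂ (Perm (Fin (2 * n))) :=
  ∑ σ ∈ Finset.univ.filter (fun σ : Perm (Fin (2 * n)) => reducedCosetType σ = μ),
    MonoidAlgebra.single σ 1

/-! ### The recursion for complete homogeneous functions -/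

lemma antitone_cons {k m : ℕ} (g : Fin k → Fin (m + 1)) :
    Antitone (Fin.cons (Fin.last m) g : Fin (k + 1) → Fin (m + 1)) ↔ Antitone g := by
  constructor
  · intro h i j hij
    have := h (Fin.succ_le_succ_iff.2 hij)
    simpa using this
  · intro h i j hij
    refine Fin.cases (fun _ => ?_) (fun i' hij => ?_) i hij
    · simpa using Fin.le_last _
    · refine Fin.cases (fun h0 => ?_) (fun j' hij => ?_) j hij
      · exact absurd h0 (by simp)
      · simpa using h (Fin.succ_le_succ_iff.1 hij)

lemma completeHomogeneous_zero {A : Type} [Semiring A] {m : ℕ} (x : Fin m → A) :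
    completeHomogeneous 0 x = 1 := by
  classical
  unfold completeHomogeneous
  have : (Finset.univ.filter (fun f : Fin 0 → Fin m => Antitone f)) = {Fin.elim0} := by
    ext f
    simp only [Finset.mem_filter, Finset.mem_univ, true_and, Finset.mem_singleton]
    constructor
    · intro _; exact Subsingleton.elim _ _
    · intro _ i; exact i.elim0
  rw [this]
  simp

lemma completeHomogeneous_succ_zero {A : Type} [Semiring A] (k : ℕ) (x : Fin 0 → A) :
    completeHomogeneous (k + 1) x = 0 := by
  classical
  unfold completeHomogeneous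
  refine Finset.sum_eq_zero fun f _ => (f 0).elim0

lemma completeHomogeneous_succ {A : Type} [Semiring A] {m : ℕ} (k : ℕ) (x : Fin (m + 1) → A) :
    completeHomogeneous (k + 1) x = completeHomogeneous (k + 1) (fun a : Fin m => x a.castSucc) +
      x (Fin.last m) * completeHomogeneous k x := by
  classical
  unfold completeHomogeneous
  rw [← Finset.sum_filter_add_sum_filter_not _ (fun f : Fin (k + 1) → Fin (m + 1) =>
    f 0 ≠ Fin.last m)]
  congr 1
  · symm
    refine Finset.sum_bij (fun g _ => fun a => (g a).castSucc) ?_ ?_ ?_ ?_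
    · intro g hg
      simp only [Finset.mem_filter, Finset.mem_univ, true_and] at hg ⊢
      refine ⟨fun i j hij => ?_, ?_⟩
      · exact Fin.castSucc_le_castSucc_iff.2 (hg hij)
      · exact (Fin.castSucc_lt_last _).ne
    · intro g _ g' _ h
      funext a
      have := congrFun h a
      exact Fin.castSucc_injective _ this
    · intro f hf
      simp only [Finset.mem_filter, Finset.mem_univ, true_and] at hf
      have hlt : ∀ a, f a ≠ Fin.last m := by
        intro a ha
        apply hf.2
        have := hf.1 (Fin.zero_le a)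
        rw [ha] at this
        exact le_antisymm (Fin.le_last _) this
      refine ⟨fun a => (f a).castPred (hlt a), ?_, ?_⟩
      · simp only [Finset.mem_filter, Finset.mem_univ, true_and]
        intro i j hij
        exact Fin.castPred_le_castPred_iff.2 (hf.1 hij)
      · funext a
        simp
    · intro g _
      rfl
  · rw [Finset.mul_sum]
    symm
    refine Finset.sum_bij (fun g _ => (Fin.cons (Fin.last m) g : Fin (k + 1) → Fin (m + 1)))
      ?_ ?_ ?_ ?_
    · intro g hg
      simp only [Finset.mem_filter, Finset.mem_univ, true_and] at hg ⊢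
      exact ⟨(antitone_cons g).2 hg, by simp⟩
    · intro g _ g' _ h
      exact Fin.cons_right_injective _ h
    · intro f hf
      simp only [Finset.mem_filter, Finset.mem_univ, true_and, not_not] at hf
      refine ⟨Fin.tail f, ?_, ?_⟩
      · simp only [Finset.mem_filter, Finset.mem_univ, true_and]
        rw [← antitone_cons, ← hf.2, Fin.cons_self_tail]
        exact hf.1
      · show Fin.cons (Fin.last m) (Fin.tail f) = f
        rw [← hf.2, Fin.cons_self_tail]
    · intro g _
      rw [List.ofFn_succ]
      simp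

/-! ### The coefficients satisfy the recursion -/

lemma stdInvolution_eq (n : ℕ) : stdInvolution n = Helper71.Wg.tau n := rfl

lemma hyperSum_coeff (n : ℕ) (σ : Perm (Fin (2 * n))) :
    (σ ∈ Subgroup.centralizer {Helper71.Wg.tau n} → (hyperSum n).coeff σ = 1) ∧
    (σ ∉ Subgroup.centralizer {Helper71.Wg.tau n} → (hyperSum n).coeff σ = 0) := by
  classical
  have h : (hyperSum n).coeff σ = if σ ∈ hyperoctahedral n then 1 else 0 := by
    unfold hyperSum
    rw [MonoidAlgebra.coeff_sum, Finsupp.finsetSum_apply]
    simp only [MonoidAlgebra.coeff_single, Finsupp.single_apply]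
    rw [Finset.sum_ite_eq']
    simp
  have h2 : hyperoctahedral n = Subgroup.centralizer {Helper71.Wg.tau n} := rfl
  rw [h, h2]
  exact ⟨fun h3 => if_pos h3, fun h3 => if_neg h3⟩

/-- The elements `J_1, J_3, …`, indexed by `Fin m`. -/
noncomputable def oddJM (n m : ℕ) : Fin m → MonoidAlgebra ℂ (Perm (Fin (2 * n))) := fun a =>
  if h : 2 * a.val < 2 * n then jucysMurphy n ⟨2 * a.val, h⟩ else 0

noncomputable def coef (n : ℕ) (k m : ℕ) (σ : Perm (Fin (2 * n))) : ℂ :=
  (completeHomogeneous k (oddJM n m) * hyperSum n).coeff σ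

lemma jucysMurphy_mul_coeff (n : ℕ) (j : Fin (2 * n))
    (X : MonoidAlgebra ℂ (Perm (Fin (2 * n)))) (σ : Perm (Fin (2 * n))) :
    (jucysMurphy n j * X).coeff σ =
      ∑ i ∈ Finset.univ.filter (fun i : Fin (2 * n) => i < j), X.coeff (swap i j * σ) := by
  unfold jucysMurphy
  rw [Finset.sum_mul, MonoidAlgebra.coeff_sum, Finsupp.finsetSum_apply]
  refine Finset.sum_congr rfl fun i _ => ?_
  rw [MonoidAlgebra.coeff_single_mul_apply, one_mul, swap_inv]

lemma isRec_coef (n : ℕ) : Helper71.Wg.IsRec n (coef n) where
  zero_of_mem m σ h := by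
    unfold coef
    rw [completeHomogeneous_zero, one_mul]
    exact (hyperSum_coeff n σ).1 h
  zero_of_notMem m σ h := by
    unfold coef
    rw [completeHomogeneous_zero, one_mul]
    exact (hyperSum_coeff n σ).2 h
  succ_zero k σ := by
    unfold coef
    rw [completeHomogeneous_succ_zero, zero_mul]
    rfl
  succ_succ k m h σ := by
    unfold coef
    rw [completeHomogeneous_succ, add_mul, MonoidAlgebra.coeff_add, Finsupp.add_apply, mul_assoc]
    congr 1
    have h1 : oddJM n (m + 1) (Fin.last m) = jucysMurphy n ⟨2 * m, by omega⟩ := by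
      unfold oddJM
      rw [dif_pos (show 2 * (Fin.last m).val < 2 * n by simp; omega)]
      rfl
    rw [h1, jucysMurphy_mul_coeff]
    rfl

lemma weingartenElement_coeff (n k : ℕ) (σ : Perm (Fin (2 * n))) :
    (weingartenElement n k).coeff σ = coef n k n σ := by
  unfold weingartenElement coef
  congr 4
  funext a
  unfold oddJM
  rw [dif_pos (show 2 * a.val < 2 * n by omega)]

/-! ### Components of the coset graph -/

section Graph

open Function Helper71.Wg

variable {n : ℕ} (σ : Perm (Fin (2 * n)))

lemma half_eq_iff (x y : Fin (2 * n)) : x.val / 2 = y.val / 2 ↔ y = x ∨ y = tau n x := by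
  constructor
  · intro h
    by_cases h1 : y = x
    · exact Or.inl h1
    · right
      have h2 : y.val ≠ x.val := fun h2 => h1 (Fin.ext h2)
      apply Fin.ext
      rw [tau_val]
      split_ifs <;> omega
  · rintro (rfl | rfl)
    · rfl
    · rw [tau_val]
      split_ifs <;> omega

lemma adj_iff (x y : Fin (2 * n)) : (cosetGraph σ).Adj x y ↔ y = tau n x ∨ y = pr σ x := by
  show (x ≠ y ∧ (x.val / 2 = y.val / 2 ∨ (σ⁻¹ x).val / 2 = (σ⁻¹ y).val / 2)) ↔ _
  rw [half_eq_iff, half_eq_iff]
  constructor
  · rintro ⟨h0, (h | h) | (h | h)⟩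
    · exact absurd h.symm h0
    · exact Or.inl h
    · exact absurd (σ⁻¹.injective h).symm h0
    · right
      rw [pr_apply, ← h]
      simp
  · rintro (h | h)
    · exact ⟨fun h1 => tau_ne x (by rw [← h, ← h1]), Or.inl (Or.inr h)⟩
    · refine ⟨fun h1 => pr_ne σ x (by rw [← h, ← h1]), Or.inr (Or.inr ?_)⟩
      rw [h, pr_apply]
      simp

lemma reachable_iff (x y : Fin (2 * n)) : (cosetGraph σ).Reachable x y ↔
    (∃ s, ((tau n * pr σ : Perm (Fin (2 * n))) : Fin (2 * n) → Fin (2 * n))^[s] x = y) ∨
    (∃ s, pr σ (((tau n * pr σ : Perm (Fin (2 * n))) : Fin (2 * n) → Fin (2 * n))^[s] x) = y) := by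
  set π := tau n * pr σ with hπ
  have hπx : ∀ z, π z = tau n (pr σ z) := fun z => rfl
  constructor
  · rintro ⟨w⟩
    induction w using SimpleGraph.Walk.concatRec with
    | Hnil => exact Or.inl ⟨0, rfl⟩
    | Hconcat w h ih =>
      rename_i u v w'
      rw [adj_iff] at h
      rcases ih with ⟨s, hs⟩ | ⟨s, hs⟩
      · rcases h with h | h
        · -- `τ y = p (π⁻¹ y)`
          right
          obtain ⟨t, ht⟩ := reach_symm π (show (π : Fin (2 * n) → Fin (2 * n))^[1] (π⁻¹ v) = v by
            simp)
          refine ⟨t + s, ?_⟩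
          rw [iterate_add_apply, hs, ht, h]
          have h1 : π (π⁻¹ v) = v := by simp
          rw [hπx] at h1
          rw [← h1, tau_tau, h1]
        · exact Or.inr ⟨s, by rw [hs, h]⟩
      · rcases h with h | h
        · left
          refine ⟨s + 1, ?_⟩
          rw [iterate_succ_apply', hπx, hs, h]
        · left
          refine ⟨s, ?_⟩
          rw [h, ← hs, pr_pr]
  · have hstep : ∀ z, (cosetGraph σ).Reachable z (pr σ z) := fun z =>
      SimpleGraph.Adj.reachable ((adj_iff σ z _).2 (Or.inr rfl))
    have hstep2 : ∀ z, (cosetGraph σ).Reachable z (tau n z) := fun z =>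
      SimpleGraph.Adj.reachable ((adj_iff σ z _).2 (Or.inl rfl))
    have hs : ∀ s, (cosetGraph σ).Reachable x ((π : Fin (2 * n) → Fin (2 * n))^[s] x) := by
      intro s
      induction s with
      | zero => exact SimpleGraph.Reachable.refl _
      | succ s ih =>
        rw [iterate_succ_apply']
        exact ih.trans ((hstep _).trans (hstep2 _))
    rintro (⟨s, rfl⟩ | ⟨s, rfl⟩)
    · exact hs s
    · exact (hs s).trans (hstep _)

lemma card_supp (x : Fin (2 * n)) :
    Nat.card ((cosetGraph σ).connectedComponentMk x).supp = 2 * per (tau n * pr σ) x := by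
  classical
  set π := tau n * pr σ with hπ
  set r := per π x with hr
  have hset : ((cosetGraph σ).connectedComponentMk x).supp =
      (((Finset.range r).image (fun s => (π : Fin (2 * n) → Fin (2 * n))^[s] x) ∪
        (Finset.range r).image (fun s => pr σ ((π : Fin (2 * n) → Fin (2 * n))^[s] x)) :
        Finset (Fin (2 * n))) : Set (Fin (2 * n))) := by
    ext y
    rw [SimpleGraph.ConnectedComponent.mem_supp_iff, SimpleGraph.ConnectedComponent.eq,
      SimpleGraph.reachable_comm, reachable_iff]
    simp only [Finset.coe_union, Finset.coe_image, Finset.coe_range, Set.mem_union, Set.mem_image,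
      Set.mem_Iio]
    constructor
    · rintro (⟨s, hs⟩ | ⟨s, hs⟩)
      · obtain ⟨u, hu, hu2⟩ := reach_lt π hs
        exact Or.inl ⟨u, hu, hu2⟩
      · obtain ⟨u, hu, hu2⟩ := reach_lt π (rfl : (π : Fin (2 * n) → Fin (2 * n))^[s] x = _)
        exact Or.inr ⟨u, hu, by rw [hu2]; exact hs⟩
    · rintro (⟨s, _, hs⟩ | ⟨s, _, hs⟩)
      · exact Or.inl ⟨s, hs⟩
      · exact Or.inr ⟨s, hs⟩
  rw [hset, Nat.card_coe_set_eq, Set.ncard_coe_finset, Finset.card_union_of_disjoint,
    Finset.card_image_of_injOn, Finset.card_image_of_injOn, Finset.card_range]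
  · ring
  · intro a ha b hb hab
    simp only [Finset.coe_range, Set.mem_Iio] at ha hb
    exact iter_inj π x ha hb ((pr σ).injective hab)
  · intro a ha b hb hab
    simp only [Finset.coe_range, Set.mem_Iio] at ha hb
    exact iter_inj π x ha hb hab
  · rw [Finset.disjoint_left]
    intro y hy hy2
    obtain ⟨s, _, rfl⟩ := Finset.mem_image.1 hy
    obtain ⟨u, _, hu⟩ := Finset.mem_image.1 hy2
    obtain ⟨v, hv⟩ := reach_symm π (rfl : (π : Fin (2 * n) → Fin (2 * n))^[u] x = _)
    refine not_reach_p tau_tau (pr_pr σ) tau_ne (pr_ne σ)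
      ((π : Fin (2 * n) → Fin (2 * n))^[u] x) (s + v) ?_
    rw [← hπ, iterate_add_apply, hv, hu]

/-- Sums of `g (size/2)` over components as vertex sums. -/
lemma sum_cosetType (g : ℕ → ℝ) :
    ((cosetType σ).map g).sum = S (fun r => g r / (2 * r)) (tau n * pr σ) := by
  classical
  have h1 : ((cosetType σ).map g).sum =
      ∑ c : (cosetGraph σ).ConnectedComponent, g (Nat.card c.supp / 2) := by
    unfold cosetType
    rw [Multiset.map_map]
    rfl
  rw [h1]
  unfold S
  rw [← Finset.sum_fiberwise_of_maps_to (s := Finset.univ)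
    (t := (Finset.univ : Finset (cosetGraph σ).ConnectedComponent))
    (g := fun x => (cosetGraph σ).connectedComponentMk x) (fun _ _ => Finset.mem_univ _)]
  refine Finset.sum_congr rfl fun c _ => ?_
  induction c using SimpleGraph.ConnectedComponent.ind with
  | _ x =>
    have h2 : ∀ y ∈ Finset.univ.filter (fun y => (cosetGraph σ).connectedComponentMk y =
        (cosetGraph σ).connectedComponentMk x),
        g (per (tau n * pr σ) y) / (2 * (per (tau n * pr σ) y : ℕ)) =
        g (per (tau n * pr σ) x) / (2 * (per (tau n * pr σ) x : ℕ)) := by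
      intro y hy
      simp only [Finset.mem_filter, Finset.mem_univ, true_and] at hy
      have h3 := card_supp σ y
      have h4 := card_supp σ x
      rw [hy, h4] at h3
      have h6 : per (tau n * pr σ) y = per (tau n * pr σ) x := by omega
      rw [h6]
    rw [Finset.sum_congr rfl h2, Finset.sum_const, nsmul_eq_mul]
    have h7 : ((Finset.univ.filter (fun y => (cosetGraph σ).connectedComponentMk y =
        (cosetGraph σ).connectedComponentMk x)).card : ℕ) = 2 * per (tau n * pr σ) x := by
      rw [← card_supp σ x, Nat.card_coe_set_eq, Set.ncard_eq_toFinset_card']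
      congr 1
      ext y
      simp
    rw [h7, card_supp σ x, Nat.mul_div_cancel_left _ (by norm_num)]
    have h9 := per_pos (tau n * pr σ) x
    have h10 : ((per (tau n * pr σ) x : ℕ) : ℝ) ≠ 0 := by positivity
    push_cast
    field_simp

lemma one_le_of_mem_cosetType {r : ℕ} (hr : r ∈ cosetType σ) : 1 ≤ r := by
  classical
  unfold cosetType at hr
  obtain ⟨c, _, rfl⟩ := Multiset.mem_map.1 hr
  induction c using SimpleGraph.ConnectedComponent.ind with
  | _ x =>
    rw [card_supp σ x, Nat.mul_div_cancel_left _ (by norm_num)]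
    exact per_pos _ _

lemma sum_of_reduced (g : ℕ → ℝ) (M : Multiset ℕ) (hM : ∀ r ∈ M, 1 ≤ r) :
    (M.map g).sum = (((M.map (fun r => r - 1)).filter (fun r => r ≠ 0)).map
      (fun s => g (s + 1) - g 1)).sum + M.card * g 1 := by
  induction M using Multiset.induction_on with
  | empty => simp
  | cons a M ih =>
    have ih' := ih (fun r hr => hM r (Multiset.mem_cons_of_mem hr))
    have ha := hM a (Multiset.mem_cons_self a M)
    rw [Multiset.map_cons, Multiset.sum_cons, ih', Multiset.map_cons, Multiset.card_cons]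
    by_cases h : a - 1 = 0
    · rw [Multiset.filter_cons_of_neg (p := fun r => r ≠ 0) _ (not_not.2 h)]
      have : a = 1 := by omega
      rw [this]
      push_cast
      ring
    · rw [Multiset.filter_cons_of_pos (p := fun r => r ≠ 0) _ h, Multiset.map_cons,
        Multiset.sum_cons,
        show a - 1 + 1 = a by omega]
      push_cast
      ring

lemma sum_oneRow (g : ℕ → ℝ) (k : ℕ) :
    ((oneRow k).map (fun s => g (s + 1) - g 1)).sum = g (k + 1) - g 1 := by
  unfold oneRow
  by_cases h : k = 0
  · subst h
    rw [Multiset.filter_singleton, if_neg (by simp)]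
    simp
  · rw [Multiset.filter_singleton, if_pos h]
    simp

/-- Sums over the components for a permutation of reduced coset-type `(k)`. -/
lemma S_of_oneRow {k : ℕ} (hσ : reducedCosetType σ = oneRow k) (g : ℕ → ℝ) :
    S (fun r => g r / (2 * r)) (tau n * pr σ) = g (k + 1) + (n - k - 1) * g 1 := by
  have key : ∀ g : ℕ → ℝ, S (fun r => g r / (2 * r)) (tau n * pr σ) =
      g (k + 1) - g 1 + (cosetType σ).card * g 1 := by
    intro g
    rw [← sum_cosetType, sum_of_reduced g (cosetType σ) (fun r hr => one_le_of_mem_cosetType σ hr)]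
    have : ((cosetType σ).map (fun r => r - 1)).filter (fun r => r ≠ 0) = oneRow k := hσ
    rw [this, sum_oneRow]
  have hcard : ((cosetType σ).card : ℝ) = n - k := by
    have h1 := key (fun r => r)
    have h2 : S (fun r => (r : ℝ) / (2 * r)) (tau n * pr σ) = n := by
      unfold S
      have : ∀ x : Fin (2 * n), ((per (tau n * pr σ) x : ℕ) : ℝ) /
          (2 * (per (tau n * pr σ) x : ℕ)) = 1 / 2 := by
        intro x
        have h9 := per_pos (tau n * pr σ) x
        have h10 : ((per (tau n * pr σ) x : ℕ) : ℝ) ≠ 0 := by positivity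
        field_simp
      rw [Finset.sum_congr rfl (fun x _ => this x)]
      simp
      ring
    rw [h2] at h1
    push_cast at h1
    linarith
  rw [key g, hcard]
  ring

/-- The coefficient of every `σ` of reduced coset-type `(k)`. -/
theorem coeff_oneRow {k : ℕ} (hσ : reducedCosetType σ = oneRow k) :
    (weingartenElement n (k + 1)).coeff σ = 4 ^ k - ((2 * k + 1).choose k : ℂ) := by
  rw [weingartenElement_coeff]
  have hclaim := claim_all (isRec_coef n) (k + 1) n le_rfl σ
  have hgood : Good n σ := fun x hx => absurd x.2 (by omega)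
  have hell : ell σ = n - k := by
    have := S_of_oneRow σ hσ (fun _ => 1)
    unfold ell
    rw [this]
    ring
  have hLL : LL σ = Real.log (al (k + 1)) := by
    have := S_of_oneRow σ hσ (fun r => Real.log (al r))
    unfold LL
    rw [this, al_one, Real.log_one]
    ring
  have hBB : BB σ = be (k + 1) / al (k + 1) := by
    have := S_of_oneRow σ hσ (fun r => be r / al r)
    unfold BB
    rw [this, al_one, be_one]
    ring
  rw [hclaim.2.2.2 hgood (by rw [hell]; push_cast; ring), hLL, hBB, Real.exp_log (al_pos _),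
    mul_div_cancel₀ _ (al_pos _).ne']
  unfold be
  rw [Nat.add_sub_cancel]
  push_cast
  rfl

end Graph

/-! ### Existence of permutations of reduced coset-type `(k)` -/

section Exists

open Function Helper71.Wg

/-- A permutation of reduced coset-type `(k)`: the cycle `(1 3 5 ⋯ 2k+1)`. -/
def examplePerm (n k : ℕ) (hk : k < n) : Perm (Fin (2 * n)) where
  toFun x := ⟨if x.val % 2 = 1 ∧ x.val < 2 * k + 1 then x.val + 2 else
    if x.val = 2 * k + 1 then 1 else x.val, by have := x.2; split_ifs <;> omega⟩
  invFun x := ⟨if x.val % 2 = 1 ∧ 1 < x.val ∧ x.val ≤ 2 * k + 1 then x.val - 2 else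
    if x.val = 1 then 2 * k + 1 else x.val, by have := x.2; split_ifs <;> omega⟩
  left_inv x := by
    ext
    simp only
    split_ifs <;> omega
  right_inv x := by
    ext
    simp only
    split_ifs <;> omega

lemma examplePerm_val (n k : ℕ) (hk : k < n) (x : Fin (2 * n)) :
    (examplePerm n k hk x).val = if x.val % 2 = 1 ∧ x.val < 2 * k + 1 then x.val + 2 else
      if x.val = 2 * k + 1 then 1 else x.val := rfl

lemma examplePerm_inv_val (n k : ℕ) (hk : k < n) (x : Fin (2 * n)) :
    ((examplePerm n k hk)⁻¹ x).val = if x.val % 2 = 1 ∧ 1 < x.val ∧ x.val ≤ 2 * k + 1 then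
      x.val - 2 else if x.val = 1 then 2 * k + 1 else x.val := rfl

lemma pr_example_val (n k : ℕ) (hk : k < n) (x : Fin (2 * n)) :
    (pr (examplePerm n k hk) x).val =
      if 2 * k + 2 ≤ x.val then (tau n x).val
      else if x.val % 2 = 0 then (if x.val = 2 * k then 1 else x.val + 3)
      else (if x.val = 1 then 2 * k else x.val - 3) := by
  rw [pr_apply, examplePerm_val, tau_val, examplePerm_inv_val, tau_val]
  split_ifs <;> omega

lemma per_example (n k : ℕ) (hk : k < n) (x : Fin (2 * n)) :
    per (tau n * pr (examplePerm n k hk)) x = if x.val < 2 * k + 2 then k + 1 else 1 := by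
  set σ := examplePerm n k hk with hσ
  set π := tau n * pr σ with hπ
  have hπx : ∀ z, (π z).val = (tau n (pr σ z)).val := fun z => rfl
  have hπ1 : ∀ z : Fin (2 * n), z.val % 2 = 0 → z.val < 2 * k → (π z).val = z.val + 2 := by
    intro z h1 h2
    have hv := pr_example_val n k hk z
    rw [if_neg (by omega), if_pos h1, if_neg (by omega)] at hv
    rw [hπx, tau_val, hv]
    split_ifs <;> omega
  have hπ2 : ∀ z : Fin (2 * n), z.val = 2 * k → (π z).val = 0 := by
    intro z h1
    have hv := pr_example_val n k hk z
    rw [if_neg (by omega), if_pos (by omega), if_pos h1] at hv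
    rw [hπx, tau_val, hv]
    simp
  let o : Fin (2 * n) := ⟨0, by omega⟩
  have hiter : ∀ s, s ≤ k → ((π : Fin (2 * n) → Fin (2 * n))^[s] o).val = 2 * s := by
    intro s hs
    induction s with
    | zero => rfl
    | succ s ih =>
      rw [iterate_succ_apply', hπ1 _ (by rw [ih (by omega)]; omega) (by rw [ih (by omega)]; omega),
        ih (by omega)]
      ring
  have ho : per π o = k + 1 := by
    refine per_eq π o (by omega) ?_ ?_
    · apply Fin.ext
      rw [iterate_succ_apply', hπ2 _ (hiter k le_rfl)]
    · intro s hs0 hs h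
      have := hiter s (by omega)
      rw [h] at this
      simp only [o] at this
      omega
  have heven : ∀ z : Fin (2 * n), z.val < 2 * k + 2 → z.val % 2 = 0 → per π z = k + 1 := by
    intro z h1 h2
    have : (π : Fin (2 * n) → Fin (2 * n))^[z.val / 2] o = z := by
      apply Fin.ext
      rw [hiter _ (by omega)]
      omega
    rw [← this, per_iter, ho]
  by_cases hx : x.val < 2 * k + 2
  · rw [if_pos hx]
    by_cases h2 : x.val % 2 = 0
    · exact heven x hx h2
    · rw [← per_p tau_tau (pr_pr σ) x]
      have hv := pr_example_val n k hk x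
      rw [if_neg (by omega), if_neg h2] at hv
      refine heven _ ?_ ?_
      · rw [hv]; split_ifs <;> omega
      · rw [hv]; split_ifs <;> omega
  · rw [if_neg hx, per_one_iff]
    apply Fin.ext
    rw [pr_example_val, if_pos (by omega)]

lemma sum_example (n k : ℕ) (hk : k < n) (g : ℕ → ℝ) :
    ((cosetType (examplePerm n k hk)).map g).sum = g (k + 1) + ((n - k - 1 : ℕ) : ℝ) * g 1 := by
  rw [sum_cosetType]
  unfold S
  simp only [per_example]
  rw [Finset.sum_congr rfl (g := fun x : Fin (2 * n) => if x.val < 2 * k + 2 then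
    g (k + 1) / (2 * ((k + 1 : ℕ) : ℝ)) else g 1 / (2 * ((1 : ℕ) : ℝ))) (fun x _ => by
      split_ifs <;> rfl)]
  rw [Finset.sum_ite, Finset.sum_const, Finset.sum_const, nsmul_eq_mul, nsmul_eq_mul]
  have h1 : (Finset.univ.filter (fun x : Fin (2 * n) => x.val < 2 * k + 2)).card = 2 * k + 2 := by
    rw [Fin.card_filter_val_lt]
    omega
  have h2 : (Finset.univ.filter (fun x : Fin (2 * n) => ¬ x.val < 2 * k + 2)).card =
      2 * (n - k - 1) := by
    have h3 := Finset.card_filter_add_card_filter_not (s := (Finset.univ : Finset (Fin (2 * n))))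
      (p := fun x : Fin (2 * n) => x.val < 2 * k + 2)
    rw [h1, Finset.card_univ, Fintype.card_fin] at h3
    omega
  rw [h1, h2]
  have h4 : ((k + 1 : ℕ) : ℝ) ≠ 0 := by positivity
  push_cast at h4 ⊢
  field_simp

theorem exists_oneRow (n k : ℕ) (hk : k < n) :
    reducedCosetType (examplePerm n k hk) = oneRow k := by
  have h : cosetType (examplePerm n k hk) = (k + 1) ::ₘ Multiset.replicate (n - k - 1) 1 := by
    ext a
    have h1 := sum_example n k hk (fun r => if r = a then 1 else 0)
    have h2 : ∀ M : Multiset ℕ, (M.map (fun r => if r = a then (1 : ℝ) else 0)).sum =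
        M.count a := by
      intro M
      induction M using Multiset.induction_on with
      | empty => simp
      | cons b M ih =>
        rw [Multiset.map_cons, Multiset.sum_cons, ih, Multiset.count_cons]
        by_cases hb : b = a
        · subst hb; simp; ring
        · simp [hb, Ne.symm hb]
    rw [h2] at h1
    have h3 : ((Multiset.count a ((k + 1) ::ₘ Multiset.replicate (n - k - 1) 1) : ℕ) : ℝ) =
        (if k + 1 = a then (1 : ℝ) else 0) + ((n - k - 1 : ℕ) : ℝ) * (if 1 = a then 1 else 0) := by
      rw [← h2]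
      rw [Multiset.map_cons, Multiset.sum_cons, Multiset.map_replicate, Multiset.sum_replicate,
        nsmul_eq_mul]
    rw [← h3] at h1
    exact_mod_cast h1
  have h5 : ∀ N : ℕ, (Multiset.replicate N 0).filter (fun r : ℕ => r ≠ 0) = 0 := by
    intro N
    rw [Multiset.filter_eq_nil]
    intro a ha
    rw [Multiset.eq_of_mem_replicate ha]
    simp
  unfold reducedCosetType oneRow
  rw [h, Multiset.map_cons, Multiset.map_replicate, Nat.add_sub_cancel, ← Multiset.singleton_add,
    Multiset.filter_add, h5, add_zero]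

end Exists

/-! ### The Jucys-Murphy elements commute, so that `h_k` does not depend on the order -/

theorem jucysMurphy_commute (n : ℕ) (a b : Fin (2 * n)) :
    Commute (jucysMurphy n a) (jucysMurphy n b) := by
  have key : ∀ a b : Fin (2 * n), a < b → Commute (jucysMurphy n a) (jucysMurphy n b) := by
    intro a b hab
    unfold jucysMurphy
    refine Commute.sum_left _ _ _ fun c hc => ?_
    simp only [Finset.mem_filter, Finset.mem_univ, true_and] at hc
    show _ * _ = _ * _
    rw [Finset.mul_sum, Finset.sum_mul]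
    refine Finset.sum_bij (fun i _ => swap c a i) ?_ ?_ ?_ ?_
    · intro i hi
      simp only [Finset.mem_filter, Finset.mem_univ, true_and] at hi ⊢
      rw [swap_apply_def]
      split_ifs
      · exact hab
      · exact hc.trans hab
      · exact hi
    · intro i _ i' _ h
      exact (swap c a).injective h
    · intro i hi
      simp only [Finset.mem_filter, Finset.mem_univ, true_and] at hi
      refine ⟨swap c a i, ?_, by simp⟩
      simp only [Finset.mem_filter, Finset.mem_univ, true_and]
      rw [swap_apply_def]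
      split_ifs
      · exact hab
      · exact hc.trans hab
      · exact hi
    · intro i _
      rw [MonoidAlgebra.single_mul_single, MonoidAlgebra.single_mul_single]
      congr 1
      have hb : swap c a b = b := swap_apply_of_ne_of_ne (hc.trans hab).ne' hab.ne'
      have h1 := Equiv.swap_apply_apply (swap c a) i b
      rw [hb] at h1
      rw [h1, mul_assoc, swap_inv, swap_mul_self, mul_one]
  rcases lt_trichotomy a b with h | h | h
  · exact key a b h
  · rw [h]
  · exact (key b a h).symm

/-- **Main theorem.** For all `k ≥ 0` and `n > k`, `G^{k+1}_{(k)}(n) = 4^k - binom(2k+1, k)`: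
the coefficient in `h_{k+1}(J_1, J_3, …, J_{2n-1}) · P_n` of every `σ ∈ S_{2n}` of reduced
coset-type `(k)` is `4^k - binom(2k+1,k)`, such `σ` exist, and in every expansion of this element
as a linear combination of the `ψ_μ(n)` the coefficient of `ψ_{(k)}(n)` is
`4^k - binom(2k+1,k)`. -/
theorem result (k n : ℕ) (hk : k < n) :
    (∃ σ : Perm (Fin (2 * n)), reducedCosetType σ = oneRow k) ∧
    (∀ σ : Perm (Fin (2 * n)), reducedCosetType σ = oneRow k →
      (weingartenElement n (k + 1)).coeff σ = 4 ^ k - ((2 * k + 1).choose k : ℂ)) ∧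
    (∀ (T : Finset (Multiset ℕ)) (G : Multiset ℕ → ℂ), oneRow k ∈ T →
      weingartenElement n (k + 1) = ∑ μ ∈ T, G μ • psi n μ →
      G (oneRow k) = 4 ^ k - ((2 * k + 1).choose k : ℂ)) := by
  classical
  refine ⟨⟨_, exists_oneRow n k hk⟩, fun σ hσ => coeff_oneRow σ hσ, ?_⟩
  intro T G hT h
  have hσ := exists_oneRow n k hk
  rw [← coeff_oneRow _ hσ, h, MonoidAlgebra.coeff_sum, Finsupp.finsetSum_apply]
  have hpsi : ∀ μ, (psi n μ).coeff (examplePerm n k hk) = if oneRow k = μ then 1 else 0 := by
    intro μ
    unfold psi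
    rw [MonoidAlgebra.coeff_sum, Finsupp.finsetSum_apply]
    simp only [MonoidAlgebra.coeff_single, Finsupp.single_apply]
    rw [Finset.sum_ite_eq', ← hσ]
    simp
  rw [Finset.sum_eq_single (oneRow k)]
  · rw [MonoidAlgebra.coeff_smul, Finsupp.smul_apply, hpsi, if_pos rfl]
    simp
  · intro μ _ hμ
    rw [MonoidAlgebra.coeff_smul, Finsupp.smul_apply, hpsi, if_neg hμ.symm, smul_zero]
  · intro h
    exact absurd hT h

end Pool.Agent.Helper71.WithdrawnOneRow
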